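import Mathlib

/-!
Orthonormal bases of Hermitian spaces over finite fields, and transport of partial spreads.
-/

open Module

namespace Pool.Agent.Work.MP_862369_co.Her

variable {F : Type} [Field F] [Fintype F] {q : ℕ}

theorem two_le (hq : Fintype.card F = q ^ 2) : 2 ≤ q := by
  have := Fintype.one_lt_card (α := F)
  rw [hq] at this
  by_contra h
  have : q = 0 ∨ q = 1 := by omega
  rcases this with rfl | rfl <;> simp at this

theorem card_root (n : ℕ) (hn : 0 < n) (a : F) [DecidableEq F] :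
    (Finset.univ.filter fun x : F => x ^ n = a).card ≤ n := by
  refine le_trans (Finset.card_le_card (t := (Polynomial.nthRoots n a).toFinset) fun x hx => ?_)
    ((Multiset.toFinset_card_le _).trans (Polynomial.card_nthRoots n a))
  simpa [Polynomial.mem_nthRoots hn] using hx

theorem exists_pow_ne (hq : Fintype.card F = q ^ 2) (a : F) : ∃ u : F, u ^ q ≠ a * u := by
  classical
  have h2 := two_le hq
  by_contra h
  push Not at h
  have h1 := card_root (q - 1) (by omega) a
  have h3 : Finset.univ.erase (0 : F) ⊆ Finset.univ.filter fun x : F => x ^ (q - 1) = a := by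
    intro x hx
    have hx0 := (Finset.mem_erase.mp hx).1
    simp only [Finset.mem_filter, Finset.mem_univ, true_and]
    apply mul_right_cancel₀ hx0
    rw [← h, ← pow_succ, Nat.sub_add_cancel (by omega)]
  have h4 := Finset.card_le_card h3
  rw [Finset.card_erase_of_mem (Finset.mem_univ _), Finset.card_univ, hq] at h4
  have : q * 2 ≤ q ^ 2 := by nlinarith
  omega

theorem exists_norm (hq : Fintype.card F = q ^ 2) {a : F} (ha : a ≠ 0) (h : a ^ q = a) :
    ∃ c : F, c ^ q * c * a = 1 := by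
  have h2 := two_le hq
  obtain ⟨g, hg⟩ := IsCyclic.exists_generator (α := Fˣ)
  have ho : orderOf g = (q - 1) * (q + 1) := by
    rw [orderOf_eq_card_of_forall_mem_zpowers hg, Nat.card_units, Nat.card_eq_fintype_card, hq]
    obtain ⟨r, rfl⟩ : ∃ r, q = r + 1 := ⟨q - 1, by omega⟩
    rw [Nat.add_sub_cancel]
    apply Nat.sub_eq_of_eq_add
    ring
  obtain ⟨i, hi⟩ := (Submonoid.mem_powers_iff _ _).mp
    ((mem_powers_iff_mem_zpowers).mpr (hg (Units.mk0 a ha)))
  have h1 : g ^ ((q - 1) * i) = 1 := by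
    rw [mul_comm, pow_mul, hi]
    ext
    simp only [Units.val_pow_eq_pow_val, Units.val_mk0, Units.val_one]
    apply mul_right_cancel₀ ha
    rw [← pow_succ, Nat.sub_add_cancel (by omega), h, one_mul]
  rw [← orderOf_dvd_iff_pow_eq_one, ho, Nat.mul_dvd_mul_iff_left (by omega)] at h1
  obtain ⟨j, rfl⟩ := h1
  refine ⟨((g ^ j)⁻¹ : Fˣ), ?_⟩
  have h3 := congrArg Units.val hi
  simp only [Units.val_pow_eq_pow_val, Units.val_mk0] at h3
  rw [← h3, ← pow_succ, mul_comm (q + 1), pow_mul, ← mul_pow]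
  simp

theorem exists_conj (hq : Fintype.card F = q ^ 2) :
    ∃ (p j : ℕ) (_ : Fact p.Prime) (_ : CharP F p), q = p ^ j := by
  obtain ⟨p, hc⟩ := CharP.exists F
  obtain ⟨n, hp, hn⟩ := FiniteField.card F p
  obtain ⟨j, -, hj⟩ := (Nat.dvd_prime_pow hp).mp
    (hn ▸ hq ▸ dvd_pow_self q two_ne_zero : q ∣ p ^ (n : ℕ))
  exact ⟨p, j, ⟨hp⟩, hc, hj⟩

theorem add_conj (hq : Fintype.card F = q ^ 2) (x y : F) : (x + y) ^ q = x ^ q + y ^ q := by
  obtain ⟨p, j, _, _, rfl⟩ := exists_conj hq
  exact add_pow_char_pow x y p j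

theorem conj_conj (hq : Fintype.card F = q ^ 2) (x : F) : (x ^ q) ^ q = x := by
  rw [← pow_mul, ← sq, ← hq, FiniteField.pow_card]

theorem orthonormal (hq : Fintype.card F = q ^ 2) (N : ℕ) :
    ∀ (V : Type) [AddCommGroup V] [Module F V] [FiniteDimensional F V] (_ : finrank F V = N)
      (h : V → V →ₗ[F] F) (_ : ∀ x y, h y x = h x y ^ q) (_ : ∀ x, h x = 0 → x = 0),
      ∃ e : Fin N → V, ∀ i j, h (e i) (e j) = if i = j then 1 else 0 := by
  have h2 := two_le hq
  induction N with
  | zero => exact fun V _ _ _ _ _ _ _ => ⟨Fin.elim0, fun i => i.elim0⟩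
  | succ N ih =>
    intro V _ _ _ hV h hs hn
    have ha : ∀ x y z, h (x + y) z = h x z + h y z := fun x y z => by
      rw [hs z, map_add, add_conj hq, ← hs, ← hs]
    have hm : ∀ (c : F) x z, h (c • x) z = c ^ q * h x z := fun c x z => by
      rw [hs z, map_smul, smul_eq_mul, mul_pow, ← hs]
    obtain ⟨w, hw⟩ : ∃ w, h w w ≠ 0 := by
      by_contra h0
      push Not at h0
      have : Nontrivial V := Module.nontrivial_of_finrank_pos (R := F) (by omega)
      obtain ⟨x, hx⟩ := exists_ne (0 : V)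
      obtain ⟨y, hy⟩ : ∃ y, h x y ≠ 0 := by
        by_contra h1
        push Not at h1
        exact hx (hn x (LinearMap.ext h1))
      obtain ⟨u, hu⟩ := exists_pow_ne hq (-1)
      have h3 := h0 (x + (u / h x y) • y)
      rw [ha, map_add, map_add, h0, h0, hs x, map_smul, smul_eq_mul, div_mul_cancel₀ _ hy] at h3
      exact hu (by linear_combination h3)
    obtain ⟨c, hc⟩ := exists_norm hq hw (hs w w).symm
    obtain ⟨v, hv⟩ : ∃ v, h v v = 1 :=
      ⟨c • w, by rw [hm, map_smul, smul_eq_mul, ← mul_assoc, hc]⟩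
    have hW : finrank F (LinearMap.ker (h v)) = N := by
      have := (h v).finrank_range_add_finrank_ker
      rw [LinearMap.range_eq_top.mpr fun a => ⟨a • v, by simp [hv]⟩, finrank_top,
        finrank_self, hV] at this
      omega
    obtain ⟨e, he⟩ := ih (LinearMap.ker (h v)) hW
      (fun x => h x ∘ₗ (LinearMap.ker (h v)).subtype) (fun x y => hs x y) fun x hx => by
        apply Subtype.ext
        apply hn
        ext y
        have h1 := LinearMap.congr_fun hx ⟨y - h v y • v, by simp [hv]⟩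
        have h3 : h x v = 0 := by rw [hs, x.2, zero_pow (by omega)]
        simpa [h3] using h1
    refine ⟨Fin.cons v fun i => e i, fun i j => ?_⟩
    have h4 : ∀ i, h v (e i) = 0 := fun i => (e i).2
    refine Fin.cases ?_ (fun i => ?_) i <;> refine Fin.cases ?_ (fun j => ?_) j
    · simp [hv]
    · simp [h4, (Fin.succ_ne_zero j).symm]
    · simp [hs v, h4, zero_pow (by omega : q ≠ 0)]
    · simpa using he i j

theorem std_map (hq : Fintype.card F = q ^ 2) {N : ℕ} {V : Type} [AddCommGroup V] [Module F V]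
    [FiniteDimensional F V] (hV : finrank F V = N) (h : V → V →ₗ[F] F)
    (hs : ∀ x y, h y x = h x y ^ q) (hn : ∀ x, h x = 0 → x = 0) :
    ∃ φ : (Fin N → F) ≃ₗ[F] V, ∀ x y, h (φ x) (φ y) = ∑ i, x i ^ q * y i := by
  have h2 := two_le hq
  obtain ⟨e, he⟩ := orthonormal hq N V hV h hs hn
  let φ := Fintype.linearCombination F e
  have h1 : ∀ i y, h (e i) (φ y) = y i := by
    intro i y
    simp [φ, Fintype.linearCombination_apply, he]
  have hinj : Function.Injective φ := by
    intro x y hxy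
    ext i
    rw [← h1 i x, hxy, h1]
  refine ⟨LinearEquiv.ofBijective φ ⟨hinj, (LinearMap.injective_iff_surjective_of_finrank_eq_finrank
    (by simp [hV])).mp hinj⟩, fun x y => ?_⟩
  change h (φ x) (φ y) = _
  conv_lhs => rw [show φ y = ∑ i, y i • e i from Fintype.linearCombination_apply _ _ _]
  rw [map_sum]
  refine Finset.sum_congr rfl fun i _ => ?_
  rw [map_smul, hs, h1, smul_eq_mul, mul_comm]

/-- Families of pairwise disjoint isotropic subspaces move between Hermitian spaces. -/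
theorem transport (hq : Fintype.card F = q ^ 2) {V W U ι : Type} [AddCommGroup V] [Module F V]
    [AddCommGroup W] [Module F W] [AddCommGroup U] [Module F U] [FiniteDimensional F V]
    [FiniteDimensional F W] (hVW : finrank F W = finrank F V) (hU : 0 < finrank F U)
    (h : V → V →ₗ[F] F) (hs : ∀ x y, h y x = h x y ^ q) (hn : ∀ x, h x = 0 → x = 0)
    (g : W → W →ₗ[F] F) (gs : ∀ x y, g y x = g x y ^ q) (gn : ∀ x, g x = 0 → x = 0)
    (J : Finset ι) (ψ : ι → U →ₗ[F] W) (h1 : ∀ i ∈ J, Function.Injective (ψ i))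
    (h2 : ∀ i ∈ J, ∀ x y, g (ψ i x) (ψ i y) = 0)
    (h3 : ∀ i ∈ J, ∀ j ∈ J, i ≠ j → ∀ x y, ψ i x = ψ j y → x = 0) :
    ∃ S : Finset (Submodule F V), S.card = J.card ∧
      (∀ L ∈ S, finrank F L = finrank F U ∧ ∀ x ∈ L, ∀ y ∈ L, h x y = 0) ∧
      ∀ L ∈ S, ∀ L' ∈ S, L ≠ L' → L ⊓ L' = ⊥ := by
  classical
  obtain ⟨φ, hφ⟩ := std_map hq rfl h hs hn
  obtain ⟨φ', hφ'⟩ := std_map hq hVW g gs gn
  let e := φ'.symm.trans φ
  have he : ∀ x y, h (e x) (e y) = g x y := fun x y => by
    change h (φ _) (φ _) = _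
    rw [hφ, ← hφ']
    simp
  let χ : ι → U →ₗ[F] V := fun i => e.toLinearMap ∘ₗ ψ i
  have hr : ∀ i ∈ J, finrank F (LinearMap.range (χ i)) = finrank F U := fun i hi =>
    LinearMap.finrank_range_of_inj (e.injective.comp (h1 i hi))
  have hd : ∀ i ∈ J, ∀ j ∈ J, i ≠ j → LinearMap.range (χ i) ⊓ LinearMap.range (χ j) = ⊥ := by
    intro i hi j hj hne
    rw [eq_bot_iff]
    rintro v ⟨⟨x, rfl⟩, ⟨y, hy⟩⟩
    simp [h3 i hi j hj hne x y (e.injective hy).symm]
  refine ⟨J.image fun i => LinearMap.range (χ i), ?_, ?_, ?_⟩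
  · rw [Finset.card_image_of_injOn]
    intro i hi j hj e
    by_contra hne
    have a := hd i hi j hj hne
    simp only at e
    rw [← e, inf_idem] at a
    have b := hr i hi
    rw [a, finrank_bot] at b
    omega
  · intro L hL
    obtain ⟨i, hi, rfl⟩ := Finset.mem_image.mp hL
    refine ⟨hr i hi, ?_⟩
    rintro _ ⟨x, rfl⟩ _ ⟨y, rfl⟩
    exact (he _ _).trans (h2 i hi x y)
  · intro L hL L' hL' hne
    obtain ⟨i, hi, rfl⟩ := Finset.mem_image.mp hL
    obtain ⟨j, hj, rfl⟩ := Finset.mem_image.mp hL'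
    exact hd i hi j hj fun e => hne (by rw [e])

end Pool.Agent.Work.MP_862369_co.Her
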