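import Pool.Agent.Work.MP_862369_co.Her0

/-!
Doubling half of the elements of a Desarguesian family of generators.
-/

open Module

namespace Pool.Agent.Work.MP_862369_co.Her

variable {F : Type} [Field F] [Fintype F] {q : ℕ}

theorem doubling (hq : Fintype.card F = q ^ 2) {V M U ι : Type} [AddCommGroup V] [Module F V]
    [AddCommGroup M] [Module F M] [AddCommGroup U] [Module F U] [FiniteDimensional F V]
    [FiniteDimensional F M] [FiniteDimensional F U] (hV : finrank F V = 2 * finrank F M)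
    (hU : 0 < finrank F U)
    (h : V → V →ₗ[F] F) (hs : ∀ x y, h y x = h x y ^ q) (hn : ∀ x, h x = 0 → x = 0)
    (z : M → M →ₗ[F] F) (zs : ∀ x y, z y x = z x y ^ q) (zn : ∀ x, z x = 0 → x = 0)
    [Fintype ι] (D : Finset ι) (s t : ι → U →ₗ[F] M) (s1 : ∀ i x, s i x = 0 → x = 0)
    (t1 : ∀ i x, t i x = 0 → x = 0) (s2 : ∀ i j, i ≠ j → ∀ x y, s i x = s j y → x = 0)
    (t2 : ∀ i j, i ≠ j → ∀ x y, t i x = t j y → x = 0) (st : ∀ i x y, z (s i x) (t i y) = 0)
    (hD : ∀ i ∈ D, ∀ j ∈ D, ∀ x y, s i x = t j y → x = 0) :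
    ∃ S : Finset (Submodule F V), S.card = Fintype.card ι + D.card ∧
      (∀ L ∈ S, finrank F L = 2 * finrank F U ∧ ∀ x ∈ L, ∀ y ∈ L, h x y = 0) ∧
      ∀ L ∈ S, ∀ L' ∈ S, L ≠ L' → L ⊓ L' = ⊥ := by
  classical
  have h2 := two_le hq
  obtain ⟨g, hg⟩ := exists_pow_ne hq (1 : F)
  obtain ⟨ε, e0, e1⟩ : ∃ ε : F, ε ≠ 0 ∧ ε ^ q + ε = 0 := by
    refine ⟨g - g ^ q, fun h => hg (by linear_combination -h), ?_⟩
    have := add_conj hq (g - g ^ q) (g ^ q)
    rw [sub_add_cancel, conj_conj hq] at this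
    linear_combination -this
  have za : ∀ x y w, z (x + y) w = z x w + z y w := fun x y w => by
    rw [zs w, map_add, add_conj hq, ← zs, ← zs]
  have zm : ∀ (c : F) x w, z (c • x) w = c ^ q * z x w := fun c x w => by
    rw [zs w, map_smul, smul_eq_mul, mul_pow, ← zs]
  have ts : ∀ i x y, z (t i y) (s i x) = 0 := fun i x y => by
    rw [zs, st, zero_pow (by omega)]
  let G : M × M → M × M →ₗ[F] F := fun v =>
    z v.1 ∘ₗ LinearMap.snd F M M + z v.2 ∘ₗ LinearMap.fst F M M
  have hG : ∀ v w, G v w = z v.1 w.2 + z v.2 w.1 := fun v w => rfl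
  let ψ : ι × Fin 3 → U × U →ₗ[F] M × M := fun c =>
    ((s c.1).coprod ((![0, 1, 0] c.2 : F) • t c.1)).prod
      (((![0, 0, ε] c.2 : F) • s c.1).coprod ((![1, ε, 1] c.2 : F) • t c.1))
  have ψ0 : ∀ i x, ψ (i, 0) x = (s i x.1, t i x.2) := fun i x => by simp [ψ]
  have ψ1 : ∀ i x, ψ (i, 1) x = (s i x.1 + t i x.2, ε • t i x.2) := fun i x => by simp [ψ]
  have ψ2 : ∀ i x, ψ (i, 2) x = (s i x.1, ε • s i x.1 + t i x.2) := fun i x => by simp [ψ]
  let J : Finset (ι × Fin 3) := Dᶜ ×ˢ {0} ∪ D ×ˢ {1, 2}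
  have hJ : ∀ i c, (i, c) ∈ J → (i ∉ D ∧ c = 0) ∨ (i ∈ D ∧ c = 1) ∨ (i ∈ D ∧ c = 2) := by
    intro i c hc
    simp only [J, Finset.mem_union, Finset.mem_product, Finset.mem_compl, Finset.mem_singleton,
      Finset.mem_insert] at hc
    tauto
  have hc : J.card = Fintype.card ι + D.card := by
    rw [Finset.card_union_of_disjoint, Finset.card_product, Finset.card_product, Finset.card_compl,
      Finset.card_pair (by decide), Finset.card_singleton]
    · have := D.card_le_univ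
      omega
    · simp [Finset.disjoint_left]
  have k01 : ∀ i j, i ≠ j → ∀ x y : U × U, ψ (i, 0) x = ψ (j, 1) y → x = 0 ∧ y = 0 := by
    intro i j hij x y e
    rw [ψ0, ψ1, Prod.mk.injEq, ← map_smul] at e
    have a := t2 i j hij _ _ e.2
    have b := smul_eq_zero.mp (t2 j i hij.symm _ _ e.2.symm)
    have b' : y.2 = 0 := by tauto
    rw [b', map_zero, add_zero] at e
    exact ⟨Prod.ext (s2 i j hij _ _ e.1) a, Prod.ext (s2 j i hij.symm _ _ e.1.symm) b'⟩
  have k02 : ∀ i j, i ≠ j → ∀ x y : U × U, ψ (i, 0) x = ψ (j, 2) y → x = 0 ∧ y = 0 := by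
    intro i j hij x y e
    rw [ψ0, ψ2, Prod.mk.injEq] at e
    have b := s2 j i hij.symm _ _ e.1.symm
    have a := s2 i j hij _ _ e.1
    rw [b, map_zero, smul_zero, zero_add] at e
    exact ⟨Prod.ext a (t2 i j hij _ _ e.2), Prod.ext b (t2 j i hij.symm _ _ e.2.symm)⟩
  have k12 : ∀ i ∈ D, ∀ j ∈ D, ∀ x y : U × U, ψ (i, 1) x = ψ (j, 2) y → x = 0 ∧ y = 0 := by
    intro i hi j hj x y e
    rw [ψ1, ψ2, Prod.mk.injEq] at e
    have a : s i ((-ε) • x.1) = t j y.2 := by
      rw [map_smul]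
      linear_combination (norm := module) e.2 - ε • e.1
    have b := smul_eq_zero.mp (hD i hi j hj _ _ a)
    have b' : x.1 = 0 := by simpa [e0] using b
    rw [b', smul_zero, map_zero] at a
    rw [b', map_zero, zero_add] at e
    have c := hD j hj i hi _ _ e.1.symm
    rw [c, map_zero] at e
    exact ⟨Prod.ext b' (t1 _ _ e.1), Prod.ext c (t1 _ _ a.symm)⟩
  obtain ⟨S, a, b, c⟩ := transport hq (by rw [finrank_prod, hV]; ring)
    (by rw [finrank_prod]; omega : 0 < finrank F (U × U)) h hs hn G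
    (fun x y => by rw [hG, hG, add_conj hq, ← zs, ← zs, add_comm])
    (fun x hx => Prod.ext (zn _ (LinearMap.ext fun y => by simpa [hG] using congr($hx (0, y))))
      (zn _ (LinearMap.ext fun y => by simpa [hG] using congr($hx (y, 0))))) J ψ
    (by
      rintro ⟨i, c⟩ hc
      rw [← LinearMap.ker_eq_bot, LinearMap.ker_eq_bot']
      intro x hx
      rcases hJ i c hc with ⟨-, rfl⟩ | ⟨-, rfl⟩ | ⟨-, rfl⟩
      · rw [ψ0, Prod.mk_eq_zero] at hx
        exact Prod.ext (s1 _ _ hx.1) (t1 _ _ hx.2)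
      · rw [ψ1, Prod.mk_eq_zero, smul_eq_zero] at hx
        have a : t i x.2 = 0 := by tauto
        rw [a, add_zero] at hx
        exact Prod.ext (s1 _ _ hx.1) (t1 _ _ a)
      · rw [ψ2, Prod.mk_eq_zero] at hx
        have a := hx.2
        rw [hx.1, smul_zero, zero_add] at a
        exact Prod.ext (s1 _ _ hx.1) (t1 _ _ a))
    (by
      rintro ⟨i, c⟩ hc x y
      rcases hJ i c hc with ⟨-, rfl⟩ | ⟨-, rfl⟩ | ⟨-, rfl⟩
      · simp [ψ0, hG, st, ts]
      · simp only [ψ1, hG, za, zm, map_add, map_smul, st, ts, smul_eq_mul]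
        linear_combination z (t i x.2) (t i y.2) * e1
      · simp only [ψ2, hG, za, zm, map_add, map_smul, st, ts, smul_eq_mul]
        linear_combination z (s i x.1) (s i y.1) * e1)
    (by
      rintro ⟨i, c⟩ hc ⟨j, d⟩ hd hne x y e
      rcases hJ i c hc with ⟨hi, rfl⟩ | ⟨hi, rfl⟩ | ⟨hi, rfl⟩ <;>
        rcases hJ j d hd with ⟨hj, rfl⟩ | ⟨hj, rfl⟩ | ⟨hj, rfl⟩
      · have hij : i ≠ j := fun e => hne (by rw [e])
        rw [ψ0, ψ0, Prod.mk.injEq] at e
        exact Prod.ext (s2 i j hij _ _ e.1) (t2 i j hij _ _ e.2)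
      · exact (k01 i j (fun e => hi (e ▸ hj)) x y e).1
      · exact (k02 i j (fun e => hi (e ▸ hj)) x y e).1
      · exact (k01 j i (fun e => hj (e ▸ hi)) y x e.symm).2
      · have hij : i ≠ j := fun e => hne (by rw [e])
        rw [ψ1, ψ1, Prod.mk.injEq, ← map_smul, ← map_smul] at e
        have a := smul_eq_zero.mp (t2 i j hij _ _ e.2)
        have b := smul_eq_zero.mp (t2 j i hij.symm _ _ e.2.symm)
        have a' : x.2 = 0 := by tauto
        have b' : y.2 = 0 := by tauto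
        rw [a', b', map_zero, map_zero, add_zero, add_zero] at e
        exact Prod.ext (s2 i j hij _ _ e.1) a'
      · exact (k12 i hi j hj x y e).1
      · exact (k02 j i (fun e => hj (e ▸ hi)) y x e.symm).2
      · exact (k12 j hj i hi y x e.symm).2
      · have hij : i ≠ j := fun e => hne (by rw [e])
        rw [ψ2, ψ2, Prod.mk.injEq] at e
        have a := s2 i j hij _ _ e.1
        have b := s2 j i hij.symm _ _ e.1.symm
        rw [a, b, map_zero, map_zero, smul_zero, zero_add, zero_add] at e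
        exact Prod.ext a (t2 i j hij _ _ e.2))
  refine ⟨S, a.trans hc, fun L hL => ?_, c⟩
  rw [(b L hL).1, finrank_prod, two_mul]
  exact ⟨rfl, (b L hL).2⟩

theorem half {E : Type} [Field E] [Fintype E] {Q N : ℕ} (hQ : 1 ≤ Q) (hN : 1 ≤ N)
    (hE : Fintype.card E = N * (Q ^ 2 - 1) + 1) (τ : E ≃+* E) (hτ : ∀ x, τ x = x ^ Q) :
    ∃ D : Finset E, N * (Q ^ 2 - Q) ≤ 2 * D.card ∧
      ∀ a ∈ D, ∀ b ∈ D, ∀ x, a * x = -τ b * τ (τ x) → x = 0 := by
  classical
  have h1 : ∀ x : E, τ (τ x) ^ N = x ^ N := by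
    intro x
    rcases eq_or_ne x 0 with rfl | hx
    · simp
    · have := FiniteField.pow_card_sub_one_eq_one x hx
      rw [hE, Nat.add_sub_cancel] at this
      have e : Q * Q * N = N * (Q ^ 2 - 1) + N := by
        obtain ⟨r, hr⟩ : ∃ r, Q ^ 2 = r + 1 := ⟨Q ^ 2 - 1, by have := Nat.one_le_pow 2 Q hQ; omega⟩
        rw [← sq, hr, Nat.add_sub_cancel]
        ring
      rw [hτ, hτ, ← pow_mul, ← pow_mul, ← mul_assoc, e, pow_add, this, one_mul]
  have key : ∀ a b x : E, x ≠ 0 → a * x = -τ b * τ (τ x) →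
      a ^ N = (-τ b) ^ N ∧ (-τ a) ^ N = b ^ N := by
    intro a b x hx e
    have e1 : a ^ N = (-τ b) ^ N := by
      apply mul_right_cancel₀ (pow_ne_zero N hx)
      rw [← mul_pow, e, mul_pow, h1]
    refine ⟨e1, ?_⟩
    rw [neg_pow, ← map_pow, e1, map_pow, map_neg, ← mul_pow, neg_one_mul, neg_neg, h1]
  let o := Fintype.equivFin E
  let D1 := Finset.univ.filter fun a : E => o (a ^ N) < o ((-τ a) ^ N)
  let D2 := Finset.univ.filter fun a : E => o ((-τ a) ^ N) < o (a ^ N)
  let B := Finset.univ.filter fun a : E => a ^ (N * (Q - 1)) = (-1) ^ N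
  have hB : B.card ≤ N * (Q - 1) ∨ Q = 1 := by
    rcases Nat.eq_or_lt_of_le hQ with h | h
    · exact Or.inr h.symm
    · exact Or.inl (card_root _ (Nat.mul_pos hN (by omega)) _)
  have hU : (Finset.univ : Finset E) ⊆ insert 0 (B ∪ (D1 ∪ D2)) := by
    intro a _
    simp only [B, D1, D2, Finset.mem_insert, Finset.mem_union, Finset.mem_filter, Finset.mem_univ,
      true_and]
    rcases eq_or_ne a 0 with h | h
    · exact Or.inl h
    rcases lt_trichotomy (o (a ^ N)) (o ((-τ a) ^ N)) with h2 | h2 | h2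
    · tauto
    · refine Or.inr (Or.inl ?_)
      have h3 := o.injective h2
      rw [neg_pow, hτ, ← pow_mul] at h3
      have e : Q * N = N * (Q - 1) + N := by
        obtain ⟨r, rfl⟩ : ∃ r, Q = r + 1 := ⟨Q - 1, by omega⟩
        rw [Nat.add_sub_cancel]
        ring
      have h4 : ((-1 : E) ^ N) * (-1) ^ N = 1 := by rw [← mul_pow]; simp
      rw [e, pow_add] at h3
      apply mul_right_cancel₀ (pow_ne_zero N h)
      linear_combination (-(-1) ^ N) * h3 - a ^ (N * (Q - 1)) * a ^ N * h4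
    · tauto
  have hc := Finset.card_le_card hU
  have hc2 := Finset.card_insert_le 0 (B ∪ (D1 ∪ D2))
  have hc3 := Finset.card_union_le B (D1 ∪ D2)
  have hc4 := Finset.card_union_le D1 D2
  rw [Finset.card_univ, hE] at hc
  have hsum : N * (Q ^ 2 - Q) ≤ D1.card + D2.card := by
    rcases hB with hB | rfl
    · have e : N * (Q ^ 2 - 1) = N * (Q ^ 2 - Q) + N * (Q - 1) := by
        have : Q ≤ Q ^ 2 := Nat.le_self_pow two_ne_zero Q
        rw [← mul_add]
        congr 1
        omega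
      omega
    · simp
  rcases le_total D1.card D2.card with h | h
  · refine ⟨D2, by omega, fun a ha b hb x e => by_contra fun hx => ?_⟩
    obtain ⟨e1, e2⟩ := key a b x hx e
    have a1 := (Finset.mem_filter.mp ha).2
    have b1 := (Finset.mem_filter.mp hb).2
    rw [e1, e2] at a1
    exact lt_asymm a1 b1
  · refine ⟨D1, by omega, fun a ha b hb x e => by_contra fun hx => ?_⟩
    obtain ⟨e1, e2⟩ := key a b x hx e
    have a1 := (Finset.mem_filter.mp ha).2
    have b1 := (Finset.mem_filter.mp hb).2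
    rw [e1, e2] at a1
    exact lt_asymm a1 b1

theorem herm_lower (hq : Fintype.card F = q ^ 2) {k m : ℕ} (hk : 1 ≤ k) (hm : Odd m) (hmk : m ∣ k)
    {V : Type} [AddCommGroup V] [Module F V] (hV : finrank F V = 4 * k)
    (h : V → V →ₗ[F] F) (hs : ∀ x y, h y x = h x y ^ q) (hn : ∀ x, h x = 0 → x = 0) :
    ∃ S : Finset (Submodule F V),
      (∀ L ∈ S, finrank F L = 2 * k ∧ ∀ x ∈ L, ∀ y ∈ L, h x y = 0) ∧
      (∀ L ∈ S, ∀ L' ∈ S, L ≠ L' → L ⊓ L' = ⊥) ∧
      (q : ℝ) ^ (2 * k) + 1 + (q : ℝ) ^ m * ((q : ℝ) ^ (2 * k) - 1) / (2 * ((q : ℝ) ^ m + 1)) ≤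
        S.card := by
  classical
  have h2 := two_le hq
  have : FiniteDimensional F V := Module.finite_of_finrank_pos (by omega)
  obtain ⟨p, j, _, _, hj⟩ := exists_conj hq
  have : NeZero k := ⟨by omega⟩
  let E := FiniteField.Extension F p k
  have := Fintype.ofFinite E
  have : CharP E p := charP_of_injective_algebraMap (algebraMap F E).injective p
  have hE : Fintype.card E = q ^ (2 * k) := by
    rw [Fintype.card_eq_nat_card, FiniteField.natCard_extension, Nat.card_eq_fintype_card, hq,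
      pow_mul]
  have hr : finrank F E = k := FiniteField.finrank_extension F p k
  let σ : F ≃+* F := iterateFrobeniusEquiv F p j
  let τ : E ≃+* E := iterateFrobeniusEquiv E p (j * m)
  have hσ : ∀ x, σ x = x ^ q := fun x => by rw [hj]; rfl
  have hτ : ∀ x, τ x = x ^ q ^ m := fun x => by rw [hj, ← pow_mul]; rfl
  have hc : ∀ c : F, τ (algebraMap F E c) = algebraMap F E (c ^ q) := by
    intro c
    obtain ⟨i, rfl⟩ := hm
    rw [hτ, ← map_pow, pow_succ, pow_mul q, pow_mul c, ← hq, FiniteField.pow_card_pow]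
  let T := Algebra.trace F E
  have T1 : ∀ x, T (τ x) = T x ^ q := fun x => by
    have := Algebra.trace_eq_of_equiv_equiv σ τ (RingHom.ext fun c => by simp [hc, hσ]) x
    rw [← hσ, this, RingEquiv.apply_symm_apply]
  have T2 : ∀ x, T (τ.symm x) = T x ^ q := fun x => by
    rw [← conj_conj hq (T (τ.symm x)), ← T1 (τ.symm x), RingEquiv.apply_symm_apply]
  have T3 : ∀ x, (∀ y, T (x * y) = 0) → x = 0 := fun x hx =>
    (traceForm_nondegenerate F E).1 x hx
  let z : E × E → E × E →ₗ[F] F := fun v =>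
    T ∘ₗ LinearMap.mulLeft F (τ v.1) ∘ₗ LinearMap.snd F E E +
      T ∘ₗ LinearMap.mulLeft F (τ.symm v.2) ∘ₗ LinearMap.fst F E E
  have hz : ∀ v w, z v w = T (τ v.1 * w.2) + T (τ.symm v.2 * w.1) := fun v w => rfl
  let ρ : E →ₗ[F] E :=
    { toFun := fun x => τ (τ x)
      map_add' := fun x y => by simp
      map_smul' := fun c x => by
        simp only [Algebra.smul_def, map_mul, hc, conj_conj hq, RingHom.id_apply] }
  let s : Option E → E →ₗ[F] E × E := fun o => match o with
    | none => LinearMap.inr F E E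
    | some a => LinearMap.id.prod (LinearMap.mulLeft F a)
  let t : Option E → E →ₗ[F] E × E := fun o => match o with
    | none => LinearMap.inr F E E
    | some a => LinearMap.id.prod (LinearMap.mulLeft F (-τ a) ∘ₗ ρ)
  have s0 : ∀ x, s none x = (0, x) := fun x => rfl
  have t0 : ∀ x, t none x = (0, x) := fun x => rfl
  have s1 : ∀ a x, s (some a) x = (x, a * x) := fun a x => rfl
  have t1 : ∀ a x, t (some a) x = (x, -τ a * τ (τ x)) := fun a x => rfl
  have hQ : 2 ≤ q ^ m := le_trans h2 (Nat.le_self_pow hm.pos.ne' q)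
  obtain ⟨N, hN⟩ : (q ^ m) ^ 2 - 1 ∣ q ^ (2 * k) - 1 := by
    obtain ⟨i, rfl⟩ := hmk
    have := Nat.sub_dvd_pow_sub_pow ((q ^ m) ^ 2) 1 i
    rwa [one_pow, (by ring : ((q ^ m) ^ 2) ^ i = q ^ (2 * (m * i)))] at this
  have hq1 : 1 < q ^ (2 * k) := Nat.one_lt_pow (by omega) h2
  have hN1 : 1 ≤ N := by
    rcases Nat.eq_zero_or_pos N with rfl | h
    · omega
    · exact h
  obtain ⟨D, hD1, hD2⟩ := half (by omega) hN1 (by rw [hE, mul_comm N, ← hN]; omega) τ hτ
  obtain ⟨S, a, b, c⟩ := doubling hq (M := E × E) (U := E) (by rw [finrank_prod, hr, hV]; ring)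
    (by omega) h hs hn z
    (fun x y => by
      rw [hz, hz, add_conj hq, ← T2, ← T1, map_mul τ, map_mul τ.symm, RingEquiv.symm_apply_apply,
        RingEquiv.apply_symm_apply, add_comm, mul_comm x.1, mul_comm x.2])
    (fun x hx => Prod.ext
      (by simpa using T3 (τ x.1) fun y => by simpa [hz] using congr($hx (0, y)))
      (by simpa using T3 (τ.symm x.2) fun y => by simpa [hz] using congr($hx (y, 0))))
    (D.map Function.Embedding.some) s t
    (by rintro (_ | a) x hx
        · exact congrArg Prod.snd hx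
        · exact congrArg Prod.fst hx)
    (by rintro (_ | a) x hx
        · exact congrArg Prod.snd hx
        · exact congrArg Prod.fst hx)
    (by rintro (_ | a) (_ | b) hne x y e
        · exact absurd rfl hne
        · rw [s0, s1, Prod.mk.injEq] at e
          rw [e.2, ← e.1, mul_zero]
        · exact congrArg Prod.fst e
        · rw [s1, s1, Prod.mk.injEq] at e
          obtain ⟨rfl, e⟩ := e
          exact (mul_eq_mul_right_iff.mp e).resolve_left fun h => hne (by rw [h]))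
    (by rintro (_ | a) (_ | b) hne x y e
        · exact absurd rfl hne
        · rw [t0, t1, Prod.mk.injEq] at e
          rw [e.2, ← e.1]
          simp
        · exact congrArg Prod.fst e
        · rw [t1, t1, Prod.mk.injEq] at e
          obtain ⟨rfl, e⟩ := e
          simpa using (mul_eq_mul_right_iff.mp e).resolve_left fun h =>
            hne (by rw [τ.injective (neg_injective h)]))
    (by rintro (_ | a) x y
        · simp [s0, t0, hz]
        · rw [s1, t1, hz, ← conj_conj hq (T (τ.symm _ * _)), ← T1, ← T1, ← map_add]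
          simp only [map_mul, RingEquiv.apply_symm_apply]
          rw [← map_zero T]
          congr 1
          ring)
    (by intro i hi j hj x y e
        obtain ⟨a, ha, rfl⟩ := Finset.mem_map.mp hi
        obtain ⟨b, hb, rfl⟩ := Finset.mem_map.mp hj
        have e' : (x, a * x) = (y, -τ b * τ (τ y)) := e
        rw [Prod.mk.injEq] at e'
        obtain ⟨rfl, e⟩ := e'
        exact hD2 a ha b hb x e)
  refine ⟨S, fun L hL => by rw [← hr]; exact b L hL, c, ?_⟩
  rw [a, Fintype.card_option, Finset.card_map, hE]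
  have hQ2 : q ^ m ≤ (q ^ m) ^ 2 := Nat.le_self_pow two_ne_zero _
  have r1 : (N : ℝ) * (((q : ℝ) ^ m) ^ 2 - (q : ℝ) ^ m) ≤ 2 * D.card := by
    have : ((N * ((q ^ m) ^ 2 - q ^ m) : ℕ) : ℝ) ≤ (2 * D.card : ℕ) := by exact_mod_cast hD1
    rw [Nat.cast_mul, Nat.cast_sub hQ2] at this
    exact_mod_cast this
  have r2 : (q : ℝ) ^ (2 * k) - 1 = (((q : ℝ) ^ m) ^ 2 - 1) * N := by
    have := congrArg (Nat.cast : ℕ → ℝ) hN
    rw [Nat.cast_mul, Nat.cast_sub (by omega), Nat.cast_sub (by omega)] at this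
    exact_mod_cast this
  push_cast
  rw [r2]
  have : (q : ℝ) ^ m * ((((q : ℝ) ^ m) ^ 2 - 1) * N) / (2 * ((q : ℝ) ^ m + 1)) ≤ D.card := by
    rw [div_le_iff₀ (by positivity)]
    nlinarith [mul_le_mul_of_nonneg_right r1 (by positivity : (0 : ℝ) ≤ (q : ℝ) ^ m + 1)]
  linarith

end Pool.Agent.Work.MP_862369_co.Her
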