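import Pool.Agent.Work.MP_862369_co.Her1

/-- The Hermitian polar space `U(4k-1,q²)` has, for every odd divisor `m` of `k`, a partial spread
(a set of pairwise disjoint totally isotropic subspaces of dimension `2k`) with at least
`q^(2k) + 1 + q^m (q^(2k) - 1) / (2 (q^m + 1))` elements. -/
theorem Pool.Agent.Work.MP_862369_co.hermitianLower
    (F : Type) [Field F] [Fintype F] (q : ℕ) (hq : Fintype.card F = q ^ 2)
    (k m : ℕ) (hk : 1 ≤ k) (hm : Odd m) (hmk : m ∣ k)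
    (V : Type) [AddCommGroup V] [Module F V] (hV : Module.finrank F V = 4 * k)
    (h : V → V →ₗ[F] F) (hs : ∀ x y, h y x = h x y ^ q) (hn : ∀ x, h x = 0 → x = 0) :
    ∃ S : Finset (Submodule F V),
      (∀ L ∈ S, Module.finrank F L = 2 * k ∧ ∀ x ∈ L, ∀ y ∈ L, h x y = 0) ∧
      (∀ L ∈ S, ∀ L' ∈ S, L ≠ L' → L ⊓ L' = ⊥) ∧
      (q : ℝ) ^ (2 * k) + 1 + (q : ℝ) ^ m * ((q : ℝ) ^ (2 * k) - 1) / (2 * ((q : ℝ) ^ m + 1)) ≤
        S.card :=
  Pool.Agent.Work.MP_862369_co.Her.herm_lower hq hk hm hmk hV h hs hn
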