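import Mathlib

-- merged part: Pool.Agent.Work.MP_862369_co.Low0
section
/-!
From sets of points of the Heisenberg group with nonzero symplectic products to
sets of pairwise disjoint lines on the parabolic quadric.
-/

open Module

namespace Pool.Agent.Work.MP_862369_co.Low

variable {F : Type} [Field F] {V : Type} [AddCommGroup V] [Module F V]

theorem binary_univ [Fintype F] (hodd : Odd (Fintype.card F)) {a b : F} (ha : a ≠ 0) (hb : b ≠ 0)
    (d : F) : ∃ x y : F, a * x ^ 2 + b * y ^ 2 = d := by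
  open Polynomial in
  obtain ⟨x, y, h⟩ := FiniteField.exists_root_sum_quadratic (R := F)
    (f := C a * X ^ 2) (g := C b * X ^ 2 - C d) (by compute_degree!) (by compute_degree!)
    (Nat.odd_iff.mp hodd)
  refine ⟨x, y, ?_⟩
  simp at h
  linear_combination h

theorem two_ne [Fintype F] (hodd : Odd (Fintype.card F)) : (2 : F) ≠ 0 := by
  refine Ring.two_ne_zero fun h => ?_
  have := FiniteField.even_card_iff_char_two.mp h
  have := Nat.odd_iff.mp hodd
  omega

theorem std [Fintype F] (hodd : Odd (Fintype.card F)) (hV : finrank F V = 5)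
    (Q : QuadraticForm F V) (hQ : Q.Nondegenerate) :
    ∃ (c : F) (φ : (Fin 5 → F) →ₗ[F] V), c ≠ 0 ∧
      ∀ x, Q (φ x) = x 0 * x 2 + x 1 * x 3 + c * x 4 ^ 2 := by
  have h2 := two_ne hodd
  have : FiniteDimensional F V := Module.finite_of_finrank_pos (by omega)
  have := invertibleOfNonzero h2
  have hB := (QuadraticMap.nondegenerate_associated_iff.mpr hQ).1
  have := QuadraticForm.equivalent_weightedSumSquares_units_of_nondegenerate' Q hB
  rw [hV] at this
  obtain ⟨w, ⟨e⟩⟩ := this
  have w0 := (w 0).ne_zero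
  have w1 := (w 1).ne_zero
  have w2 := (w 2).ne_zero
  have w3 := (w 3).ne_zero
  have w4 := (w 4).ne_zero
  obtain ⟨x, y, hxy⟩ := binary_univ hodd w0 w1 (-(w 2 : F))
  have hw : -((w 0 : F) * w 1 * w 2) ≠ 0 := by simp
  obtain ⟨u, v, huv⟩ := binary_univ hodd hw w3 (-(w 4 : F))
  have h4 : (4 : F) ≠ 0 := by
    have : (4 : F) = 2 * 2 := by norm_num
    rw [this]; exact mul_ne_zero h2 h2
  obtain ⟨i2, hi2⟩ : ∃ i : F, 4 * (w 2 : F) * i = 1 := ⟨(4 * (w 2 : F))⁻¹, by field_simp⟩
  obtain ⟨i4, hi4⟩ : ∃ i : F, 4 * (w 4 : F) * i = 1 := ⟨(4 * (w 4 : F))⁻¹, by field_simp⟩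
  let M : Matrix (Fin 5) (Fin 5) F :=
    !![x, -(w 1 : F) * y * u, -i2 * x, i4 * (w 1 : F) * y * u, (w 1 : F) * y * (w 3 : F) * v;
      y, (w 0 : F) * x * u, -i2 * y, -i4 * (w 0 : F) * x * u, -(w 0 : F) * x * (w 3 : F) * v;
      1, 0, i2, 0, 0;
      0, v, 0, -i4 * v, -((w 0 : F) * w 1 * w 2) * u;
      0, 1, 0, i4, 0]
  refine ⟨(w 0 : F) * w 1 * w 2 * w 3 * w 4, e.symm.toLinearEquiv.toLinearMap ∘ₗ M.mulVecLin,
    by simp, fun z => ?_⟩
  have h1 : ∀ m, Q (e.symm m) = QuadraticMap.weightedSumSquares F w m := fun m => e.symm.map_app m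
  change Q (e.symm (M.mulVec z)) = _
  rw [h1, QuadraticMap.weightedSumSquares_apply]
  simp only [Fin.sum_univ_five, M, Matrix.mulVec, dotProduct, Matrix.of_apply, Matrix.cons_val',
    Matrix.cons_val, Matrix.cons_val_fin_one, Units.smul_def, smul_eq_mul, Matrix.cons_val_zero,
    Matrix.cons_val_one]
  linear_combination ((z 0 - i2 * z 2) ^ 2 + (w 0 : F) * w 1 *
    (u * (z 1 - i4 * z 3) - (w 3 : F) * v * z 4) ^ 2) * hxy + ((z 1 - i4 * z 3) ^ 2 -
      (w 0 : F) * w 1 * w 2 * w 3 * z 4 ^ 2) * huv + z 0 * z 2 * hi2 + z 1 * z 3 * hi4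

theorem std_inj {c : F} (h2 : (2 : F) ≠ 0) (hc : c ≠ 0) (Q : QuadraticForm F V)
    (φ : (Fin 5 → F) →ₗ[F] V) (h : ∀ x, Q (φ x) = x 0 * x 2 + x 1 * x 3 + c * x 4 ^ 2) :
    Function.Injective φ := by
  rw [← LinearMap.ker_eq_bot, LinearMap.ker_eq_bot']
  intro x hx
  have k : ∀ y, Q (φ (x + y)) = Q (φ y) := fun y => by rw [map_add, hx, zero_add]
  have k0 := k 0
  have k1 := k (Pi.single 0 1)
  have k2 := k (Pi.single 1 1)
  have k3 := k (Pi.single 2 1)
  have k4 := k (Pi.single 3 1)
  have k5 := k (Pi.single 4 1)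
  simp only [h] at k0 k1 k2 k3 k4 k5
  simp at k0 k1 k2 k3 k4 k5
  have e4 : x 4 = 0 := by
    apply mul_left_cancel₀ (mul_ne_zero h2 hc)
    linear_combination k5 - k0
  ext i
  fin_cases i
  · simp; linear_combination k3 - k0
  · simp; linear_combination k4 - k0
  · simp; linear_combination k1 - k0
  · simp; linear_combination k2 - k0
  · simpa using e4

/-- A set of triples with pairwise nonzero symplectic products gives pairwise disjoint lines. -/
theorem spread [Fintype F] (hodd : Odd (Fintype.card F)) (hV : finrank F V = 5)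
    (Q : QuadraticForm F V) (hQ : Q.Nondegenerate) {ι : Type} (I : Finset ι) (α t s : ι → F)
    (h : ∀ i ∈ I, ∀ j ∈ I, i ≠ j → α i - α j + t i * s j - s i * t j ≠ 0) :
    ∃ S : Finset (Submodule F V), S.card = I.card + 1 ∧
      (∀ L ∈ S, finrank F L = 2 ∧ ∀ v ∈ L, Q v = 0) ∧
      ∀ L ∈ S, ∀ L' ∈ S, L ≠ L' → L ⊓ L' = ⊥ := by
  classical
  obtain ⟨c, φ, hc, hφ⟩ := std hodd hV Q hQ
  have hinj := std_inj (two_ne hodd) hc Q φ hφ
  let m : Option ι → Matrix (Fin 5) (Fin 2) F := fun o => match o with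
    | none => !![0, 0; 0, 0; 1, 0; 0, 1; 0, 0]
    | some i => !![1, 0; 0, 1; -(c * t i ^ 2), c * (-α i - t i * s i);
        c * (α i - t i * s i), -(c * s i ^ 2); t i, s i]
  let ψ : Option ι → (Fin 2 → F) →ₗ[F] V := fun o => φ ∘ₗ (m o).mulVecLin
  have hm : ∀ o x, (m o).mulVec x = match o with
      | none => ![0, 0, x 0, x 1, 0]
      | some i => ![x 0, x 1, -(c * t i ^ 2) * x 0 + c * (-α i - t i * s i) * x 1,
        c * (α i - t i * s i) * x 0 + -(c * s i ^ 2) * x 1, t i * x 0 + s i * x 1] := by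
    intro o x
    cases o <;> ext k <;> fin_cases k <;> simp [m, Matrix.mulVec, dotProduct, Fin.sum_univ_two]
  have hψ : ∀ o x, ψ o x = φ ((m o).mulVec x) := fun o x => rfl
  have hψi : ∀ o, Function.Injective (ψ o) := by
    intro o
    rw [← LinearMap.ker_eq_bot, LinearMap.ker_eq_bot']
    intro x hx
    rw [hψ, ← map_zero φ] at hx
    have := hinj hx
    rw [hm] at this
    ext k
    cases o
    · have a := congrFun this 2
      have b := congrFun this 3
      fin_cases k
      · simpa using a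
      · simpa using b
    · have a := congrFun this 0
      have b := congrFun this 1
      fin_cases k
      · simpa using a
      · simpa using b
  have hr : ∀ o, finrank F (LinearMap.range (ψ o)) = 2 := fun o => by
    rw [LinearMap.finrank_range_of_inj (hψi o)]; simp
  have hd : ∀ o ∈ I.insertNone, ∀ o' ∈ I.insertNone, o ≠ o' →
      LinearMap.range (ψ o) ⊓ LinearMap.range (ψ o') = ⊥ := by
    intro o ho o' ho' hne
    rw [eq_bot_iff]
    rintro v ⟨⟨x, rfl⟩, ⟨y, hy⟩⟩
    have e := hinj ((hψ o' y).symm.trans (hy.trans (hψ o x)))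
    rw [hm, hm] at e
    have e0 := congrFun e 0
    have e1 := congrFun e 1
    have e2 := congrFun e 2
    have e3 := congrFun e 3
    have e4 := congrFun e 4
    have hx : x 0 = 0 ∧ x 1 = 0 := by
      cases o with
      | none =>
        cases o' with
        | none => exact absurd rfl hne
        | some j =>
          simp at e0 e1 e2 e3
          simp [e0, e1] at e2 e3
          exact ⟨e2.symm, e3.symm⟩
      | some i =>
        cases o' with
        | none =>
          simp at e0 e1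
          exact ⟨e0.symm, e1.symm⟩
        | some j =>
          have hij := h i (Finset.some_mem_insertNone.mp ho) j (Finset.some_mem_insertNone.mp ho')
            fun e => hne (by rw [e])
          simp at e0 e1 e2 e3 e4
          rw [e0, e1] at e2 e3 e4
          constructor
          · apply mul_left_cancel₀ (mul_ne_zero hc hij)
            linear_combination (-1) * e3 - c * (s i + s j) * e4
          · apply mul_left_cancel₀ (mul_ne_zero hc hij)
            linear_combination e2 + c * (t i + t j) * e4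
    have : x = 0 := by
      ext k
      fin_cases k
      · exact hx.1
      · exact hx.2
    simp [this]
  refine ⟨I.insertNone.image fun o => LinearMap.range (ψ o), ?_, ?_, ?_⟩
  · rw [Finset.card_image_of_injOn, Finset.card_insertNone]
    intro o ho o' ho' e
    by_contra hne
    have h1 := hd o ho o' ho' hne
    simp only at e
    rw [← e, inf_idem] at h1
    have h2 := hr o
    rw [h1] at h2
    simp at h2
  · intro L hL
    obtain ⟨o, -, rfl⟩ := Finset.mem_image.mp hL
    refine ⟨hr o, ?_⟩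
    rintro v ⟨x, rfl⟩
    rw [hψ, hφ, hm]
    cases o
    · simp
    · simp; ring
  · intro L hL L' hL' hne
    obtain ⟨o, ho, rfl⟩ := Finset.mem_image.mp hL
    obtain ⟨o', ho', rfl⟩ := Finset.mem_image.mp hL'
    exact hd o ho o' ho' fun e => hne (by rw [e])

end Pool.Agent.Work.MP_862369_co.Low
end

-- merged part: Pool.Agent.Work.MP_862369_co.Low1
section
/-!
Transfer of partial ovoids from a Heisenberg group over a monogenic algebra to an extension field.
-/

open Module

namespace Pool.Agent.Work.MP_862369_co.Low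

theorem pb_inj {K E : Type} [Field K] [Field E] [Algebra K E] (pb : PowerBasis K E)
    (ψ : E →ₗ[K] K) (hψ : ψ ≠ 0) (y : E) (h : ∀ n < pb.dim, ψ (pb.gen ^ n * y) = 0) : y = 0 := by
  by_contra hy
  apply hψ
  have : ψ ∘ₗ LinearMap.mulRight K y = 0 := by
    refine pb.basis.ext fun i => ?_
    simpa using h i i.2
  ext z
  have := LinearMap.congr_fun this (z * y⁻¹)
  simpa [hy] using this

theorem pb_surj {K E : Type} [Field K] [Field E] [Algebra K E] (pb : PowerBasis K E)
    (ψ : E →ₗ[K] K) (hψ : ψ ≠ 0) (y : ℕ → K) : ∃ b : E, ∀ n < pb.dim, ψ (pb.gen ^ n * b) = y n := by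
  have := pb.finite
  let Φ : E →ₗ[K] (Fin pb.dim → K) :=
    LinearMap.pi fun n => ψ ∘ₗ LinearMap.mulLeft K (pb.gen ^ (n : ℕ))
  have hinj : Function.Injective Φ := by
    rw [← LinearMap.ker_eq_bot, LinearMap.ker_eq_bot']
    intro b hb
    exact pb_inj pb ψ hψ b fun n hn => congrFun hb ⟨n, hn⟩
  obtain ⟨b, hb⟩ := (LinearMap.injective_iff_surjective_of_finrank_eq_finrank
    (by rw [pb.finrank]; simp)).mp hinj fun n => y n
  exact ⟨b, fun n hn => congrFun hb ⟨n, hn⟩⟩

theorem pb_span {K E : Type} [Field K] [Field E] [Algebra K E] (pb : PowerBasis K E) (y : E) :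
    ∃ h : ℕ → K, y = ∑ j ∈ Finset.range pb.dim, h j • pb.gen ^ j := by
  refine ⟨fun j => if hj : j < pb.dim then pb.basis.repr y ⟨j, hj⟩ else 0, ?_⟩
  rw [← Fin.sum_univ_eq_sum_range (fun j => (if hj : j < pb.dim then pb.basis.repr y ⟨j, hj⟩
    else 0) • pb.gen ^ j)]
  conv_lhs => rw [← pb.basis.sum_repr y]
  simp

theorem exists_fun (K E : Type) [Field K] [Field E] [Algebra K E] :
    ∃ ψ : E →ₗ[K] K, ψ ≠ 0 := by
  obtain ⟨ψ, h⟩ := Module.Projective.exists_dual_ne_zero K (V := E) (x := 1) one_ne_zero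
  exact ⟨ψ, fun e => h (by simp [e])⟩

theorem transfer {K F R ι : Type} [Field K] [Fintype K] [Field F] [Fintype F] [Algebra K F]
    [CommRing R] [Algebra K R] (h2 : (2 : F) ≠ 0) (θ : R) (φ : R →ₗ[K] K) (m : ℕ)
    (hφ : ∀ y, (∀ n < m, φ (θ ^ n * y) = 0) → y = 0) (d : Fin 3 → ℕ) (o1 o2 : ℕ)
    (h12 : o1 ≤ o2) (h2e : o2 ≤ finrank K F) (hd0 : 0 < d 0 → d 0 + m ≤ o1 + 1)
    (hd1 : 0 < d 1 → o1 + d 1 + m ≤ o2 + 1) (hd2 : 0 < d 2 → o2 + d 2 + m ≤ finrank K F + 1)
    (I : Finset ι) (a b : ι → Fin 3 → R) (c : ι → R)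
    (ha : ∀ i ∈ I, ∀ l, ∃ h : ℕ → K, a i l = ∑ j ∈ Finset.range (d l), h j • θ ^ j)
    (hω : ∀ i ∈ I, ∀ j ∈ I, i ≠ j → 2 * (c j - c i) - ∑ l, (a j l - a i l) * (b i l + b j l) ≠ 0)
    (N : ℕ) (hN : Fintype.card K ^ m * N ≤ I.card * Fintype.card F) :
    ∃ (J : Finset (ι × F)) (α t s : ι × F → F), N ≤ J.card ∧
      ∀ i ∈ J, ∀ j ∈ J, i ≠ j → α i - α j + t i * s j - s i * t j ≠ 0 := by
  classical
  let pb := Field.powerBasisOfFiniteOfSeparable K F
  obtain ⟨ψ, hψ⟩ := exists_fun K F
  rw [pb.finrank] at h2e hd2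
  let o : Fin 3 → ℕ := ![0, o1, o2]
  have hb : ∀ β : Fin 3 → R, ∃ B : F, ∀ l, ∀ j < d l, ∀ n < m,
      ψ (pb.gen ^ (o l + (n + j)) * B) = φ (θ ^ (n + j) * β l) := by
    intro β
    obtain ⟨B, hB⟩ := pb_surj pb ψ hψ fun n => if n < o1 then φ (θ ^ n * β 0) else
      if n < o2 then φ (θ ^ (n - o1) * β 1) else φ (θ ^ (n - o2) * β 2)
    refine ⟨B, fun l j hj n hn => ?_⟩
    fin_cases l
    · simp only [Fin.zero_eta, Fin.isValue] at hj
      have := hd0 (by omega)
      simp only [o, Fin.zero_eta, Matrix.cons_val_zero, zero_add]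
      rw [hB _ (by omega), if_pos (by omega)]
    · simp only [Fin.mk_one, Fin.isValue] at hj
      have := hd1 (by omega)
      simp only [o, Fin.mk_one, Matrix.cons_val_one, Matrix.cons_val_zero]
      rw [hB _ (by omega), if_neg (by omega), if_pos (by omega), Nat.add_sub_cancel_left]
    · simp only [Fin.reduceFinMk] at hj
      have := hd2 (by omega)
      simp only [o, Fin.reduceFinMk, Matrix.cons_val]
      rw [hB _ (by omega), if_neg (by omega), if_neg (by omega), Nat.add_sub_cancel_left]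
  choose B hB using hb
  choose! h hh using ha
  let A : ι → F := fun i => ∑ l, ∑ j ∈ Finset.range (d l), h i l j • pb.gen ^ (o l + j)
  have hAB : ∀ i ∈ I, ∀ β, ∀ n < m,
      ψ (pb.gen ^ n * (A i * B β)) = φ (θ ^ n * ∑ l, a i l * β l) := by
    intro i hi β n hn
    simp only [A, Finset.sum_mul, Finset.mul_sum, map_sum]
    refine Finset.sum_congr rfl fun l _ => ?_
    rw [hh i hi l]
    simp only [Finset.sum_mul, Finset.mul_sum, map_sum]
    refine Finset.sum_congr rfl fun j hj => ?_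
    have := hB β l j (Finset.mem_range.mp hj) n hn
    simp only [smul_mul_assoc, mul_smul_comm, map_smul]
    rw [← mul_assoc, ← pow_add, ← mul_assoc, ← pow_add, ← this]
    congr 4
    omega
  let κ : ι × F → Fin m → K := fun x n => ψ (pb.gen ^ (n : ℕ) * x.2) - φ (θ ^ (n : ℕ) * c x.1)
  obtain ⟨y, -, hy⟩ := Finset.exists_le_card_fiber_of_mul_le_card_of_maps_to
    (s := I ×ˢ (Finset.univ : Finset F)) (t := Finset.univ) (f := κ) (n := N)
    (fun _ _ => Finset.mem_univ _) Finset.univ_nonempty (by simpa using hN)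
  refine ⟨_, fun x => 2 * x.2 - A x.1 * B (b x.1), fun x => B (b x.1), fun x => A x.1, hy, ?_⟩
  rintro ⟨j, z'⟩ hj ⟨i, z⟩ hi hne h0
  simp only [Finset.mem_filter, Finset.mem_product] at hi hj
  dsimp only at h0
  by_cases hij : i = j
  · subst hij
    apply hne
    have : z' = z := mul_left_cancel₀ h2 (by linear_combination h0)
    rw [this]
  refine hω i hi.1.1 j hj.1.1 hij (hφ _ fun n hn => ?_)
  have e1 := congrFun (hi.2.trans hj.2.symm) ⟨n, hn⟩
  simp only [κ] at e1
  have e2 : ψ (pb.gen ^ n * z') + ψ (pb.gen ^ n * z') - ψ (pb.gen ^ n * z) - ψ (pb.gen ^ n * z) -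
      ψ (pb.gen ^ n * (A j * B (b j))) + ψ (pb.gen ^ n * (A i * B (b i))) +
      ψ (pb.gen ^ n * (A i * B (b j))) - ψ (pb.gen ^ n * (A j * B (b i))) = 0 := by
    simp only [← map_add, ← map_sub]
    rw [← map_zero ψ]
    congr 1
    linear_combination pb.gen ^ n * h0
  rw [hAB j hj.1.1 _ n hn, hAB i hi.1.1 _ n hn, hAB i hi.1.1 _ n hn, hAB j hj.1.1 _ n hn] at e2
  have e3 : θ ^ n * (2 * (c j - c i) - ∑ l, (a j l - a i l) * (b i l + b j l)) =
      θ ^ n * c j + θ ^ n * c j - θ ^ n * c i - θ ^ n * c i - θ ^ n * ∑ l, a j l * b j l +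
      θ ^ n * ∑ l, a i l * b i l + θ ^ n * ∑ l, a i l * b j l - θ ^ n * ∑ l, a j l * b i l := by
    simp only [Fin.sum_univ_three]
    ring
  rw [e3]
  simp only [map_add, map_sub]
  linear_combination e2 + 2 * e1

/-- An anisotropic ternary cubic form over a finite field together with its gradient. -/
theorem cubic (R : Type) [Field R] [Finite R] :
    ∃ (N : (Fin 3 → R) → R) (D : (Fin 3 → R) → Fin 3 → R), (∀ x, N x = 0 → x = 0) ∧
      ∀ x y, 2 * (N y - N x) - ∑ l, (y l - x l) * (D x l + D y l) = -N (y - x) := by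
  classical
  obtain ⟨p, hp⟩ := CharP.exists R
  have : Fact p.Prime := ⟨CharP.char_is_prime R p⟩
  let L := FiniteField.Extension R p 3
  let w := Module.finBasisOfFinrankEq R L (FiniteField.finrank_extension R p 3)
  let M : Fin 3 → Matrix (Fin 3) (Fin 3) R := fun l => Algebra.leftMulMatrix w (w l)
  refine ⟨fun x => (∑ l, x l • M l).det, fun x l => ((∑ l, x l • M l).adjugate * M l).trace,
    fun x hx => ?_, fun x y => ?_⟩
  · have e : ∑ l, x l • M l = Algebra.leftMulMatrix w (∑ l, x l • w l) := by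
      simp [M, map_sum]
    simp only at hx
    rw [e, ← Algebra.norm_eq_matrix_det, Algebra.norm_eq_zero_iff] at hx
    exact funext (Fintype.linearIndependent_iff.mp w.linearIndependent x hx)
  · have e : ∑ l, (y - x) l • M l = ∑ l, y l • M l - ∑ l, x l • M l := by
      simp [sub_smul, Finset.sum_sub_distrib]
    have e2 : ∀ P : Matrix (Fin 3) (Fin 3) R,
        ∑ l, (y l - x l) * (P * M l).trace = (P * (∑ l, y l • M l - ∑ l, x l • M l)).trace := by
      intro P
      rw [← e]
      simp [Finset.mul_sum, Matrix.trace_sum]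
    simp only [mul_add, Finset.sum_add_distrib, e2, e]
    generalize ∑ l, y l • M l = Y
    generalize ∑ l, x l • M l = X
    simp only [Matrix.det_fin_three, Matrix.adjugate_fin_three, Matrix.trace_fin_three,
      Matrix.mul_apply, Fin.sum_univ_three, Matrix.sub_apply, Matrix.of_apply, Matrix.cons_val',
      Matrix.cons_val, Matrix.cons_val_fin_one, Matrix.cons_val_zero, Matrix.cons_val_one]
    ring

end Pool.Agent.Work.MP_862369_co.Low
end

-- merged part: Pool.Agent.Work.MP_862369_co.Low2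
section
/-!
Partial spreads of the parabolic quadric over extension fields, from norm forms.
-/

open Module

namespace Pool.Agent.Work.MP_862369_co.Low

theorem ext_alg {K F : Type} [Field K] [Fintype K] [Field F] [Fintype F] [Algebra K F]
    (h2 : (2 : F) ≠ 0) {k m : ℕ} (hk : k ≤ 2) (hm : 1 ≤ m)
    (he : (k + 1) * (2 * m - 1) ≤ finrank K F) :
    ∃ (ι : Type) (J : Finset ι) (α t s : ι → F), Fintype.card K ^ (finrank K F + k * m) ≤ J.card ∧
      ∀ i ∈ J, ∀ j ∈ J, i ≠ j → α i - α j + t i * s j - s i * t j ≠ 0 := by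
  classical
  obtain ⟨p, hp⟩ := CharP.exists K
  have : Fact p.Prime := ⟨CharP.char_is_prime K p⟩
  have : NeZero m := ⟨by omega⟩
  let R := FiniteField.Extension K p m
  have := Fintype.ofFinite R
  let pb := Field.powerBasisOfFiniteOfSeparable K R
  have hdim : pb.dim = m := by rw [← pb.finrank, FiniteField.finrank_extension]
  have hR : Fintype.card R = Fintype.card K ^ m := by
    rw [Fintype.card_eq_nat_card, Fintype.card_eq_nat_card, FiniteField.natCard_extension]
  obtain ⟨φ, hφ⟩ := exists_fun K R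
  obtain ⟨N, D, hN, hD⟩ := cubic R
  let I : Finset (Fin 3 → R) := Fintype.piFinset fun l => if (l : ℕ) ≤ k then Finset.univ else {0}
  have hI : I.card = Fintype.card K ^ ((k + 1) * m) := by
    rw [Fintype.card_piFinset, Fin.prod_univ_three, mul_comm (k + 1), pow_mul, ← hR]
    interval_cases k <;> simp [pow_succ]
  refine ⟨_, transfer h2 pb.gen φ m (fun y hy => pb_inj pb φ hφ y fun n hn => hy n (by omega))
    (fun l => if (l : ℕ) ≤ k then m else 0) (2 * m - 1) (if 1 ≤ k then 4 * m - 2 else 2 * m - 1)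
    ?_ ?_ ?_ ?_ ?_ I id D N ?_ ?_ _ ?_⟩
  · split_ifs <;> omega
  · interval_cases k <;> simp <;> omega
  · simp; omega
  · interval_cases k <;> simp <;> omega
  · interval_cases k <;> simp
    omega
  · intro i hi l
    have := Fintype.mem_piFinset.mp hi l
    by_cases hl : (l : ℕ) ≤ k
    · simp only [hl, if_true, ← hdim]
      exact pb_span pb _
    · simp only [hl, if_false, Finset.mem_singleton] at this ⊢
      exact ⟨0, by simpa using this⟩
  · intro i _ j _ hij h0
    simp only [id] at h0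
    rw [hD, neg_eq_zero] at h0
    exact hij (sub_eq_zero.mp (hN _ h0)).symm
  · rw [hI, Module.card_eq_pow_finrank (K := K) (V := F), ← pow_add, ← pow_add]
    apply le_of_eq
    congr 1
    ring

theorem subfield_of_card (F : Type) [Field F] [Fintype F] {r e : ℕ} (he : 1 ≤ e)
    (hq : Fintype.card F = r ^ e) :
    ∃ (K : Type) (_ : Field K) (_ : Fintype K) (_ : Algebra K F),
      Fintype.card K = r ∧ finrank K F = e := by
  obtain ⟨p, hp⟩ := CharP.exists F
  have hpp : Fact p.Prime := ⟨CharP.char_is_prime F p⟩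
  let := ZMod.algebra F p
  have h1 := FiniteField.pow_finrank_eq_card p F
  obtain ⟨j, -, hj⟩ := (Nat.dvd_prime_pow hpp.out).mp
    (h1 ▸ hq ▸ dvd_pow_self r (by omega) : r ∣ p ^ finrank (ZMod p) F)
  have h3 : finrank (ZMod p) F = j * e := by
    apply Nat.pow_right_injective hpp.out.two_le
    simp only
    rw [h1, hq, hj, pow_mul]
  have hj0 : j ≠ 0 := by
    rintro rfl
    have := Fintype.one_lt_card (α := F)
    rw [hq, hj] at this
    simp at this
  have := Fintype.ofFinite (GaloisField p j)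
  obtain ⟨f⟩ := FiniteField.nonempty_algHom_of_finrank_dvd (F := ZMod p) (K := GaloisField p j)
    (L := F) (by rw [GaloisField.finrank p hj0, h3]; exact dvd_mul_right _ _)
  let := f.toRingHom.toAlgebra
  have hc : Fintype.card (GaloisField p j) = r := by
    rw [Fintype.card_eq_nat_card, GaloisField.card p j hj0, hj]
  refine ⟨GaloisField p j, inferInstance, inferInstance, inferInstance, hc, ?_⟩
  apply Nat.pow_right_injective (hc ▸ Fintype.one_lt_card : 2 ≤ r)
  simp only
  rw [← hq, ← hc, ← Module.card_eq_pow_finrank]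

theorem ext_lower {F : Type} [Field F] [Fintype F] (hodd : Odd (Fintype.card F))
    {r e k m : ℕ} (hq : Fintype.card F = r ^ e) (hk : k ≤ 2) (hm : 1 ≤ m)
    (he : (k + 1) * (2 * m - 1) ≤ e) {V : Type} [AddCommGroup V] [Module F V]
    (hV : finrank F V = 5) (Q : QuadraticForm F V) (hQ : Q.Nondegenerate) :
    ∃ S : Finset (Submodule F V), (∀ L ∈ S, finrank F L = 2 ∧ ∀ v ∈ L, Q v = 0) ∧
      (∀ L ∈ S, ∀ L' ∈ S, L ≠ L' → L ⊓ L' = ⊥) ∧ r ^ (e + k * m) + 1 ≤ S.card := by
  have h1 : 1 ≤ e := le_trans (Nat.mul_pos (by omega) (by omega)) he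
  obtain ⟨K, _, _, _, rfl, rfl⟩ := subfield_of_card F h1 hq
  obtain ⟨ι, J, α, t, s, hJ, h⟩ := ext_alg (two_ne hodd) hk hm he
  obtain ⟨S, hS, h1, h2⟩ := spread hodd hV Q hQ J α t s h
  exact ⟨S, h1, h2, by omega⟩

theorem cubic_lower {F : Type} [Field F] [Fintype F] (hodd : Odd (Fintype.card F))
    {r e m : ℕ} (hq : Fintype.card F = r ^ e) (he : 6 * m ≤ e + 3)
    {V : Type} [AddCommGroup V] [Module F V]
    (hV : finrank F V = 5) (Q : QuadraticForm F V) (hQ : Q.Nondegenerate) :
    ∃ S : Finset (Submodule F V), (∀ L ∈ S, finrank F L = 2 ∧ ∀ v ∈ L, Q v = 0) ∧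
      (∀ L ∈ S, ∀ L' ∈ S, L ≠ L' → L ⊓ L' = ⊥) ∧ r ^ (e + 2 * m) + 1 ≤ S.card := by
  rcases Nat.eq_zero_or_pos m with rfl | hm
  · have h1 : e ≠ 0 := by
      rintro rfl
      have := Fintype.one_lt_card (α := F)
      simp [hq] at this
    simpa using ext_lower hodd hq (k := 0) (m := 1) (by omega) le_rfl (by omega) hV Q hQ
  · exact ext_lower hodd hq le_rfl hm (by omega) hV Q hQ

end Pool.Agent.Work.MP_862369_co.Low
end
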