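import Pool.Agent.Work.MP_862369_co.Low2

/-!
Binary digits in the integer Heisenberg group, and partial spreads over prime fields.
-/

open Module

namespace Pool.Agent.Work.MP_862369_co.Low

theorem colour (k : ℕ) : ∃ κ : ℤ × ℤ × ℤ → Fin k → ZMod 2, ∀ a b c a' b' c' : ℤ,
    κ (a, b, c) = κ (a', b', c') → c' - c + a * b' - a' * b = 0 →
      2 ^ k ∣ a - a' ∧ 2 ^ k ∣ b - b' := by
  induction k with
  | zero => exact ⟨0, by simp⟩
  | succ k ih =>
    obtain ⟨κ, hκ⟩ := ih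
    refine ⟨fun g => Fin.cons ((g.2.2 : ZMod 2) + g.1 + g.2.1 + g.1 * g.2.1)
      (κ (g.1 / 2, g.2.1 / 2, (g.2.2 + 2 * (g.1 % 2) * (g.2.1 / 2) -
        2 * (g.1 / 2) * (g.2.1 % 2)) / 4)), fun a b c a' b' c' h h0 => ?_⟩
    obtain ⟨h1, h2⟩ := Fin.cons_injective2 h
    dsimp only at h1 h2
    have h3 : ((c' - c + a * b' - a' * b : ℤ) : ZMod 2) = 0 := by rw [h0]; simp
    push_cast at h3
    have key : ∀ x y z x' y' z' : ZMod 2, z' - z + x * y' - x' * y = 0 →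
      z + x + y + x * y = z' + x' + y' + x' * y' → x = x' ∧ y = y' := by decide
    obtain ⟨ea, eb⟩ := key _ _ _ _ _ _ h3 h1
    have ea' : a % 2 = a' % 2 := (ZMod.intCast_eq_intCast_iff a a' 2).mp ea
    have eb' : b % 2 = b' % 2 := (ZMod.intCast_eq_intCast_iff b b' 2).mp eb
    rw [← ea', ← eb'] at h2
    have da := Int.emod_add_mul_ediv a 2
    have db := Int.emod_add_mul_ediv b 2
    have da' := Int.emod_add_mul_ediv a' 2
    have db' := Int.emod_add_mul_ediv b' 2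
    rw [← ea'] at da'
    rw [← eb'] at db'
    generalize a % 2 = a0 at *
    generalize b % 2 = b0 at *
    generalize a / 2 = a1 at *
    generalize b / 2 = b1 at *
    generalize a' / 2 = a2 at *
    generalize b' / 2 = b2 at *
    have e : (c' + 2 * a0 * b2 - 2 * a2 * b0) - (c + 2 * a0 * b1 - 2 * a1 * b0) +
        4 * (a1 * b2 - a2 * b1) = 0 := by
      rw [← h0, ← da, ← db, ← da', ← db']; ring
    generalize c' + 2 * a0 * b2 - 2 * a2 * b0 = u' at *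
    generalize c + 2 * a0 * b1 - 2 * a1 * b0 = u at *
    obtain ⟨⟨x, hx⟩, ⟨y, hy⟩⟩ := hκ _ _ _ _ _ _ h2 (by
      generalize a1 * b2 = s at *
      generalize a2 * b1 = t at *
      omega)
    exact ⟨⟨x, by rw [pow_succ]; linear_combination 2 * hx + da' - da⟩,
      ⟨y, by rw [pow_succ]; linear_combination 2 * hy + db' - db⟩⟩

theorem arch (K : Type) [Field K] (p : ℕ) [CharP K p] (j L : ℕ) (hL : L + 2 * (2 ^ j) ^ 2 ≤ p) :
    ∃ A : Finset (ℤ × ℤ × ℤ), 2 * 2 ^ j * L ≤ A.card ∧ ∀ g ∈ A, ∀ g' ∈ A, g ≠ g' →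
      ((g'.2.2 : K) - g.2.2 + g.1 * g'.2.1 - g'.1 * g.2.1) ≠ 0 := by
  classical
  obtain ⟨κ, hκ⟩ := colour (j + 1)
  obtain ⟨h, hh⟩ : ∃ h : ℕ, h = 2 ^ j := ⟨_, rfl⟩
  have hz : (2 : ℤ) ^ (j + 1) = 2 * h := by rw [hh]; push_cast; ring
  rw [← hh] at hL ⊢
  obtain ⟨y, -, hy⟩ := Finset.exists_le_card_fiber_of_mul_le_card_of_maps_to
    (s := Finset.Ico (-(h : ℤ)) h ×ˢ Finset.Ico (-(h : ℤ)) h ×ˢ Finset.Ico (0 : ℤ) L)
    (t := Finset.univ) (f := κ) (n := 2 * h * L) (fun _ _ => Finset.mem_univ _)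
    Finset.univ_nonempty (by
      have : (h + h : ℤ).toNat = 2 * h := by omega
      simp only [Finset.card_univ, Fintype.card_fun, ZMod.card, Fintype.card_fin,
        Finset.card_product, Int.card_Ico, sub_neg_eq_add, this, sub_zero, Int.toNat_natCast]
      rw [pow_succ, ← hh]
      apply le_of_eq
      ring)
  refine ⟨_, hy, ?_⟩
  rintro ⟨a, b, c⟩ hg ⟨a', b', c'⟩ hg' hne h0
  simp only [Finset.mem_filter, Finset.mem_product, Finset.mem_Ico] at hg hg'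
  obtain ⟨⟨⟨a1, a2⟩, ⟨b1, b2⟩, c1, c2⟩, k1⟩ := hg
  obtain ⟨⟨⟨a3, a4⟩, ⟨b3, b4⟩, c3, c4⟩, k2⟩ := hg'
  have h1 : ((c' - c + a * b' - a' * b : ℤ) : K) = 0 := by push_cast; exact h0
  rw [CharP.intCast_eq_zero_iff K p] at h1
  have hL' : (L : ℤ) + 2 * h ^ 2 ≤ p := by exact_mod_cast hL
  have h2 : c' - c + a * b' - a' * b = 0 := by
    refine Int.eq_zero_of_abs_lt_dvd h1 (abs_lt.mpr ⟨?_, ?_⟩) <;> linarith only [hL, a2, b1, c2, a3, b4, c3, a1, b3, a4, b2, c1, c4, mul_nonneg_of_nonpos_of_nonpos (Mathlib.Tactic.Linarith.sub_nonpos_of_le a1) (Mathlib.Tactic.Linarith.sub_nonpos_of_le b3), mul_nonneg_of_nonpos_of_nonpos (Mathlib.Tactic.Linarith.sub_nonpos_of_le (Int.add_one_le_iff.mpr a2)) (Mathlib.Tactic.Linarith.sub_nonpos_of_le (Int.add_one_le_iff.mpr b4)), mul_nonneg_of_nonpos_of_nonpos (Mathlib.Tactic.Linarith.sub_nonpos_of_le b1) (Mathlib.Tactic.Linarith.sub_nonpos_of_le (Int.add_one_le_iff.mpr a4)), mul_nonneg_of_nonpos_of_nonpos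 (Mathlib.Tactic.Linarith.sub_nonpos_of_le (Int.add_one_le_iff.mpr b2)) (Mathlib.Tactic.Linarith.sub_nonpos_of_le a3), mul_nonneg_of_nonpos_of_nonpos (Mathlib.Tactic.Linarith.sub_nonpos_of_le a1) (Mathlib.Tactic.Linarith.sub_nonpos_of_le (Int.add_one_le_iff.mpr b4)), mul_nonneg_of_nonpos_of_nonpos (Mathlib.Tactic.Linarith.sub_nonpos_of_le (Int.add_one_le_iff.mpr a2)) (Mathlib.Tactic.Linarith.sub_nonpos_of_le b3), mul_nonneg_of_nonpos_of_nonpos (Mathlib.Tactic.Linarith.sub_nonpos_of_le b1) (Mathlib.Tactic.Linarith.sub_nonpos_of_le a3), mul_nonneg_of_nonpos_of_nonpos (Mathlib.Tactic.Linarith.sub_nonpos_of_le (Int.add_one_le_iff.mpr b2)) (Mathlib.Tactic.Linarith.sub_nonpos_of_le (Int.add_one_le_iff.mpr a4))]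
  obtain ⟨d1, d2⟩ := hκ _ _ _ _ _ _ (k1.trans k2.symm) h2
  rw [hz] at d1 d2
  have e1 := Int.eq_zero_of_abs_lt_dvd d1 (abs_lt.mpr ⟨by omega, by omega⟩)
  have e2 := Int.eq_zero_of_abs_lt_dvd d2 (abs_lt.mpr ⟨by omega, by omega⟩)
  have e3 : a = a' := by omega
  have e4 : b = b' := by omega
  subst e3 e4
  have e5 : c = c' := by linarith only [h2]
  exact hne (by rw [e5])

theorem ring_data (K : Type) [Field K] [Fintype K] (k : ℕ) :
    ∃ (R : Type) (_ : CommRing R) (_ : Fintype R) (_ : Algebra K R) (θ θ' : R) (φ : R →ₗ[K] K)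
      (N : (Fin 3 → R) → R) (D : (Fin 3 → R) → Fin 3 → R), Fintype.card R = Fintype.card K ^ k ∧
      θ * θ' = 1 ∧ (∀ y, (∀ n < k, φ (θ ^ n * y) = 0) → y = 0) ∧
      (∀ y, ∃ h : ℕ → K, y = ∑ j ∈ Finset.range k, h j • θ ^ j) ∧ (∀ x, N x = 0 → x = 0) ∧
      ∀ x y, 2 * (N y - N x) - ∑ l, (y l - x l) * (D x l + D y l) = -N (y - x) := by
  rcases Nat.eq_zero_or_pos k with rfl | hk
  · exact ⟨PUnit, inferInstance, inferInstance, inferInstance, 0, 0, 0, 0, 0, by simp,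
      Subsingleton.elim _ _, fun _ _ => Subsingleton.elim _ _, fun _ => ⟨0, Subsingleton.elim _ _⟩,
      fun _ _ => Subsingleton.elim _ _, fun _ _ => Subsingleton.elim _ _⟩
  obtain ⟨p, hp⟩ := CharP.exists K
  have : Fact p.Prime := ⟨CharP.char_is_prime K p⟩
  have : NeZero k := ⟨by omega⟩
  let R := FiniteField.Extension K p k
  have := Fintype.ofFinite R
  let pb := Field.powerBasisOfFiniteOfSeparable K R
  have hdim : pb.dim = k := by rw [← pb.finrank, FiniteField.finrank_extension]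
  have hR : Fintype.card R = Fintype.card K ^ k := by
    rw [Fintype.card_eq_nat_card, Fintype.card_eq_nat_card, FiniteField.natCard_extension]
  obtain ⟨φ, hφ⟩ := exists_fun K R
  obtain ⟨N, D, hN, hD⟩ := cubic R
  have h1 : ∀ y, (∀ n < k, φ (pb.gen ^ n * y) = 0) → y = 0 :=
    fun y hy => pb_inj pb φ hφ y fun n hn => hy n (by omega)
  have h2 := pb_span pb
  rw [hdim] at h2
  by_cases h : k = 1
  · subst h
    exact ⟨R, inferInstance, inferInstance, inferInstance, 1, 1, φ, N, D, hR, by simp,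
      by simpa using h1, by simpa using h2, hN, hD⟩
  · have h3 : pb.gen ≠ 0 := by
      have := pb.basis.ne_zero ⟨1, by omega⟩
      simpa using this
    exact ⟨R, inferInstance, inferInstance, inferInstance, pb.gen, pb.gen⁻¹, φ, N, D, hR,
      mul_inv_cancel₀ h3, h1, h2, hN, hD⟩

theorem mixed_alg {K F : Type} [Field K] [Fintype K] [Field F] [Fintype F] [Algebra K F]
    (h2 : (2 : F) ≠ 0) {k : ℕ} (he : 6 * k + 1 ≤ finrank K F) (A : Finset (ℤ × ℤ × ℤ))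
    (hA : ∀ g ∈ A, ∀ g' ∈ A, g ≠ g' → ((g'.2.2 : K) - g.2.2 + g.1 * g'.2.1 - g'.1 * g.2.1) ≠ 0) :
    ∃ (ι : Type) (J : Finset ι) (α t s : ι → F),
      A.card * Fintype.card K ^ (finrank K F - 1 + 2 * k) ≤ J.card ∧
      ∀ i ∈ J, ∀ j ∈ J, i ≠ j → α i - α j + t i * s j - s i * t j ≠ 0 := by
  classical
  have h2' : (2 : K) ≠ 0 := fun h => h2 (by
    rw [← map_ofNat (algebraMap K F) 2, h, map_zero])
  obtain ⟨R, _, _, _, θ, θ', φ, N, D, hR, hθ, hφ, hsp, hN, hD⟩ := ring_data K k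
  choose h hh using hsp
  let a : (Fin 3 → R) × ℤ × ℤ × ℤ → Fin 3 → R × K := fun x l =>
    if l = 0 then (x.1 0, (x.2.1 : K)) else ∑ j ∈ Finset.range k, h (x.1 l) j • ((θ, 0) : R × K) ^ j
  have a1 : ∀ x l, (a x l).1 = x.1 l := by
    intro x l
    by_cases hl : l = 0
    · simp [a, hl]
    · simp only [a, hl, if_false, Prod.fst_sum]
      exact (hh _).symm
  refine ⟨_, transfer h2 ((θ, 0) : R × K) (φ.coprod LinearMap.id) (k + 1) ?_
    ![k + 1, k, k] (2 * k + 1) (4 * k + 1) (by omega) (by omega) ?_ ?_ ?_ (Finset.univ ×ˢ A) a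
    (fun x l => (D x.1 l, if l = 0 then (x.2.2.1 : K) else 0))
    (fun x => (N x.1, ((x.2.2.2 : K) + x.2.1 * x.2.2.1) / 2)) ?_ ?_ _ ?_⟩
  · rintro ⟨y, z⟩ hy
    have e1 : θ * y = 0 := hφ _ fun n hn => by
      have := hy (n + 1) (by omega)
      simpa [pow_succ, mul_assoc] using this
    have e2 : y = 0 := by rw [← one_mul y, ← hθ, mul_comm θ, mul_assoc, e1, mul_zero]
    have := hy 0 (by omega)
    simp only [e2, pow_zero, one_mul, LinearMap.coprod_apply, map_zero, zero_add,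
      LinearMap.id_apply] at this
    rw [e2, this]
    rfl
  · simp; omega
  · simp; omega
  · simp; omega
  · intro x _ l
    by_cases hl : l = 0
    · subst hl
      refine ⟨fun j => Nat.casesOn j (x.2.1 : K) (h (θ' * (x.1 0 - algebraMap K R x.2.1))), ?_⟩
      simp only [a, if_true, Matrix.cons_val_zero, Finset.sum_range_succ']
      ext
      · have := hh (θ' * (x.1 0 - algebraMap K R x.2.1))
        simp only [Prod.fst_add, Prod.fst_sum, Prod.smul_fst, Prod.pow_fst]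
        simp only [pow_succ, ← smul_mul_assoc, ← Finset.sum_mul, ← this, pow_zero, Nat.rec_zero,
          ← Algebra.algebraMap_eq_smul_one]
        linear_combination (-(x.1 0 - algebraMap K R x.2.1)) * hθ
      · simp [Prod.snd_sum]
    · refine ⟨h (x.1 l), ?_⟩
      simp only [a, hl, if_false]
      fin_cases l
      · exact absurd rfl hl
      · rfl
      · rfl
  · rintro ⟨x, g⟩ hx ⟨y, g'⟩ hy hne h0
    have e1 := congrArg Prod.fst h0
    have e2 := congrArg Prod.snd h0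
    simp only [Prod.fst_sub, Prod.fst_mul, Prod.fst_sum, Prod.fst_add, a1, Prod.fst_zero,
      Prod.fst_ofNat] at e1
    rw [hD, neg_eq_zero] at e1
    have e3 := sub_eq_zero.mp (hN _ e1)
    subst e3
    refine hA g (Finset.mem_product.mp hx).2 g' (Finset.mem_product.mp hy).2
      (fun e => hne (by rw [e])) ?_
    simp [Fin.sum_univ_three, a] at e2
    field_simp at e2
    linear_combination e2
  · rw [Finset.card_product, Finset.card_univ, Fintype.card_fun, hR, Fintype.card_fin,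
      Module.card_eq_pow_finrank (K := K) (V := F)]
    obtain ⟨e, he⟩ : ∃ e, finrank K F = e + 1 := ⟨finrank K F - 1, by omega⟩
    rw [he, Nat.add_sub_cancel]
    apply le_of_eq
    ring

theorem arch_size (p : ℕ) (hp : 3 ≤ p) : ∃ j L : ℕ, L + 2 * (2 ^ j) ^ 2 ≤ p ∧
    3 / 8 * (p * Real.sqrt p) ≤ (2 * 2 ^ j * L : ℕ) := by
  obtain ⟨j, h1, h2⟩ : ∃ j : ℕ, 3 * (2 ^ j) ^ 2 ≤ p ∧ p < 16 * (2 ^ j) ^ 2 := by
    rcases Nat.lt_or_ge p 4 with h | h
    · exact ⟨0, by omega, by omega⟩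
    · have a := Nat.pow_log_le_self 4 (x := p) (by omega)
      have b := Nat.lt_pow_succ_log_self (b := 4) (by norm_num) p
      have c := Nat.log_pos (b := 4) (by norm_num) h
      obtain ⟨j, hj⟩ : ∃ j, Nat.log 4 p = j + 1 := ⟨Nat.log 4 p - 1, by omega⟩
      have e : (2 ^ j) ^ 2 = 4 ^ j := by rw [← pow_mul, mul_comm, pow_mul]; norm_num
      rw [hj] at a b
      simp only [Nat.succ_eq_add_one, pow_succ] at a b
      exact ⟨j, by omega, by omega⟩
  refine ⟨j, p - 2 * (2 ^ j) ^ 2, by omega, ?_⟩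
  obtain ⟨h, hh⟩ : ∃ h : ℕ, h = 2 ^ j := ⟨_, rfl⟩
  rw [← hh] at h1 h2 ⊢
  rw [Nat.cast_mul, Nat.cast_sub (by omega)]
  push_cast
  have h1' : 3 * (h : ℝ) ^ 2 ≤ p := by exact_mod_cast h1
  have h2' : (p : ℝ) < 16 * (h : ℝ) ^ 2 := by exact_mod_cast h2
  have hs := Real.sq_sqrt (Nat.cast_nonneg p : (0 : ℝ) ≤ p)
  have hs0 := Real.sqrt_nonneg (p : ℝ)
  have h0 : (0 : ℝ) ≤ h := Nat.cast_nonneg h
  generalize Real.sqrt p = s at hs hs0
  rw [← hs] at h1' h2' ⊢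
  have a : 173 / 100 * (h : ℝ) ≤ s := by (refine le_of_not_gt fun h_nl => ?_; linarith only [h_nl, h2', h1', hs0, mul_nonneg_of_nonpos_of_nonpos (Mathlib.Tactic.Linarith.sub_nonpos_of_le (Mathlib.Tactic.Linarith.natCast_nonneg ℝ h)) (le_of_lt (Mathlib.Tactic.Linarith.sub_neg_of_lt h_nl)), mul_nonneg_of_nonpos_of_nonpos (Mathlib.Tactic.Linarith.sub_nonpos_of_le hs0) (le_of_lt (Mathlib.Tactic.Linarith.sub_neg_of_lt h_nl))])
  have b : s ≤ 4 * (h : ℝ) := by (refine le_of_not_gt fun h_nl => ?_; linarith only [h_nl, h2', hs0, mul_nonneg_of_nonpos_of_nonpos (Mathlib.Tactic.Linarith.sub_nonpos_of_le (Mathlib.Tactic.Linarith.natCast_nonneg ℝ h)) (le_of_lt (Mathlib.Tactic.Linarith.sub_neg_of_lt h_nl)), mul_nonneg_of_nonpos_of_nonpos (Mathlib.Tactic.Linarith.sub_nonpos_of_le hs0) (le_of_lt (Mathlib.Tactic.Linarith.sub_neg_of_lt h_nl))])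
  linarith only [a, b, hs0, h0, mul_nonneg (mul_nonneg (sub_nonneg.mpr a) (sub_nonneg.mpr b)) hs0,
    mul_nonneg (mul_nonneg (sub_nonneg.mpr a) (sub_nonneg.mpr b)) h0,
    mul_nonneg (mul_nonneg (sub_nonneg.mpr a) h0) h0, mul_nonneg (mul_nonneg h0 h0) h0]

theorem mixed_lower {F : Type} [Field F] [Fintype F] (hodd : Odd (Fintype.card F))
    {p e k : ℕ} (hp : p.Prime) (hq : Fintype.card F = p ^ e) (he : 6 * k + 1 ≤ e)
    {V : Type} [AddCommGroup V] [Module F V]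
    (hV : finrank F V = 5) (Q : QuadraticForm F V) (hQ : Q.Nondegenerate) :
    ∃ S : Finset (Submodule F V), (∀ L ∈ S, finrank F L = 2 ∧ ∀ v ∈ L, Q v = 0) ∧
      (∀ L ∈ S, ∀ L' ∈ S, L ≠ L' → L ⊓ L' = ⊥) ∧
      3 / 8 * ((p : ℝ) ^ (e + 2 * k) * Real.sqrt p) + 1 ≤ S.card := by
  have hp3 : 3 ≤ p := by
    have := hp.two_le
    rcases Nat.lt_or_ge 2 p with h | h
    · omega
    · have h3 : p = 2 := by omega
      rw [hq, h3, Nat.odd_pow_iff (by omega)] at hodd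
      exact absurd hodd (by decide)
  obtain ⟨K, _, _, _, hK, rfl⟩ := subfield_of_card F (by omega) hq
  have : Fact p.Prime := ⟨hp⟩
  have : CharP K p := charP_of_card_eq_prime hK
  obtain ⟨j, L, hL, hs⟩ := arch_size p hp3
  obtain ⟨A, hA, hA'⟩ := arch K p j L hL
  obtain ⟨ι, J, α, t, s, hJ, h⟩ := mixed_alg (two_ne hodd) he A hA'
  obtain ⟨S, hS, h1, h2⟩ := spread hodd hV Q hQ J α t s h
  refine ⟨S, h1, h2, ?_⟩
  rw [hK] at hJ
  obtain ⟨e, he⟩ : ∃ e, finrank K F = e + 1 := ⟨finrank K F - 1, by omega⟩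
  rw [he] at hJ ⊢
  rw [Nat.add_sub_cancel] at hJ
  have hJ' : (A.card : ℝ) * (p : ℝ) ^ (e + 2 * k) ≤ J.card := by exact_mod_cast hJ
  have hA2 : ((2 * 2 ^ j * L : ℕ) : ℝ) ≤ A.card := by exact_mod_cast hA
  have := mul_le_mul_of_nonneg_right (hs.trans hA2) (by positivity : (0 : ℝ) ≤ p ^ (e + 2 * k))
  rw [hS]
  push_cast
  calc _ = 3 / 8 * (p * Real.sqrt p) * (p : ℝ) ^ (e + 2 * k) + 1 := by ring
    _ ≤ _ := by linarith only [hJ', this]

theorem prime_lower {F : Type} [Field F] [Fintype F] (hodd : Odd (Fintype.card F))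
    (hp : (Fintype.card F).Prime) {V : Type} [AddCommGroup V] [Module F V]
    (hV : finrank F V = 5) (Q : QuadraticForm F V) (hQ : Q.Nondegenerate) :
    ∃ S : Finset (Submodule F V), (∀ L ∈ S, finrank F L = 2 ∧ ∀ v ∈ L, Q v = 0) ∧
      (∀ L ∈ S, ∀ L' ∈ S, L ≠ L' → L ⊓ L' = ⊥) ∧
      3 / 8 * ((Fintype.card F : ℝ) * Real.sqrt (Fintype.card F)) + 1 ≤ S.card := by
  simpa using mixed_lower hodd hp (e := 1) (k := 0) (by simp) le_rfl hV Q hQ

theorem all_lower {F : Type} [Field F] [Fintype F] (hodd : Odd (Fintype.card F))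
    {V : Type} [AddCommGroup V] [Module F V]
    (hV : finrank F V = 5) (Q : QuadraticForm F V) (hQ : Q.Nondegenerate) :
    ∃ S : Finset (Submodule F V), (∀ L ∈ S, finrank F L = 2 ∧ ∀ v ∈ L, Q v = 0) ∧
      (∀ L ∈ S, ∀ L' ∈ S, L ≠ L' → L ⊓ L' = ⊥) ∧
      3 / 8 * (Fintype.card F : ℝ) ^ (4 / 3 : ℝ) + 1 ≤ S.card := by
  obtain ⟨p, hc⟩ := CharP.exists F
  obtain ⟨⟨e, he⟩, hp, hq⟩ := FiniteField.card F p
  simp only [PNat.mk_coe] at hq
  have hp1 : (1 : ℝ) ≤ p := by exact_mod_cast hp.one_le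
  have hqq : (Fintype.card F : ℝ) ^ (4 / 3 : ℝ) = (p : ℝ) ^ ((e : ℝ) * (4 / 3)) := by
    rw [hq, Real.rpow_mul (by linarith only [hp1])]
    simp
  have hpos : (0 : ℝ) ≤ (p : ℝ) ^ ((e : ℝ) * (4 / 3)) := by positivity
  have key : ∀ n : ℕ, 4 * e ≤ 3 * n → (p : ℝ) ^ ((e : ℝ) * (4 / 3)) ≤ (p ^ n : ℕ) := by
    intro n hn
    have : (4 * e : ℝ) ≤ 3 * n := by exact_mod_cast hn
    push_cast
    rw [← Real.rpow_natCast]
    exact Real.rpow_le_rpow_of_exponent_le hp1 (by linarith only [this])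
  rw [hqq]
  by_cases h1 : e % 6 = 1
  · obtain ⟨S, a, b, c⟩ := mixed_lower hodd hp hq (k := e / 6) (by omega) hV Q hQ
    refine ⟨S, a, b, le_trans ?_ c⟩
    have : (p : ℝ) ^ ((e : ℝ) * (4 / 3)) ≤ (p : ℝ) ^ (e + 2 * (e / 6)) * Real.sqrt p := by
      rw [Real.sqrt_eq_rpow, ← Real.rpow_natCast, ← Real.rpow_add (by linarith only [hp1])]
      refine Real.rpow_le_rpow_of_exponent_le hp1 ?_
      obtain ⟨k, rfl⟩ : ∃ k, e = 6 * k + 1 := ⟨e / 6, by omega⟩
      rw [(by omega : (6 * k + 1) / 6 = k)]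
      push_cast
      linarith only []
    linarith only [this]
  by_cases h2 : e % 6 = 2
  · obtain ⟨S, a, b, c⟩ := ext_lower hodd (r := p ^ (e / 2)) (e := 2) (k := 1) (m := 1)
      (by rw [hq, ← pow_mul]; congr 1; omega) (by omega) le_rfl le_rfl hV Q hQ
    refine ⟨S, a, b, ?_⟩
    rw [← pow_mul] at c
    have := key (e / 2 * (2 + 1 * 1)) (by omega)
    have c' : ((p ^ (e / 2 * (2 + 1 * 1)) : ℕ) : ℝ) + 1 ≤ S.card := by exact_mod_cast c
    linarith only [this, c']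
  · obtain ⟨S, a, b, c⟩ := cubic_lower hodd hq (m := (e + 3) / 6) (by omega) hV Q hQ
    refine ⟨S, a, b, ?_⟩
    have := key (e + 2 * ((e + 3) / 6)) (by omega)
    have c' : ((p ^ (e + 2 * ((e + 3) / 6)) : ℕ) : ℝ) + 1 ≤ S.card := by exact_mod_cast c
    linarith only [this, c']

end Pool.Agent.Work.MP_862369_co.Low
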