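import Mathlib

-- merged part: Pool.Agent.Work.MP_862369_co.Plane
section
-- merged part: Pool.Agent.Work.MP_862369_co.Filt
section
/-!
Plane curves `h(X,Y) = 0` with `h` monic in `Y`: total degree, degree filtration of the
coordinate ring, and a Bezout type inequality.
-/

open Polynomial
open scoped Polynomial.Bivariate

namespace Pool.Agent.Work.MP_862369_co

variable {F : Type} [Field F]

/-- total degree at most `d` -/
def Wt (d : ℕ) (p : F[X][Y]) : Prop := ∀ k i, (p.coeff k).coeff i ≠ 0 → i + k ≤ d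

/-- evaluation of a polynomial in two variables -/
noncomputable def ev {A : Type} [CommRing A] [Algebra F A] (x y : A) : F[X][Y] →ₐ[F] A :=
  aevalAeval x y

@[simp] theorem ev_C {A : Type} [CommRing A] [Algebra F A] (x y : A) (p : F[X]) :
    ev x y (C p) = aeval x p := aevalAeval_C x y p

@[simp] theorem ev_Y {A : Type} [CommRing A] [Algebra F A] (x y : A) :
    ev x y (Y : F[X][Y]) = y := aevalAeval_Y x y

theorem ev_ext {A : Type} [CommRing A] [Algebra F A] (f : F[X][Y] →ₐ[F] A) (x y : A)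
    (hx : f (C X) = x) (hy : f Y = y) : f = ev x y :=
  Polynomial.algHom_ext' (by ext; simp [hx]) (by simp [hy])

theorem hom_ev {A B : Type} [CommRing A] [CommRing B] [Algebra F A] [Algebra F B]
    (f : A →ₐ[F] B) (x y : A) (p : F[X][Y]) :
    f (ev x y p) = ev (f x) (f y) p := by
  have : f.comp (ev x y) = ev (f x) (f y) := ev_ext _ _ _ (by simp) (by simp)
  exact DFunLike.congr_fun this p

theorem ev_eq {A : Type} [CommRing A] [Algebra F A] (x y : A) (p : F[X][Y]) :
    ev x y p = eval y (p.map ((aeval x : F[X] →ₐ[F] A) : F[X] →+* A)) := by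
  induction p using Polynomial.induction_on' with
  | add p q hp hq => simp [hp, hq]
  | monomial n a =>
    rw [← C_mul_X_pow_eq_monomial]
    simp

theorem ev_sum {A : Type} [CommRing A] [Algebra F A] (x y : A) (p : F[X][Y]) :
    ev x y p = ∑ k ∈ p.support, ∑ i ∈ (p.coeff k).support,
      (p.coeff k).coeff i • (x ^ i * y ^ k) := by
  conv_lhs => rw [p.as_sum_support_C_mul_X_pow]
  rw [map_sum]
  refine Finset.sum_congr rfl fun k _ => ?_
  rw [map_mul, map_pow, ev_C, ev_Y]
  conv_lhs => rw [(p.coeff k).as_sum_support_C_mul_X_pow]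
  rw [map_sum, Finset.sum_mul]
  refine Finset.sum_congr rfl fun i _ => ?_
  rw [map_mul, map_pow, aeval_C, aeval_X, Algebra.smul_def, mul_assoc]

theorem ev_mem {A : Type} [CommRing A] [Algebra F A] (x y : A) (N : Submodule F A)
    (p : F[X][Y]) (h : ∀ k i, (p.coeff k).coeff i ≠ 0 → x ^ i * y ^ k ∈ N) :
    ev x y p ∈ N := by
  rw [ev_sum]
  refine N.sum_mem fun k _ => N.sum_mem fun i hi => N.smul_mem _ (h k i ?_)
  exact mem_support_iff.mp hi

section Filt
variable {R : Type} [CommRing R] [Algebra F R] (x y : R)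

variable (F) in
/-- the span of the monomials of degree at most `d` -/
def EE (d : ℕ) : Submodule F R := Submodule.span F {r | ∃ i k, i + k ≤ d ∧ r = x ^ i * y ^ k}

theorem mon_mem {d i k : ℕ} (h : i + k ≤ d) : x ^ i * y ^ k ∈ EE F x y d :=
  Submodule.subset_span ⟨i, k, h, rfl⟩

theorem EE_mono {d e : ℕ} (h : d ≤ e) : EE F x y d ≤ EE F x y e :=
  Submodule.span_mono (by rintro r ⟨i, k, hik, rfl⟩; exact ⟨i, k, hik.trans h, rfl⟩)

theorem EE_mul {d e : ℕ} {a b : R} (ha : a ∈ EE F x y d) (hb : b ∈ EE F x y e) :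
    a * b ∈ EE F x y (d + e) := by
  induction ha using Submodule.span_induction with
  | zero => simp
  | add a a' _ _ h1 h2 => rw [add_mul]; exact add_mem h1 h2
  | smul c a _ h1 => rw [smul_mul_assoc]; exact Submodule.smul_mem _ _ h1
  | mem a ha =>
    obtain ⟨i, k, hik, rfl⟩ := ha
    induction hb using Submodule.span_induction with
    | zero => simp
    | add b b' _ _ h1 h2 => rw [mul_add]; exact add_mem h1 h2
    | smul c b _ h1 => rw [mul_smul_comm]; exact Submodule.smul_mem _ _ h1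
    | mem b hb =>
      obtain ⟨i', k', hik', rfl⟩ := hb
      have : x ^ i * y ^ k * (x ^ i' * y ^ k') = x ^ (i + i') * y ^ (k + k') := by ring
      rw [this]
      exact mon_mem x y (by omega)

theorem one_mem_EE (d : ℕ) : (1 : R) ∈ EE F x y d := by
  simpa using mon_mem (F := F) x y (d := d) (i := 0) (k := 0) (by omega)

theorem EE_pow {d : ℕ} {a : R} (ha : a ∈ EE F x y d) (n : ℕ) : a ^ n ∈ EE F x y (n * d) := by
  induction n with
  | zero => simpa using one_mem_EE (F := F) x y 0
  | succ n ih => rw [pow_succ, Nat.succ_mul]; exact EE_mul x y ih ha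

theorem ev_mem_EE {d : ℕ} {p : F[X][Y]} (hp : Wt d p) : ev x y p ∈ EE F x y d :=
  ev_mem x y _ p fun k i h => mon_mem x y (hp k i h)

theorem EE_exh (hs : Function.Surjective (ev x y : F[X][Y] →ₐ[F] R)) (r : R) :
    ∃ d, r ∈ EE F x y d := by
  obtain ⟨p, rfl⟩ := hs r
  refine ⟨p.natDegree + p.support.sup (fun k => (p.coeff k).natDegree), ev_mem_EE x y ?_⟩
  intro k i h
  have h1 : p.coeff k ≠ 0 := by intro h0; simp [h0] at h
  have h2 : k ≤ p.natDegree := le_natDegree_of_ne_zero h1
  have h3 : i ≤ (p.coeff k).natDegree := le_natDegree_of_ne_zero h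
  have h4 : (p.coeff k).natDegree ≤ p.support.sup (fun k => (p.coeff k).natDegree) :=
    Finset.le_sup (f := fun k => (p.coeff k).natDegree) (mem_support_iff.mpr h1)
  omega

instance EE_fin (d : ℕ) : FiniteDimensional F (EE F x y d) := by
  apply FiniteDimensional.span_of_finite
  refine Set.Finite.subset (Set.finite_range
    (fun ik : Fin (d + 1) × Fin (d + 1) => x ^ ik.1.val * y ^ ik.2.val)) ?_
  rintro r ⟨i, k, hik, rfl⟩
  exact ⟨(⟨i, by omega⟩, ⟨k, by omega⟩), rfl⟩

variable {x y} {h : F[X][Y]} {m : ℕ}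

theorem ypow (h0 : ev x y h = 0) :
    y ^ m = ev x y (Y ^ m - h) := by
  simp [h0]

theorem top_mem (hm : h.Monic) (hd : h.natDegree = m) (hw : Wt m h)
    (h0 : ev x y h = 0) (D : ℕ) (k : ℕ) : ∀ i, i + k = D + 1 →
    x ^ i * y ^ k ∈ EE F x y D ⊔
      Submodule.span F (Set.range fun k : Fin m => x ^ (D + 1 - k.val) * y ^ k.val) := by
  induction k using Nat.strong_induction_on with
  | _ k ih =>
    intro i hik
    by_cases hk : k < m
    · refine Submodule.mem_sup_right (Submodule.subset_span ⟨⟨k, hk⟩, ?_⟩)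
      have : D + 1 - k = i := by omega
      simp [this]
    · obtain ⟨k', rfl⟩ : ∃ k', k = k' + m := ⟨k - m, by omega⟩
      rw [pow_add, ← mul_assoc, ypow (m := m) h0]
      have := ev_mem x y ((EE F x y D ⊔ Submodule.span F
        (Set.range fun k : Fin m => x ^ (D + 1 - k.val) * y ^ k.val)).comap
          (LinearMap.mulLeft F (x ^ i * y ^ k'))) (Y ^ m - h) ?_
      · exact this
      intro k2 i2 hne
      have hk2 : k2 < m := by
        by_contra hge
        apply hne
        rcases (not_lt.mp hge).eq_or_lt with he | hl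
        · subst he
          rw [coeff_sub, coeff_X_pow_self, ← hd, hm.coeff_natDegree]; simp
        · have h3 : h.coeff k2 = 0 := coeff_eq_zero_of_natDegree_lt (by omega)
          rw [coeff_sub, coeff_X_pow, if_neg hl.ne', h3]
          simp
      have hw2 : i2 + k2 ≤ m := by
        apply hw
        rw [coeff_sub, coeff_X_pow, if_neg hk2.ne] at hne
        simpa using hne
      simp only [Submodule.mem_comap, LinearMap.mulLeft_apply]
      have : x ^ i * y ^ k' * (x ^ i2 * y ^ k2) = x ^ (i + i2) * y ^ (k' + k2) := by ring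
      rw [this]
      by_cases hle : i + i2 + (k' + k2) ≤ D
      · exact Submodule.mem_sup_left (mon_mem x y hle)
      · exact ih (k' + k2) (by omega) (i + i2) (by omega)

theorem finrank_succ (hm : h.Monic) (hd : h.natDegree = m) (hw : Wt m h)
    (h0 : ev x y h = 0) (D : ℕ) :
    Module.finrank F (EE F x y (D + 1)) ≤ Module.finrank F (EE F x y D) + m := by
  have : FiniteDimensional F (Submodule.span F
      (Set.range fun k : Fin m => x ^ (D + 1 - k.val) * y ^ k.val)) :=
    FiniteDimensional.span_of_finite F (Set.finite_range _)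
  have hle : EE F x y (D + 1) ≤ EE F x y D ⊔
      Submodule.span F (Set.range fun k : Fin m => x ^ (D + 1 - k.val) * y ^ k.val) := by
    apply Submodule.span_le.mpr
    rintro r ⟨i, k, hik, rfl⟩
    rcases hik.eq_or_lt with he | hl
    · exact top_mem hm hd hw h0 D k i he
    · exact Submodule.mem_sup_left (mon_mem x y (by omega))
  refine (Submodule.finrank_mono hle).trans
    ((Submodule.finrank_add_le_finrank_add_finrank _ _).trans ?_)
  have := finrank_range_le_card (R := F) (fun k : Fin m => x ^ (D + 1 - k.val) * y ^ k.val)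
  simp only [Fintype.card_fin] at this
  exact Nat.add_le_add_left this _

theorem finrank_add (hm : h.Monic) (hd : h.natDegree = m) (hw : Wt m h)
    (h0 : ev x y h = 0) (D d : ℕ) :
    Module.finrank F (EE F x y (D + d)) ≤ Module.finrank F (EE F x y D) + m * d := by
  induction d with
  | zero => simp
  | succ d ih =>
    have := finrank_succ hm hd hw h0 (D + d)
    rw [← add_assoc, Nat.mul_succ]
    omega

theorem finrank_zero : Module.finrank F (EE F x y 0) ≤ 1 := by
  have hle : EE F x y 0 ≤ Submodule.span F (Set.range fun _ : Fin 1 => (1 : R)) := by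
    apply Submodule.span_le.mpr
    rintro r ⟨i, k, hik, rfl⟩
    have hi : i = 0 := by omega
    have hk : k = 0 := by omega
    subst hi hk
    exact Submodule.subset_span ⟨0, by simp⟩
  have : FiniteDimensional F (Submodule.span F (Set.range fun _ : Fin 1 => (1 : R))) :=
    FiniteDimensional.span_of_finite F (Set.finite_range _)
  refine (Submodule.finrank_mono hle).trans ?_
  have := finrank_range_le_card (R := F) (fun _ : Fin 1 => (1 : R))
  rw [Fintype.card_fin] at this
  exact this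

/-- Bezout type inequality -/
theorem bez [IsDomain R] (hm : h.Monic) (hd : h.natDegree = m) (hw : Wt m h)
    (h0 : ev x y h = 0)
    (hs : Function.Surjective (ev x y : F[X][Y] →ₐ[F] R))
    {g : R} {d : ℕ} (hg : g ≠ 0) (hgd : g ∈ EE F x y d)
    {B : Type} [AddCommGroup B] [Module F B] [FiniteDimensional F B]
    (lam : R →ₗ[F] B) (hl : Function.Surjective lam) (hk : ∀ r, lam (g * r) = 0) :
    Module.finrank F B ≤ m * d := by
  classical
  let b := Module.finBasis F B
  choose r hr using fun i => hl (b i)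
  choose dd hdd using fun i => EE_exh x y hs (r i)
  let D := Finset.univ.sup dd
  let lam' := lam.domRestrict (EE F x y (D + d))
  have hrange : LinearMap.range lam' = ⊤ := by
    apply eq_top_iff.mpr
    rw [← b.span_eq]
    apply Submodule.span_le.mpr
    rintro _ ⟨i, rfl⟩
    refine ⟨⟨r i, EE_mono x y ?_ (hdd i)⟩, hr i⟩
    exact (Finset.le_sup (f := dd) (Finset.mem_univ i)).trans (Nat.le_add_right _ _)
  have h1 := LinearMap.finrank_range_add_finrank_ker lam'
  rw [hrange, finrank_top] at h1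
  let mu : EE F x y D →ₗ[F] LinearMap.ker lam' :=
    LinearMap.codRestrict _ (LinearMap.codRestrict (EE F x y (D + d))
      ((LinearMap.mulLeft F g).domRestrict (EE F x y D))
      (fun a => by
        have := EE_mul x y a.2 hgd
        simpa [mul_comm] using this))
      (fun a => by simpa [lam'] using hk a)
  have hinj : Function.Injective mu := by
    intro a a' haa
    have : g * a = g * a' := by
      simpa [mu] using congrArg (fun z => ((z : LinearMap.ker lam') : EE F x y (D + d)).1) haa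
    exact Subtype.ext (mul_left_cancel₀ hg this)
  have h2 := LinearMap.finrank_le_finrank_of_injective hinj
  have h3 := finrank_add hm hd hw h0 D d
  omega

theorem mon_li (hm : h.Monic) (hd : h.natDegree = m)
    (hker : ∀ p : F[X][Y], ev x y p = 0 → h ∣ p) :
    LinearIndependent F (fun ik : ℕ × Fin m => x ^ ik.1 * y ^ ik.2.val) := by
  classical
  rw [linearIndependent_iff']
  intro s g hsum ik hik
  let p : F[X][Y] := ∑ jk ∈ s, monomial jk.2.val (monomial jk.1 (g jk))
  have hp : ev x y p = 0 := by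
    rw [← hsum, map_sum]
    refine Finset.sum_congr rfl fun jk _ => ?_
    rw [← C_mul_X_pow_eq_monomial, ← C_mul_X_pow_eq_monomial]
    simp [Algebra.smul_def, mul_assoc]
  have hdeg : p.degree < h.degree := by
    rw [degree_eq_natDegree hm.ne_zero, hd]
    rw [← mem_degreeLT]
    refine Submodule.sum_mem _ fun jk _ => ?_
    rw [mem_degreeLT]
    refine (degree_monomial_le _ _).trans_lt ?_
    exact_mod_cast jk.2.2
  have hp0 : p = 0 := eq_zero_of_dvd_of_degree_lt (hker p hp) hdeg
  have := congrArg (fun p : F[X][Y] => (p.coeff ik.2.val).coeff ik.1) hp0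
  simp only [p, finsetSum_coeff, coeff_zero] at this
  rw [Finset.sum_eq_single ik] at this
  · simpa using this
  · intro jk _ hne
    rw [coeff_monomial]
    split_ifs with h1
    · rw [coeff_monomial, if_neg]
      intro h2
      exact hne (Prod.ext h2 (Fin.ext h1))
    · simp
  · intro hh; exact (hh hik).elim

end Filt

end Pool.Agent.Work.MP_862369_co
end

-- merged part: Pool.Agent.Work.MP_862369_co.Step
section
/-!
A Stepanov type bound for the number of rational points of an irreducible plane curve.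
-/

open Polynomial
open scoped Polynomial.Bivariate

namespace Pool.Agent.Work.MP_862369_co

variable {F : Type} [Field F]

section
variable {R : Type} [CommRing R] [Algebra F R] {x y : R} {h : F[X][Y]} {m : ℕ}

theorem multi [IsDomain R] (hm : h.Monic) (hd : h.natDegree = m) (hw : Wt m h)
    (h0 : ev x y h = 0) (hs : Function.Surjective (ev x y : F[X][Y] →ₐ[F] R))
    {g : R} {d : ℕ} (hg : g ≠ 0) (hgd : g ∈ EE F x y d)
    {ι : Type} [Fintype ι] (a b : ι → F) (hab : ∀ p p', a p = a p' → b p = b p' → p = p')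
    (ψ : ι → R →ₐ[F] PowerSeries F)
    (hx : ∀ p, PowerSeries.constantCoeff (ψ p x) = a p)
    (hy : ∀ p, PowerSeries.constantCoeff (ψ p y) = b p) (M : ℕ)
    (hs2 : ∀ p (t : Fin M → F), ∃ r, ∀ i : Fin M, PowerSeries.coeff i.val (ψ p r) = t i)
    (hdiv : ∀ p, PowerSeries.X ^ M ∣ ψ p g) : M * Fintype.card ι ≤ m * d := by
  classical
  let lam : R →ₗ[F] (ι → Fin M → F) := LinearMap.pi fun p => LinearMap.pi fun i =>
    (PowerSeries.coeff i.val).comp (ψ p).toLinearMap
  have hlam : ∀ r p i, lam r p i = PowerSeries.coeff i.val (ψ p r) := fun _ _ _ => rfl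
  have := bez hm hd hw h0 hs hg hgd lam ?_ ?_
  · simpa [Module.finrank_pi_fintype, mul_comm] using this
  · intro t
    let I : ι → Ideal R := fun p =>
      (Ideal.span {(PowerSeries.X : PowerSeries F) ^ M}).comap (ψ p)
    have key : ∀ (z : R) (c : F) p, PowerSeries.constantCoeff (ψ p z) = c →
        (z - algebraMap F R c) ^ M ∈ I p := by
      intro z c p hz
      simp only [I, Ideal.mem_comap, Ideal.mem_span_singleton, map_pow]
      apply pow_dvd_pow_of_dvd
      rw [PowerSeries.X_dvd_iff, map_sub, AlgHom.commutes, map_sub, hz]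
      simp
    have cop : ∀ (z : R) (c c' : F), c ≠ c' →
        IsCoprime (z - algebraMap F R c) (z - algebraMap F R c') := by
      intro z c c' hc
      have hc' : c' - c ≠ 0 := sub_ne_zero.mpr hc.symm
      refine ⟨algebraMap F R (c' - c)⁻¹, -algebraMap F R (c' - c)⁻¹, ?_⟩
      have : algebraMap F R (c' - c)⁻¹ * algebraMap F R (c' - c) = 1 := by
        rw [← map_mul, inv_mul_cancel₀ hc', map_one]
      rw [map_sub] at this
      linear_combination this
    have hI : Pairwise (Function.onFun IsCoprime I) := by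
      intro p p' hne
      have : ∃ z : R, ∃ c c' : F, c ≠ c' ∧ PowerSeries.constantCoeff (ψ p z) = c ∧
          PowerSeries.constantCoeff (ψ p' z) = c' := by
        by_cases h1 : a p = a p'
        · exact ⟨y, b p, b p', fun h2 => hne (hab _ _ h1 h2), hy p, hy p'⟩
        · exact ⟨x, a p, a p', h1, hx p, hx p'⟩
      obtain ⟨z, c, c', hc, h1, h2⟩ := this
      obtain ⟨u, v, huv⟩ := (cop z c c' hc).pow (m := M) (n := M)
      exact Ideal.isCoprime_iff_exists.mpr ⟨_, Ideal.mul_mem_left _ u (key z c p h1), _,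
        Ideal.mul_mem_left _ v (key z c' p' h2), huv⟩
    choose r hr using fun p => hs2 p (t p)
    obtain ⟨s, hs⟩ := Ideal.exists_forall_sub_mem_ideal hI r
    refine ⟨s, funext fun p => funext fun i => ?_⟩
    have := hs p
    simp only [I, Ideal.mem_comap, Ideal.mem_span_singleton, PowerSeries.X_pow_dvd_iff] at this
    have := this i.val i.2
    rw [map_sub, map_sub, hr, sub_eq_zero] at this
    exact this
  · intro r
    funext p i
    rw [hlam, map_mul]
    exact PowerSeries.X_pow_dvd_iff.mp ((hdiv p).mul_right _) i.val i.2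

theorem surj_of_param (ψ : R →ₐ[F] PowerSeries F) {a : F}
    (hx : ψ x = PowerSeries.C a + PowerSeries.X) (M : ℕ) (t : Fin M → F) :
    ∃ r, ∀ i : Fin M, PowerSeries.coeff i.val (ψ r) = t i := by
  classical
  refine ⟨∑ j : Fin M, t j • (x - algebraMap F R a) ^ j.val, fun i => ?_⟩
  have h1 : ψ (x - algebraMap F R a) = PowerSeries.X := by
    rw [map_sub, hx, AlgHom.commutes]; simp
  simp only [map_sum, map_smul, map_pow, h1, PowerSeries.coeff_X_pow, smul_eq_mul]
  rw [Finset.sum_eq_single i]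
  · simp
  · intro j _ hj
    rw [if_neg (fun hh => hj (Fin.ext hh.symm)), mul_zero]
  · simp

theorem order_le [IsDomain R] (hm : h.Monic) (hd : h.natDegree = m) (hw : Wt m h)
    (h0 : ev x y h = 0) (hs : Function.Surjective (ev x y : F[X][Y] →ₐ[F] R))
    (ψ : R →ₐ[F] PowerSeries F) {a : F} (hx : ψ x = PowerSeries.C a + PowerSeries.X)
    {g : R} {d : ℕ} (hgd : g ∈ EE F x y d) {M : ℕ} (hM : m * d < M)
    (hdiv : PowerSeries.X ^ M ∣ ψ g) : g = 0 := by
  by_contra hg
  have := multi hm hd hw h0 hs hg hgd (ι := Unit)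
    (fun _ => PowerSeries.constantCoeff (ψ x)) (fun _ => PowerSeries.constantCoeff (ψ y))
    (fun _ _ _ _ => rfl) (fun _ => ψ) (fun _ => rfl) (fun _ => rfl) M
    (fun _ t => surj_of_param ψ hx M t) (fun _ => hdiv)
  simp at this
  omega

end

/-- constant coefficient as an algebra map -/
noncomputable def cc : PowerSeries F →ₐ[F] F :=
  { PowerSeries.constantCoeff with commutes' := fun r => by simp }

@[simp] theorem cc_apply (s : PowerSeries F) : cc s = PowerSeries.constantCoeff s := rfl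

theorem hensel {h : F[X][Y]} (hm : h.Monic) {a b : F} (h0 : ev a b h = 0)
    (h1 : ev a b (derivative h) ≠ 0) : ∃ ζ : PowerSeries F,
    ev (PowerSeries.C a + PowerSeries.X) (PowerSeries.C b + PowerSeries.X * ζ) h = 0 := by
  have key : ∀ p : F[X][Y], PowerSeries.constantCoeff
      (ev (PowerSeries.C a + PowerSeries.X) (PowerSeries.C b) p) = ev a b p := by
    intro p
    have := hom_ev (cc (F := F)) (PowerSeries.C a + PowerSeries.X) (PowerSeries.C b) p
    simpa using this
  obtain ⟨η, hη, hη2⟩ := HenselianRing.is_henselian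
    (I := Ideal.span {(PowerSeries.X : PowerSeries F)})
    (h.map ((aeval (PowerSeries.C a + PowerSeries.X) : F[X] →ₐ[F] PowerSeries F) :
      F[X] →+* PowerSeries F)) (hm.map _) (PowerSeries.C b)
    (by rw [← ev_eq, Ideal.mem_span_singleton, PowerSeries.X_dvd_iff, key, h0])
    (by
      apply IsUnit.map
      rw [derivative_map, ← ev_eq, PowerSeries.isUnit_iff_constantCoeff, key]
      exact h1.isUnit)
  obtain ⟨ζ, hζ⟩ := Ideal.mem_span_singleton.mp hη2
  refine ⟨ζ, ?_⟩
  rw [ev_eq, ← hζ]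
  simpa using hη

section Aux
variable {R : Type} [CommRing R] [Algebra F R] (x y : R)

variable (F) in
/-- polynomials in `S` over `R[V]` with coefficients of degree at most `d`, in which `V`
occurs to no higher power than `S` -/
def GG (d : ℕ) : Submodule F R[X][X] where
  carrier := {p | (∀ n j, (p.coeff n).coeff j ∈ EE F x y d) ∧ ∀ n, (p.coeff n).natDegree ≤ n}
  add_mem' := by
    rintro p q ⟨h1, h2⟩ ⟨h3, h4⟩
    refine ⟨fun n j => ?_, fun n => ?_⟩
    · simp only [coeff_add]; exact add_mem (h1 n j) (h3 n j)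
    · rw [coeff_add]; exact (natDegree_add_le _ _).trans (max_le (h2 n) (h4 n))
  zero_mem' := ⟨by simp, by simp⟩
  smul_mem' := by
    rintro c p ⟨h1, h2⟩
    refine ⟨fun n j => ?_, fun n => ?_⟩
    · simp only [coeff_smul]; exact Submodule.smul_mem _ _ (h1 n j)
    · rw [coeff_smul]; exact (natDegree_smul_le _ _).trans (h2 n)

theorem GG_mono {d e : ℕ} (h : d ≤ e) : GG F x y d ≤ GG F x y e :=
  fun _ hp => ⟨fun n j => EE_mono x y h (hp.1 n j), hp.2⟩

theorem GG_mul {d e : ℕ} {p q : R[X][X]} (hp : p ∈ GG F x y d) (hq : q ∈ GG F x y e) :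
    p * q ∈ GG F x y (d + e) := by
  refine ⟨fun n j => ?_, fun n => ?_⟩
  · rw [coeff_mul, finsetSum_coeff]
    refine Submodule.sum_mem _ fun ab _ => ?_
    rw [coeff_mul]
    exact Submodule.sum_mem _ fun cd _ => EE_mul x y (hp.1 _ _) (hq.1 _ _)
  · rw [coeff_mul]
    refine natDegree_sum_le_of_forall_le _ _ fun ab hab => ?_
    have : ab.1 + ab.2 = n := by simpa using hab
    have h1 := hp.2 ab.1
    have h2 := hq.2 ab.2
    exact natDegree_mul_le.trans (by omega)

theorem mono_mem_GG {d n j : ℕ} {r : R} (hr : r ∈ EE F x y d) (hj : j ≤ n) :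
    (monomial n (monomial j r) : R[X][X]) ∈ GG F x y d := by
  refine ⟨fun n' j' => ?_, fun n' => ?_⟩
  · rw [coeff_monomial]
    split_ifs
    · rw [coeff_monomial]
      split_ifs
      · exact hr
      · simp
    · simp
  · rw [coeff_monomial]
    split_ifs with h1
    · exact (natDegree_monomial_le _).trans (h1 ▸ hj)
    · simp

theorem GG_pow {d : ℕ} {p : R[X][X]} (hp : p ∈ GG F x y d) (n : ℕ) :
    p ^ n ∈ GG F x y (n * d) := by
  induction n with
  | zero => simpa using mono_mem_GG (F := F) x y (n := 0) (j := 0) (one_mem_EE x y 0) le_rfl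
  | succ n ih => rw [pow_succ, Nat.succ_mul]; exact GG_mul x y ih hp

/-- `x + S` -/
noncomputable def xs : R[X][X] := C (C x) + X
/-- `y + S V` -/
noncomputable def ys : R[X][X] := C (C y) + X * C X

theorem xs_mem : xs x ∈ GG F x y 1 := by
  have h1 := mono_mem_GG (F := F) x y (n := 0) (j := 0) (r := x) (d := 1)
    (by simpa using mon_mem (F := F) x y (d := 1) (i := 1) (k := 0) le_rfl) le_rfl
  have h2 := mono_mem_GG (F := F) x y (n := 1) (j := 0) (one_mem_EE x y 1) (by omega)
  simpa [xs, monomial_one_one_eq_X] using add_mem h1 h2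

theorem ys_mem : ys y ∈ GG F x y 1 := by
  have h1 := mono_mem_GG (F := F) x y (n := 0) (j := 0) (r := y) (d := 1)
    (by simpa using mon_mem (F := F) x y (d := 1) (i := 0) (k := 1) le_rfl) le_rfl
  have h2 := mono_mem_GG (F := F) x y (n := 1) (j := 1) (one_mem_EE x y 1) le_rfl
  have h3 : (monomial 1 (monomial 1 (1 : R)) : R[X][X]) = X * C X := by
    rw [monomial_one_one_eq_X, ← C_mul_X_pow_eq_monomial, pow_one, mul_comm]
  rw [h3] at h2
  simpa [ys] using add_mem h1 h2

theorem mons_mem {d i k : ℕ} (h : i + k ≤ d) : xs x ^ i * ys y ^ k ∈ GG F x y d :=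
  GG_mono x y (by omega) (GG_mul x y (GG_pow x y (xs_mem x y) i) (GG_pow x y (ys_mem x y) k))

theorem evs_mem {d : ℕ} {p : F[X][Y]} (hp : Wt d p) : ev (xs x) (ys y) p ∈ GG F x y d :=
  ev_mem _ _ _ p fun k i h => mons_mem x y (hp k i h)

/-- substitution in `R[V][S]` -/
noncomputable def sub2 {A : Type} [CommRing A] [Algebra F A] (ε : R →ₐ[F] A) (v s : A) :
    R[X][X] →ₐ[F] A :=
  eval₂AlgHom (eval₂AlgHom ε v fun _ => Commute.all _ _) s fun _ => Commute.all _ _

@[simp] theorem sub2_CC {A : Type} [CommRing A] [Algebra F A] (ε : R →ₐ[F] A) (v s : A) (r : R) :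
    sub2 ε v s (C (C r)) = ε r := by
  simp [sub2, eval₂AlgHom]

@[simp] theorem sub2_CX {A : Type} [CommRing A] [Algebra F A] (ε : R →ₐ[F] A) (v s : A) :
    sub2 ε v s (C X) = v := by
  simp [sub2, eval₂AlgHom]

@[simp] theorem sub2_X {A : Type} [CommRing A] [Algebra F A] (ε : R →ₐ[F] A) (v s : A) :
    sub2 ε v s X = s := by
  simp [sub2, eval₂AlgHom]

variable {x y} {h : F[X][Y]}

theorem evs_fac [IsDomain R] (h0 : ev x y h = 0) (hu : ev x y (derivative h) ≠ 0) :
    ∃ E : R[X][X], ev (xs x) (ys y) h = X * E ∧ ¬ X ∣ E := by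
  have h1 : X ∣ ev (xs x) (ys y) h := by
    let ε : R →ₐ[F] R[X] := CAlgHom
    have e1 : ∀ p : R[X][X], sub2 ε X 0 p = p.coeff 0 := by
      intro p
      induction p using Polynomial.induction_on' with
      | add p q hp hq => simp [hp, hq]
      | monomial n a =>
        rw [← C_mul_X_pow_eq_monomial, map_mul, map_pow, sub2_X]
        have : sub2 ε X 0 (C a) = a := by
          induction a using Polynomial.induction_on' with
          | add p q hp hq => simp [hp, hq]
          | monomial n a =>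
            rw [← C_mul_X_pow_eq_monomial, map_mul, map_mul, map_pow, map_pow, sub2_CC, sub2_CX]
            rfl
        rw [this]
        cases n <;> simp
    rw [X_dvd_iff, ← e1, hom_ev]
    have := hom_ev ε x y h
    rw [h0, map_zero] at this
    simpa [xs, ys] using this.symm
  obtain ⟨E, hE⟩ := h1
  refine ⟨E, hE, fun ⟨E', hE'⟩ => hu ?_⟩
  let ε : R →ₐ[F] R[X] := CAlgHom
  have e0 := hom_ev (sub2 ε 0 X) (xs x) (ys y) h
  have e1 := hom_ev (sub2 ε 1 X) (xs x) (ys y) h
  rw [hE, hE'] at e0 e1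
  simp only [xs, ys, map_add, map_mul, sub2_CC, sub2_CX, sub2_X, mul_zero, add_zero,
    mul_one] at e0 e1
  obtain ⟨k, hk⟩ := binomExpansion
    (h.map ((aeval (ε x + X) : F[X] →ₐ[F] R[X]) : F[X] →+* R[X])) (ε y) X
  rw [derivative_map, ← ev_eq, ← ev_eq, ← ev_eq, ← e0, ← e1] at hk
  have h2 : ev (ε x + X) (ε y) (derivative h) =
      X * (sub2 ε 1 X E' - sub2 ε 0 X E' - k) := by
    apply mul_left_cancel₀ (X_ne_zero (R := R))
    linear_combination -hk
  let δ : R[X] →ₐ[F] R := eval₂AlgHom (AlgHom.id F R) 0 fun _ => Commute.all _ _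
  have h3 := hom_ev δ (ε x + X) (ε y) (derivative h)
  have d1 : ∀ r, δ (ε r) = r := fun r => by simp [δ, ε, eval₂AlgHom]
  have d2 : δ X = 0 := by simp [δ, eval₂AlgHom]
  rw [h2, map_mul, map_add, d1, d1, d2, zero_mul, add_zero] at h3
  exact h3.symm


/-- exponents of the monomials of degree at most two -/
abbrev W2 : Type := {p : Fin 3 × Fin 3 // p.1.val + p.2.val ≤ 2}
/-- exponents `(n, j)` with `j ≤ n < N` -/
abbrev Tr (N : ℕ) : Type := {p : Fin N × Fin N // p.2.val ≤ p.1.val}

variable (x y) in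
/-- monomial of degree at most two -/
def mon (w : W2) : R := x ^ w.1.1.val * y ^ w.1.2.val

theorem mon_mem2 (w : W2) : mon x y w ∈ EE F x y 2 := mon_mem x y w.2

variable (x y) in
/-- polynomial with prescribed coefficients -/
def box (B m : ℕ) : (Fin B × Fin m → F) →ₗ[F] R :=
  Fintype.linearCombination F fun ik => x ^ ik.1.val * y ^ ik.2.val

theorem box_mem {B m : ℕ} (c : Fin B × Fin m → F) : box x y B m c ∈ EE F x y (B + m) := by
  simp only [box, Fintype.linearCombination_apply]
  refine Submodule.sum_mem _ fun ik _ => Submodule.smul_mem _ _ (mon_mem x y ?_)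
  have := ik.1.2
  have := ik.2.2
  omega

theorem boxs_mem {B m : ℕ} (c : Fin B × Fin m → F) :
    box (xs x) (ys y) B m c ∈ GG F x y (B + m) := by
  simp only [box, Fintype.linearCombination_apply]
  refine Submodule.sum_mem _ fun ik _ => Submodule.smul_mem _ _ (mons_mem x y ?_)
  have := ik.1.2
  have := ik.2.2
  omega

theorem hom_box {A : Type} [CommRing A] [Algebra F A] (f : R →ₐ[F] A) {B m : ℕ}
    (c : Fin B × Fin m → F) : f (box x y B m c) = box (f x) (f y) B m c := by
  simp [box, Fintype.linearCombination_apply]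

theorem box_inj {m : ℕ} (hm : h.Monic) (hd : h.natDegree = m)
    (hker : ∀ p : F[X][Y], ev x y p = 0 → h ∣ p) (B : ℕ) (c : Fin B × Fin m → F)
    (hc : box x y B m c = 0) : c = 0 := by
  have := (mon_li hm hd hker).comp (fun ik : Fin B × Fin m => (ik.1.val, ik.2))
    (fun a b hab => by
      simp only [Prod.mk.injEq] at hab
      exact Prod.ext (Fin.ext hab.1) hab.2)
  rw [Fintype.linearIndependent_iff] at this
  funext ik
  refine this c ?_ ik
  simpa [box, Fintype.linearCombination_apply] using hc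

theorem exists_aux [IsDomain R] {m : ℕ} (hm3 : 3 ≤ m) (hm : h.Monic) (hd : h.natDegree = m)
    (hw : Wt m h) (h0 : ev x y h = 0) (hker : ∀ p : F[X][Y], ev x y p = 0 → h ∣ p)
    (hu : ev x y (derivative h) ≠ 0) :
    ∃ a : W2 → R, (∀ w, a w ∈ EE F x y (33 * m)) ∧ (∃ w, a w ≠ 0) ∧
      ∀ (ψ : R →ₐ[F] PowerSeries F) (a0 b0 : F) (ζ : PowerSeries F),
        ψ x = PowerSeries.C a0 + PowerSeries.X → ψ y = PowerSeries.C b0 + PowerSeries.X * ζ →
        PowerSeries.X ^ 5 ∣
          ∑ w, PowerSeries.C (PowerSeries.constantCoeff (ψ (mon x y w))) * ψ (a w) := by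
  classical
  let B := 30 * m + 6
  let LA : (W2 → Fin B × Fin m → F) →ₗ[F] R[X][X] :=
    ∑ w, (LinearMap.mulLeft F (C (C (mon x y w)) : R[X][X])) ∘ₗ box (xs x) (ys y) B m ∘ₗ
      LinearMap.proj w
  have hLA : ∀ c, LA c = ∑ w, C (C (mon x y w)) * box (xs x) (ys y) B m (c w) := by
    intro c; simp [LA]
  let cc2 : R →ₗ[F] R[X][X] := ((CAlgHom : R[X] →ₐ[F] R[X][X]).comp
    (CAlgHom : R →ₐ[F] R[X])).toLinearMap
  let LB : (Tr 4 → Fin B × Fin m → F) →ₗ[F] R[X][X] :=
    ∑ t, (LinearMap.mulLeft F (X ^ t.1.1.val * C X ^ t.1.2.val : R[X][X])) ∘ₗ cc2 ∘ₗ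
      box x y B m ∘ₗ LinearMap.proj t
  have hLB : ∀ c, LB c = ∑ t : Tr 4, monomial t.1.1.val
      (monomial t.1.2.val (box x y B m (c t))) := by
    intro c
    simp only [LB, LinearMap.sum_apply, LinearMap.comp_apply, LinearMap.mulLeft_apply,
      LinearMap.proj_apply]
    refine Finset.sum_congr rfl fun t _ => ?_
    rw [← C_mul_X_pow_eq_monomial, ← C_mul_X_pow_eq_monomial, map_mul, map_pow]
    change _ * C (C _) = _
    ring
  let L := LA.coprod (-(LinearMap.mulRight F (ev (xs x) (ys y) h)) ∘ₗ LB)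
  have hL : ∀ u, L u = LA u.1 - LB u.2 * ev (xs x) (ys y) h := by
    intro u; simp [L, sub_eq_add_neg]
  have hLmem : ∀ u, L u ∈ GG F x y (B + 2 * m) := by
    intro u
    rw [hL, hLA, hLB]
    refine sub_mem (Submodule.sum_mem _ fun w _ => ?_) ?_
    · refine GG_mono x y (by omega : 2 + (B + m) ≤ _) (GG_mul x y ?_ (boxs_mem _))
      simpa using mono_mem_GG (F := F) x y (n := 0) (j := 0) (mon_mem2 w) le_rfl
    · refine GG_mono x y (by omega : (B + m) + m ≤ _) (GG_mul x y ?_ (evs_mem x y hw))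
      exact Submodule.sum_mem _ fun t _ => mono_mem_GG x y (box_mem _) t.2
  let co : ℕ → ℕ → R[X][X] →ₗ[F] R := fun n j =>
    { toFun := fun p => (p.coeff n).coeff j
      map_add' := by intro p q; simp
      map_smul' := by intro c p; simp }
  let T := LinearMap.pi fun t : Tr 5 => LinearMap.codRestrict (EE F x y (B + 2 * m))
    (co t.1.1.val t.1.2.val ∘ₗ L) fun u => (hLmem u).1 _ _
  have hlt : Module.finrank F (Tr 5 → EE F x y (B + 2 * m)) <
      Module.finrank F ((W2 → Fin B × Fin m → F) × (Tr 4 → Fin B × Fin m → F)) := by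
    have c1 : Fintype.card W2 = 6 := by decide
    have c2 : Fintype.card (Tr 4) = 10 := by decide
    have c3 : Fintype.card (Tr 5) = 15 := by decide
    have h1 := finrank_add hm hd hw h0 0 (B + 2 * m)
    have h2 := finrank_zero (F := F) (x := x) (y := y)
    rw [zero_add] at h1
    simp only [Module.finrank_prod, Module.finrank_pi_fintype, Finset.sum_const,
      Finset.card_univ, c1, c2, c3, Module.finrank_self, Fintype.card_prod, Fintype.card_fin,
      smul_eq_mul]
    simp only [B] at h1 ⊢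
    linarith only [hm3, h1, h2]
  obtain ⟨u, hu1, hu2⟩ := (Submodule.ne_bot_iff _).mp (T.ker_ne_bot_of_finrank_lt hlt)
  have hdiv : X ^ 5 ∣ L u := by
    rw [X_pow_dvd_iff]
    intro n hn
    ext j
    by_cases hj : j ≤ n
    · have := congrFun (LinearMap.mem_ker.mp hu1) ⟨(⟨n, hn⟩, ⟨j, by omega⟩), hj⟩
      exact congrArg Subtype.val this
    · exact coeff_eq_zero_of_natDegree_lt (((hLmem u).2 n).trans_lt (by omega))
  refine ⟨fun w => box x y B m (u.1 w), fun w => EE_mono x y (by omega) (box_mem _), ?_, ?_⟩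
  · by_contra hcon
    push Not at hcon
    have h1 : u.1 = 0 := funext fun w => box_inj hm hd hker B _ (hcon w)
    obtain ⟨E, hE, hE2⟩ := evs_fac h0 hu
    rw [hL, h1, map_zero, zero_sub, hE] at hdiv
    obtain ⟨H, hH⟩ := hdiv
    have hdiv2 : X ^ 4 ∣ LB u.2 * E := by
      refine ⟨-H, mul_left_cancel₀ (X_ne_zero (R := R[X])) ?_⟩
      linear_combination -hH
    have h2 := prime_X.pow_dvd_of_dvd_mul_right 4 hE2 hdiv2
    rw [X_pow_dvd_iff, hLB] at h2
    apply hu2
    refine Prod.ext h1 (funext fun t => box_inj hm hd hker B _ ?_)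
    have := congrArg (fun p : R[X] => p.coeff t.1.2.val) (h2 t.1.1.val t.1.1.2)
    simp only [finsetSum_coeff, coeff_zero] at this
    rw [Finset.sum_eq_single t] at this
    · simpa using this
    · intro t' _ hne
      rw [coeff_monomial]
      split_ifs with h3
      · rw [coeff_monomial, if_neg]
        intro h4
        exact hne (Subtype.ext (Prod.ext (Fin.ext h3) (Fin.ext h4)))
      · simp
    · simp
  · intro ψ a0 b0 ζ hx hy
    let ε : R →ₐ[F] PowerSeries F := (Algebra.ofId F (PowerSeries F)).comp (cc.comp ψ)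
    have hε : ∀ r, ε r = PowerSeries.C (PowerSeries.constantCoeff (ψ r)) := fun r => by
      simp [ε, Algebra.ofId_apply]
    let θ := sub2 ε ζ PowerSeries.X
    have t1 : θ (xs x) = ψ x := by simp [θ, xs, hε, hx]
    have t2 : θ (ys y) = ψ y := by
      simp only [θ, ys, map_add, map_mul, sub2_CC, sub2_CX, sub2_X, hε, hy]
      simp
    have := map_dvd θ hdiv
    rw [hL, hLA, map_sub, map_mul, hom_ev, t1, t2, ← hom_ev, h0, map_zero, mul_zero, sub_zero,
      map_pow, map_sum] at this
    simp only [map_mul, hom_box, t1, t2] at this ⊢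
    simpa [θ, hε] using this

theorem ps_split (s : PowerSeries F) (k : ℕ) : ∃ r, s = ∑ i ∈ Finset.range k,
    PowerSeries.coeff i s • PowerSeries.X ^ i + PowerSeries.X ^ k * r := by
  have : PowerSeries.X ^ k ∣ s - ∑ i ∈ Finset.range k,
      PowerSeries.coeff i s • (PowerSeries.X : PowerSeries F) ^ i := by
    rw [PowerSeries.X_pow_dvd_iff]
    intro n hn
    simp only [map_sub, map_sum, map_smul, PowerSeries.coeff_X_pow, smul_eq_mul]
    rw [Finset.sum_eq_single n]
    · simp
    · intro j _ hj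
      rw [if_neg hj.symm, mul_zero]
    · intro hh; exact (hh (Finset.mem_range.mpr hn)).elim
  obtain ⟨r, hr⟩ := this
  exact ⟨r, by rw [← hr]; ring⟩

theorem nonvanish [Fintype F] [IsDomain R] {m : ℕ} (hm3 : 3 ≤ m) (hm : h.Monic)
    (hd : h.natDegree = m) (hw : Wt m h) (h0 : ev x y h = 0)
    (hs : Function.Surjective (ev x y : F[X][Y] →ₐ[F] R))
    (hker : ∀ p : F[X][Y], ev x y p = 0 → h ∣ p)
    (ψ : R →ₐ[F] PowerSeries F) {a0 : F} (hx : ψ x = PowerSeries.C a0 + PowerSeries.X)
    {A : ℕ} (hA : m * A < Fintype.card F) (a : W2 → R) (ha : ∀ w, a w ∈ EE F x y A)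
    (hz : ∑ w, a w * mon x y w ^ Fintype.card F = 0) : ∀ w, a w = 0 := by
  classical
  let Fr := FiniteField.frobeniusAlgHom F (PowerSeries F)
  have hFr : ∀ s, Fr s = s ^ Fintype.card F := fun s => rfl
  let g : ℕ → R := fun k => ∑ w, PowerSeries.coeff k (ψ (mon x y w)) • a w
  have hg : ∀ k, g k = 0 := by
    intro k
    induction k using Nat.strong_induction_on with
    | _ k ih =>
      refine order_le hm hd hw h0 hs ψ hx
        (Submodule.sum_mem _ fun w _ => Submodule.smul_mem _ _ (ha w)) hA ?_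
      choose r hr using fun w => ps_split (ψ (mon x y w)) (k + 1)
      have h1 := congrArg ψ hz
      rw [map_sum, map_zero] at h1
      have h2 : ∀ w, ψ (a w * mon x y w ^ Fintype.card F) =
          ∑ i ∈ Finset.range (k + 1), Fr PowerSeries.X ^ i *
            ψ (PowerSeries.coeff i (ψ (mon x y w)) • a w) +
          Fr PowerSeries.X ^ (k + 1) * (ψ (a w) * Fr (r w)) := by
        intro w
        rw [map_mul, map_pow, ← hFr]
        conv_lhs => rw [hr w]
        simp only [map_add, map_sum, map_smul, map_pow, map_mul, mul_add, Finset.mul_sum,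
          mul_smul_comm]
        congr 1
        · exact Finset.sum_congr rfl fun i _ => by rw [mul_comm]
        · ring
      simp only [h2, Finset.sum_add_distrib] at h1
      rw [Finset.sum_comm] at h1
      simp only [← Finset.mul_sum, ← map_sum] at h1
      change ∑ i ∈ Finset.range (k + 1), Fr PowerSeries.X ^ i * ψ (g i) + _ = 0 at h1
      rw [Finset.sum_range_succ, Finset.sum_eq_zero (fun i hi => by
        rw [ih i (Finset.mem_range.mp hi), map_zero, mul_zero]), zero_add, pow_succ, mul_assoc,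
        ← mul_add] at h1
      have h3 := (mul_eq_zero.mp h1).resolve_left
        (pow_ne_zero _ (by rw [hFr]; exact pow_ne_zero _ PowerSeries.X_ne_zero))
      change _ ∣ ψ (g k)
      rw [eq_neg_of_add_eq_zero_left h3, dvd_neg, hFr]
      exact dvd_mul_right _ _
  have hli := (mon_li hm hd hker).comp
    (fun w : W2 => (w.1.1.val, (⟨w.1.2.val, by have := w.1.2.2; omega⟩ : Fin m)))
    (fun a b hab => by
      simp only [Prod.mk.injEq, Fin.mk.injEq] at hab
      exact Subtype.ext (Prod.ext (Fin.ext hab.1) (Fin.ext hab.2)))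
  rw [Fintype.linearIndependent_iff] at hli
  intro w
  rw [← Module.forall_dual_apply_eq_zero_iff F]
  intro l
  refine hli (fun w => l (a w)) ?_ w
  change ∑ w, l (a w) • mon x y w = 0
  refine order_le hm hd hw h0 hs ψ hx
    (Submodule.sum_mem _ fun w _ => Submodule.smul_mem _ _ (mon_mem2 w))
    (Nat.lt_succ_self _) ?_
  rw [PowerSeries.X_pow_dvd_iff]
  intro k _
  have := congrArg l (hg k)
  simp only [g, map_sum, map_smul, smul_eq_mul, map_zero] at this ⊢
  rw [← this]
  exact Finset.sum_congr rfl fun w _ => mul_comm _ _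

end Aux

theorem Wt_derivative {h : F[X][Y]} {m : ℕ} (hw : Wt m h) : Wt m (derivative h) := by
  intro k i hne
  rw [coeff_derivative] at hne
  have : (h.coeff (k + 1)).coeff i ≠ 0 := by
    intro h0
    apply hne
    have : ((k : F[X]) + 1) = C ((k : F) + 1) := by simp
    rw [this, coeff_mul_C, h0, zero_mul]
  have := hw _ _ this
  omega

theorem ev_field (a b : F) (p : F[X][Y]) : ev a b p = eval b (p.map (evalRingHom a)) := by
  rw [ev_eq]
  congr 2

open Classical in
theorem insep_count [Fintype F] (h2 : (2 : F) ≠ 0) {h : F[X][Y]} {m : ℕ} (hm : h.Monic)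
    (hd : h.natDegree = m) (hu : derivative h = 0) :
    3 * (Finset.univ.filter fun p : F × F => ev p.1 p.2 h = 0).card ≤ m * Fintype.card F := by
  obtain ⟨p, hp⟩ := CharP.exists F
  have hpr : p.Prime := CharP.char_is_prime F p
  have hp3 : 3 ≤ p := by
    have := hpr.two_le
    rcases this.eq_or_lt with he | hl
    · exfalso
      apply h2
      have := CharP.cast_eq_zero F p
      rw [← he] at this
      exact_mod_cast this
    · omega
  have : Fact p.Prime := ⟨hpr⟩
  have key : ∀ a : F, 3 * (Finset.univ.filter fun b : F => ev a b h = 0).card ≤ m := by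
    intro a
    let f := h.map (evalRingHom a)
    have hf : f.Monic := hm.map _
    have hfd : f.natDegree = m := by rw [hm.natDegree_map, hd]
    have hf' : derivative f = 0 := by rw [derivative_map, hu, Polynomial.map_zero]
    have he := expand_contract p hf' hpr.ne_zero
    have hg0 : contract p f ≠ 0 := by
      intro h0; rw [h0, map_zero] at he; exact hf.ne_zero he.symm
    have hdeg : (contract p f).natDegree * p = m := by rw [← natDegree_expand, he, hfd]
    have hc : (Finset.univ.filter fun b : F => ev a b h = 0).card ≤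
        (contract p f).roots.toFinset.card := by
      refine Finset.card_le_card_of_injOn (fun b => b ^ p) (fun b hb => ?_) ?_
      · simp only [Finset.coe_filter, Finset.mem_univ, true_and, Set.mem_ofPred_eq] at hb
        rw [ev_field] at hb
        change eval b f = 0 at hb
        rw [← he, expand_eval] at hb
        simp [hg0, hb]
      · intro b _ b' _ hbb
        exact frobenius_inj F p hbb
    have := (Multiset.toFinset_card_le _).trans (card_roots' (contract p f))
    nlinarith only [hp3, hdeg, hc, this]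
  rw [Finset.card_eq_sum_card_fiberwise (f := Prod.fst) (t := Finset.univ) (fun _ _ => by simp),
    Finset.mul_sum]
  refine (Finset.sum_le_sum (g := fun _ => m) fun a _ => ?_).trans (by simp [mul_comm])
  refine le_trans (Nat.mul_le_mul_left _ ?_) (key a)
  refine Finset.card_le_card_of_injOn Prod.snd (fun z hz => ?_) ?_
  · simp only [Finset.coe_filter, Finset.mem_filter, Finset.mem_univ, true_and,
      Set.mem_ofPred_eq] at hz ⊢
    rw [← hz.2]; exact hz.1
  · intro z hz z' hz' hzz
    simp only [Finset.coe_filter, Finset.mem_filter, Finset.mem_univ, true_and,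
      Set.mem_ofPred_eq] at hz hz'
    exact Prod.ext (hz.2.trans hz'.2.symm) hzz

open Classical in
theorem stepanov_aux [Fintype F] {R : Type} [CommRing R] [IsDomain R] [Algebra F R] {x y : R}
    {h : F[X][Y]} {m : ℕ} (hm3 : 3 ≤ m)
    (hm : h.Monic) (hd : h.natDegree = m) (hw : Wt m h) (hq : 33 * m ^ 2 < Fintype.card F)
    (hu0 : derivative h ≠ 0) (h0 : ev x y h = 0)
    (hs : Function.Surjective (ev x y : F[X][Y] →ₐ[F] R))
    (hker : ∀ p : F[X][Y], ev x y p = 0 → h ∣ p)
    (hlift : ∀ x' y' : PowerSeries F, ev x' y' h = 0 →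
      ∃ ψ : R →ₐ[F] PowerSeries F, ψ x = x' ∧ ψ y = y') :
    5 * (Finset.univ.filter fun p : F × F => ev p.1 p.2 h = 0).card ≤
      2 * m * Fintype.card F + 38 * m ^ 2 := by
  have hu : ev x y (derivative h) ≠ 0 := fun hh => hu0
    (eq_zero_of_dvd_of_degree_lt (hker _ hh) (degree_derivative_lt hm.ne_zero))
  have hsing : ∀ S : Finset (F × F), (∀ p ∈ S, ev p.1 p.2 h = 0) →
      (∀ p ∈ S, ev p.1 p.2 (derivative h) = 0) → S.card ≤ m * m := by
    intro S hS1 hS2
    have hC : ∀ (a b : F) (p : F[X][Y]),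
        ev (PowerSeries.C a) (PowerSeries.C b) p = PowerSeries.C (ev a b p) := by
      intro a b p
      have := hom_ev (Algebra.ofId F (PowerSeries F)) a b p
      simpa [Algebra.ofId_apply] using this.symm
    choose ψ hψ using fun p : S =>
      hlift (PowerSeries.C p.1.1) (PowerSeries.C p.1.2) (by rw [hC, hS1 p.1 p.2, map_zero])
    have := multi hm hd hw h0 hs hu (ev_mem_EE x y (Wt_derivative hw))
      (fun p : S => p.1.1) (fun p => p.1.2)
      (fun p p' h1 h2 => Subtype.ext (Prod.ext h1 h2)) ψ (fun p => by rw [(hψ p).1]; simp)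
      (fun p => by rw [(hψ p).2]; simp) 1
      (fun p t => ⟨algebraMap F R (t 0), fun i => by
        rw [AlgHom.commutes, Subsingleton.elim i 0]; simp⟩)
      (fun p => by
        rw [hom_ev, (hψ p).1, (hψ p).2, hC, hS2 p.1 p.2, map_zero]
        exact dvd_zero _)
    simpa using this
  have hsm : ∀ S : Finset (F × F), (∀ p ∈ S, ev p.1 p.2 h = 0) →
      (∀ p ∈ S, ev p.1 p.2 (derivative h) ≠ 0) →
      5 * S.card ≤ m * (33 * m + Fintype.card F * 2) := by
    intro S hS1 hS2
    choose ζ hζ using fun p : S => hensel hm (hS1 p.1 p.2) (hS2 p.1 p.2)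
    choose ψ hψ using fun p => hlift _ _ (hζ p)
    rcases S.eq_empty_or_nonempty with he | ⟨p0, hp0⟩
    · rw [he]; simp
    obtain ⟨a, ha, ⟨w0, hw0⟩, hvan⟩ := exists_aux hm3 hm hd hw h0 hker hu
    have hne : ∑ w, a w * mon x y w ^ Fintype.card F ≠ 0 := fun hz => hw0
      (nonvanish hm3 hm hd hw h0 hs hker (ψ ⟨p0, hp0⟩) (hψ _).1 (by linarith only [hq]) a ha hz w0)
    have := multi hm hd hw h0 hs hne (d := 33 * m + Fintype.card F * 2)
      (Submodule.sum_mem _ fun w _ => EE_mul x y (ha w) (EE_pow x y (mon_mem2 w) _))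
      (fun p : S => p.1.1) (fun p => p.1.2)
      (fun p p' h1 h2 => Subtype.ext (Prod.ext h1 h2)) ψ (fun p => by rw [(hψ p).1]; simp)
      (fun p => by rw [(hψ p).2]; simp) 5 (fun p t => surj_of_param (ψ p) (hψ p).1 5 t)
      (fun p => by
        have h1 := hvan (ψ p) _ _ _ (hψ p).1 (hψ p).2
        have h3 : ∀ w, PowerSeries.X ^ 5 ∣ ψ p (mon x y w) ^ Fintype.card F -
            PowerSeries.C (PowerSeries.constantCoeff (ψ p (mon x y w))) := by
          intro w
          obtain ⟨r, hr⟩ := ps_split (ψ p (mon x y w)) 1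
          let Fr := FiniteField.frobeniusAlgHom F (PowerSeries F)
          have hFr : ∀ s, Fr s = s ^ Fintype.card F := fun s => rfl
          have h4 := congrArg Fr hr
          simp only [Finset.range_one, Finset.sum_singleton, pow_zero, pow_one, map_add, map_smul,
            map_one, map_mul, PowerSeries.coeff_zero_eq_constantCoeff] at h4
          rw [← hFr, h4, hFr PowerSeries.X, PowerSeries.smul_eq_C_mul, mul_one,
            add_sub_cancel_left]
          exact (pow_dvd_pow _ (by nlinarith only [hm3, hq])).mul_right _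
        have h5 := dvd_add h1 (Finset.dvd_sum fun w (_ : w ∈ Finset.univ) =>
          (h3 w).mul_left (ψ p (a w)))
        rw [← Finset.sum_add_distrib] at h5
        rw [map_sum]
        refine h5.trans (dvd_of_eq (Finset.sum_congr rfl fun w _ => ?_))
        rw [map_mul, map_pow]
        ring)
    simpa using this
  have hZ : ∀ p ∈ (Finset.univ.filter fun p : F × F => ev p.1 p.2 h = 0), ev p.1 p.2 h = 0 :=
    fun p hp => (Finset.mem_filter.mp hp).2
  generalize (Finset.univ.filter fun p : F × F => ev p.1 p.2 h = 0) = Z at hZ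
  have e1 := Finset.card_filter_add_card_filter_not (s := Z)
    (fun p => ev p.1 p.2 (derivative h) = 0)
  have e2 := hsing (Z.filter fun p => ev p.1 p.2 (derivative h) = 0)
    (fun p hp => hZ p (Finset.mem_filter.mp hp).1) (fun p hp => (Finset.mem_filter.mp hp).2)
  have e3 := hsm (Z.filter fun p => ¬ ev p.1 p.2 (derivative h) = 0)
    (fun p hp => hZ p (Finset.mem_filter.mp hp).1) (fun p hp => (Finset.mem_filter.mp hp).2)
  generalize (Z.filter fun p => ev p.1 p.2 (derivative h) = 0).card = n1 at *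
  generalize (Z.filter fun p => ¬ ev p.1 p.2 (derivative h) = 0).card = n2 at *
  linarith only [e2, e3, e1]

open Classical in
/-- Stepanov type bound -/
theorem stepanov [Fintype F] (h2 : (2 : F) ≠ 0) {h : F[X][Y]} {m : ℕ} (hm3 : 3 ≤ m)
    (hm : h.Monic) (hd : h.natDegree = m) (hw : Wt m h) (hirr : Irreducible h)
    (hq : 33 * m ^ 2 < Fintype.card F) :
    5 * (Finset.univ.filter fun p : F × F => ev p.1 p.2 h = 0).card ≤
      2 * m * Fintype.card F + 38 * m ^ 2 := by
  by_cases hu0 : derivative h = 0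
  · have := insep_count h2 hm hd hu0
    linarith only [this, sq_nonneg ↑m]
  let I : Ideal F[X][Y] := Ideal.span {h}
  have : I.IsPrime := (Ideal.span_singleton_prime hirr.ne_zero).mpr hirr.prime
  let R := F[X][Y] ⧸ I
  let x : R := Ideal.Quotient.mkₐ F I (C X)
  let y : R := Ideal.Quotient.mkₐ F I Y
  have hev : Ideal.Quotient.mkₐ F I = ev x y := ev_ext (Ideal.Quotient.mkₐ F I) x y rfl rfl
  have hker' : ∀ p : F[X][Y], ev x y p = 0 ↔ h ∣ p := by
    intro p
    rw [← hev, ← Ideal.mem_span_singleton]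
    exact Ideal.Quotient.eq_zero_iff_mem
  have hker : ∀ p : F[X][Y], ev x y p = 0 → h ∣ p := fun p => (hker' p).mp
  have h0 : ev x y h = 0 := (hker' h).mpr dvd_rfl
  have hs : Function.Surjective (ev x y : F[X][Y] →ₐ[F] R) := by
    rw [← hev]; exact Ideal.Quotient.mkₐ_surjective F I
  have hlift : ∀ x' y' : PowerSeries F, ev x' y' h = 0 →
      ∃ ψ : R →ₐ[F] PowerSeries F, ψ x = x' ∧ ψ y = y' := by
    intro x' y' hh
    refine ⟨Ideal.Quotient.liftₐ I (ev x' y') fun p hp => ?_, ?_, ?_⟩
    · obtain ⟨r, rfl⟩ := Ideal.mem_span_singleton.mp hp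
      rw [map_mul, hh, zero_mul]
    · change ev x' y' (C X) = x'
      simp
    · change ev x' y' Y = y'
      simp
  exact stepanov_aux hm3 hm hd hw hq hu0 h0 hs hker hlift

end Pool.Agent.Work.MP_862369_co
end

-- merged part: Pool.Agent.Work.MP_862369_co.Conic
section
/-!
Total degree of factors, and elementary facts on conics.
-/

open Polynomial
open scoped Polynomial.Bivariate

namespace Pool.Agent.Work.MP_862369_co

variable {F : Type} [Field F]

theorem Wt_of_mem {d : ℕ} {p : F[X][Y]} (hp : p ∈ EE F (C X : F[X][Y]) Y d) : Wt d p := by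
  induction hp using Submodule.span_induction with
  | zero => intro k i h; simp at h
  | add a b _ _ h1 h2 =>
    intro k i h
    by_contra hc
    apply h
    have e1 : (a.coeff k).coeff i = 0 := by by_contra h3; exact hc (h1 k i h3)
    have e2 : (b.coeff k).coeff i = 0 := by by_contra h3; exact hc (h2 k i h3)
    simp [e1, e2]
  | smul c a _ h1 =>
    intro k i h
    apply h1 k i
    intro h0
    apply h
    simp [h0]
  | mem a ha =>
    obtain ⟨i', k', hik, rfl⟩ := ha
    intro k i h
    rw [← map_pow, coeff_C_mul, coeff_X_pow] at h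
    split_ifs at h with h1
    · rw [mul_one, coeff_X_pow] at h
      split_ifs at h with h2
      · omega
      · exact (h rfl).elim
    · simp at h

theorem ev_id (p : F[X][Y]) : ev (C X : F[X][Y]) Y p = p := by
  have := ev_ext (AlgHom.id F F[X][Y]) (C X) Y rfl rfl
  rw [← this]; rfl

theorem mem_of_Wt {d : ℕ} {p : F[X][Y]} (hp : Wt d p) : p ∈ EE F (C X : F[X][Y]) Y d := by
  have := ev_mem_EE (C X : F[X][Y]) Y hp
  rwa [ev_id] at this

theorem Wt_iff {d : ℕ} {p : F[X][Y]} :
    Wt d p ↔ (Bivariate.equivMvPolynomial F p).totalDegree ≤ d := by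
  constructor
  · intro hp
    have h1 := ev_ext (Bivariate.equivMvPolynomial F).toAlgHom (.X 0) (.X 1) (by simp) (by simp)
    have h2 : Bivariate.equivMvPolynomial F p = ev (.X 0) (.X 1) p := by rw [← h1]; rfl
    rw [h2, ← MvPolynomial.mem_restrictTotalDegree]
    refine ev_mem _ _ _ p fun k i h => ?_
    rw [MvPolynomial.mem_restrictTotalDegree]
    refine (MvPolynomial.totalDegree_mul _ _).trans ?_
    rw [MvPolynomial.totalDegree_X_pow, MvPolynomial.totalDegree_X_pow]
    exact hp k i h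
  · intro hp
    apply Wt_of_mem
    have h1 : (Bivariate.equivMvPolynomial F).symm.toAlgHom =
        MvPolynomial.aeval ![(C X : F[X][Y]), Y] := by
      ext i : 1
      fin_cases i <;> simp
    have h2 : p = MvPolynomial.aeval ![(C X : F[X][Y]), Y] (Bivariate.equivMvPolynomial F p) := by
      rw [← h1]; simp
    rw [h2, MvPolynomial.aeval_def, MvPolynomial.eval₂_eq']
    refine Submodule.sum_mem _ fun s hs => ?_
    rw [← Algebra.smul_def]
    refine Submodule.smul_mem _ _ ?_
    rw [Fin.prod_univ_two]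
    refine mon_mem _ _ ?_
    have := (MvPolynomial.le_totalDegree hs).trans hp
    rwa [Finsupp.sum_fintype _ _ (fun _ => rfl), Fin.sum_univ_two] at this

theorem Wt_factor {h h' : F[X][Y]} (hm : h.Monic) (hm' : h'.Monic)
    (hw : Wt (h * h').natDegree (h * h')) : Wt h.natDegree h := by
  rw [hm.natDegree_mul hm', Wt_iff, map_mul, MvPolynomial.totalDegree_mul_of_isDomain
    (by simpa using hm.ne_zero) (by simpa using hm'.ne_zero)] at hw
  have := (Wt_iff (p := h')).mpr le_rfl h'.natDegree 0 (by simp [hm'.coeff_natDegree])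
  rw [Wt_iff]
  omega

theorem natDegree_ev_le {d : ℕ} {p : F[X][Y]} (hp : Wt d p) {u v : F[X]} (hu : u.natDegree ≤ 1)
    (hv : v.natDegree ≤ 1) : (ev u v p).natDegree ≤ d := by
  have := ev_mem u v (degreeLE F d) p fun k i h => by
    rw [mem_degreeLE, ← natDegree_le_iff_degree_le]
    have h1 := natDegree_pow_le_of_le i hu
    have h2 := natDegree_pow_le_of_le k hv
    have h3 := hp k i h
    exact natDegree_mul_le.trans (by omega)
  rwa [mem_degreeLE, ← natDegree_le_iff_degree_le] at this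

theorem eval_ev (u v : F[X]) (r : F) (p : F[X][Y]) :
    eval r (ev u v p) = ev (eval r u) (eval r v) p := by
  have := hom_ev (aeval r : F[X] →ₐ[F] F) u v p
  simpa [coe_aeval_eq_eval] using this

theorem ev_CX (t : F) (p : F[X][Y]) : ev (C t) X p = p.map (evalRingHom t) := by
  induction p using Polynomial.induction_on' with
  | add p q hp hq => simp [hp, hq]
  | monomial n a =>
    rw [← C_mul_X_pow_eq_monomial]
    have : aeval (C t : F[X]) a = C (eval t a) := by
      exact aeval_algebraMap_apply_eq_algebraMap_eval (A := F[X]) t a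
    simp [this]

theorem exists_monic_factor {f : F[X][Y]} (hf : f.Monic) (hd : f.natDegree ≠ 0) :
    ∃ h h' : F[X][Y], h.Monic ∧ h'.Monic ∧ Irreducible h ∧ f = h * h' := by
  obtain ⟨i, hi, hif⟩ := WfDvdMonoid.exists_irreducible_factor
    (fun hu : IsUnit f => hd (natDegree_eq_zero_of_isUnit hu)) hf.ne_zero
  obtain ⟨u, hu⟩ := hf.isUnit_leadingCoeff_of_dvd hif
  have hun : IsUnit (C (↑u⁻¹ : F[X]) : F[X][Y]) := (u⁻¹).isUnit.map C
  have hm : (C (↑u⁻¹ : F[X]) * i).Monic :=
    monic_C_mul_of_mul_leadingCoeff_eq_one (by rw [← hu]; simp)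
  obtain ⟨h', hh'⟩ : C (↑u⁻¹ : F[X]) * i ∣ f := (hun.mul_left_dvd).mpr hif
  exact ⟨_, h', hm, hm.of_mul_monic_left (hh' ▸ hf), (irreducible_isUnit_mul hun).mpr hi, hh'⟩

theorem quad_form {h : F[X][Y]} (hm : h.Monic) (hd : h.natDegree = 2) (hw : Wt 2 h) :
    ∃ e1 e0 d2 d1 d0 : F, h = Y ^ 2 + C (C e1 * X + C e0) * Y +
      C (C d2 * X ^ 2 + C d1 * X + C d0) := by
  have z : ∀ k i, 2 < i + k → (h.coeff k).coeff i = 0 := fun k i hik => by
    by_contra hc; have := hw k i hc; omega
  refine ⟨(h.coeff 1).coeff 1, (h.coeff 1).coeff 0, (h.coeff 0).coeff 2, (h.coeff 0).coeff 1,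
    (h.coeff 0).coeff 0, ?_⟩
  have h1 : h.coeff 1 = C ((h.coeff 1).coeff 1) * X + C ((h.coeff 1).coeff 0) :=
    eq_X_add_C_of_natDegree_le_one (natDegree_le_iff_coeff_eq_zero.mpr fun i hi =>
      z 1 i (by omega))
  have h0 : h.coeff 0 = C ((h.coeff 0).coeff 2) * X ^ 2 + C ((h.coeff 0).coeff 1) * X +
      C ((h.coeff 0).coeff 0) :=
    eq_quadratic_of_degree_le_two (natDegree_le_iff_degree_le.mp
      (natDegree_le_iff_coeff_eq_zero.mpr fun i hi => z 0 i (by omega)))
  have h2 : h.coeff 2 = 1 := by rw [← hd]; exact hm.coeff_natDegree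
  rw [← h1, ← h0]
  have := eq_quadratic_of_degree_le_two (p := h) (natDegree_le_iff_degree_le.mp hd.le)
  rw [h2] at this
  simpa using this

/-- a quadratic polynomial in two variables -/
def Qd (A B C D E G u v : F) : F := A * u ^ 2 + B * u * v + C * v ^ 2 + D * u + E * v + G

/-- half discriminant -/
def Dl (A B C D E G : F) : F := 4 * A * C * G + B * D * E - A * E ^ 2 - C * D ^ 2 - G * B ^ 2

/-- no three zeros on a line -/
def NL (A B C D E G : F) : Prop := ∀ u v a b s : F, Qd A B C D E G u v = 0 →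
  Qd A B C D E G (u + a) (v + b) = 0 → Qd A B C D E G (u + s * a) (v + s * b) = 0 →
  (a ≠ 0 ∨ b ≠ 0) → s = 0 ∨ s = 1

theorem three_zeros {A B C D E G u v a b s : F} (h0 : Qd A B C D E G u v = 0)
    (h1 : Qd A B C D E G (u + a) (v + b) = 0) (h2 : Qd A B C D E G (u + s * a) (v + s * b) = 0)
    (hs0 : s ≠ 0) (hs1 : s ≠ 1) : A * a ^ 2 + B * a * b + C * b ^ 2 = 0 ∧
      (2 * A * u + B * v + D) * a + (B * u + 2 * C * v + E) * b = 0 := by
  unfold Qd at *
  have e1 : A * a ^ 2 + B * a * b + C * b ^ 2 = 0 := by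
    apply mul_left_cancel₀ (mul_ne_zero hs0 (sub_ne_zero.mpr hs1))
    linear_combination h2 - s * h1 + (s - 1) * h0
  exact ⟨e1, by linear_combination h1 - h0 - e1⟩

theorem NL_of_Dl {A B C D E G : F} (hD : Dl A B C D E G ≠ 0) : NL A B C D E G := by
  intro u v a b s h0 h1 h2 hab
  by_contra hc
  push Not at hc
  obtain ⟨e1, e2⟩ := three_zeros h0 h1 h2 hc.1 hc.2
  unfold Qd at h0
  unfold Dl at hD
  rcases hab with h | h
  · apply mul_ne_zero hD (pow_ne_zero 2 h)
    linear_combination (-(B * a + 2 * C * b) ^ 2 + 4 * C * (A * a ^ 2 + B * a * b + C * b ^ 2)) * h0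
      + (-C * ((2 * A * u + B * v + D) * a + (B * u + 2 * C * v + E) * b) +
        (B * u + 2 * C * v + E) * (B * a + 2 * C * b)) * e2 - (B * u + 2 * C * v + E) ^ 2 * e1
  · apply mul_ne_zero hD (pow_ne_zero 2 h)
    linear_combination (-(2 * A * a + B * b) ^ 2 + 4 * A * (A * a ^ 2 + B * a * b + C * b ^ 2)) * h0
      + (-A * ((2 * A * u + B * v + D) * a + (B * u + 2 * C * v + E) * b) +
        (2 * A * u + B * v + D) * (2 * A * a + B * b)) * e2 - (2 * A * u + B * v + D) ^ 2 * e1

theorem Dl_of_NL (h2 : (2 : F) ≠ 0) {A B C D E G u v u' v' : F} (hN : NL A B C D E G)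
    (h0 : Qd A B C D E G u v = 0) (h1 : Qd A B C D E G u' v' = 0) (hne : u ≠ u' ∨ v ≠ v') :
    Dl A B C D E G ≠ 0 := by
  intro hD
  have h21 : (2 : F) ≠ 1 := by
    intro h; exact one_ne_zero (by linear_combination h : (1 : F) = 0)
  have key : ∀ a b : F, A * a ^ 2 + B * a * b + C * b ^ 2 = 0 →
      (2 * A * u + B * v + D) * a + (B * u + 2 * C * v + E) * b = 0 → ¬ (a ≠ 0 ∨ b ≠ 0) := by
    intro a b e1 e2 hab
    rcases hN u v a b 2 h0 (by unfold Qd at *; linear_combination h0 + e1 + e2)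
      (by unfold Qd at *; linear_combination h0 + 4 * e1 + 2 * e2) hab with h | h
    · exact h2 h
    · exact h21 h
  by_cases hg : (B * u + 2 * C * v + E) ≠ 0 ∨ -(2 * A * u + B * v + D) ≠ 0
  · refine key _ _ ?_ (by ring) hg
    unfold Qd Dl at *
    linear_combination (4 * A * C - B ^ 2) * h0 - hD
  · push Not at hg
    obtain ⟨g1, g2⟩ := hg
    refine key (u' - u) (v' - v) ?_ (by linear_combination (v' - v) * g1 - (u' - u) * g2) ?_
    · unfold Qd at *
      linear_combination h1 - h0 - (v' - v) * g1 + (u' - u) * g2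
    · exact hne.imp (fun h => sub_ne_zero.mpr h.symm) (fun h => sub_ne_zero.mpr h.symm)

theorem NL_count [Fintype F] {A B C D E G : F} (hN : NL A B C D E G) (Z : Finset (F × F))
    (hZ : ∀ p ∈ Z, Qd A B C D E G p.1 p.2 = 0) : Z.card ≤ Fintype.card F + 2 := by
  classical
  rcases Z.eq_empty_or_nonempty with he | ⟨p0, hp0⟩
  · simp [he]
  have : (Z.erase p0).card ≤ (Finset.univ : Finset (Option F)).card := by
    refine Finset.card_le_card_of_injOn
      (fun p => if p.1 = p0.1 then none else some ((p.2 - p0.2) / (p.1 - p0.1))) (by simp) ?_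
    intro p hp p' hp' hpp
    have hp1 := Finset.mem_erase.mp hp
    have hp2 := Finset.mem_erase.mp hp'
    have hne : p.1 - p0.1 ≠ 0 ∨ p.2 - p0.2 ≠ 0 := by
      by_contra hc
      push Not at hc
      exact hp1.1 (Prod.ext (sub_eq_zero.mp hc.1) (sub_eq_zero.mp hc.2))
    have fin : ∀ s : F, p'.1 = p0.1 + s * (p.1 - p0.1) → p'.2 = p0.2 + s * (p.2 - p0.2) →
        p = p' := by
      intro s e1 e2
      rcases hN p0.1 p0.2 (p.1 - p0.1) (p.2 - p0.2) s (hZ _ hp0)
        (by simpa using hZ _ hp1.2) (by rw [← e1, ← e2]; exact hZ _ hp2.2) hne with h | h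
      · exact (hp2.1 (Prod.ext (by simp [e1, h]) (by simp [e2, h]))).elim
      · exact Prod.ext (by simp [e1, h]) (by simp [e2, h])
    dsimp only at hpp
    split_ifs at hpp with h1 h2 h2
    · have h3 : p.2 - p0.2 ≠ 0 := hne.resolve_left (by simp [h1])
      exact fin ((p'.2 - p0.2) / (p.2 - p0.2)) (by simp [h1, h2]) (by field_simp; ring)
    · have h3 : p.1 - p0.1 ≠ 0 := sub_ne_zero.mpr h1
      have h4 : p'.1 - p0.1 ≠ 0 := sub_ne_zero.mpr h2
      have h5 := Option.some.inj hpp
      rw [div_eq_div_iff h3 h4] at h5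
      exact fin ((p'.1 - p0.1) / (p.1 - p0.1)) (by field_simp; ring)
        (by field_simp; linear_combination -h5)
  rw [Finset.card_erase_of_mem hp0] at this
  simp at this
  omega

theorem NL_of_irr {e1 e0 d2 d1 d0 : F} (hirr : Irreducible
    (Y ^ 2 + C (C e1 * X + C e0) * Y + C (C d2 * X ^ 2 + C d1 * X + C d0) : F[X][Y])) :
    NL d2 e1 1 d1 e0 d0 := by
  intro u v a b s h0 h1 h2 hab
  by_contra hc
  push Not at hc
  obtain ⟨q1, q2⟩ := three_zeros h0 h1 h2 hc.1 hc.2
  have ha : a ≠ 0 := by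
    rintro rfl
    have : b = 0 := by simpa using q1
    simp [this] at hab
  obtain ⟨α, rfl⟩ : ∃ α, b = α * a := ⟨b / a, by field_simp⟩
  have r1 : d2 + e1 * α + α ^ 2 = 0 := by
    apply mul_left_cancel₀ (pow_ne_zero 2 ha); linear_combination q1
  have r2 : (2 * d2 * u + e1 * v + d1) + (e1 * u + 2 * v + e0) * α = 0 := by
    apply mul_left_cancel₀ ha; linear_combination q2
  unfold Qd at h0
  have hroot : IsRoot (Y ^ 2 + C (C e1 * X + C e0) * Y + C (C d2 * X ^ 2 + C d1 * X + C d0) :
      F[X][Y]) (C α * (X - C u) + C v) := by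
    have c1 := congrArg (C : F → F[X]) r1
    have c2 := congrArg (C : F → F[X]) r2
    have c0 := congrArg (C : F → F[X]) h0
    simp only [map_add, map_mul, map_pow, map_zero, map_one, map_ofNat] at c0 c1 c2
    simp only [IsRoot.def, eval_add, eval_mul, eval_pow, eval_X, eval_C]
    linear_combination (X - C u) ^ 2 * c1 + (X - C u) * c2 + c0
  have := degree_eq_one_of_irreducible_of_root hirr hroot
  have h3 : (Y ^ 2 + C (C e1 * X + C e0) * Y + C (C d2 * X ^ 2 + C d1 * X + C d0) :
      F[X][Y]).coeff 2 = 0 := coeff_eq_zero_of_degree_lt (by rw [this]; norm_num)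
  rw [coeff_add, coeff_add, coeff_X_pow_self, coeff_C_mul, coeff_X_of_ne_one (by norm_num),
    coeff_C_of_ne_zero (by norm_num)] at h3
  simp at h3

theorem half [Fintype F] (h2 : (2 : F) ≠ 0) {ι : Type} (T : Finset ι) (t β : ι → F)
    (hβ : ∀ a ∈ T, ∀ b ∈ T, β a = β b → a = b)
    (hcol : ∀ a ∈ T, ∀ b ∈ T, ∀ c ∈ T, b ≠ a → c ≠ a →
      (t a - t b) * (β a - β c) = (t a - t c) * (β a - β b) → b = c)
    {A B C D E G : F} (hN : NL A B C D E G) (hT : ∀ a ∈ T, Qd A B C D E G (t a) (β a) = 0)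
    (hA : A ≠ 0) : 2 * T.card ≤ Fintype.card F + 4 := by
  classical
  let Fx := T.filter fun a => 2 * A * t a + B * β a + D = 0
  let Nf := T.filter fun a => ¬ 2 * A * t a + B * β a + D = 0
  have hF : Fx.card ≤ 2 := by
    by_contra hc
    obtain ⟨a, b, c, ha, hb, hc, hab, hac, hbc⟩ := Finset.two_lt_card_iff.mp (not_le.mp hc)
    rw [Finset.mem_filter] at ha hb hc
    refine hbc (hcol a ha.1 b hb.1 c hc.1 hab.symm hac.symm ?_)
    apply mul_left_cancel₀ (mul_ne_zero h2 hA)
    linear_combination (β a - β c) * (ha.2 - hb.2) - (β a - β b) * (ha.2 - hc.2)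
  have hsum : Fx.card + Nf.card = T.card := Finset.card_filter_add_card_filter_not _
  let Z1 := T.image fun a => (t a, β a)
  let Z2 := Nf.image fun a => (-(B * β a + D) / A - t a, β a)
  have c1 : Z1.card = T.card := Finset.card_image_of_injOn fun a ha b hb hab =>
    hβ a ha b hb (congrArg Prod.snd hab)
  have c2 : Z2.card = Nf.card := Finset.card_image_of_injOn fun a ha b hb hab =>
    hβ a (Finset.mem_filter.mp ha).1 b (Finset.mem_filter.mp hb).1 (congrArg Prod.snd hab)
  have hdis : Disjoint Z1 Z2 := by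
    rw [Finset.disjoint_left]
    intro z hz1 hz2
    obtain ⟨a, ha, rfl⟩ := Finset.mem_image.mp hz1
    obtain ⟨b, hb, hab⟩ := Finset.mem_image.mp hz2
    rw [Finset.mem_filter] at hb
    have := hβ b hb.1 a ha (congrArg Prod.snd hab)
    subst this
    have h1 := congrArg Prod.fst hab
    apply hb.2
    dsimp only at h1
    field_simp at h1
    linear_combination -h1
  have := NL_count hN (Z1 ∪ Z2) (by
    intro z hz
    rcases Finset.mem_union.mp hz with hz | hz
    · obtain ⟨a, ha, rfl⟩ := Finset.mem_image.mp hz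
      exact hT a ha
    · obtain ⟨a, ha, rfl⟩ := Finset.mem_image.mp hz
      have := hT a (Finset.mem_filter.mp ha).1
      unfold Qd at *
      dsimp only
      field_simp
      linear_combination A * this)
  rw [Finset.card_union_of_disjoint hdis] at this
  omega

theorem hyperbola [Fintype F] (h2 : (2 : F) ≠ 0) {ι : Type} (T : Finset ι) (t β : ι → F)
    (ht : ∀ a ∈ T, ∀ b ∈ T, t a = t b → a = b) (hβ : ∀ a ∈ T, ∀ b ∈ T, β a = β b → a = b)
    (hcol : ∀ a ∈ T, ∀ b ∈ T, ∀ c ∈ T, b ≠ a → c ≠ a →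
      (t a - t b) * (β a - β c) = (t a - t c) * (β a - β b) → b = c)
    {A B C D E G : F} (hD : Dl A B C D E G ≠ 0) (hT : ∀ a ∈ T, Qd A B C D E G (t a) (β a) = 0)
    (hc : Fintype.card F + 4 < 2 * T.card) :
    ∃ t0 β0 c : F, c ≠ 0 ∧ ∀ a ∈ T, (t a - t0) * (β a - β0) = c := by
  have hA : A = 0 := by
    by_contra hA
    have := half h2 T t β hβ hcol (NL_of_Dl hD) hT hA
    omega
  have hC : C = 0 := by
    by_contra hC
    have hD' : Dl C B A E D G ≠ 0 := by
      intro h; apply hD; unfold Dl at *; linear_combination h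
    have := half h2 T β t ht (fun a ha b hb c hc h1 h2 h3 =>
      hcol a ha b hb c hc h1 h2 (by linear_combination -h3)) (NL_of_Dl hD')
      (fun a ha => by have := hT a ha; unfold Qd at *; linear_combination this) hC
    omega
  subst hA hC
  unfold Dl at hD
  have hB : B ≠ 0 := by rintro rfl; apply hD; ring
  refine ⟨-E / B, -D / B, (D * E - G * B) / B ^ 2, ?_, fun a ha => ?_⟩
  · refine div_ne_zero (fun h => hD ?_) (pow_ne_zero 2 hB)
    linear_combination B * h
  · have := hT a ha
    unfold Qd at this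
    field_simp
    linear_combination B * this

end Pool.Agent.Work.MP_862369_co
end

-- merged part: Pool.Agent.Work.MP_862369_co.Plane
section
/-!
Segre's lemma of tangents, the envelope of tangents, and near-arcs on a conic.
-/

open Polynomial
open scoped Polynomial.Bivariate

namespace Pool.Agent.Work.MP_862369_co

variable {F : Type} [Field F] {ι : Type}

/-- slope -/
def sl (t β : ι → F) (a b : ι) : F := (t a - t b) / (β a - β b)

theorem sl_comm (t β : ι → F) (a b : ι) : sl t β a b = sl t β b a := by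
  unfold sl
  rw [← neg_sub (t b), ← neg_sub (β b), neg_div_neg_eq]

/-- restriction to the dual line of the point `(t, β)` -/
noncomputable def rho (t β : F) : F[X][Y] →ₐ[F] F[X] := ev (C t - C β * X) X

theorem eval_rho (t β r : F) (p : F[X][Y]) : eval r (rho t β p) = ev (t - β * r) r p := by
  simp [rho, eval_ev]

theorem natDegree_rho {d : ℕ} {p : F[X][Y]} (hp : Wt d p) (t β : F) :
    (rho t β p).natDegree ≤ d :=
  natDegree_ev_le hp (by compute_degree) (by simp)

structure Pts (G : Finset ι) (t β : ι → F) : Prop where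
  hβ : ∀ a ∈ G, ∀ b ∈ G, β a = β b → a = b
  hcol : ∀ a ∈ G, ∀ b ∈ G, ∀ c ∈ G, b ≠ a → c ≠ a →
    (t a - t b) * (β a - β c) = (t a - t c) * (β a - β b) → b = c

theorem Pts.ne {G : Finset ι} {t β : ι → F} (P : Pts G t β) {a b : ι} (ha : a ∈ G) (hb : b ∈ G)
    (hab : b ≠ a) : β a - β b ≠ 0 := fun h => hab (P.hβ a ha b hb (sub_eq_zero.mp h)).symm

theorem Pts.sl_inj {G : Finset ι} {t β : ι → F} (P : Pts G t β) {a b c : ι} (ha : a ∈ G)
    (hb : b ∈ G) (hc : c ∈ G) (hab : b ≠ a) (hac : c ≠ a) (h : sl t β a b = sl t β a c) :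
    b = c := by
  unfold sl at h
  rw [div_eq_div_iff (P.ne ha hb hab) (P.ne ha hc hac)] at h
  exact P.hcol a ha b hb c hc hab hac h

theorem Pts.meet {G : Finset ι} {t β : ι → F} (P : Pts G t β) {a b : ι} (ha : a ∈ G)
    (hb : b ∈ G) (hab : b ≠ a) : t a - β a * sl t β a b = t b - β b * sl t β a b := by
  have := P.ne ha hb hab
  unfold sl
  field_simp
  ring

theorem envelope (h2 : (2 : F) ≠ 0) {G : Finset ι} {t β : ι → F} (P : Pts G t β) {n : ℕ}
    (hn : n + 2 ≤ G.card) (g : ι → F[X]) (hd : ∀ a ∈ G, (g a).natDegree ≤ n)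
    (hs : ∀ a ∈ G, ∀ b ∈ G, b ≠ a → eval (sl t β a b) (g a) = eval (sl t β a b) (g b)) :
    ∃ φ : F[X][Y], Wt n φ ∧ ∀ a ∈ G, rho (t a) (β a) φ = g a := by
  classical
  obtain ⟨E, hEG, hE⟩ := Finset.exists_subset_card_eq hn
  let l : ι → F[X][Y] := fun c => C X + β c • Y - t c • 1
  have hl : ∀ c (u v : F), ev u v (l c) = u + β c * v - t c := by
    intro c u v; simp [l]
  have hlm : ∀ c, l c ∈ EE F (C X : F[X][Y]) Y 1 := by
    intro c
    refine sub_mem (add_mem ?_ (Submodule.smul_mem _ _ ?_))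
      (Submodule.smul_mem _ _ (one_mem_EE _ _ _))
    · simpa using mon_mem (F := F) (C X : F[X][Y]) Y (d := 1) (i := 1) (k := 0) le_rfl
    · simpa using mon_mem (F := F) (C X : F[X][Y]) Y (d := 1) (i := 0) (k := 1) le_rfl
  have hprod : ∀ s : Finset ι, ∏ c ∈ s, l c ∈ EE F (C X : F[X][Y]) Y s.card := by
    intro s
    induction s using Finset.induction_on with
    | empty => simpa using one_mem_EE (F := F) (C X : F[X][Y]) Y 0
    | insert a s ha ih =>
      rw [Finset.prod_insert ha, Finset.card_insert_of_notMem ha, add_comm]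
      exact EE_mul _ _ (hlm a) ih
  let zv : ι → ι → F[X][Y] →ₐ[F] F := fun a b => ev (t a - β a * sl t β a b) (sl t β a b)
  have zsym : ∀ a ∈ G, ∀ b ∈ G, b ≠ a → zv a b = zv b a := by
    intro a ha b hb hab
    simp only [zv]
    rw [P.meet ha hb hab, sl_comm t β b a]
  have za : ∀ a b, zv a b (l a) = 0 := by intro a b; simp only [zv, hl]; ring
  have zb : ∀ a ∈ G, ∀ b ∈ G, b ≠ a → zv a b (l b) = 0 := by
    intro a ha b hb hab; rw [zsym a ha b hb hab]; exact za b a
  have zc : ∀ a ∈ G, ∀ b ∈ G, ∀ c ∈ G, b ≠ a → c ≠ a → c ≠ b → zv a b (l c) ≠ 0 := by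
    intro a ha b hb c hc hab hac hbc h0
    simp only [zv, hl] at h0
    apply hbc
    refine (P.sl_inj ha hb hc hab hac ?_).symm
    have := P.ne ha hc hac
    rw [show sl t β a c = (t a - t c) / (β a - β c) from rfl, eq_div_iff this]
    linear_combination -h0
  let L : ι → ι → F[X][Y] := fun a b => ∏ c ∈ (E.erase a).erase b, l c
  have hL : ∀ a ∈ E, ∀ b ∈ E.erase a, zv a b (L a b) ≠ 0 := by
    intro a ha b hb
    simp only [L, map_prod]
    rw [Finset.mem_erase] at hb
    refine Finset.prod_ne_zero_iff.mpr fun c hc => ?_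
    simp only [Finset.mem_erase] at hc
    exact zc a (hEG ha) b (hEG hb.2) c (hEG hc.2.2) hb.1 hc.2.1 hc.1
  let φ : F[X][Y] := ∑ a ∈ E, ∑ b ∈ E.erase a,
    (eval (sl t β a b) (g a) / 2 / zv a b (L a b)) • L a b
  have hφw : Wt n φ := by
    apply Wt_of_mem
    refine Submodule.sum_mem _ fun a ha => Submodule.sum_mem _ fun b hb =>
      Submodule.smul_mem _ _ ?_
    have := hprod ((E.erase a).erase b)
    rwa [Finset.card_erase_of_mem hb, Finset.card_erase_of_mem ha, hE] at this
  have hφ : ∀ a ∈ E, ∀ b ∈ E.erase a, zv a b φ = eval (sl t β a b) (g a) := by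
    intro a ha b hb
    have hb' := Finset.mem_erase.mp hb
    have ha' : a ∈ E.erase b := Finset.mem_erase.mpr ⟨hb'.1.symm, ha⟩
    have van : ∀ a' b', (a ≠ a' ∧ a ≠ b') ∨ (b ≠ a' ∧ b ≠ b') → zv a b (L a' b') = 0 := by
      intro a' b' h
      simp only [L, map_prod]
      rcases h with h | h
      · exact Finset.prod_eq_zero (i := a) (by simp [h.1, h.2, ha]) (za a b)
      · exact Finset.prod_eq_zero (i := b) (by simp [h.1, h.2, hb'.2])
          (zb a (hEG ha) b (hEG hb'.2) hb'.1)
    simp only [φ, map_sum, map_smul, smul_eq_mul]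
    rw [Finset.sum_eq_add_of_mem a b ha hb'.2 hb'.1.symm, Finset.sum_eq_single_of_mem b hb,
      Finset.sum_eq_single_of_mem a ha', div_mul_cancel₀ _ (hL a ha b hb),
      zsym a (hEG ha) b (hEG hb'.2) hb'.1, div_mul_cancel₀ _ (hL b hb'.2 a ha'),
      sl_comm t β b a, ← hs a (hEG ha) b (hEG hb'.2) hb'.1]
    · field_simp; ring
    · intro c _ hc
      rw [van b c (Or.inl ⟨hb'.1.symm, hc.symm⟩), mul_zero]
    · intro c _ hc
      rw [van a c (Or.inr ⟨hb'.1, hc.symm⟩), mul_zero]
    · intro c _ hc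
      refine Finset.sum_eq_zero fun d _ => ?_
      by_cases had : a = d
      · rw [van c d (Or.inr ⟨hc.2.symm, fun h => hb'.1 (h.trans had.symm)⟩), mul_zero]
      · rw [van c d (Or.inl ⟨hc.1.symm, had⟩), mul_zero]
  have fin : ∀ a ∈ G, (∀ b ∈ E.erase a, zv a b φ = eval (sl t β a b) (g a)) →
      rho (t a) (β a) φ = g a := by
    intro a ha h
    refine eq_of_natDegree_lt_card_of_eval_eq' _ _ ((E.erase a).image (sl t β a)) ?_ ?_
    · intro r hr
      obtain ⟨b, hb, rfl⟩ := Finset.mem_image.mp hr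
      rw [eval_rho]; exact h b hb
    · rw [Finset.card_image_of_injOn]
      · have h1 := natDegree_rho hφw (t a) (β a)
        have h2 := hd a ha
        have h3 := Finset.pred_card_le_card_erase (s := E) (a := a)
        omega
      · intro b hb c hc hbc
        have hb' := Finset.mem_erase.mp hb
        have hc' := Finset.mem_erase.mp hc
        exact P.sl_inj ha (hEG hb'.2) (hEG hc'.2) hb'.1 hc'.1 hbc
  refine ⟨φ, hφw, fun a ha => fin a ha fun b hb => ?_⟩
  by_cases haE : a ∈ E
  · exact hφ a haE b hb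
  · have hb' := Finset.mem_erase.mp hb
    have hbG := hEG hb'.2
    rw [zsym a ha b hbG hb'.1, hs a ha b hbG hb'.1, ← fin b hbG (hφ b hb'.2), eval_rho,
      sl_comm t β a b]

theorem dvd_sq_prod {p : F[X]} {T : Finset F} [DecidablePred fun r => eval r p = 0]
    (h : p ∣ (∏ r ∈ T, (X - C r)) ^ 2) :
    p ∣ (∏ r ∈ T.filter (fun r => eval r p = 0), (X - C r)) ^ 2 := by
  rw [← Finset.prod_filter_mul_prod_filter_not T (fun r => eval r p = 0), mul_pow] at h
  refine IsCoprime.dvd_of_dvd_mul_right (IsCoprime.pow_right (IsCoprime.prod_right ?_)) h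
  intro r hr
  refine ((irreducible_X_sub_C r).coprime_iff_not_dvd.mpr ?_).symm
  rw [dvd_iff_isRoot]
  exact (Finset.mem_filter.mp hr).2

theorem natDegree_prodXC (T : Finset F) : (∏ r ∈ T, (X - C r)).natDegree = T.card := by
  rw [natDegree_prod_of_monic _ _ fun r _ => monic_X_sub_C r]; simp

theorem eq_C_mul_of_dvd {p q : F[X]} (hq : q.Monic) (h : p ∣ q) (hd : q.natDegree ≤ p.natDegree) :
    ∃ c : F, c ≠ 0 ∧ p = C c * q := by
  obtain ⟨s, hs⟩ := h
  have hp : p ≠ 0 := by rintro rfl; exact hq.ne_zero (by simpa using hs)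
  have hs0 : s ≠ 0 := by rintro rfl; exact hq.ne_zero (by simpa using hs)
  have := natDegree_mul hp hs0
  rw [← hs] at this
  obtain ⟨c, rfl⟩ := natDegree_eq_zero.mp (by omega : s.natDegree = 0)
  have hc : c ≠ 0 := by rintro rfl; simp at hs0
  refine ⟨c⁻¹, inv_ne_zero hc, ?_⟩
  rw [hs, mul_comm p, ← mul_assoc, ← map_mul, inv_mul_cancel₀ hc]; simp

theorem planar [Fintype F] (h2 : (2 : F) ≠ 0) {G : Finset ι} {t β : ι → F} (P : Pts G t β)
    {a0 : ι} (ha0 : a0 ∈ G) (hβ0 : β a0 = 0) (j : ℕ) :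
    ∀ (g : ι → F[X]) (T : ι → Finset F) (κ : ι → F), 132 * j ^ 2 < Fintype.card F →
      4 * Fintype.card F + 152 * j < 5 * G.card → 2 * j + 3 ≤ G.card →
      (∀ a ∈ G, (T a).card = j) → (∀ a ∈ G, κ a ≠ 0) →
      (∀ a ∈ G, g a = C (κ a) * ∏ r ∈ T a, (X - C r)) →
      (∀ a ∈ G, ∀ b ∈ G, b ≠ a → eval (sl t β a b) (g a) ≠ 0) →
      (∀ a ∈ G, ∀ b ∈ G, b ≠ a → eval (sl t β a b) (g a) = -eval (sl t β a b) (g b)) →
    ∃ A B C D E H : F, Dl A B C D E H ≠ 0 ∧ ∃ S ⊆ G, (∀ a ∈ S, Qd A B C D E H (t a) (β a) = 0) ∧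
      2 * G.card ≤ S.card + Fintype.card F + 2 := by
  classical
  induction j with
  | zero =>
    intro g T κ _ _ h3 hT hκ hg _ hs
    exfalso
    obtain ⟨a, b, c, ha, hb, hc, hab, hac, hbc⟩ :=
      Finset.two_lt_card_iff.mp (by omega : 2 < G.card)
    have e : ∀ a ∈ G, ∀ r, eval r (g a) = κ a := by
      intro a ha r
      rw [hg a ha, Finset.card_eq_zero.mp (hT a ha)]; simp
    have e1 := hs a ha b hb hab.symm
    have e2 := hs a ha c hc hac.symm
    have e3 := hs b hb c hc hbc.symm
    rw [e a ha, e b hb] at e1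
    rw [e a ha, e c hc] at e2
    rw [e b hb, e c hc] at e3
    exact mul_ne_zero h2 (hκ a ha) (by linear_combination e1 + e2 - e3)
  | succ j ih =>
    intro g T κ hq h1 h3 hT hκ hg hn hs
    have hgd : ∀ a ∈ G, (g a ^ 2).natDegree = 2 * (j + 1) := by
      intro a ha
      rw [natDegree_pow, hg a ha, natDegree_C_mul (hκ a ha), natDegree_prodXC, hT a ha]
    obtain ⟨φ, hφw, hφ⟩ := envelope h2 P (n := 2 * (j + 1)) (by omega) (fun a => g a ^ 2)
      (fun a ha => (hgd a ha).le) (fun a ha b hb hab => by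
        simp only [eval_pow]; rw [hs a ha b hb hab]; ring)
    have hz : ∀ k i, 2 * (j + 1) < i + k → (φ.coeff k).coeff i = 0 := fun k i hik => by
      by_contra hc; have := hφw k i hc; omega
    obtain ⟨c0, hc0⟩ : ∃ c0, φ.coeff (2 * (j + 1)) = C c0 :=
      ⟨_, eq_C_of_natDegree_le_zero (natDegree_le_iff_coeff_eq_zero.mpr fun i hi =>
        hz _ i (by omega))⟩
    have hc00 : c0 ≠ 0 := by
      have e := hφ a0 ha0
      simp only [rho, hβ0, map_zero, zero_mul, sub_zero, ev_CX] at e
      have e2 := congrArg (fun p => p.coeff (2 * (j + 1))) e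
      simp only [coeff_map, hc0, coe_evalRingHom, eval_C] at e2
      rw [e2, ← hgd a0 ha0]
      exact leadingCoeff_ne_zero.mpr (fun h0 => by have := hgd a0 ha0; simp [h0] at this)
    have hfd : (c0⁻¹ • φ).natDegree ≤ 2 * (j + 1) :=
      natDegree_le_iff_coeff_eq_zero.mpr fun k hk => by
        rw [coeff_smul]
        ext i
        simp [hz k i (by omega)]
    have hf1 : (c0⁻¹ • φ).coeff (2 * (j + 1)) = 1 := by
      rw [coeff_smul, hc0, smul_C, smul_eq_mul, inv_mul_cancel₀ hc00, map_one]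
    have hfm : (c0⁻¹ • φ).Monic := monic_of_natDegree_le_of_coeff_eq_one _ hfd hf1
    have hfd' : (c0⁻¹ • φ).natDegree = 2 * (j + 1) :=
      le_antisymm hfd (le_natDegree_of_ne_zero (by rw [hf1]; exact one_ne_zero))
    have hfw : Wt (2 * (j + 1)) (c0⁻¹ • φ) :=
      Wt_of_mem (Submodule.smul_mem _ _ (mem_of_Wt hφw))
    obtain ⟨h, h', hm, hm', hirr, hh⟩ := exists_monic_factor hfm (by omega)
    have hw : Wt h.natDegree h := Wt_factor hm hm' (by rw [← hh, hfd']; exact hfw)
    have hw' : Wt h'.natDegree h' := Wt_factor hm' hm (by rw [mul_comm, ← hh, hfd']; exact hfw)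
    have hdd : h.natDegree + h'.natDegree = 2 * (j + 1) := by
      rw [← hm.natDegree_mul hm', ← hh, hfd']
    have hm0 : 0 < h.natDegree := Nat.pos_of_ne_zero fun h0 =>
      hirr.not_isUnit (by rw [eq_one_of_monic_natDegree_zero hm h0]; exact isUnit_one)
    generalize hmd : h.natDegree = m at *
    let p : ι → F[X] := fun a => rho (t a) (β a) h
    have hp : ∀ a ∈ G, p a * rho (t a) (β a) h' = c0⁻¹ • g a ^ 2 := by
      intro a ha
      rw [← map_mul, ← hh, map_smul, hφ a ha]
    have hpd : ∀ a ∈ G, (p a).natDegree = m := by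
      intro a ha
      have e1 := natDegree_rho hw (t a) (β a)
      have e2 := natDegree_rho hw' (t a) (β a)
      have e3 := natDegree_mul_le (p := p a) (q := rho (t a) (β a) h')
      rw [hp a ha, natDegree_smul _ (inv_ne_zero hc00), hgd a ha] at e3
      change (p a).natDegree ≤ m at e1
      omega
    let T' : ι → Finset F := fun a => (T a).filter fun r => eval r (p a) = 0
    have hpv : ∀ a ∈ G, p a ∣ (∏ r ∈ T' a, (X - C r)) ^ 2 := by
      intro a ha
      apply dvd_sq_prod
      refine ⟨C (c0 * (κ a)⁻¹ ^ 2) * rho (t a) (β a) h', ?_⟩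
      rw [mul_left_comm, hp a ha, hg a ha, smul_eq_C_mul, mul_pow, ← mul_assoc, ← mul_assoc,
        ← map_pow, ← map_mul, ← map_mul]
      have := hκ a ha
      rw [show c0 * (κ a)⁻¹ ^ 2 * c0⁻¹ * κ a ^ 2 = 1 by field_simp]
      simp
    have hT' : ∀ a ∈ G, m ≤ 2 * (T' a).card := by
      intro a ha
      have := natDegree_le_of_dvd (hpv a ha)
        (pow_ne_zero _ (monic_prod_of_monic _ _ fun r _ => monic_X_sub_C r).ne_zero)
      rwa [hpd a ha, natDegree_pow, natDegree_prodXC] at this
    have hroot : ∀ a ∈ G, ∀ r ∈ T a, eval r (g a) = 0 := by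
      intro a ha r hr
      rw [hg a ha, eval_mul, eval_prod, Finset.prod_eq_zero hr (by simp), mul_zero]
    let Z := Finset.univ.filter fun z : F × F => ev z.1 z.2 h = 0
    have hcount : ∑ a ∈ G, (T' a).card ≤ Z.card := by
      rw [← Finset.card_sigma]
      refine Finset.card_le_card_of_injOn (fun z => (t z.1 - β z.1 * z.2, z.2)) ?_ ?_
      · intro z hz
        simp only [Finset.coe_sigma, Set.mem_sigma_iff, Finset.mem_coe, T',
          Finset.mem_filter] at hz
        simp only [Z, Finset.coe_filter, Finset.mem_univ, true_and, Set.mem_ofPred_eq]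
        rw [← eval_rho]; exact hz.2.2
      · rintro ⟨a, r⟩ hz ⟨b, r'⟩ hz' hzz
        simp only [Finset.coe_sigma, Set.mem_sigma_iff, Finset.mem_coe, T',
          Finset.mem_filter] at hz hz'
        simp only [Prod.mk.injEq] at hzz
        obtain ⟨e1, rfl⟩ := hzz
        by_cases hab : b = a
        · subst hab; rfl
        · exfalso
          apply hn a hz.1 b hz'.1 hab
          have : sl t β a b = r := by
            unfold sl
            rw [div_eq_iff (P.ne hz.1 hz'.1 hab)]
            linear_combination e1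
          rw [this]
          exact hroot a hz.1 r hz.2.1
    have hcount2 : G.card * m ≤ 2 * Z.card := by
      refine le_trans ?_ (Nat.mul_le_mul_left 2 hcount)
      rw [Finset.mul_sum, ← smul_eq_mul, ← Finset.sum_const]
      exact Finset.sum_le_sum hT'
    rcases (by omega : m = 1 ∨ m = 2 ∨ 3 ≤ m) with rfl | rfl | hm3
    · have : ∀ a ∈ G, ∃ r ∈ T a, ∃ c : F, c ≠ 0 ∧ p a = C c * (X - C r) := by
        intro a ha
        obtain ⟨r, hr⟩ := Finset.card_pos.mp (by have := hT' a ha; omega : 0 < (T' a).card)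
        rw [Finset.mem_filter] at hr
        obtain ⟨s, hs⟩ := dvd_iff_isRoot.mpr hr.2
        have hp0 : p a ≠ 0 := fun h0 => by have := hpd a ha; simp [h0] at this
        have hs0 : s ≠ 0 := by rintro rfl; exact hp0 (by simpa using hs)
        have e := natDegree_mul (X_sub_C_ne_zero r) hs0
        rw [← hs, hpd a ha, natDegree_X_sub_C] at e
        obtain ⟨c, rfl⟩ := natDegree_eq_zero.mp (by omega : s.natDegree = 0)
        exact ⟨r, hr.1, c, fun h0 => hs0 (by simp [h0]), by rw [hs, mul_comm]⟩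
      choose! r hr c hc hpc using this
      have hgp : ∀ a ∈ G, g a = p a * (C (κ a / c a) * ∏ s ∈ (T a).erase (r a), (X - C s)) := by
        intro a ha
        rw [hg a ha, hpc a ha, ← Finset.mul_prod_erase _ _ (hr a ha), mul_mul_mul_comm,
          ← map_mul, mul_div_cancel₀ _ (hc a ha)]
      refine ih (fun a => C (κ a / c a) * ∏ s ∈ (T a).erase (r a), (X - C s))
        (fun a => (T a).erase (r a)) (fun a => κ a / c a) (by nlinarith) (by omega) (by omega)
        (fun a ha => by rw [Finset.card_erase_of_mem (hr a ha), hT a ha]; rfl)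
        (fun a ha => div_ne_zero (hκ a ha) (hc a ha)) (fun a _ => rfl) ?_ ?_
      · intro a ha b hb hab h0
        apply hn a ha b hb hab
        rw [hgp a ha, eval_mul, h0, mul_zero]
      · intro a ha b hb hab
        have e1 := hs a ha b hb hab
        have e2 := hn a ha b hb hab
        have e3 : eval (sl t β a b) (p b) = eval (sl t β a b) (p a) := by
          simp only [p, eval_rho, P.meet ha hb hab]
        rw [hgp a ha, eval_mul] at e1 e2
        rw [hgp b hb, eval_mul (p := p b), e3] at e1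
        apply mul_left_cancel₀ (left_ne_zero_of_mul e2)
        linear_combination e1
    · obtain ⟨e1, e0, d2, d1, d0, rfl⟩ := quad_form hm hmd hw
      have hN := NL_of_irr hirr
      have hZ : ∀ z ∈ Z, Qd d2 e1 1 d1 e0 d0 z.1 z.2 = 0 := by
        intro z hz
        have := (Finset.mem_filter.mp hz).2
        simp only [map_add, map_mul, map_pow, ev_C, ev_Y, aeval_C, aeval_X] at this
        unfold Qd
        simp only [Algebra.algebraMap_self, RingHom.id_apply] at this
        linear_combination this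
      have hZc := NL_count hN Z hZ
      obtain ⟨z, hz, z', hz', hzz⟩ := Finset.one_lt_card.mp (by omega : 1 < Z.card)
      have hD := Dl_of_NL h2 hN (hZ z hz) (hZ z' hz') (by
        by_contra hc
        push Not at hc
        exact hzz (Prod.ext hc.1 hc.2))
      refine ⟨e1 ^ 2 - 4 * d2, 2 * e1 * d1 - 4 * e0 * d2, d1 ^ 2 - 4 * d0 * d2,
        2 * e0 * e1 - 4 * d1, -2 * e0 * d1 + 4 * e1 * d0, e0 ^ 2 - 4 * d0, ?_,
        G.filter fun a => (T' a).card = 1, Finset.filter_subset _ _, ?_, ?_⟩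
      · intro h0
        apply mul_ne_zero (pow_ne_zero 4 h2) (pow_ne_zero 2 hD)
        unfold Dl at *
        linear_combination -h0
      · intro a ha
        rw [Finset.mem_filter] at ha
        obtain ⟨r, hr⟩ := Finset.card_eq_one.mp ha.2
        have e := hpv a ha.1
        rw [hr, Finset.prod_singleton] at e
        obtain ⟨c, _, hc⟩ := eq_C_mul_of_dvd ((monic_X_sub_C r).pow 2) e
          (by rw [hpd a ha.1, natDegree_pow, natDegree_X_sub_C])
        have v0 := congrArg (eval 0) hc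
        have v1 := congrArg (eval 1) hc
        have v2 := congrArg (eval (-1)) hc
        simp only [p, eval_rho] at v0 v1 v2
        simp only [map_add, map_mul, map_pow, ev_C, ev_Y, aeval_C, aeval_X,
          Algebra.algebraMap_self, RingHom.id_apply, eval_mul, eval_C, eval_pow, eval_sub,
          eval_X] at v0 v1 v2
        have w0 : d2 * t a ^ 2 + d1 * t a + d0 = c * r ^ 2 := by linear_combination v0
        have w1 : e1 * t a + e0 - 2 * d2 * t a * β a - d1 * β a = -2 * c * r := by
          apply mul_left_cancel₀ h2; linear_combination v1 - v2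
        have w2 : 1 - e1 * β a + d2 * β a ^ 2 = c := by
          apply mul_left_cancel₀ h2; linear_combination v1 + v2 - 2 * v0
        have w3 : (e1 * t a + e0 - 2 * d2 * t a * β a - d1 * β a) ^ 2 -
            4 * (1 - e1 * β a + d2 * β a ^ 2) * (d2 * t a ^ 2 + d1 * t a + d0) = 0 := by
          rw [w0, w1, w2]; ring
        unfold Qd
        linear_combination w3
      · have e1 : ∑ a ∈ G, 2 ≤ ∑ a ∈ G, ((if (T' a).card = 1 then 1 else 0) + (T' a).card) :=
          Finset.sum_le_sum fun a ha => by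
            have := hT' a ha
            split_ifs <;> omega
        rw [Finset.sum_add_distrib, ← Finset.card_filter, Finset.sum_const, smul_eq_mul] at e1
        omega
    · exfalso
      have hS := stepanov h2 hm3 hm hmd hw hirr (by nlinarith only [hq, hmd, hdd])
      have : Z.card = (Finset.univ.filter fun p : F × F => ev p.1 p.2 h = 0).card := by
        congr
      rw [← this] at hS
      have e1 : m * (5 * G.card) ≤ m * (4 * Fintype.card F + 76 * m) := by linarith only [hcount2, hS]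
      have e2 := Nat.le_of_mul_le_mul_left e1 hm0
      omega

theorem prod_erase_sub [Fintype F] [DecidableEq F] (s : F) :
    ∏ r ∈ Finset.univ.erase s, (s - r) = ∏ r ∈ Finset.univ.erase (0 : F), r := by
  refine Finset.prod_bij (fun r _ => s - r) ?_ ?_ ?_ (fun _ _ => rfl)
  · intro r hr
    simp only [Finset.mem_erase, Finset.mem_univ, and_true] at hr ⊢
    exact sub_ne_zero.mpr (Ne.symm hr)
  · intro a _ b _ h
    exact sub_right_injective h
  · intro b hb
    simp only [Finset.mem_erase, Finset.mem_univ, and_true] at hb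
    exact ⟨s - b, by simpa using hb, by simp⟩

/-- The good points of a near-arc through the two points at infinity of the axes lie, for the
most part, on a hyperbola. -/
theorem near_arc [Fintype F] (h2 : (2 : F) ≠ 0) {A G : Finset ι} (hGA : G ⊆ A) (t β : ι → F)
    (hβ : ∀ a ∈ A, ∀ b ∈ A, β a = β b → a = b)
    (ht : ∀ a ∈ G, ∀ b ∈ A, t a = t b → a = b)
    (hcol : ∀ a ∈ G, ∀ b ∈ A, ∀ c ∈ A, b ≠ a → c ≠ a →
      (t a - t b) * (β a - β c) = (t a - t c) * (β a - β b) → b = c)
    {j : ℕ} (hj : A.card + j = Fintype.card F) (hq : 132 * j ^ 2 < Fintype.card F)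
    (h1 : 4 * Fintype.card F + 152 * j < 5 * G.card) (h3 : 2 * j + 3 ≤ G.card)
    (h4 : 3 * Fintype.card F + 8 < 4 * G.card) :
    ∃ t0 β0 c : F, c ≠ 0 ∧ ∃ S ⊆ G, (∀ a ∈ S, (t a - t0) * (β a - β0) = c) ∧
      2 * G.card ≤ S.card + Fintype.card F + 2 := by
  classical
  obtain ⟨a0, ha0⟩ := Finset.card_pos.mp (by omega : 0 < G.card)
  obtain ⟨β', hβ'⟩ : ∃ β' : ι → F, ∀ a, β' a = β a - β a0 := ⟨_, fun _ => rfl⟩
  have hd : ∀ a b, β' a - β' b = β a - β b := fun a b => by rw [hβ', hβ']; ring
  have P : Pts G t β' := ⟨fun a ha b hb h => hβ a (hGA ha) b (hGA hb)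
      (by rw [← sub_eq_zero, ← hd, h, sub_self]),
    fun a ha b hb c hc h1 h2 h3 => hcol a ha b (hGA hb) c (hGA hc) h1 h2 (by rwa [hd, hd] at h3)⟩
  have hne : ∀ a ∈ A, ∀ b ∈ A, b ≠ a → β a - β b ≠ 0 := fun a ha b hb hab h =>
    hab (hβ a ha b hb (sub_eq_zero.mp h)).symm
  have hsl : ∀ a b, sl t β' a b = (t a - t b) / (β a - β b) := fun a b => by rw [sl, hd]
  have hinj : ∀ a ∈ G, Set.InjOn (sl t β' a) (A.erase a) := by
    intro a ha b hb c hc h
    have hb' := Finset.mem_erase.mp hb
    have hc' := Finset.mem_erase.mp hc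
    rw [hsl, hsl, div_eq_div_iff (hne a (hGA ha) b hb'.2 hb'.1)
      (hne a (hGA ha) c hc'.2 hc'.1)] at h
    exact hcol a ha b hb'.2 c hc'.2 hb'.1 hc'.1 h
  have hnz : ∀ a ∈ G, ∀ b ∈ A.erase a, sl t β' a b ≠ 0 := by
    intro a ha b hb h
    have hb' := Finset.mem_erase.mp hb
    rw [hsl, div_eq_zero_iff] at h
    rcases h with h | h
    · exact hb'.1 (ht a ha b hb'.2 (sub_eq_zero.mp h)).symm
    · exact hne a (hGA ha) b hb'.2 hb'.1 h
  let Sl : ι → Finset F := fun a => insert 0 ((A.erase a).image (sl t β' a))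
  have hSl0 : ∀ a ∈ G, (0 : F) ∉ (A.erase a).image (sl t β' a) := by
    intro a ha h
    obtain ⟨b, hb, h⟩ := Finset.mem_image.mp h
    exact hnz a ha b hb h
  let T : ι → Finset F := fun a => Finset.univ \ Sl a
  let π : ι → F := fun a => ∏ c ∈ A.erase a, (β a - β c)
  have hπ : ∀ a ∈ G, π a ≠ 0 := fun a ha => Finset.prod_ne_zero_iff.mpr fun c hc =>
    hne a (hGA ha) c (Finset.mem_erase.mp hc).2 (Finset.mem_erase.mp hc).1
  let g : ι → F[X] := fun a => C (π a)⁻¹ * ∏ r ∈ T a, (X - C r)
  let w : F := ∏ r ∈ Finset.univ.erase (0 : F), r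
  have hw : w ≠ 0 := Finset.prod_ne_zero_iff.mpr fun r hr => (Finset.mem_erase.mp hr).1
  have key : ∀ a ∈ G, ∀ b ∈ G, b ≠ a → eval (sl t β' a b) (g a) * (t a - t b) *
      ∏ c ∈ (A.erase a).erase b,
        ((t a - t b) * (β a - β c) / (β a - β b) - (t a - t c)) = w := by
    intro a ha b hb hab
    have hb' : b ∈ A.erase a := Finset.mem_erase.mpr ⟨hab, hGA hb⟩
    have hs : sl t β' a b ∈ Sl a := Finset.mem_insert_of_mem (Finset.mem_image_of_mem _ hb')
    have e1 : Finset.univ.erase (sl t β' a b) =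
        T a ∪ insert 0 (((A.erase a).erase b).image (sl t β' a)) := by
      ext r
      simp only [T, Sl, Finset.mem_erase, Finset.mem_univ, and_true, Finset.mem_union,
        Finset.mem_sdiff, true_and, Finset.mem_insert, Finset.mem_image]
      constructor
      · intro hr
        by_cases h0 : r = 0
        · exact Or.inr (Or.inl h0)
        by_cases h1 : ∃ c, (c ≠ a ∧ c ∈ A) ∧ sl t β' a c = r
        · obtain ⟨c, hc, rfl⟩ := h1
          exact Or.inr (Or.inr ⟨c, ⟨fun h => hr (by rw [h]), hc⟩, rfl⟩)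
        · exact Or.inl (by rintro (h | h); exacts [h0 h, h1 h])
      · rintro (h | h | ⟨c, hc, rfl⟩)
        · rintro rfl
          exact h (Or.inr ⟨b, ⟨hab, hGA hb⟩, rfl⟩)
        · rw [h]; exact (hnz a ha b hb').symm
        · intro h
          exact hc.1 (hinj a ha (Finset.mem_erase.mpr hc.2) hb' h)
    have e2 := prod_erase_sub (sl t β' a b)
    rw [e1, Finset.prod_union, Finset.prod_insert, Finset.prod_image] at e2
    · change _ = w at e2
      rw [← e2]
      simp only [g, eval_mul, eval_C, eval_prod, eval_sub, eval_X, π]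
      rw [← Finset.mul_prod_erase _ _ hb']
      have e3 : ∏ c ∈ (A.erase a).erase b,
          ((t a - t b) * (β a - β c) / (β a - β b) - (t a - t c)) =
          (∏ c ∈ (A.erase a).erase b, (β a - β c)) *
            ∏ c ∈ (A.erase a).erase b, (sl t β' a b - sl t β' a c) := by
        rw [← Finset.prod_mul_distrib]
        refine Finset.prod_congr rfl fun c hc => ?_
        have hc' := Finset.mem_erase.mp (Finset.mem_erase.mp hc).2
        have := hne a (hGA ha) c hc'.2 hc'.1
        rw [hsl, hsl]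
        field_simp
      have e4 : ∏ c ∈ (A.erase a).erase b, (β a - β c) ≠ 0 :=
        Finset.prod_ne_zero_iff.mpr fun c hc => by
          have hc' := Finset.mem_erase.mp (Finset.mem_erase.mp hc).2
          exact hne a (hGA ha) c hc'.2 hc'.1
      have e5 := hne a (hGA ha) b (hGA hb) hab
      rw [e3, sub_zero]
      generalize ∏ r ∈ T a, (sl t β' a b - r) = u1
      generalize ∏ c ∈ (A.erase a).erase b, (sl t β' a b - sl t β' a c) = u2
      rw [hsl]
      field_simp
    · exact (hinj a ha).mono (Finset.coe_subset.mpr (Finset.erase_subset _ _))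
    · intro h
      exact hSl0 a ha (Finset.image_subset_image (Finset.erase_subset _ _) h)
    · refine Finset.disjoint_of_subset_right ?_ Finset.sdiff_disjoint
      exact Finset.insert_subset_insert _ (Finset.image_subset_image (Finset.erase_subset _ _))
  have f1 : ∀ a ∈ G, (T a).card = j := by
    intro a ha
    have := Finset.card_pos.mpr ⟨a, hGA ha⟩
    rw [Finset.card_univ_sdiff, Finset.card_insert_of_notMem (hSl0 a ha),
      Finset.card_image_of_injOn (hinj a ha), Finset.card_erase_of_mem (hGA ha)]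
    omega
  have f2 : ∀ a ∈ G, ∀ b ∈ G, b ≠ a → eval (sl t β' a b) (g a) ≠ 0 := by
    intro a ha b hb hab h0
    apply hw
    rw [← key a ha b hb hab, h0, zero_mul, zero_mul]
  have f3 : ∀ a ∈ G, ∀ b ∈ G, b ≠ a →
      eval (sl t β' a b) (g a) = -eval (sl t β' a b) (g b) := by
    intro a ha b hb hab
    have k1 := key a ha b hb hab
    have k2 := key b hb a ha hab.symm
    have e5 := hne a (hGA ha) b (hGA hb) hab
    have e6 := hne b (hGA hb) a (hGA ha) hab.symm
    rw [Finset.erase_right_comm, sl_comm t β' b a, Finset.prod_congr rfl (g := fun c =>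
      (t a - t b) * (β a - β c) / (β a - β b) - (t a - t c))] at k2
    · have e7 : (t a - t b) * ∏ c ∈ (A.erase a).erase b,
          ((t a - t b) * (β a - β c) / (β a - β b) - (t a - t c)) ≠ 0 := by
        rw [mul_assoc] at k1
        exact right_ne_zero_of_mul (k1 ▸ hw)
      apply mul_right_cancel₀ e7
      linear_combination k1 - k2
    · intro c _
      field_simp
      ring
  obtain ⟨A', B, C', D, E, H, hD, S, hSG, hS, hSc⟩ := planar h2 P ha0 (by rw [hβ', sub_self]) j
    g T (fun a => (π a)⁻¹) hq h1 h3 f1 (fun a ha => inv_ne_zero (hπ a ha)) (fun a _ => rfl)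
    f2 f3
  obtain ⟨t0, β0, c, hc, h⟩ := hyperbola h2 S t β'
    (fun a ha b hb => ht a (hSG ha) b (hGA (hSG hb)))
    (fun a ha b hb => P.hβ a (hSG ha) b (hSG hb))
    (fun a ha b hb c hc => P.hcol a (hSG ha) b (hSG hb) c (hSG hc)) hD hS (by omega)
  refine ⟨t0, β0 + β a0, c, hc, S, hSG, fun a ha => ?_, hSc⟩
  rw [← h a ha, hβ']; ring

end Pool.Agent.Work.MP_862369_co
end
end

-- merged part: Pool.Agent.Work.MP_862369_co.Main
section
-- merged part: Pool.Agent.Work.MP_862369_co.Hyp
section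
/-!
Two large hyperbolic plane sections through a common covered line are incompatible.
-/

open Polynomial
open scoped Polynomial.Bivariate

namespace Pool.Agent.Work.MP_862369_co

variable {F : Type} [Field F]

theorem ringChar_ne (h2 : (2 : F) ≠ 0) : ringChar F ≠ 2 := by
  intro h
  apply h2
  have := (ringChar.spec F 2).mpr (by rw [h])
  exact_mod_cast this

theorem quartic_count [Fintype F] (h2 : (2 : F) ≠ 0) (hq : 528 < Fintype.card F) (γ c k : F)
    (N : Finset F) (hN : ∀ τ ∈ N, ¬ IsSquare ((τ ^ 2 + γ * τ + c) ^ 2 + k * τ ^ 2)) :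
    10 * N.card ≤ 8 * Fintype.card F + 608 := by
  classical
  obtain ⟨μ, hμ⟩ := FiniteField.exists_nonsquare (ringChar_ne h2)
  have hμ0 : μ ≠ 0 := by rintro rfl; exact hμ IsSquare.zero
  let h : F[X][Y] := (Y ^ 2 + C (C γ) * Y + C (C c)) ^ 2 + C (C k) * Y ^ 2 - C (C μ * X ^ 2)
  have hd : h.natDegree = 4 := by simp only [h]; compute_degree!
  have hm : h.Monic := by simp only [h]; monicity!
  have hw : Wt 4 h := by
    apply Wt_of_mem
    have cc : ∀ a : F, (C (C a) : F[X][Y]) ∈ EE F (C X : F[X][Y]) Y 0 := fun a => by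
      have := Submodule.smul_mem _ a (one_mem_EE (F := F) (C X : F[X][Y]) Y 0)
      rwa [← Algebra.algebraMap_eq_smul_one] at this
    have y1 : (Y : F[X][Y]) ∈ EE F (C X : F[X][Y]) Y 1 := by
      simpa using mon_mem (F := F) (C X : F[X][Y]) Y (d := 1) (i := 0) (k := 1) le_rfl
    have x1 : (C X : F[X][Y]) ∈ EE F (C X : F[X][Y]) Y 1 := by
      simpa using mon_mem (F := F) (C X : F[X][Y]) Y (d := 1) (i := 1) (k := 0) le_rfl
    refine sub_mem (add_mem (EE_pow _ _ (d := 2) (add_mem (add_mem (EE_pow _ _ y1 2)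
      (EE_mono _ _ (by omega) (EE_mul _ _ (cc γ) y1))) (EE_mono _ _ (by omega) (cc c))) 2)
      (EE_mono _ _ (by omega) (EE_mul _ _ (cc k) (EE_pow _ _ y1 2)))) ?_
    rw [map_mul, map_pow]
    exact EE_mono _ _ (by omega) (EE_mul _ _ (cc μ) (EE_pow _ _ x1 2))
  have hirr : Irreducible h := by
    let D : F[X] := (X ^ 2 + C γ * X + C c) ^ 2 + C k * X ^ 2
    have hDm : D.Monic := by simp only [D]; monicity!
    have e : Bivariate.swap h = C (C (-μ)) * (Y ^ 2 - C (C μ⁻¹ * D)) := by
      have : (C (C μ) : F[X][Y]) * C (C μ⁻¹) = 1 := by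
        rw [← map_mul, ← map_mul, mul_inv_cancel₀ hμ0]; simp
      simp only [h, D, map_sub, map_add, map_mul, map_pow, map_neg, Bivariate.swap_X,
        Bivariate.swap_Y, Bivariate.swap_C_C]
      linear_combination (-((C X ^ 2 + C (C γ) * C X + C (C c)) ^ 2 + C (C k) * C X ^ 2)) * this
    rw [← MulEquiv.irreducible_iff (Bivariate.swap (R := F)), e,
      irreducible_isUnit_mul (((neg_ne_zero.mpr hμ0).isUnit.map C).map C),
      (monic_X_pow_sub_C _ two_ne_zero).irreducible_iff_roots_eq_zero_of_degree_le_three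
        (by rw [natDegree_X_pow_sub_C]) (by rw [natDegree_X_pow_sub_C]; omega),
      Multiset.eq_zero_iff_forall_notMem]
    intro r hr
    have h1 := (mem_roots (monic_X_pow_sub_C _ two_ne_zero).ne_zero).mp hr
    simp only [IsRoot.def, eval_sub, eval_pow, eval_X, eval_C, sub_eq_zero] at h1
    have h3 := congrArg leadingCoeff h1
    rw [leadingCoeff_pow, leadingCoeff_mul, leadingCoeff_C, hDm.leadingCoeff, mul_one] at h3
    apply hμ
    refine ⟨r.leadingCoeff⁻¹, ?_⟩
    rw [← mul_inv, ← sq, h3, inv_inv]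
  have hS := stepanov h2 (by omega) hm hd hw hirr (by omega)
  have : ∀ τ ∈ N, ∃ y : F, y ≠ 0 ∧ μ * y ^ 2 = (τ ^ 2 + γ * τ + c) ^ 2 + k * τ ^ 2 := by
    intro τ hτ
    have h0 : (τ ^ 2 + γ * τ + c) ^ 2 + k * τ ^ 2 ≠ 0 := fun h0 =>
      hN τ hτ (h0 ▸ IsSquare.zero)
    have e1 := quadraticChar_neg_one_iff_not_isSquare.mpr (hN τ hτ)
    have e2 := quadraticChar_neg_one_iff_not_isSquare.mpr hμ
    obtain ⟨z, hz⟩ := (quadraticChar_one_iff_isSquare (mul_ne_zero hμ0 h0)).mp
      (by rw [map_mul, e1, e2]; norm_num)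
    have hz0 : z ≠ 0 := by rintro rfl; exact mul_ne_zero hμ0 h0 (by simpa using hz)
    refine ⟨z / μ, div_ne_zero hz0 hμ0, ?_⟩
    field_simp
    linear_combination -hz
  choose! y hy0 hy using this
  have hc : (({1, -1} : Finset F) ×ˢ N).card ≤
      (Finset.univ.filter fun p : F × F => ev p.1 p.2 h = 0).card := by
    refine Finset.card_le_card_of_injOn (fun p => (p.1 * y p.2, p.2)) ?_ ?_
    · rintro ⟨ε, τ⟩ hp
      simp only [Finset.coe_product, Finset.coe_insert, Finset.coe_singleton, Set.mem_prod,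
        Set.mem_insert_iff, Set.mem_singleton_iff, Finset.mem_coe] at hp
      simp only [h, Finset.coe_filter, Finset.mem_univ, true_and, Set.mem_ofPred_eq, map_sub,
        map_add, map_mul, map_pow, ev_C, ev_Y, aeval_C, aeval_X, Algebra.algebraMap_self,
        RingHom.id_apply]
      rcases hp.1 with rfl | rfl <;> linear_combination -hy τ hp.2
    · rintro ⟨ε, τ⟩ hp ⟨ε', τ'⟩ _ hh
      simp only [Prod.mk.injEq] at hh
      obtain ⟨h1, rfl⟩ := hh
      have hτ : τ ∈ N := (Finset.mem_product.mp hp).2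
      rw [mul_right_cancel₀ (hy0 τ hτ) h1]
  rw [Finset.card_product, Finset.card_pair (fun h => h2 (by linear_combination h))] at hc
  have e : (Finset.univ.filter fun p : F × F => ev p.1 p.2 h = 0).card =
    (@Finset.filter _ (fun p : F × F => ev p.1 p.2 h = 0) (fun _ => Classical.propDecidable _)
      Finset.univ).card := by congr
  omega

theorem two_hyp [Fintype F] (h2 : (2 : F) ≠ 0) (hq : 528 < Fintype.card F) {γ c1 c2 : F}
    (hc2 : c2 ≠ 0) (S1 S2 : Finset F) (h1 : ∀ τ ∈ S1, τ ≠ 0) (h3 : ∀ τ ∈ S2, τ ≠ 0)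
    (h : ∀ τ ∈ S1, ∀ τ' ∈ S2, τ + c1 / τ + γ + τ' - c2 / τ' ≠ 0) :
    10 * S1.card + 20 * S2.card ≤ 28 * Fintype.card F + 588 := by
  classical
  let P : F → Prop := fun τ => IsSquare ((τ ^ 2 + γ * τ + c1) ^ 2 + 4 * c2 * τ ^ 2)
  have e1 := quartic_count h2 hq γ c1 (4 * c2) (S1.filter fun τ => ¬ P τ)
    fun τ hτ => (Finset.mem_filter.mp hτ).2
  have : ∀ τ ∈ S1.filter P, ∃ τ' ∈ (Finset.univ.erase (0 : F)) \ S2,
      τ ^ 2 + (γ + τ' - c2 / τ') * τ + c1 = 0 := by
    intro τ hτ
    obtain ⟨hτ, z, hz⟩ := Finset.mem_filter.mp hτ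
    have h0 := h1 τ hτ
    obtain ⟨w, hw⟩ : ∃ w, w = (z - (τ ^ 2 + γ * τ + c1)) / (2 * τ) := ⟨_, rfl⟩
    have hw2 : τ * w ^ 2 + (τ ^ 2 + γ * τ + c1) * w - c2 * τ = 0 := by
      rw [hw]; field_simp; linear_combination -hz
    have hw0 : w ≠ 0 := by
      rintro rfl
      exact mul_ne_zero hc2 h0 (by linear_combination -hw2)
    refine ⟨w, ?_, by field_simp; linear_combination hw2⟩
    simp only [Finset.mem_sdiff, Finset.mem_erase, Finset.mem_univ, and_true]
    refine ⟨hw0, fun hw1 => h τ hτ w hw1 ?_⟩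
    field_simp
    linear_combination hw2
  choose! f hf1 hf2 using this
  have e2 := Finset.card_le_mul_card_image_of_maps_to hf1 2 (by
    intro w _
    by_contra hc
    obtain ⟨a, b, c, ha, hb, hc, hab, hac, hbc⟩ := Finset.two_lt_card_iff.mp (not_le.mp hc)
    rw [Finset.mem_filter] at ha hb hc
    have g1 := hf2 a ha.1
    have g2 := hf2 b hb.1
    have g3 := hf2 c hc.1
    rw [ha.2] at g1
    rw [hb.2] at g2
    rw [hc.2] at g3
    apply mul_ne_zero (mul_ne_zero (sub_ne_zero.mpr hab) (sub_ne_zero.mpr hac))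
      (sub_ne_zero.mpr hbc)
    linear_combination (b - c) * g1 - (a - c) * g2 + (a - b) * g3)
  have e3 := Finset.card_filter_add_card_filter_not (s := S1) P
  have hsub : S2 ⊆ Finset.univ.erase (0 : F) := fun τ hτ => by simpa using h3 τ hτ
  have e4 := Finset.card_sdiff_add_card_eq_card hsub
  rw [Finset.card_erase_of_mem (Finset.mem_univ _), Finset.card_univ] at e4
  omega

end Pool.Agent.Work.MP_862369_co
end

-- merged part: Pool.Agent.Work.MP_862369_co.Count
section
/-!
Partial ovoids of `W(3,q)` have few collinear triples.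
-/

namespace Pool.Agent.Work.MP_862369_co

variable {F : Type} [Field F] {ι : Type}

/-- the symplectic product of the points `(α a, 1, t a, s a)` and `(α b, 1, t b, s b)` -/
def om (α t s : ι → F) (a b : ι) : F := α a - α b + t a * s b - s a * t b

/-- the line through the points `a` and `b` contains a third point -/
def Rich (I : Finset ι) (α t s : ι → F) (a b : ι) : Prop :=
  ∃ c ∈ I, c ≠ a ∧ c ≠ b ∧ ∃ l : F, α c = α a + l * (α b - α a) ∧ t c = t a + l * (t b - t a) ∧
    s c = s a + l * (s b - s a)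

/-- trace zero self-adjoint operators -/
abbrev JJ (F : Type) : Type := F × F × F × F × F

/-- `(α, 1, t, s)` is an eigenvector of `J` with eigenvalue `ε` -/
def Fix (ε : F) (J : JJ F) (α t s : F) : Prop :=
  J.1 = ε - J.2.1 * t - J.2.2.1 * s ∧ J.2.2.2.1 = -J.2.1 * α - J.1 * s - ε * s ∧
    J.2.2.2.2 = ε * t + J.1 * t - J.2.2.1 * α

/-- the operator with given eigenvector and parameters -/
def mkJ (ε b c α t s : F) : JJ F :=
  (ε - b * t - c * s, b, c, -b * α - (ε - b * t - c * s) * s - ε * s,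
    ε * t + (ε - b * t - c * s) * t - c * α)

theorem fix_mkJ (ε b c α t s : F) : Fix ε (mkJ ε b c α t s) α t s := ⟨rfl, rfl, rfl⟩

theorem Fix.eq {ε : F} {J : JJ F} {α t s : F} (h : Fix ε J α t s) :
    J = mkJ ε J.2.1 J.2.2.1 α t s := by
  obtain ⟨a, b, c, d, e⟩ := J
  obtain ⟨h1, h2, h3⟩ := h
  simp only at h1 h2 h3
  subst h1 h2 h3
  rfl

/-- the square of the operator -/
def QJ (J : JJ F) : F := J.1 ^ 2 - J.2.2.1 * J.2.2.2.1 + J.2.1 * J.2.2.2.2

theorem QJ_mkJ (ε b c α t s : F) : QJ (mkJ ε b c α t s) = ε ^ 2 := by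
  simp only [QJ, mkJ]; ring

open Classical in
theorem card_JJ [Fintype F] : (Finset.univ.filter fun J : JJ F => QJ J = 1).card ≤
    Fintype.card F ^ 4 + Fintype.card F ^ 2 := by
  have hq : 1 ≤ Fintype.card F := Fintype.card_pos
  let S := Finset.univ.filter fun J : JJ F => QJ J = 1
  have hS : ∀ J ∈ S, QJ J = 1 := fun J hJ => (Finset.mem_filter.mp hJ).2
  have h1 : (S.filter fun J => J.2.1 ≠ 0).card ≤
      ((Finset.univ.erase (0 : F)) ×ˢ (Finset.univ : Finset (F × F × F))).card := by
    refine Finset.card_le_card_of_injOn (fun J => (J.2.1, J.1, J.2.2.1, J.2.2.2.1)) ?_ ?_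
    · intro J hJ
      simpa using (Finset.mem_filter.mp hJ).2
    · rintro ⟨a, b, c, d, e⟩ hJ ⟨a', b', c', d', e'⟩ hJ' h
      simp only [Prod.mk.injEq] at h
      obtain ⟨rfl, rfl, rfl, rfl⟩ := h
      have e1 := hS _ (Finset.mem_filter.mp hJ).1
      have e2 := hS _ (Finset.mem_filter.mp hJ').1
      have e3 : e = e' := mul_left_cancel₀ (Finset.mem_filter.mp hJ).2
        (by simp only [QJ] at e1 e2 ⊢; linear_combination e1 - e2)
      rw [e3]
  have h2 : ((S.filter fun J => ¬ J.2.1 ≠ 0).filter fun J => J.2.2.1 ≠ 0).card ≤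
      ((Finset.univ.erase (0 : F)) ×ˢ (Finset.univ : Finset (F × F))).card := by
    refine Finset.card_le_card_of_injOn (fun J => (J.2.2.1, J.1, J.2.2.2.2)) ?_ ?_
    · intro J hJ
      simpa using (Finset.mem_filter.mp hJ).2
    · rintro ⟨a, b, c, d, e⟩ hJ ⟨a', b', c', d', e'⟩ hJ' h
      simp only [Prod.mk.injEq] at h
      obtain ⟨rfl, rfl, rfl⟩ := h
      have g1 := Finset.mem_filter.mp (Finset.mem_filter.mp hJ).1
      have g2 := Finset.mem_filter.mp (Finset.mem_filter.mp hJ').1
      have e1 := hS _ g1.1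
      have e2 := hS _ g2.1
      have b1 : b = 0 := not_not.mp g1.2
      have b2 : b' = 0 := not_not.mp g2.2
      subst b1 b2
      have e3 : d = d' := mul_left_cancel₀ (Finset.mem_filter.mp hJ).2
        (by simp only [QJ] at e1 e2 ⊢; linear_combination e2 - e1)
      rw [e3]
  have h3 : ((S.filter fun J => ¬ J.2.1 ≠ 0).filter fun J => ¬ J.2.2.1 ≠ 0).card ≤
      (({1, -1} : Finset F) ×ˢ (Finset.univ : Finset (F × F))).card := by
    refine Finset.card_le_card_of_injOn (fun J => (J.1, J.2.2.2)) ?_ ?_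
    · rintro ⟨a, b, c, d, e⟩ hJ
      have g1 := Finset.mem_filter.mp (Finset.mem_filter.mp hJ).1
      have e1 := hS _ g1.1
      have b1 : b = 0 := not_not.mp g1.2
      have c1 : c = 0 := not_not.mp (Finset.mem_filter.mp hJ).2
      subst b1 c1
      simpa [QJ] using e1
    · rintro ⟨a, b, c, d⟩ hJ ⟨a', b', c', d'⟩ hJ' h
      simp only [Prod.mk.injEq] at h
      obtain ⟨rfl, rfl⟩ := h
      have b1 : b = 0 := not_not.mp (Finset.mem_filter.mp (Finset.mem_filter.mp hJ).1).2
      have b2 : b' = 0 := not_not.mp (Finset.mem_filter.mp (Finset.mem_filter.mp hJ').1).2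
      have c1 : c = 0 := not_not.mp (Finset.mem_filter.mp hJ).2
      have c2 : c' = 0 := not_not.mp (Finset.mem_filter.mp hJ').2
      rw [b1, b2, c1, c2]
  have s1 := Finset.card_filter_add_card_filter_not (s := S) (fun J => J.2.1 ≠ 0)
  have s2 := Finset.card_filter_add_card_filter_not (s := S.filter fun J => ¬ J.2.1 ≠ 0)
    (fun J => J.2.2.1 ≠ 0)
  have c2 : ({1, -1} : Finset F).card ≤ 2 := Finset.card_le_two
  simp only [Finset.card_product, Finset.card_erase_of_mem (Finset.mem_univ _), Finset.card_univ,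
    Fintype.card_prod] at h1 h2 h3
  change S.card ≤ _
  obtain ⟨k, hk⟩ : ∃ k, Fintype.card F = k + 1 := ⟨Fintype.card F - 1, by omega⟩
  rw [hk] at h1 h2 h3 ⊢
  simp only [Nat.add_sub_cancel] at h1 h2
  have := Nat.mul_le_mul_right ((k + 1) * (k + 1)) c2
  linarith only [s1, s2, h3, h1, h2, this]

/-- the involution with the line through two given points as an eigenspace -/
def twoJ (ε α t s α' t' s' : F) : JJ F := mkJ ε (2 * ε * (s' - s) / (α - α' + t * s' - s * t'))
  (-2 * ε * (t' - t) / (α - α' + t * s' - s * t')) α t s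

theorem fix_two {ε ε' : F} {J : JJ F} {α t s α' t' s' : F} (ho : α - α' + t * s' - s * t' ≠ 0)
    (h : Fix ε J α t s) (h' : Fix ε' J α' t' s') : J = twoJ ε α t s α' t' s' := by
  have hJ := h.eq
  obtain ⟨a, b, c, d, e⟩ := J
  obtain ⟨h1, h3, h4⟩ := h
  obtain ⟨h1', h3', h4'⟩ := h'
  simp only at h1 h3 h4 h1' h3' h4' hJ
  have he : ε' = ε := by
    apply mul_right_cancel₀ ho
    linear_combination -((α - α') * (h1' - h1) + (t' - t) * (h3' - h3) + (s' - s) * (h4' - h4))
  subst he
  have hb : b = 2 * ε' * (s' - s) / (α - α' + t * s' - s * t') := by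
    rw [eq_div_iff ho]; linear_combination h3 - h3' + s' * h1 - s * h1'
  have hc : c = -2 * ε' * (t' - t) / (α - α' + t * s' - s * t') := by
    rw [eq_div_iff ho]; linear_combination h4 - h4' - t' * h1 + t * h1'
  rw [hJ, twoJ, ← hb, ← hc]

theorem twoJ_fix {α t s α' t' s' : F} (ho : α - α' + t * s' - s * t' ≠ 0) (l : F) :
    Fix 1 (twoJ 1 α t s α' t' s') (α + l * (α' - α)) (t + l * (t' - t)) (s + l * (s' - s)) := by
  obtain ⟨o, hoo⟩ : ∃ o, o = α - α' + t * s' - s * t' := ⟨_, rfl⟩
  have : α' = α + t * s' - s * t' - o := by rw [hoo]; ring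
  simp only [Fix, twoJ, mkJ]
  rw [← hoo] at ho ⊢
  subst this
  refine ⟨?_, ?_, ?_⟩ <;> field_simp <;> ring

open Classical in
theorem rich_pairs [Fintype F] (h2 : (2 : F) ≠ 0) (I : Finset ι) (α t s : ι → F)
    (hom : ∀ a ∈ I, ∀ b ∈ I, a ≠ b → om α t s a b ≠ 0) {δ : ℕ}
    (hδ : I.card + δ = Fintype.card F ^ 2) :
    (I.offDiag.filter fun p => Rich I α t s p.1 p.2).card ≤ 6 * (δ + 1) * δ := by
  let S := Finset.univ.filter fun J : JJ F => QJ J = 1
  let E : JJ F → ι → Prop := fun J a =>
    Fix 1 J (α a) (t a) (s a) ∨ Fix (-1) J (α a) (t a) (s a)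
  let K : JJ F → Finset ι := fun J => I.filter (E J)
  have hA : ∀ a, 2 * Fintype.card F ^ 2 ≤ (S.filter fun J => E J a).card := by
    intro a
    have : (({1, -1} : Finset F) ×ˢ (Finset.univ : Finset (F × F))).card ≤
        (S.filter fun J => E J a).card := by
      refine Finset.card_le_card_of_injOn (fun p => mkJ p.1 p.2.1 p.2.2 (α a) (t a) (s a)) ?_ ?_
      · rintro ⟨ε, b, c⟩ hp
        simp only [Finset.coe_product, Finset.coe_insert, Finset.coe_singleton, Set.mem_prod,
          Set.mem_insert_iff, Set.mem_singleton_iff] at hp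
        simp only [S, E, Finset.coe_filter, Finset.mem_filter, Finset.mem_univ, true_and,
          Set.mem_ofPred_eq, QJ_mkJ]
        rcases hp.1 with rfl | rfl
        · exact ⟨by ring, Or.inl (fix_mkJ ..)⟩
        · exact ⟨by ring, Or.inr (fix_mkJ ..)⟩
      · rintro ⟨ε, b, c⟩ _ ⟨ε', b', c'⟩ _ h
        simp only [mkJ, Prod.mk.injEq] at h
        obtain ⟨h1, rfl, rfl, -⟩ := h
        have : ε = ε' := by linear_combination h1
        rw [this]
    rw [Finset.card_product, Finset.card_pair (fun h => h2 (by linear_combination h))] at this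
    simpa [sq] using this
  have hB : ∀ p ∈ I.offDiag, (S.filter fun J => E J p.1 ∧ E J p.2).card ≤ 2 := by
    intro p hp
    rw [Finset.mem_offDiag] at hp
    have ho := hom _ hp.1 _ hp.2.1 hp.2.2
    refine le_trans (Finset.card_le_card (t := {twoJ 1 (α p.1) (t p.1) (s p.1) (α p.2) (t p.2)
      (s p.2), twoJ (-1) (α p.1) (t p.1) (s p.1) (α p.2) (t p.2) (s p.2)}) ?_) Finset.card_le_two
    intro J hJ
    obtain ⟨-, h1, h3⟩ := Finset.mem_filter.mp hJ
    simp only [Finset.mem_insert, Finset.mem_singleton]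
    rcases h1 with h1 | h1 <;> rcases h3 with h3 | h3
    · exact Or.inl (fix_two ho h1 h3)
    · exact Or.inl (fix_two ho h1 h3)
    · exact Or.inr (fix_two ho h1 h3)
    · exact Or.inr (fix_two ho h1 h3)
  have s1 : I.card * (2 * Fintype.card F ^ 2) ≤ ∑ J ∈ S, (K J).card := by
    simp only [K, Finset.card_filter]
    rw [Finset.sum_comm, ← smul_eq_mul, ← Finset.sum_const]
    refine Finset.sum_le_sum fun a _ => ?_
    rw [← Finset.card_filter]
    exact hA a
  have s2 : ∑ J ∈ S, (K J).offDiag.card ≤ I.offDiag.card * 2 := by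
    have : ∀ J, (K J).offDiag = I.offDiag.filter fun p => E J p.1 ∧ E J p.2 := by
      intro J
      ext p
      simp only [K, Finset.mem_offDiag, Finset.mem_filter]
      tauto
    simp only [this, Finset.card_filter]
    rw [Finset.sum_comm, ← smul_eq_mul, ← Finset.sum_const]
    refine Finset.sum_le_sum fun p hp => ?_
    rw [← Finset.card_filter]
    exact hB p hp
  have s3 : (I.offDiag.filter fun p => Rich I α t s p.1 p.2).card ≤
      ∑ J ∈ S, (if 3 ≤ (K J).card then (K J).offDiag else ∅).card := by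
    rw [← Finset.card_sigma]
    refine Finset.card_le_card_of_injOn (fun p => ⟨twoJ 1 (α p.1) (t p.1) (s p.1) (α p.2) (t p.2)
      (s p.2), p⟩) ?_ ?_
    · intro p hp
      obtain ⟨hp, c, hc, hc1, hc2, l, e1, e2, e3⟩ := Finset.mem_filter.mp hp
      rw [Finset.mem_offDiag] at hp
      have ho := hom _ hp.1 _ hp.2.1 hp.2.2
      have m1 := Finset.mem_filter.mpr (⟨hp.1, Or.inl (by simpa using twoJ_fix ho 0)⟩ :
        p.1 ∈ I ∧ E (twoJ 1 (α p.1) (t p.1) (s p.1) (α p.2) (t p.2) (s p.2)) p.1)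
      have m2 := Finset.mem_filter.mpr (⟨hp.2.1, Or.inl (by simpa using twoJ_fix ho 1)⟩ :
        p.2 ∈ I ∧ E (twoJ 1 (α p.1) (t p.1) (s p.1) (α p.2) (t p.2) (s p.2)) p.2)
      have m3 := Finset.mem_filter.mpr (⟨hc, Or.inl (by rw [e1, e2, e3]; exact twoJ_fix ho l)⟩ :
        c ∈ I ∧ E (twoJ 1 (α p.1) (t p.1) (s p.1) (α p.2) (t p.2) (s p.2)) c)
      simp only [Finset.coe_sigma, Set.mem_sigma_iff, Finset.mem_coe]
      refine ⟨by simp [S, twoJ, QJ_mkJ], ?_⟩
      rw [if_pos]
      · exact Finset.mem_offDiag.mpr ⟨m1, m2, hp.2.2⟩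
      · exact Finset.two_lt_card_iff.mpr ⟨_, _, _, m1, m2, m3, hp.2.2, hc1.symm, hc2.symm⟩
    · intro p _ p' _ h
      exact eq_of_heq (Sigma.mk.inj h).2
  have s4 : ∑ J ∈ S, ((if 3 ≤ (K J).card then (K J).offDiag else ∅).card + 6 * (K J).card) ≤
      ∑ J ∈ S, (3 * (K J).offDiag.card + 6) := by
    refine Finset.sum_le_sum fun J _ => ?_
    split_ifs with h
    · rw [Finset.offDiag_card]
      obtain ⟨k, hk⟩ : ∃ k, (K J).card = k + 3 := ⟨(K J).card - 3, by omega⟩
      rw [hk]
      have : (k + 3) * (k + 3) - (k + 3) = k * k + 5 * k + 6 := by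
        apply Nat.sub_eq_of_eq_add; ring
      rw [this]
      linarith only [mul_self_nonneg ↑k]
    · rw [Finset.offDiag_card, Finset.card_empty]
      generalize (K J).card = k at *
      have : k < 3 := by omega
      interval_cases k <;> simp
  rw [Finset.sum_add_distrib, Finset.sum_add_distrib, ← Finset.mul_sum, ← Finset.mul_sum,
    Finset.sum_const, smul_eq_mul] at s4
  have s5 : S.card ≤ _ := card_JJ
  rw [Finset.offDiag_card] at s2
  have e4 : Fintype.card F ^ 4 = (I.card + δ) ^ 2 := by rw [hδ]; ring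
  rw [e4, ← hδ] at s5
  rw [← hδ] at s1
  have s6 : I.card ≤ I.card * I.card := Nat.le_mul_self _
  generalize (I.offDiag.filter fun p => Rich I α t s p.1 p.2).card = RP at *
  generalize ∑ J ∈ S, (if 3 ≤ (K J).card then (K J).offDiag else ∅).card = x1 at *
  generalize ∑ J ∈ S, (K J).offDiag.card = x2 at *
  generalize ∑ J ∈ S, (K J).card = x3 at *
  generalize S.card = x4 at *
  generalize I.card = n at *
  zify [s6] at s1 s2 s3 s4 s5 ⊢
  linarith only [s1, s2, s3, s4, s5]

end Pool.Agent.Work.MP_862369_co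
end

-- merged part: Pool.Agent.Work.MP_862369_co.Core
section
/-!
Large partial ovoids of `W(3,q)`, `q` odd, do not exist.
-/

namespace Pool.Agent.Work.MP_862369_co

variable {F : Type} [Field F] {ι : Type}

open Classical in
theorem slice_le [Fintype F] (I : Finset ι) (α t s : ι → F)
    (hom : ∀ a ∈ I, ∀ b ∈ I, a ≠ b → om α t s a b ≠ 0) (d σ : F) :
    (I.filter fun a => s a - d * t a = σ).card ≤ Fintype.card F := by
  rw [← Finset.card_univ]
  refine Finset.card_le_card_of_injOn (fun a => α a + σ * t a) (by simp) ?_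
  intro a ha b hb h
  obtain ⟨ha, ha'⟩ := Finset.mem_filter.mp ha
  obtain ⟨hb, hb'⟩ := Finset.mem_filter.mp hb
  by_contra hne
  apply hom a ha b hb hne
  unfold om
  linear_combination h + t a * hb' - t b * ha'

theorem card_le_sq [Fintype F] (I : Finset ι) (α t s : ι → F)
    (hom : ∀ a ∈ I, ∀ b ∈ I, a ≠ b → om α t s a b ≠ 0) : I.card ≤ Fintype.card F ^ 2 := by
  classical
  rw [Finset.card_eq_sum_card_fiberwise (f := fun a => s a - 0 * t a) (t := Finset.univ)
    (fun _ _ => by simp), sq, ← smul_eq_mul, ← Finset.card_univ, ← Finset.sum_const]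
  refine Finset.sum_le_sum fun σ _ => ?_
  have := slice_le I α t s hom 0 σ
  rw [← Finset.card_univ] at this
  refine le_trans (le_of_eq ?_) this
  congr

/-- `a` lies on a vertical secant -/
def Vert (I : Finset ι) (t s : ι → F) (a : ι) : Prop := ∃ b ∈ I, b ≠ a ∧ t b = t a ∧ s b = s a

/-- `a` lies on a rich line of direction `d` -/
def Bad (I : Finset ι) (α t s : ι → F) (d : F) (a : ι) : Prop :=
  ∃ b ∈ I, b ≠ a ∧ Rich I α t s a b ∧ s b - d * t b = s a - d * t a ∧ t b ≠ t a

open Classical in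
theorem exists_dir [Fintype F] (I : Finset ι) (α t s : ι → F) :
    ∃ d : F, Fintype.card F * (I.filter (Bad I α t s d)).card ≤
      (I.offDiag.filter fun p => Rich I α t s p.1 p.2).card := by
  have h1 : ∑ d : F, (I.filter (Bad I α t s d)).card ≤
      (I.offDiag.filter fun p => Rich I α t s p.1 p.2).card := by
    rw [← Finset.card_sigma]
    have : ∀ z : (Σ _ : F, ι), z ∈ Finset.univ.sigma (fun d => I.filter (Bad I α t s d)) →
        ∃ b ∈ I, b ≠ z.2 ∧ Rich I α t s z.2 b ∧ s b - z.1 * t b = s z.2 - z.1 * t z.2 ∧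
          t b ≠ t z.2 := fun z hz => (Finset.mem_filter.mp (Finset.mem_sigma.mp hz).2).2
    choose f hf1 hf2 hf3 hf4 hf5 using this
    refine Finset.card_le_card_of_injOn (fun z => if h : z ∈ Finset.univ.sigma
      (fun d => I.filter (Bad I α t s d)) then (z.2, f z h) else (z.2, z.2)) ?_ ?_
    · intro z hz
      have hz' := Finset.mem_coe.mp hz
      simp only [dif_pos hz', Finset.coe_filter, Finset.mem_offDiag, Set.mem_ofPred_eq]
      exact ⟨⟨(Finset.mem_filter.mp (Finset.mem_sigma.mp hz').2).1, hf1 z hz', (hf2 z hz').symm⟩,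
        hf3 z hz'⟩
    · rintro ⟨d, a⟩ hz ⟨d', a'⟩ hz' h
      have hz1 := Finset.mem_coe.mp hz
      have hz2 := Finset.mem_coe.mp hz'
      simp only [dif_pos hz1, dif_pos hz2, Prod.mk.injEq] at h
      obtain ⟨rfl, h⟩ := h
      have e1 := hf4 _ hz1
      have e2 := hf4 _ hz2
      have e3 := hf5 _ hz1
      rw [← h] at e2
      have : d = d' := mul_right_cancel₀ (sub_ne_zero.mpr e3)
        (by simp only at e1 e2 ⊢; linear_combination e2 - e1)
      rw [this]
  obtain ⟨d, -, hd⟩ := Finset.exists_min_image Finset.univ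
    (fun d : F => (I.filter (Bad I α t s d)).card) Finset.univ_nonempty
  refine ⟨d, le_trans ?_ h1⟩
  rw [← smul_eq_mul, ← Finset.card_univ, ← Finset.sum_const]
  exact Finset.sum_le_sum hd

open Classical in
theorem slice_hyp [Fintype F] (h2 : (2 : F) ≠ 0) (hq : 2000 ≤ Fintype.card F) (I : Finset ι)
    (α t s : ι → F) (hom : ∀ a ∈ I, ∀ b ∈ I, a ≠ b → om α t s a b ≠ 0) (d σ : F) {j b : ℕ}
    (hj : (I.filter fun a => s a - d * t a = σ).card + j = Fintype.card F)
    (hj2 : 132 * j ^ 2 < Fintype.card F)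
    (hb : ((I.filter fun a => s a - d * t a = σ).filter
      fun a => Vert I t s a ∨ Bad I α t s d a).card = b) (hb2 : 45 * b < Fintype.card F) :
    ∃ t0 β0 c : F, c ≠ 0 ∧ ∃ S ⊆ I, (∀ a ∈ S, s a - d * t a = σ ∧
      (t a - t0) * (α a + σ * t a - β0) = c) ∧ (∀ a ∈ S, ∀ a' ∈ S, t a = t a' → a = a') ∧
      500 * j ≤ Fintype.card F ∧ Fintype.card F ≤ S.card + 2 * j + 2 * b + 2 := by
  have hj3 : 500 * j ≤ Fintype.card F := by
    by_contra hc
    have : 4 ≤ j := by omega
    nlinarith only [hq, hj2, hc]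
  let A := I.filter fun a => s a - d * t a = σ
  let G := A.filter fun a => ¬ (Vert I t s a ∨ Bad I α t s d a)
  have hAG : b + G.card = A.card := hb ▸ Finset.card_filter_add_card_filter_not _
  have hβ : ∀ a ∈ A, ∀ b ∈ A, α a + σ * t a = α b + σ * t b → a = b := by
    intro a ha b hb h
    obtain ⟨ha, ha'⟩ := Finset.mem_filter.mp ha
    obtain ⟨hb, hb'⟩ := Finset.mem_filter.mp hb
    by_contra hne
    apply hom a ha b hb hne
    unfold om
    linear_combination h + t a * hb' - t b * ha'
  have ht : ∀ a ∈ G, ∀ b ∈ A, t a = t b → a = b := by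
    intro a ha b hb h
    obtain ⟨ha, ha2⟩ := Finset.mem_filter.mp ha
    obtain ⟨ha, ha'⟩ := Finset.mem_filter.mp ha
    obtain ⟨hb, hb'⟩ := Finset.mem_filter.mp hb
    by_contra hne
    exact ha2 (Or.inl ⟨b, hb, Ne.symm hne, h.symm, by linear_combination hb' - ha' - d * h⟩)
  change A.card + j = _ at hj
  obtain ⟨t0, β0, c, hc, S, hSG, hS, hSc⟩ := near_arc (G := G) (A := A) h2 (Finset.filter_subset _ _) t
    (fun a => α a + σ * t a) hβ ht (by
      intro a ha b hb c hc hab hac h
      by_contra hbc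
      have hne : t b ≠ t a := fun h => hab (ht a ha b hb h.symm).symm
      obtain ⟨haA, ha2⟩ := Finset.mem_filter.mp ha
      obtain ⟨ha, ha'⟩ := Finset.mem_filter.mp haA
      obtain ⟨hb, hb'⟩ := Finset.mem_filter.mp hb
      obtain ⟨hc, hc'⟩ := Finset.mem_filter.mp hc
      have hne' : t b - t a ≠ 0 := sub_ne_zero.mpr hne
      refine ha2 (Or.inr ⟨b, hb, hab, ⟨c, hc, hac, Ne.symm hbc, (t c - t a) / (t b - t a),
        ?_, ?_, ?_⟩, by rw [ha', hb'], hne⟩)
      · field_simp
        linear_combination h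
      · field_simp
        ring
      · field_simp
        linear_combination (t b - t a) * (hc' - ha') - (t c - t a) * (hb' - ha'))
    hj hj2 (by omega) (by omega) (by omega)
  refine ⟨t0, β0, c, hc, S, fun a ha => (Finset.mem_filter.mp (Finset.mem_filter.mp
    (hSG ha)).1).1, fun a ha => ⟨(Finset.mem_filter.mp (Finset.mem_filter.mp (hSG ha)).1).2,
    hS a ha⟩, fun a ha a' ha' => ht a (hSG ha) a' (Finset.mem_filter.mp (hSG ha')).1, hj3,
    by omega⟩

open Classical in
theorem core2 [Fintype F] (h2 : (2 : F) ≠ 0) (hq : 2000 ≤ Fintype.card F) (I : Finset ι)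
    (α t s : ι → F) (hom : ∀ a ∈ I, ∀ b ∈ I, a ≠ b → om α t s a b ≠ 0) {δ : ℕ}
    (hδ : I.card + δ = Fintype.card F ^ 2) (hD : 576 * (δ + 1) ^ 2 ≤ Fintype.card F ^ 3)
    (hV : 48 * (I.filter (Vert I t s)).card ≤ Fintype.card F) : False := by
  obtain ⟨d, hd⟩ := exists_dir I α t s
  have hR := rich_pairs h2 I α t s hom hδ
  have hB : 96 * (I.filter (Bad I α t s d)).card ≤ Fintype.card F ^ 2 := by
    apply Nat.le_of_mul_le_mul_left _ (by omega : 0 < Fintype.card F)
    linarith only [hD, hd, hR]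
  let A : F → Finset ι := fun σ => I.filter fun a => s a - d * t a = σ
  let j : F → ℕ := fun σ => Fintype.card F - (A σ).card
  have hj : ∀ σ, (A σ).card + j σ = Fintype.card F := fun σ =>
    Nat.add_sub_cancel' (slice_le I α t s hom d σ)
  let b : F → ℕ := fun σ => ((A σ).filter fun a => Vert I t s a ∨ Bad I α t s d a).card
  have sA : ∑ σ, (A σ).card = I.card :=
    (Finset.card_eq_sum_card_fiberwise (f := fun a => s a - d * t a) (fun _ _ => by simp)).symm
  have sj : ∑ σ, j σ = δ := by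
    have : ∑ σ, ((A σ).card + j σ) = Fintype.card F ^ 2 := by simp [hj, sq]
    rw [Finset.sum_add_distrib] at this
    omega
  have sb : ∑ σ, b σ ≤ (I.filter (Vert I t s)).card + (I.filter (Bad I α t s d)).card := by
    have := Finset.card_eq_sum_card_fiberwise (f := fun a => s a - d * t a)
      (s := I.filter fun a => Vert I t s a ∨ Bad I α t s d a) (t := Finset.univ)
      (fun _ _ => by simp)
    simp only [b, A, Finset.filter_comm _ (fun a => Vert I t s a ∨ Bad I α t s d a)]
    rw [← this, Finset.filter_or]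
    exact Finset.card_union_le _ _
  let N1 := Finset.univ.filter fun σ => ¬ 132 * j σ ^ 2 < Fintype.card F
  let N2 := Finset.univ.filter fun σ => ¬ 45 * b σ < Fintype.card F
  have n1 : 100 * N1.card ≤ 48 * Fintype.card F := by
    rcases N1.eq_empty_or_nonempty with he | hne
    · simp [he]
    obtain ⟨σ0, hσ0, hmin⟩ := Finset.exists_min_image N1 j hne
    have e1 : N1.card * j σ0 ≤ δ := by
      rw [← sj, ← smul_eq_mul, ← Finset.sum_const]
      exact (Finset.sum_le_sum hmin).trans
        (Finset.sum_le_sum_of_subset (Finset.subset_univ _))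
    have e2 := not_lt.mp (Finset.mem_filter.mp hσ0).2
    generalize j σ0 = k at *
    generalize N1.card = n at *
    generalize Fintype.card F = q at *
    by_contra hc
    have e3 : (48 * q) ^ 2 ≤ (100 * n) ^ 2 := Nat.pow_le_pow_left (by omega) 2
    have e4 : (n * k) ^ 2 ≤ (δ + 1) ^ 2 := Nat.pow_le_pow_left (by omega) 2
    have e5 : (48 * q) ^ 2 * q ≤ (100 * n) ^ 2 * (132 * k ^ 2) := Nat.mul_le_mul e3 e2
    have e6 : 0 < q ^ 3 := by positivity
    linarith only [hR, hD, e4, e5]
  have n2 : N2.card * Fintype.card F ≤ 45 * ∑ σ, b σ := by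
    rw [← smul_eq_mul, ← Finset.sum_const, Finset.mul_sum]
    exact (Finset.sum_le_sum fun σ hσ => not_lt.mp (Finset.mem_filter.mp hσ).2).trans
      (Finset.sum_le_sum_of_subset (Finset.subset_univ _))
  have n3 : 100 * N2.card ≤ 48 * Fintype.card F := by
    apply Nat.le_of_mul_le_mul_right _ (by omega : 0 < Fintype.card F)
    nlinarith only [hq, hV, hB, sb, n2]
  have n4 := Finset.card_sdiff_add_card_eq_card (Finset.subset_univ (N1 ∪ N2))
  have n5 := Finset.card_union_le N1 N2
  rw [Finset.card_univ] at n4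
  obtain ⟨σ1, hσ1, σ2, hσ2, hne⟩ := Finset.one_lt_card.mp
    (by omega : 1 < (Finset.univ \ (N1 ∪ N2)).card)
  simp only [N1, N2, Finset.mem_sdiff, Finset.mem_univ, Finset.mem_union, Finset.mem_filter,
    true_and, not_or, not_not] at hσ1 hσ2
  obtain ⟨t1, β1, c1, hc1, S1, hS1, g1, i1, k1, l1⟩ :=
    slice_hyp h2 hq I α t s hom d σ1 (hj σ1) hσ1.1 rfl hσ1.2
  obtain ⟨t2, β2, c2, hc2, S2, hS2, g2, i2, k2, l2⟩ :=
    slice_hyp h2 hq I α t s hom d σ2 (hj σ2) hσ2.1 rfl hσ2.2
  have hρ : σ2 - σ1 ≠ 0 := sub_ne_zero.mpr hne.symm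
  have := two_hyp h2 (by omega) (γ := (β1 - β2) / (σ2 - σ1) + t1 + t2) (c1 := c1 / (σ2 - σ1))
    (div_ne_zero hc2 hρ) (S1.image fun a => t a - t1) (S2.image fun a => t a - t2)
    (fun τ hτ => by
      obtain ⟨a, ha, rfl⟩ := Finset.mem_image.mp hτ
      exact left_ne_zero_of_mul ((g1 a ha).2 ▸ hc1))
    (fun τ hτ => by
      obtain ⟨a, ha, rfl⟩ := Finset.mem_image.mp hτ
      exact left_ne_zero_of_mul ((g2 a ha).2 ▸ hc2))
    (fun τ hτ τ' hτ' h => by
      obtain ⟨a, ha, rfl⟩ := Finset.mem_image.mp hτ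
      obtain ⟨a', ha', rfl⟩ := Finset.mem_image.mp hτ'
      have z1 : t a - t1 ≠ 0 := left_ne_zero_of_mul ((g1 a ha).2 ▸ hc1)
      have z2 : t a' - t2 ≠ 0 := left_ne_zero_of_mul ((g2 a' ha').2 ▸ hc2)
      refine hom a (hS1 ha) a' (hS2 ha') (fun he => hne ?_) ?_
      · rw [← (g1 a ha).1, ← (g2 a' ha').1, he]
      · rw [← (g1 a ha).2, ← (g2 a' ha').2, div_right_comm, mul_div_cancel_left₀ _ z1,
          div_right_comm _ _ (t a' - t2), mul_div_cancel_left₀ _ z2] at h
        field_simp at h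
        unfold om
        linear_combination h + t a * (g2 a' ha').1 - t a' * (g1 a ha).1)
  rw [Finset.card_image_of_injOn fun a ha a' ha' h => i1 a ha a' ha' (sub_left_injective h),
    Finset.card_image_of_injOn fun a ha a' ha' h => i2 a ha a' ha' (sub_left_injective h)] at this
  have m1 := hσ1.2
  have m2 := hσ2.2
  change Fintype.card F ≤ S1.card + 2 * j σ1 + 2 * b σ1 + 2 at l1
  change Fintype.card F ≤ S2.card + 2 * j σ2 + 2 * b σ2 + 2 at l2
  omega

theorem core [Fintype F] (h2 : (2 : F) ≠ 0) (hq : 2000 ≤ Fintype.card F) (I : Finset ι)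
    (α t s : ι → F) (hom : ∀ a ∈ I, ∀ b ∈ I, a ≠ b → om α t s a b ≠ 0) {δ : ℕ}
    (hδ : I.card + δ = Fintype.card F ^ 2) (hD : 576 * (δ + 2) ^ 2 ≤ Fintype.card F ^ 3) :
    False := by
  classical
  have hR := rich_pairs h2 I α t s hom hδ
  have hn : Fintype.card F ^ 2 ≤ 2 * I.card := by
    by_contra hc
    have e1 : Fintype.card F ^ 2 ≤ 2 * (δ + 2) := by omega
    have e2 : (Fintype.card F ^ 2) ^ 2 ≤ (2 * (δ + 2)) ^ 2 := Nat.pow_le_pow_left e1 2
    have e3 : 0 < Fintype.card F ^ 3 := by positivity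
    nlinarith only [hq, hδ, hR, hc, e2, hD]
  have hI : I.Nonempty := Finset.card_pos.mp (by nlinarith only [hq, hn])
  let Rx : ι → ℕ := fun x => ((I.erase x).filter fun y => Rich I α t s x y).card
  have h1 : ∑ x ∈ I, Rx x ≤ (I.offDiag.filter fun p => Rich I α t s p.1 p.2).card := by
    rw [← Finset.card_sigma]
    refine Finset.card_le_card_of_injOn (fun z => (z.1, z.2)) ?_ ?_
    · intro z hz
      simp only [Finset.coe_sigma, Set.mem_sigma_iff, Finset.mem_coe, Finset.mem_filter,
        Finset.mem_erase] at hz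
      simp only [Finset.coe_filter, Finset.mem_offDiag, Set.mem_ofPred_eq]
      exact ⟨⟨hz.1, hz.2.1.2, hz.2.1.1.symm⟩, hz.2.2⟩
    · rintro ⟨a, b⟩ _ ⟨a', b'⟩ _ h
      simp only [Prod.mk.injEq] at h
      obtain ⟨rfl, rfl⟩ := h
      rfl
  obtain ⟨x, hx, hmin⟩ := Finset.exists_min_image I Rx hI
  have h3 : I.card * Rx x ≤ ∑ x ∈ I, Rx x := by
    rw [← smul_eq_mul, ← Finset.sum_const]
    exact Finset.sum_le_sum hmin
  have h4 : 48 * Rx x ≤ Fintype.card F := by
    apply Nat.le_of_mul_le_mul_left _ (by positivity : 0 < Fintype.card F ^ 2)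
    have := Nat.mul_le_mul_right (Rx x) hn
    have e : (I.offDiag.filter fun p => Rich I α t s p.1 p.2).card ≤ 6 * (δ + 1) * δ := by
      refine le_trans (le_of_eq ?_) hR
      congr
    linarith only [hD, hR, h1, h3, this]
  have ho : ∀ a ∈ I.erase x, om α t s a x ≠ 0 := fun a ha =>
    hom a (Finset.mem_erase.mp ha).2 x hx (Finset.mem_erase.mp ha).1
  refine core2 h2 hq (I.erase x) (fun a => -1 / om α t s a x) (fun a => (t a - t x) / om α t s a x)
    (fun a => (s a - s x) / om α t s a x) ?_ (δ := δ + 1) ?_ hD (le_trans ?_ h4)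
  · intro a ha b hb hab h
    apply hom a (Finset.mem_erase.mp ha).2 b (Finset.mem_erase.mp hb).2 hab
    have e1 := ho a ha
    have e2 := ho b hb
    rw [om] at h
    field_simp at h
    unfold om at h ⊢
    linear_combination h
  · have := Finset.card_pos.mpr hI
    rw [Finset.card_erase_of_mem hx]
    omega
  · refine Nat.mul_le_mul_left _ (Finset.card_le_card fun a ha => ?_)
    obtain ⟨ha, b, hb, hab, e1, e2⟩ := Finset.mem_filter.mp ha
    have o1 := ho a ha
    have o2 := ho b hb
    rw [div_eq_div_iff o2 o1] at e1 e2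
    refine Finset.mem_filter.mpr ⟨ha, b, (Finset.mem_erase.mp hb).2, (Finset.mem_erase.mp hb).1,
      hab, om α t s b x / om α t s a x, ?_, ?_, ?_⟩
    · field_simp
      unfold om at *
      linear_combination t x * e2 - s x * e1
    · field_simp
      linear_combination e1
    · field_simp
      linear_combination e2

end Pool.Agent.Work.MP_862369_co
end

-- merged part: Pool.Agent.Work.MP_862369_co.Main
section
/-!
From partial spreads of `Q(4,q)` to partial ovoids of `W(3,q)`.
-/

open Module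

namespace Pool.Agent.Work.MP_862369_co

variable {F : Type} [Field F] {V : Type} [AddCommGroup V] [Module F V]

theorem maximal_ts (h2 : (2 : F) ≠ 0) (hV : finrank F V = 5) (Q : QuadraticForm F V)
    (hQ : Q.Nondegenerate) (M : Submodule F V) (hM : finrank F M = 2) (hM0 : ∀ v ∈ M, Q v = 0)
    (v : V) (hv : Q v = 0) (hvM : ∀ w ∈ M, QuadraticMap.polar Q v w = 0) : v ∈ M := by
  have : FiniteDimensional F V := Module.finite_of_finrank_pos (by omega)
  have := invertibleOfNonzero h2
  have hB := QuadraticMap.nondegenerate_polar_iff.mpr hQ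
  by_contra hn
  let W := M ⊔ Submodule.span F {v}
  have hW : 2 < finrank F W := by
    rw [← hM]
    refine Submodule.finrank_lt_finrank_of_lt (lt_of_le_of_ne le_sup_left fun h => hn ?_)
    rw [h]
    exact Submodule.mem_sup_right (Submodule.mem_span_singleton_self v)
  have hle : W ≤ LinearMap.BilinForm.orthogonal (QuadraticMap.polarBilin Q) W := by
    intro a ha b hb
    obtain ⟨a1, ha1, a2, ha2, rfl⟩ := Submodule.mem_sup.mp ha
    obtain ⟨b1, hb1, b2, hb2, rfl⟩ := Submodule.mem_sup.mp hb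
    obtain ⟨r, rfl⟩ := Submodule.mem_span_singleton.mp ha2
    obtain ⟨r', rfl⟩ := Submodule.mem_span_singleton.mp hb2
    have e1 : QuadraticMap.polar Q b1 a1 = 0 := by
      simp [QuadraticMap.polar, hM0 _ ha1, hM0 _ hb1, hM0 _ (add_mem hb1 ha1)]
    have e2 : QuadraticMap.polar Q b1 v = 0 := by rw [QuadraticMap.polar_comm]; exact hvM _ hb1
    change QuadraticMap.polar Q _ _ = 0
    simp [QuadraticMap.polar_add_left, QuadraticMap.polar_add_right, e1, e2, hvM _ ha1, hv]
  have h1 := Submodule.finrank_mono hle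
  rw [LinearMap.BilinForm.finrank_orthogonal hB] at h1
  omega

theorem coords (h2 : (2 : F) ≠ 0) (hV : finrank F V = 5) (Q : QuadraticForm F V)
    (hQ : Q.Nondegenerate) (S : Finset (Submodule F V))
    (hS : ∀ L ∈ S, finrank F L = 2 ∧ ∀ v ∈ L, Q v = 0)
    (hd : ∀ L ∈ S, ∀ L' ∈ S, L ≠ L' → L ⊓ L' = ⊥) {M L1 : Submodule F V} (hM : M ∈ S)
    (hL1 : L1 ∈ S) (hne : L1 ≠ M) :
    ∃ α t s : Submodule F V → F, ∀ L ∈ S, L ≠ M → ∀ L' ∈ S, L' ≠ M → L ≠ L' →
      om α t s L L' ≠ 0 := by
  have : FiniteDimensional F V := Module.finite_of_finrank_pos (by omega)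
  let bM := Module.finBasisOfFinrankEq F M (hS M hM).1
  obtain ⟨f1, hf1⟩ : ∃ f : V, f = bM 0 := ⟨_, rfl⟩
  obtain ⟨f2, hf2⟩ : ∃ f : V, f = bM 1 := ⟨_, rfl⟩
  have m1 : f1 ∈ M := hf1 ▸ (bM 0).2
  have m2 : f2 ∈ M := hf2 ▸ (bM 1).2
  have hspan : ∀ w ∈ M, ∃ y1 y2 : F, w = y1 • f1 + y2 • f2 := by
    intro w hw
    refine ⟨bM.repr ⟨w, hw⟩ 0, bM.repr ⟨w, hw⟩ 1, ?_⟩
    have := congrArg Subtype.val (bM.sum_repr ⟨w, hw⟩)
    rw [Fin.sum_univ_two] at this
    rw [hf1, hf2]
    exact this.symm
  let B := QuadraticMap.polarBilin Q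
  have Bc : ∀ v w, B v w = B w v := fun v w => QuadraticMap.polar_comm Q v w
  have Bs : ∀ v, B v v = 2 * Q v := fun v => by
    change QuadraticMap.polar Q v v = _
    rw [QuadraticMap.polar_self, two_nsmul, two_mul]
  have Bz : ∀ L ∈ S, ∀ v ∈ L, ∀ w ∈ L, B v w = 0 := by
    intro L hL v hv w hw
    change QuadraticMap.polar Q v w = _
    simp [QuadraticMap.polar, (hS L hL).2 _ hv, (hS L hL).2 _ hw, (hS L hL).2 _ (add_mem hv hw)]
  have hmax : ∀ v, Q v = 0 → B v f1 = 0 → B v f2 = 0 → v ∈ M := by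
    intro v hv e1 e2
    refine maximal_ts h2 hV Q hQ M (hS M hM).1 (hS M hM).2 v hv fun w hw => ?_
    obtain ⟨y1, y2, rfl⟩ := hspan w hw
    change B v _ = 0
    simp [e1, e2]
  have hu : ∀ L ∈ S, L ≠ M → ∀ z : F × F, ∃ u ∈ L, B u f1 = z.1 ∧ B u f2 = z.2 := by
    intro L hL hLM z
    let φ : L →ₗ[F] F × F := ((B.flip f1).prod (B.flip f2)).domRestrict L
    have hinj : Function.Injective φ := by
      rw [← LinearMap.ker_eq_bot, LinearMap.ker_eq_bot']
      intro v hv
      have h1 := hmax v ((hS L hL).2 _ v.2) (congrArg Prod.fst hv) (congrArg Prod.snd hv)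
      have h3 : (v : V) ∈ L ⊓ M := ⟨v.2, h1⟩
      rw [hd L hL M hM hLM] at h3
      exact Subtype.ext h3
    obtain ⟨u, hu⟩ := (LinearMap.injective_iff_surjective_of_finrank_eq_finrank
      (by rw [(hS L hL).1]; simp)).mp hinj z
    exact ⟨u, u.2, congrArg Prod.fst hu, congrArg Prod.snd hu⟩
  obtain ⟨e1, he1, b11, b12⟩ := hu L1 hL1 hne (1, 0)
  obtain ⟨e2, he2, b21, b22⟩ := hu L1 hL1 hne (0, 1)
  simp only at b11 b12 b21 b22
  have c11 := Bz L1 hL1 e1 he1 e1 he1
  have c12 := Bz L1 hL1 e1 he1 e2 he2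
  have c21 := Bz L1 hL1 e2 he2 e1 he1
  have c22 := Bz L1 hL1 e2 he2 e2 he2
  have d11 := Bz M hM f1 m1 f1 m1
  have d12 := Bz M hM f1 m1 f2 m2
  have d21 := Bz M hM f2 m2 f1 m1
  have d22 := Bz M hM f2 m2 f2 m2
  have b11' : B f1 e1 = 1 := by rw [Bc]; exact b11
  have b12' : B f2 e1 = 0 := by rw [Bc]; exact b12
  have b21' : B f1 e2 = 0 := by rw [Bc]; exact b21
  have b22' : B f2 e2 = 1 := by rw [Bc]; exact b22
  let ψ : V →ₗ[F] (F × F) × (F × F) :=
    ((B.flip e1).prod (B.flip e2)).prod ((B.flip f1).prod (B.flip f2))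
  have hψ : ∀ v, ψ v = ((B v e1, B v e2), (B v f1, B v f2)) := fun v => rfl
  have hsurj : LinearMap.range ψ = ⊤ := by
    rw [LinearMap.range_eq_top]
    rintro ⟨⟨y1, y2⟩, x1, x2⟩
    refine ⟨y1 • f1 + y2 • f2 + x1 • e1 + x2 • e2, ?_⟩
    simp [hψ, b11, b12, b21, b22, c11, c12, c21, c22, d11, d12, d21, d22, b11', b12', b21', b22']
  have hker : finrank F (LinearMap.ker ψ) = 1 := by
    have := ψ.finrank_range_add_finrank_ker
    rw [hsurj, finrank_top, hV] at this
    simp at this
    omega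
  obtain ⟨g, hg0, hg⟩ := finrank_eq_one_iff'.mp hker
  have g1 : ψ g = 0 := g.2
  rw [hψ] at g1
  simp only [Prod.mk_eq_zero] at g1
  obtain ⟨⟨g1, g2⟩, g3, g4⟩ := g1
  have g1' : B e1 g = 0 := by rw [Bc]; exact g1
  have g2' : B e2 g = 0 := by rw [Bc]; exact g2
  have g3' : B f1 g = 0 := by rw [Bc]; exact g3
  have g4' : B f2 g = 0 := by rw [Bc]; exact g4
  have hc : Q g ≠ 0 := by
    intro h0
    obtain ⟨y1, y2, hy⟩ := hspan g (hmax g h0 g3 g4)
    rw [hy] at g1 g2
    simp [b11', b12', b21', b22'] at g1 g2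
    apply hg0
    apply Subtype.ext
    simp [hy, g1, g2]
  have hdec : ∀ u : V, ∃ a : F, u = B u f1 • e1 + B u f2 • e2 + B u e1 • f1 + B u e2 • f2 +
      a • (g : V) := by
    intro u
    obtain ⟨a, ha⟩ := hg ⟨u - (B u f1 • e1 + B u f2 • e2 + B u e1 • f1 + B u e2 • f2), by
      simp [hψ, b11, b12, b21, b22, c11, c12, c21, c22, d11, d12, d21, d22, b11', b12', b21',
        b22']⟩
    refine ⟨a, ?_⟩
    have := congrArg Subtype.val ha
    simp only [SetLike.val_smul] at this
    rw [this]; abel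
  have : ∀ L ∈ S, L ≠ M → ∃ A a1 a2 : F,
      e1 + (-(Q g * a1 ^ 2)) • f1 + (Q g * (A - a1 * a2)) • f2 + a1 • (g : V) ∈ L ∧
      e2 + (Q g * (-A - a1 * a2)) • f1 + (-(Q g * a2 ^ 2)) • f2 + a2 • (g : V) ∈ L := by
    intro L hL hLM
    obtain ⟨u1, hu1, p11, p12⟩ := hu L hL hLM (1, 0)
    obtain ⟨u2, hu2, p21, p22⟩ := hu L hL hLM (0, 1)
    obtain ⟨a1, ha1⟩ := hdec u1
    obtain ⟨a2, ha2⟩ := hdec u2
    simp only at p11 p12 p21 p22
    rw [p11, p12] at ha1
    rw [p21, p22] at ha2
    have q11 := Bz L hL u1 hu1 u1 hu1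
    have q12 := Bz L hL u1 hu1 u2 hu2
    have q22 := Bz L hL u2 hu2 u2 hu2
    generalize B u1 e1 = m11 at ha1
    generalize B u1 e2 = m12 at ha1
    generalize B u2 e1 = m21 at ha2
    generalize B u2 e2 = m22 at ha2
    rw [ha1] at q11 q12
    rw [ha2] at q12 q22
    simp only [map_add, map_smul, LinearMap.add_apply, LinearMap.smul_apply, smul_eq_mul, b11, b12,
      b21, b22, c11, c12, c21, c22, d11, d12, d21, d22, b11', b12', b21', b22', g1, g2, g3, g4,
      g1', g2', g3', g4', Bs (g : V)] at q11 q12 q22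
    have r11 : m11 = -(Q g * a1 ^ 2) := by
      apply mul_left_cancel₀ h2; linear_combination q11
    have r22 : m22 = -(Q g * a2 ^ 2) := by
      apply mul_left_cancel₀ h2; linear_combination q22
    have r12 : m12 = Q g * (m12 / Q g + a1 * a2 - a1 * a2) := by field_simp; ring
    have r21 : m21 = Q g * (-(m12 / Q g + a1 * a2) - a1 * a2) := by
      field_simp; linear_combination q12
    refine ⟨m12 / Q g + a1 * a2, a1, a2, ?_, ?_⟩
    · rw [← r11, ← r12]
      simpa [ha1] using hu1
    · rw [← r22, ← r21]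
      simpa [ha2] using hu2
  choose! A a1 a2 k1 k2 using this
  refine ⟨A, a1, a2, fun L hL hLM L' hL' hLM' hLL h => ?_⟩
  unfold om at h
  have key : ∀ x1 x2 : F, x1 * (a1 L - a1 L') + x2 * (a2 L - a2 L') = 0 →
      x1 * (-(a1 L ^ 2) + a1 L' ^ 2) + x2 * (-A L - a1 L * a2 L + A L' + a1 L' * a2 L') = 0 →
      x1 * (A L - a1 L * a2 L - A L' + a1 L' * a2 L') + x2 * (-(a2 L ^ 2) + a2 L' ^ 2) = 0 →
      x1 = 0 ∧ x2 = 0 := by
    intro x1 x2 z1 z2 z3
    have w1 := add_mem (L.smul_mem x1 (k1 L hL hLM)) (L.smul_mem x2 (k2 L hL hLM))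
    have w2 := add_mem (L'.smul_mem x1 (k1 L' hL' hLM')) (L'.smul_mem x2 (k2 L' hL' hLM'))
    have heq : x1 • (e1 + (-(Q g * a1 L ^ 2)) • f1 + (Q g * (A L - a1 L * a2 L)) • f2 +
          a1 L • (g : V)) + x2 • (e2 + (Q g * (-A L - a1 L * a2 L)) • f1 +
          (-(Q g * a2 L ^ 2)) • f2 + a2 L • (g : V)) =
        x1 • (e1 + (-(Q g * a1 L' ^ 2)) • f1 + (Q g * (A L' - a1 L' * a2 L')) • f2 +
          a1 L' • (g : V)) + x2 • (e2 + (Q g * (-A L' - a1 L' * a2 L')) • f1 +
          (-(Q g * a2 L' ^ 2)) • f2 + a2 L' • (g : V)) := by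
      linear_combination (norm := module) (Q g * z2) • f1 + (Q g * z3) • f2 + z1 • (g : V)
    rw [← heq] at w2
    have w3 := (Submodule.mem_inf.mpr ⟨w1, w2⟩)
    rw [hd L hL L' hL' hLL, Submodule.mem_bot] at w3
    have y1 := congrArg (fun v => B v f1) w3
    have y2 := congrArg (fun v => B v f2) w3
    simp [b11, b12, b21, b22, d11, d12, d21, d22, g3, g4] at y1 y2
    exact ⟨y1, y2⟩
  obtain ⟨z1, z2⟩ := key (a2 L - a2 L') (-(a1 L - a1 L')) (by ring)
    (by linear_combination (a1 L - a1 L') * h) (by linear_combination (a2 L - a2 L') * h)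
  exact one_ne_zero (key 1 0 (by linear_combination -z2)
    (by linear_combination (a1 L + a1 L') * z2)
    (by linear_combination h + (a2 L + a2 L') * z2)).1

theorem main [Fintype F] (hodd : Odd (Fintype.card F)) (hq : 2000 ≤ Fintype.card F)
    (hV : finrank F V = 5) (Q : QuadraticForm F V) (hQ : Q.Nondegenerate)
    (S : Finset (Submodule F V)) (hS : ∀ L ∈ S, finrank F L = 2 ∧ ∀ v ∈ L, Q v = 0)
    (hd : ∀ L ∈ S, ∀ L' ∈ S, L ≠ L' → L ⊓ L' = ⊥) :
    (S.card : ℝ) ≤ (Fintype.card F : ℝ) ^ 2 -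
      (Fintype.card F : ℝ) * Real.sqrt (Fintype.card F) / 25 := by
  classical
  have h2 : (2 : F) ≠ 0 := by
    refine Ring.two_ne_zero fun h => ?_
    have := FiniteField.even_card_iff_char_two.mp h
    have := Nat.odd_iff.mp hodd
    omega
  have hq' : (2000 : ℝ) ≤ Fintype.card F := by exact_mod_cast hq
  have hr : Real.sqrt (Fintype.card F) ^ 2 = Fintype.card F := Real.sq_sqrt (by linarith only [hq'])
  have hr0 : 44 ≤ Real.sqrt (Fintype.card F) := Real.le_sqrt_of_sq_le (by linarith)
  generalize Real.sqrt (Fintype.card F) = r at hr hr0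
  by_contra hc
  push Not at hc
  have hS2 : 1 < S.card := by
    have : (1 : ℝ) < S.card := by
      have h3 : r ≤ Fintype.card F := by linarith only [hq', hr, hr0, mul_nonneg_of_nonpos_of_nonpos (Mathlib.Tactic.Linarith.sub_nonpos_of_le hr0) (Mathlib.Tactic.Linarith.sub_nonpos_of_le hr0)]
      have h4 : (Fintype.card F : ℝ) * r ≤ (Fintype.card F : ℝ) ^ 2 := by linarith only [h3, mul_nonneg_of_nonpos_of_nonpos (Mathlib.Tactic.Linarith.sub_nonpos_of_le (Mathlib.Tactic.Linarith.natCast_nonneg ℝ (Fintype.card F))) (Mathlib.Tactic.Linarith.sub_nonpos_of_le h3)]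
      linarith only [hq', hc, h4, mul_nonneg_of_nonpos_of_nonpos (Mathlib.Tactic.Linarith.sub_nonpos_of_le (Mathlib.Tactic.Linarith.natCast_nonneg ℝ (Fintype.card F))) (Mathlib.Tactic.Linarith.sub_nonpos_of_le hq')]
    exact_mod_cast this
  obtain ⟨L1, hL1, M, hM, hne⟩ := Finset.one_lt_card.mp hS2
  obtain ⟨α, t, s, h⟩ := coords h2 hV Q hQ S hS hd hM hL1 hne
  have hom : ∀ a ∈ S.erase M, ∀ b ∈ S.erase M, a ≠ b → om α t s a b ≠ 0 := fun a ha b hb =>
    h a (Finset.mem_erase.mp ha).2 (Finset.mem_erase.mp ha).1 b (Finset.mem_erase.mp hb).2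
      (Finset.mem_erase.mp hb).1
  obtain ⟨δ, hδ⟩ := Nat.exists_eq_add_of_le (card_le_sq _ α t s hom)
  refine core h2 hq _ α t s hom hδ.symm ?_
  rw [Finset.card_erase_of_mem hM] at hδ
  have e1 : S.card + δ = Fintype.card F ^ 2 + 1 := by omega
  have e2 : (S.card : ℝ) + δ = (Fintype.card F : ℝ) ^ 2 + 1 := by exact_mod_cast e1
  have e3 : 24 * ((δ : ℝ) + 2) ≤ Fintype.card F * r := by linarith only [hq', hc, e2, hr0, mul_nonneg_of_nonpos_of_nonpos (Mathlib.Tactic.Linarith.sub_nonpos_of_le (Mathlib.Tactic.Linarith.natCast_nonneg ℝ (Fintype.card F))) (Mathlib.Tactic.Linarith.sub_nonpos_of_le hr0)]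
  have e4 : (24 * ((δ : ℝ) + 2)) ^ 2 ≤ (Fintype.card F * r) ^ 2 :=
    pow_le_pow_left₀ (by positivity) e3 2
  have e5 : 576 * ((δ : ℝ) + 2) ^ 2 ≤ (Fintype.card F : ℝ) ^ 3 := by
    rw [mul_pow (Fintype.card F : ℝ), hr] at e4
    linarith only [e4, e4, (by ring : (Fintype.card F : ℝ) ^ 2 * Fintype.card F = (Fintype.card F : ℝ) ^ 3),
      (by ring : (24 * ((δ : ℝ) + 2)) ^ 2 = 576 * ((δ : ℝ) + 2) ^ 2)]
  exact_mod_cast e5

end Pool.Agent.Work.MP_862369_co
end
end
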