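import Pool.Agent.Work.MP_862369_co.Main

-- merged part: Pool.Agent.Work.MP_862369_co.UpDefs
section
/-!
Near-arcs with few rich lines over prime fields: definitions and basic facts.

Conventions (as in Plane): a point a has coordinates (t a, β a); the pair (u, r) is the
line t - β r = u; polynomials p : F[X][Y] are functions of (u, r) (inner variable u, outer
variable r); rho t β p is the restriction of p to the pencil of lines through (t, β),
a polynomial in r; Wt d p says that the total degree is at most d.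
-/

open Polynomial
open scoped Polynomial.Bivariate

namespace Pool.Agent.Work.MP_862369_co.Up

variable {F : Type} [Field F] {ι : Type}

/-- the split polynomial with root multiplicities e -/
noncomputable def pw [Fintype F] (e : F → ℕ) : F[X] := ∏ r : F, (X - C r) ^ e r

theorem pw_monic [Fintype F] (e : F → ℕ) : (pw e).Monic :=
  monic_prod_of_monic _ _ fun r _ => (monic_X_sub_C r).pow _

theorem pw_ne [Fintype F] (e : F → ℕ) : pw e ≠ 0 := (pw_monic e).ne_zero

theorem pw_natDegree [Fintype F] (e : F → ℕ) : (pw e).natDegree = ∑ r, e r := by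
  rw [pw, natDegree_prod_of_monic _ _ fun r _ => (monic_X_sub_C r).pow _]
  simp

theorem pw_splits [Fintype F] (e : F → ℕ) : (pw e).Splits :=
  Splits.prod fun r _ => (Splits.X_sub_C r).pow _

theorem pw_add [Fintype F] (e e' : F → ℕ) : pw (fun r => e r + e' r) = pw e * pw e' := by
  simp only [pw, pow_add, Finset.prod_mul_distrib]

theorem mult_prod {κ : Type} (s : Finset κ) (p : κ → F[X]) (hp : ∀ i ∈ s, p i ≠ 0) (r : F) :
    rootMultiplicity r (∏ i ∈ s, p i) = ∑ i ∈ s, rootMultiplicity r (p i) := by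
  classical
  induction s using Finset.induction_on with
  | empty => simp
  | insert b s hb ih =>
    have h1 := fun i hi => hp i (Finset.mem_insert_of_mem hi)
    rw [Finset.prod_insert hb, Finset.sum_insert hb, rootMultiplicity_mul (mul_ne_zero
      (hp b (Finset.mem_insert_self _ _)) (Finset.prod_ne_zero_iff.mpr h1)), ih h1]

theorem mult_pow {p : F[X]} (hp : p ≠ 0) (n : ℕ) (r : F) :
    rootMultiplicity r (p ^ n) = n * rootMultiplicity r p := by
  simpa using mult_prod (Finset.range n) (fun _ => p) (fun _ _ => hp) r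

theorem pw_mult [Fintype F] (e : F → ℕ) (r : F) : rootMultiplicity r (pw e) = e r := by
  classical
  rw [pw, mult_prod _ _ fun s _ => pow_ne_zero _ (X_sub_C_ne_zero s), Finset.sum_eq_single r]
  · exact rootMultiplicity_X_sub_C_pow r _
  · intro s _ hs
    rw [mult_pow (X_sub_C_ne_zero s), rootMultiplicity_X_sub_C, if_neg hs.symm, mul_zero]
  · simp

theorem eval_pw_ne [Fintype F] {e : F → ℕ} {r : F} (h : e r = 0) : eval r (pw e) ≠ 0 := by
  intro h0
  have := (rootMultiplicity_pos (pw_ne e)).mpr h0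
  rw [pw_mult] at this
  omega

theorem eval_pw_zero [Fintype F] {e : F → ℕ} {r : F} (h : e r ≠ 0) : eval r (pw e) = 0 :=
  (rootMultiplicity_pos (pw_ne e)).mp (by rw [pw_mult]; omega)

theorem pw_dvd [Fintype F] {e : F → ℕ} {p : F[X]} (h : ∀ r, (X - C r) ^ e r ∣ p) : pw e ∣ p :=
  Finset.prod_dvd_of_coprime (fun _ _ _ _ hab =>
    (pairwise_coprime_X_sub_C Function.injective_id hab).pow) fun r _ => h r

theorem dvd_pw [Fintype F] (e : F → ℕ) (r : F) : (X - C r) ^ e r ∣ pw e :=
  Finset.dvd_prod_of_mem (fun r => (X - C r) ^ e r) (Finset.mem_univ r)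

theorem pw_mono [Fintype F] {e e' : F → ℕ} (h : ∀ r, e r ≤ e' r) : pw e ∣ pw e' :=
  pw_dvd fun r => (pow_dvd_pow _ (h r)).trans (dvd_pw e' r)

theorem sum_mult_le [Fintype F] {p : F[X]} (hp : p ≠ 0) :
    ∑ r, rootMultiplicity r p ≤ p.natDegree := by
  rw [← pw_natDegree]
  exact natDegree_le_of_dvd (pw_dvd fun r => pow_rootMultiplicity_dvd p r) hp

open Classical in
/-- the number of points of A on the line t - β r = u -/
noncomputable def xx (A : Finset ι) (t β : ι → F) (u r : F) : ℕ :=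
  (A.filter fun c => t c - β c * r = u).card

/-- the number of points of A on the line of slope r through the point a -/
noncomputable def xa (A : Finset ι) (t β : ι → F) (a : ι) (r : F) : ℕ :=
  xx A t β (t a - β a * r) r

theorem xx_mono {A B : Finset ι} (h : B ⊆ A) (t β : ι → F) (u r : F) :
    xx B t β u r ≤ xx A t β u r := by
  classical
  exact Finset.card_le_card (Finset.filter_subset_filter _ h)

theorem xa_mono {A B : Finset ι} (h : B ⊆ A) (t β : ι → F) (a : ι) (r : F) :
    xa B t β a r ≤ xa A t β a r := xx_mono h t β _ r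

theorem xa_pos {A : Finset ι} (t β : ι → F) {a : ι} (ha : a ∈ A) (r : F) : 1 ≤ xa A t β a r := by
  classical
  exact Finset.card_pos.mpr ⟨a, Finset.mem_filter.mpr ⟨ha, rfl⟩⟩

theorem xa_eq (A : Finset ι) {t β : ι → F} {a b : ι} {r : F}
    (h : t b - β b * r = t a - β a * r) : xa A t β b r = xa A t β a r := by
  rw [xa, h, xa]

theorem xa_erase [DecidableEq ι] [DecidableEq F] {A : Finset ι} (t β : ι → F) {a : ι}
    (ha : a ∈ A) (r : F) :
    ((A.erase a).filter fun c => t c - β c * r = t a - β a * r).card + 1 = xa A t β a r := by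
  rw [Finset.filter_erase, Finset.card_erase_add_one (by simp [ha]), xa, xx]
  congr

theorem xa_two {A : Finset ι} {t β : ι → F} {a b : ι} (ha : a ∈ A) (hb : b ∈ A) (hab : b ≠ a)
    {r : F} (h : t b - β b * r = t a - β a * r) : 2 ≤ xa A t β a r := by
  classical
  exact Finset.one_lt_card.mpr ⟨a, Finset.mem_filter.mpr ⟨ha, rfl⟩, b,
    Finset.mem_filter.mpr ⟨hb, h⟩, hab.symm⟩

theorem xa_zero {A : Finset ι} {t β : ι → F} (ht : ∀ a ∈ A, ∀ b ∈ A, t a = t b → a = b) {a : ι}
    (ha : a ∈ A) : xa A t β a 0 = 1 := by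
  classical
  refine le_antisymm (Finset.card_le_one.mpr fun b hb c hc => ?_) (xa_pos t β ha 0)
  rw [Finset.mem_filter] at hb hc
  exact ht b hb.1 c hc.1 (by linear_combination hb.2 - hc.2)

/-- a sum over flags is a weighted sum over lines -/
theorem sum_flags [Fintype F] (A : Finset ι) (t β : ι → F) (G : F → F → ℕ) :
    ∑ a ∈ A, ∑ r, G (t a - β a * r) r = ∑ u, ∑ r, xx A t β u r * G u r := by
  classical
  rw [Finset.sum_comm, Finset.sum_comm (s := Finset.univ) (t := Finset.univ)]
  refine Finset.sum_congr rfl fun r _ => ?_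
  rw [← Finset.sum_fiberwise (s := A) (g := fun a => t a - β a * r)]
  refine Finset.sum_congr rfl fun u _ => ?_
  rw [Finset.sum_congr rfl (g := fun _ => G u r) fun a ha => by rw [(Finset.mem_filter.mp ha).2],
    Finset.sum_const, smul_eq_mul, xx]

open Classical in
/-- one on tangent lines and on rich lines through a, zero on ordinary secants -/
noncomputable def eU (A : Finset ι) (t β : ι → F) (a : ι) (r : F) : ℕ :=
  if r ≠ 0 ∧ xa A t β a r ≠ 2 then 1 else 0

/-- the number of further points on a rich line through a, zero on the other lines -/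
noncomputable def eE (A : Finset ι) (t β : ι → F) (a : ι) (r : F) : ℕ :=
  if 3 ≤ xa A t β a r then xa A t β a r - 1 else 0

/-- the number of ordered pairs of points on rich lines -/
noncomputable def RR [Fintype F] (A : Finset ι) (t β : ι → F) : ℕ := ∑ a ∈ A, ∑ r, eE A t β a r

theorem eE_mono {A B : Finset ι} (h : B ⊆ A) (t β : ι → F) (a : ι) (r : F) :
    eE B t β a r ≤ eE A t β a r := by
  have := xa_mono h t β a r
  unfold eE
  split_ifs <;> omega

theorem RR_mono [Fintype F] {A B : Finset ι} (h : B ⊆ A) (t β : ι → F) :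
    RR B t β ≤ RR A t β :=
  (Finset.sum_le_sum fun a _ => Finset.sum_le_sum fun r _ => eE_mono h t β a r).trans
    (Finset.sum_le_sum_of_subset h)

/-- monic in Y of full total degree, and of full degree on all pencils -/
structure Good (A : Finset ι) (t β : ι → F) (p : F[X][Y]) : Prop where
  monic : p.Monic
  wt : Wt p.natDegree p
  ne : ∀ a ∈ A, rho (t a) (β a) p ≠ 0
  deg : ∀ a ∈ A, (rho (t a) (β a) p).natDegree = p.natDegree

theorem Good.left {A : Finset ι} {t β : ι → F} {p q : F[X][Y]} (h : Good A t β (p * q))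
    (hp : p.Monic) : Good A t β p := by
  have hq : q.Monic := hp.of_mul_monic_left h.monic
  have w1 := Wt_factor hp hq h.wt
  have w2 := Wt_factor hq hp (by rw [mul_comm]; exact h.wt)
  refine ⟨hp, w1, fun a ha => left_ne_zero_of_mul (map_mul (rho (t a) (β a)) p q ▸ h.ne a ha),
    fun a ha => ?_⟩
  have e1 := natDegree_rho w1 (t a) (β a)
  have e2 := natDegree_rho w2 (t a) (β a)
  have e3 := natDegree_mul_le (p := rho (t a) (β a) p) (q := rho (t a) (β a) q)
  rw [← map_mul, h.deg a ha, hp.natDegree_mul hq] at e3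
  omega

theorem Good.of_dvd {A : Finset ι} {t β : ι → F} {p q : F[X][Y]} (h : Good A t β q)
    (hp : p.Monic) (hd : p ∣ q) : Good A t β p := by
  obtain ⟨s, rfl⟩ := hd
  exact h.left hp

theorem Wt_mul {d e : ℕ} {p q : F[X][Y]} (hp : Wt d p) (hq : Wt e q) : Wt (d + e) (p * q) :=
  Wt_of_mem (EE_mul _ _ (mem_of_Wt hp) (mem_of_Wt hq))

theorem Wt_pow {d : ℕ} {p : F[X][Y]} (hp : Wt d p) (n : ℕ) : Wt (n * d) (p ^ n) :=
  Wt_of_mem (EE_pow _ _ (mem_of_Wt hp) n)

theorem Wt_mono {d e : ℕ} {p : F[X][Y]} (hp : Wt d p) (h : d ≤ e) : Wt e p :=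
  fun k i hne => (hp k i hne).trans h

/-- The data of the analysis: on every pencil the reduced fraction N / D is a constant times
the square of U / E. -/
structure Dat [Fintype F] (A : Finset ι) (t β : ι → F) (N D : F[X][Y]) (c : ι → F) : Prop where
  hβ : ∀ a ∈ A, ∀ b ∈ A, β a = β b → a = b
  ht : ∀ a ∈ A, ∀ b ∈ A, t a = t b → a = b
  gN : Good A t β N
  gD : Good A t β D
  cop : IsRelPrime N D
  cne : ∀ a ∈ A, c a ≠ 0
  eq : ∀ a ∈ A, C (c a) * rho (t a) (β a) N * pw (eE A t β a) ^ 2 =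
    pw (eU A t β a) ^ 2 * rho (t a) (β a) D

theorem Dat.val [Fintype F] {A : Finset ι} {t β : ι → F} {N D : F[X][Y]} {c : ι → F}
    (h : Dat A t β N D c) {a : ι} (ha : a ∈ A) (r : F) :
    rootMultiplicity r (rho (t a) (β a) N) + 2 * eE A t β a r =
      2 * eU A t β a r + rootMultiplicity r (rho (t a) (β a) D) := by
  have e := congrArg (rootMultiplicity r) (h.eq a ha)
  have h1 : C (c a) * rho (t a) (β a) N ≠ 0 := mul_ne_zero (C_ne_zero.mpr (h.cne a ha))
    (h.gN.ne a ha)
  rwa [rootMultiplicity_mul (mul_ne_zero h1 (pow_ne_zero _ (pw_ne _))), rootMultiplicity_mul h1,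
    rootMultiplicity_mul (mul_ne_zero (pow_ne_zero _ (pw_ne _)) (h.gD.ne a ha)),
    mult_pow (pw_ne _), mult_pow (pw_ne _), pw_mult, pw_mult, rootMultiplicity_C, zero_add] at e

theorem mult_le_of_dvd {p q : F[X]} (hq : q ≠ 0) (h : p ∣ q) (r : F) :
    rootMultiplicity r p ≤ rootMultiplicity r q :=
  (le_rootMultiplicity_iff hq).mpr ((pow_rootMultiplicity_dvd p r).trans h)

/-- in a field of prime order small natural numbers are distinct -/
theorem cast_inj [Fintype F] (hp : (Fintype.card F).Prime) {i j : ℕ} (hi : i < Fintype.card F)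
    (hj : j < Fintype.card F) (h : (i : F) = j) : i = j := by
  obtain ⟨p, hc⟩ := CharP.exists F
  obtain ⟨n, hpp, hn⟩ := FiniteField.card F p
  have : p = Fintype.card F := ((Nat.prime_dvd_prime_iff_eq hpp hp).mp
    (hn ▸ dvd_pow_self p n.ne_zero))
  exact CharP.natCast_injOn_Iio F p (this ▸ hi) (this ▸ hj) h

end Pool.Agent.Work.MP_862369_co.Up
end

-- merged part: Pool.Agent.Work.MP_862369_co.UpPsi
section
/-!
The auxiliary curve through the rich lines.
-/

open Polynomial
open scoped Polynomial.Bivariate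

namespace Pool.Agent.Work.MP_862369_co.Up

variable {F : Type} [Field F] {ι : Type}

theorem UpPsi_count (ρ : ℕ) : ρ ^ 2 < 2 * ∑ s ∈ Finset.range (ρ + 1), (s + 1) := by
  induction ρ with
  | zero => simp
  | succ n ih =>
    rw [Finset.sum_range_succ]
    have : n ^ 2 + n < 2 * ∑ s ∈ Finset.range (n + 1), (s + 1) := by
      clear ih
      induction n with
      | zero => simp
      | succ m ih => rw [Finset.sum_range_succ]; nlinarith
    nlinarith

theorem UpPsi_coeff (i k i' k' : ℕ) :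
    (((C X : F[X][Y]) ^ i * Y ^ k).coeff k').coeff i' = if k' = k ∧ i' = i then 1 else 0 := by
  rw [← map_pow, coeff_C_mul, coeff_X_pow]
  by_cases h1 : k' = k
  · rw [if_pos h1, mul_one, coeff_X_pow]
    simp [h1]
  · simp [h1]

theorem UpPsi_top (t b : F) {d i k : ℕ} (h : i + k ≤ d) :
    ((C t - C b * X) ^ i * X ^ k).coeff d = if i + k = d then (-b) ^ i else 0 := by
  have h1 : (C t - C b * X : F[X]).natDegree ≤ 1 := by compute_degree
  have h2 : ((C t - C b * X : F[X]) ^ i).natDegree ≤ i := by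
    simpa using natDegree_pow_le_of_le i h1
  split_ifs with e
  · rw [← e, coeff_mul_X_pow]
    have := coeff_pow_of_natDegree_le (m := i) h1
    rw [mul_one] at this
    rw [this]
    simp [coeff_C]
  · refine coeff_eq_zero_of_natDegree_lt (lt_of_le_of_lt natDegree_mul_le ?_)
    rw [natDegree_X_pow]
    omega

theorem UpPsi_rho (t b : F) {d : ℕ} {p : F[X][Y]} (hp : Wt d p) :
    (rho t b p).coeff d = ∑ i ∈ Finset.range (d + 1), (p.coeff (d - i)).coeff i * (-b) ^ i := by
  have hp' := mem_of_Wt hp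
  clear hp
  induction hp' using Submodule.span_induction with
  | zero => simp
  | add p q _ _ h1 h2 => simp only [map_add, coeff_add, h1, h2, add_mul, Finset.sum_add_distrib]
  | smul c p _ h1 =>
    simp only [map_smul, coeff_smul, h1, smul_eq_mul, Finset.mul_sum, mul_assoc]
  | mem p hp =>
    obtain ⟨i, k, hik, rfl⟩ := hp
    have e1 : rho t b ((C X : F[X][Y]) ^ i * Y ^ k) = (C t - C b * X) ^ i * X ^ k := by
      simp [rho]
    rw [e1, UpPsi_top t b hik, Finset.sum_eq_single i]
    · rw [UpPsi_coeff]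
      by_cases e : i + k = d
      · rw [if_pos e, if_pos ⟨by omega, rfl⟩, one_mul]
      · rw [if_neg e, if_neg (fun h => e (by omega)), zero_mul]
    · intro j _ hj
      rw [UpPsi_coeff, if_neg (fun h => hj h.2), zero_mul]
    · intro hi
      exact absurd (Finset.mem_range.mpr (by omega)) hi

theorem UpPsi_deg {d : ℕ} {p : F[X][Y]} (hp : Wt d p) {i k : ℕ} (hik : i + k = d)
    (hne : (p.coeff k).coeff i ≠ 0) : ∃ T : Finset F, T.card ≤ d ∧
      ∀ t0 b, b ∉ T → rho t0 b p ≠ 0 ∧ (rho t0 b p).natDegree = d := by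
  classical
  obtain ⟨ω, hω⟩ : ∃ ω : F[X], ω = ∑ j ∈ Finset.range (d + 1),
    monomial j ((-1) ^ j * (p.coeff (d - j)).coeff j) := ⟨_, rfl⟩
  have h0 : ω ≠ 0 := by
    intro h
    have h1 : ω.coeff i = 0 := by rw [h, coeff_zero]
    rw [hω, finsetSum_coeff, Finset.sum_eq_single i, coeff_monomial, if_pos rfl,
      show d - i = k by omega] at h1
    · exact mul_ne_zero (pow_ne_zero _ (neg_ne_zero.mpr one_ne_zero)) hne h1
    · intro j _ hj
      rw [coeff_monomial, if_neg hj]
    · intro hi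
      exact absurd (Finset.mem_range.mpr (by omega)) hi
  have h1 : ω.natDegree ≤ d := by
    rw [hω]
    refine natDegree_sum_le_of_forall_le _ _ fun j hj => (natDegree_monomial_le _).trans ?_
    exact Nat.lt_succ_iff.mp (Finset.mem_range.mp hj)
  refine ⟨ω.roots.toFinset, (Multiset.toFinset_card_le _).trans ((card_roots' ω).trans h1),
    fun t0 b hb => ?_⟩
  have h2 : (rho t0 b p).coeff d ≠ 0 := by
    intro h3
    apply hb
    rw [Multiset.mem_toFinset, mem_roots h0, IsRoot, hω, eval_finsetSum, ← h3, UpPsi_rho t0 b hp]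
    refine Finset.sum_congr rfl fun j _ => ?_
    rw [eval_monomial, neg_pow b]
    ring
  exact ⟨fun h3 => h2 (by rw [h3, coeff_zero]),
    le_antisymm (natDegree_rho hp t0 b) (le_natDegree_of_ne_zero h2)⟩

theorem UpPsi_ex (A : Finset ι) (t β : ι → F) (q : ι → F[X]) (hq : ∀ a, (q a).Monic) {ρ : ℕ}
    (hR : 2 * ∑ a ∈ A, (q a).natDegree ≤ ρ ^ 2) :
    ∃ Ψ : F[X][Y], Ψ ≠ 0 ∧ Wt ρ Ψ ∧ ∀ a ∈ A, q a ∣ rho (t a) (β a) Ψ := by
  classical
  obtain ⟨v, hv⟩ : ∃ v : (Σ s : Fin (ρ + 1), Fin (s.val + 1)) → F[X][Y],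
    ∀ j, v j = (C X) ^ j.2.val * Y ^ (j.1.val - j.2.val) := ⟨_, fun _ => rfl⟩
  obtain ⟨L, hL⟩ : ∃ L : ((Σ s : Fin (ρ + 1), Fin (s.val + 1)) → F) →ₗ[F]
      ((Σ a : A, Fin (q a).natDegree) → F), ∀ c j, L c j =
        (rho (t j.1) (β j.1) (Fintype.linearCombination F v c) %ₘ q j.1).coeff j.2 :=
    ⟨LinearMap.pi fun j => lcoeff F j.2.val ∘ₗ modByMonicHom (q j.1) ∘ₗ
      (rho (t j.1) (β j.1)).toLinearMap ∘ₗ Fintype.linearCombination F v, fun _ _ => rfl⟩
  have hlt : Module.finrank F ((Σ a : A, Fin (q a).natDegree) → F) <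
      Module.finrank F ((Σ s : Fin (ρ + 1), Fin (s.val + 1)) → F) := by
    simp only [Module.finrank_fintype_fun_eq_card, Fintype.card_sigma, Fintype.card_fin]
    rw [Finset.sum_coe_sort A fun a => (q a).natDegree,
      Fin.sum_univ_eq_sum_range (fun s => s + 1) (ρ + 1)]
    have := UpPsi_count ρ
    omega
  obtain ⟨c, hc, hc0⟩ := (Submodule.ne_bot_iff _).mp (LinearMap.ker_ne_bot_of_finrank_lt
    (f := L) hlt)
  refine ⟨Fintype.linearCombination F v c, fun h => hc0 ?_, Wt_of_mem ?_, fun a ha => ?_⟩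
  · funext j
    have h1 : ((Fintype.linearCombination F v c).coeff (j.1.val - j.2.val)).coeff j.2.val = 0 := by
      rw [h, coeff_zero, coeff_zero]
    rw [Fintype.linearCombination_apply, finsetSum_coeff, finsetSum_coeff,
      Finset.sum_eq_single j] at h1
    · rw [coeff_smul, coeff_smul, hv, UpPsi_coeff, if_pos ⟨rfl, rfl⟩, smul_eq_mul, mul_one] at h1
      exact h1
    · intro j' _ hj
      rw [coeff_smul, coeff_smul, hv, UpPsi_coeff, if_neg, smul_zero]
      rintro ⟨e1, e2⟩
      apply hj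
      obtain ⟨⟨s, hs⟩, ⟨i, hi⟩⟩ := j
      obtain ⟨⟨s', hs'⟩, ⟨i', hi'⟩⟩ := j'
      simp only at e1 e2 hi hi'
      obtain rfl : s = s' := by omega
      obtain rfl := e2
      rfl
    · intro hj
      exact absurd (Finset.mem_univ j) hj
  · rw [Fintype.linearCombination_apply]
    refine Submodule.sum_mem _ fun j _ => Submodule.smul_mem _ _ ?_
    rw [hv]
    have h1 := j.1.isLt
    have h2 := j.2.isLt
    exact mon_mem _ _ (by omega)
  · rw [← modByMonic_eq_zero_iff_dvd (hq a)]
    ext n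
    by_cases hn : n < (q a).natDegree
    · have := congrFun (LinearMap.mem_ker.mp hc) ⟨⟨a, ha⟩, ⟨n, hn⟩⟩
      rw [hL] at this
      exact this
    · refine coeff_eq_zero_of_degree_lt ((degree_modByMonic_lt _ (hq a)).trans_le ?_)
      exact degree_le_natDegree.trans (by exact_mod_cast Nat.le_of_not_lt hn)

/-- Plan: the span of the monomials of total degree at most ρ has dimension
(ρ + 1) (ρ + 2) / 2 > 2 RR; the conditions (remainder of rho Ψ modulo the monic
pw (eE a) ^ 2 vanishes, modByMonicHom, values in degreeLT) are 2 RR linear conditions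
(pw_natDegree), so there is a nonzero solution (LinearMap.ker_ne_bot_of_finrank_lt). Let d be
the least number with Wt d Ψ. The coefficient of index d of rho t0 b Ψ is the value at b of
ω = ∑ i ≤ d, C ((Ψ.coeff (d - i)).coeff i) * (-X) ^ i, a nonzero polynomial of degree at most
d; T is its set of roots. -/
theorem exists_psi [Fintype F] (A : Finset ι) (t β : ι → F) {ρ : ℕ}
    (hR : 4 * RR A t β ≤ ρ ^ 2) :
    ∃ (Ψ : F[X][Y]) (d : ℕ), d ≤ ρ ∧ Wt d Ψ ∧
      (∀ a ∈ A, pw (eE A t β a) ^ 2 ∣ rho (t a) (β a) Ψ) ∧ ∃ T : Finset F, T.card ≤ d ∧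
        ∀ t0 b, b ∉ T → rho t0 b Ψ ≠ 0 ∧ (rho t0 b Ψ).natDegree = d := by
  classical
  obtain ⟨Ψ, h0, hw, hd⟩ := UpPsi_ex A t β (fun a => pw (eE A t β a) ^ 2)
    (fun a => (pw_monic _).pow 2) (ρ := ρ) (by
      simp only [(pw_monic _).natDegree_pow, pw_natDegree]
      rw [← Finset.mul_sum]
      unfold RR at hR
      omega)
  have hex : ∃ d, Wt d Ψ := ⟨ρ, hw⟩
  have h1 := Nat.find_spec hex
  refine ⟨Ψ, Nat.find hex, Nat.find_min' hex hw, h1, hd, ?_⟩
  obtain ⟨k, i, hne, hik⟩ : ∃ k i, (Ψ.coeff k).coeff i ≠ 0 ∧ i + k = Nat.find hex := by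
    by_contra hc
    push Not at hc
    obtain ⟨k, hk⟩ : ∃ k, Ψ.coeff k ≠ 0 := ⟨_, mt leadingCoeff_eq_zero.mp h0⟩
    obtain ⟨i, hi⟩ : ∃ i, (Ψ.coeff k).coeff i ≠ 0 := ⟨_, mt leadingCoeff_eq_zero.mp hk⟩
    have h2 := h1 k i hi
    have h3 := hc k i hi
    refine Nat.find_min hex (m := Nat.find hex - 1) (by omega) fun k' i' h => ?_
    have h4 := h1 k' i' h
    have h5 := hc k' i' h
    omega
  exact UpPsi_deg h1 hik hne

end Pool.Agent.Work.MP_862369_co.Up
end

-- merged part: Pool.Agent.Work.MP_862369_co.UpSeg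
section
/-!
The lemma of tangents with rich lines.

Pointwise identity, for a ∈ A and all r:
1 + eE a r = eU a r + (if r = 0 then 1 else 0) + (xa a r - 1) (xa_zero, xa_pos); and
∑ r, (xa a r - 1) = A.card - 1 since each c ≠ a lies on exactly one line through a,
the one with r = sl t β a c (xa_erase, Finset.card_eq_sum_card_fiberwise).
-/

open Polynomial
open scoped Polynomial.Bivariate

namespace Pool.Agent.Work.MP_862369_co.Up

variable {F : Type} [Field F] {ι : Type}

section

variable [DecidableEq ι] [DecidableEq F] {A : Finset ι} {t β : ι → F} {a b : ι}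

omit [DecidableEq F] in
theorem UpSeg_ne (hβ : ∀ a ∈ A, ∀ b ∈ A, β a = β b → a = b) (ha : a ∈ A) {c : ι}
    (hc : c ∈ A.erase a) : β a - β c ≠ 0 := fun h =>
  Finset.ne_of_mem_erase hc (hβ a ha c (Finset.mem_of_mem_erase hc) (sub_eq_zero.1 h)).symm

omit [DecidableEq F] in
theorem UpSeg_sl (hβ : ∀ a ∈ A, ∀ b ∈ A, β a = β b → a = b) (ha : a ∈ A) {c : ι}
    (hc : c ∈ A.erase a) (r : F) : sl t β a c = r ↔ t c - β c * r = t a - β a * r := by
  rw [sl, div_eq_iff (UpSeg_ne hβ ha hc)]
  exact ⟨fun h => by linear_combination -h, fun h => by linear_combination -h⟩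

theorem UpSeg_n (hβ : ∀ a ∈ A, ∀ b ∈ A, β a = β b → a = b) (ha : a ∈ A) (r : F) :
    ((A.erase a).filter fun c => sl t β a c = r).card + 1 = xa A t β a r := by
  rw [Finset.filter_congr fun c hc => UpSeg_sl hβ ha hc r, xa_erase t β ha]

theorem UpSeg_pt (hβ : ∀ a ∈ A, ∀ b ∈ A, β a = β b → a = b)
    (ht : ∀ a ∈ A, ∀ b ∈ A, t a = t b → a = b) (ha : a ∈ A) (r : F) :
    1 + eE A t β a r = eU A t β a r + (if r = 0 then 1 else 0) +
      ((A.erase a).filter fun c => sl t β a c = r).card := by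
  have h1 := UpSeg_n (t := t) hβ ha r
  unfold eE eU
  by_cases h : r = 0
  · subst h
    have h2 := xa_zero (β := β) ht ha
    rw [if_neg (by omega), if_neg (by simp), if_pos rfl]
    omega
  · simp only [h, ne_eq, not_false_eq_true, true_and, if_false]
    split_ifs <;> omega

theorem UpSeg_ev [Fintype F] {e : F → ℕ} {s : F} (h : e s = 0) :
    eval s (pw e) = ∏ r, (if r = s then 1 else s - r) ^ e r := by
  rw [pw, eval_prod]
  refine Finset.prod_congr rfl fun r _ => ?_
  split_ifs with hr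
  · simp [hr, h]
  · simp

theorem UpSeg_key [Fintype F] (hβ : ∀ a ∈ A, ∀ b ∈ A, β a = β b → a = b)
    (ht : ∀ a ∈ A, ∀ b ∈ A, t a = t b → a = b) (ha : a ∈ A) (hb : b ∈ A) (hab : b ≠ a) {s : F}
    (h : t b - β b * s = t a - β a * s) (h2 : xa A t β a s = 2) :
    (∏ r, if r = s then 1 else s - r) * eval s (pw (eE A t β a)) * ∏ c ∈ A.erase a, (β a - β c) =
      eval s (pw (eU A t β a)) * (if 0 = s then 1 else s - 0) * ((β a - β b) *
        ∏ c ∈ (A.erase a).erase b, (t c - β c * s - (t a - β a * s))) := by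
  have hb' : b ∈ A.erase a := Finset.mem_erase.2 ⟨hab, hb⟩
  have h3 := (UpSeg_sl hβ ha hb' s).2 h
  have h4 := Finset.prod_congr rfl fun r (_ : r ∈ Finset.univ) =>
    congrArg ((if r = s then 1 else s - r) ^ ·) (UpSeg_pt hβ ht ha r)
  simp only [pow_add, pow_one, Finset.prod_mul_distrib, pow_ite, pow_zero, Finset.prod_ite_eq',
    Finset.mem_univ, if_true, ← Finset.prod_const] at h4
  rw [Finset.prod_fiberwise' (A.erase a) (sl t β a) fun r => if r = s then 1 else s - r] at h4
  rw [UpSeg_ev (e := eE A t β a) (if_neg (by omega)),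
    UpSeg_ev (e := eU A t β a) (if_neg fun h5 => h5.2 h2), h4, mul_assoc,
    ← Finset.prod_mul_distrib, ← Finset.mul_prod_erase _ _ hb', if_pos h3, one_mul]
  refine congrArg (_ * ·) (congrArg (_ * ·) (Finset.prod_congr rfl fun c hc => ?_))
  obtain ⟨h5, hc⟩ := Finset.mem_erase.1 hc
  have h6 := UpSeg_n (t := t) hβ ha s
  have h8 : ((A.erase a).filter fun c => sl t β a c = s).card ≤ 1 := by omega
  have h7 : sl t β a c ≠ s := fun h7 => h5 (Finset.card_le_one.1 h8 c
    (Finset.mem_filter.2 ⟨hc, h7⟩) b (Finset.mem_filter.2 ⟨hb', h3⟩))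
  rw [if_neg h7, sl, sub_mul, div_mul_cancel₀ _ (UpSeg_ne hβ ha hc)]
  ring

end

theorem degUE [Fintype F] {A : Finset ι} {t β : ι → F}
    (hβ : ∀ a ∈ A, ∀ b ∈ A, β a = β b → a = b) (ht : ∀ a ∈ A, ∀ b ∈ A, t a = t b → a = b)
    {j : ℕ} (hj : A.card + j = Fintype.card F) {a : ι} (ha : a ∈ A) :
    ∑ r, eU A t β a r = j + ∑ r, eE A t β a r := by
  classical
  have h1 := Finset.sum_congr rfl fun r (_ : r ∈ Finset.univ) => UpSeg_pt hβ ht ha r
  rw [Finset.sum_add_distrib, Finset.sum_add_distrib, Finset.sum_add_distrib,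
    ← Finset.card_eq_sum_card_fiberwise (f := sl t β a) fun c _ => Finset.mem_coe.2 (Finset.mem_univ _),
    Finset.sum_ite_eq' Finset.univ 0, if_pos (Finset.mem_univ _), Finset.sum_const,
    Finset.card_univ, smul_eq_mul] at h1
  have h2 := Finset.card_erase_add_one ha
  omega

/-- Plan (compare key in near_arc): π a = ∏ c ∈ A.erase a, (β a - β c). Let s be the slope of
the ordinary secant a b, w = ∏ r ≠ 0, r = ∏ r ≠ s, (s - r) (prod_erase_sub). Multiplying the
pointwise identity over r ≠ s gives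
w * E_a(s) = U_a(s) * s * ∏ c ∈ (A.erase a).erase b, (s - sl a c) (Finset.prod_fiberwise;
s ≠ 0 by xa_zero; no c ≠ a, b has slope s). Moreover (s - sl a c) (β a - β c) equals
Δ c = (t c - β c s) - (t a - β a s), which is the same for b in place of a. So
w * π a * E_a(s) = U_a(s) * s * (β a - β b) * ∏ Δ c, and the claim follows as w ≠ 0. -/
theorem segre [Fintype F] {A : Finset ι} {t β : ι → F}
    (hβ : ∀ a ∈ A, ∀ b ∈ A, β a = β b → a = b) (ht : ∀ a ∈ A, ∀ b ∈ A, t a = t b → a = b) :
    ∃ π : ι → F, (∀ a ∈ A, π a ≠ 0) ∧ ∀ a ∈ A, ∀ b ∈ A, b ≠ a → ∀ r,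
      t b - β b * r = t a - β a * r → xa A t β a r = 2 →
      π a * eval r (pw (eE A t β a)) * eval r (pw (eU A t β b)) =
        -(π b * eval r (pw (eE A t β b)) * eval r (pw (eU A t β a))) := by
  classical
  refine ⟨fun a => ∏ c ∈ A.erase a, (β a - β c),
    fun a ha => Finset.prod_ne_zero_iff.2 fun c hc => UpSeg_ne hβ ha hc, fun a ha b hb hab r h h2 => ?_⟩
  have k1 := UpSeg_key hβ ht ha hb hab h h2
  have k2 := UpSeg_key hβ ht hb ha hab.symm h.symm ((xa_eq A h).trans h2)
  rw [Finset.erase_right_comm, h] at k2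
  refine mul_left_cancel₀ (a := ∏ x, if x = r then 1 else r - x)
    (Finset.prod_ne_zero_iff.2 fun x _ => ?_) ?_
  · split_ifs with hx
    exacts [one_ne_zero, sub_ne_zero.2 (Ne.symm hx)]
  · linear_combination eval r (pw (eU A t β b)) * k1 + eval r (pw (eU A t β a)) * k2

end Pool.Agent.Work.MP_862369_co.Up
end

-- merged part: Pool.Agent.Work.MP_862369_co.UpRes
section
/-!
Three facts on resultants (Mathlib: Mathlib.RingTheory.Polynomial.Resultant.Basic).
-/

open Polynomial
open scoped Polynomial.Bivariate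

namespace Pool.Agent.Work.MP_862369_co.Up

variable {F : Type} [Field F] {ι : Type}

/-- Plan: map to the fraction field K of F[X] (resultant_map_map, degrees are kept by an
injective map), use resultant_eq_zero_iff. If the images are not coprime in K[Y] they have a
common monic irreducible factor (gcd); it divides the monic h, so it is the image of a monic
g (IsIntegrallyClosed.eq_map_mul_C_of_dvd), and g divides h and f by
Polynomial.map_dvd_map; so g is a unit, contradiction. -/
theorem res_ne {h f : F[X][Y]} (hm : h.Monic) (hc : IsRelPrime h f) : resultant h f ≠ 0 := by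
  have hi := IsFractionRing.injective F[X] (FractionRing F[X])
  have key : IsRelPrime (h.map (algebraMap F[X] (FractionRing F[X])))
      (f.map (algebraMap F[X] (FractionRing F[X]))) := by
    intro d h1 h2
    obtain ⟨g, hg⟩ := IsIntegrallyClosed.eq_map_mul_C_of_dvd (FractionRing F[X]) hm h1
    have h0 : d.leadingCoeff ≠ 0 :=
      leadingCoeff_ne_zero.mpr (ne_zero_of_dvd_ne_zero (hm.map _).ne_zero h1)
    have h3 : g.Monic := by
      refine monic_of_injective hi (mul_right_cancel₀ h0 ?_)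
      have := congrArg leadingCoeff hg
      rwa [leadingCoeff_mul, leadingCoeff_C, ← one_mul d.leadingCoeff, ← mul_assoc, mul_one] at this
    have h4 : g.map (algebraMap F[X] (FractionRing F[X])) ∣ d := ⟨_, hg.symm⟩
    rw [← hg]
    exact ((hc ((map_dvd_map _ hi h3).mp (h4.trans h1)) ((map_dvd_map _ hi h3).mp (h4.trans h2))).map
      (mapRingHom _)).mul (isUnit_C.mpr h0.isUnit)
  intro h0
  refine resultant_ne_zero _ _ key.isCoprime ?_
  rw [natDegree_map_eq_of_injective hi, natDegree_map_eq_of_injective hi, resultant_map_map, h0,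
    map_zero]

theorem UpRes_coeff {p : F[X][Y]} {d k : ℕ} (hp : Wt d p) (h : p.coeff k ≠ 0) :
    (p.coeff k).natDegree + k ≤ d := hp k _ (leadingCoeff_ne_zero.mpr h)

/-- Plan: expand the Sylvester determinant (Matrix.det_apply). With n = f.natDegree, a nonzero
entry in row i and column j₁ < m of the first block is f.coeff (i - j₁) with j₁ ≤ i, so
its degree plus i is at most d + j₁; in the second block degree plus i is at most
m + j₁. Sum over the columns: degree + sum of all i < m + n is at most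
m d + n m + sum of j < m + sum of j < n (Fin.sum_univ_add, Finset.sum_range_id_mul_two
or Finset.sum_range_add). -/
theorem res_deg {h f : F[X][Y]} {m d : ℕ} (hd : h.natDegree = m) (hw : Wt m h) (hf : Wt d f) :
    (resultant h f).natDegree ≤ m * d := by
  subst hd
  rw [resultant, Matrix.det_apply]
  refine natDegree_sum_le_of_forall_le _ _ fun σ _ => (natDegree_smul_le _ _).trans ?_
  by_cases h0 : ∏ j, sylvester h f h.natDegree f.natDegree (σ j) j = 0
  · rw [h0, natDegree_zero]
    exact Nat.zero_le _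
  have key : ∀ j, (sylvester h f h.natDegree f.natDegree (σ j) j).natDegree + (σ j : ℕ) ≤
      (j.addCases (fun _ => d) fun _ => 0) + (j : ℕ) := by
    intro j
    have h1 := Finset.prod_ne_zero_iff.mp h0 j (Finset.mem_univ _)
    revert h1
    induction j using Fin.addCases with
    | left j =>
      simp only [sylvester, Matrix.of_apply, Fin.addCases_left, Fin.val_castAdd]
      split_ifs with k
      · intro h1
        have := UpRes_coeff hf h1
        have := k.1
        omega
      · exact fun h1 => absurd rfl h1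
    | right j =>
      simp only [sylvester, Matrix.of_apply, Fin.addCases_right, Fin.val_natAdd]
      split_ifs with k
      · intro h1
        have := UpRes_coeff hw h1
        have := k.1
        omega
      · exact fun h1 => absurd rfl h1
  have h2 := Finset.sum_le_sum fun j (_ : j ∈ Finset.univ) => key j
  rw [Finset.sum_add_distrib, Finset.sum_add_distrib, Equiv.sum_comp σ fun j => (j : ℕ),
    add_le_add_iff_right, Fin.sum_univ_add (fun j => (j.addCases (fun _ => d) fun _ => 0 : ℕ))] at h2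
  refine (natDegree_prod_le _ _).trans (h2.trans_eq ?_)
  simp

theorem UpRes_deg {O : Type} [CommRing O] {h : O[X]} (hm : h.Monic) (g : O[X]) {n : ℕ}
    (hn : g.natDegree ≤ n) : resultant h g h.natDegree n = resultant h g := by
  obtain ⟨k, rfl⟩ := Nat.exists_eq_add_of_le hn
  rw [resultant_add_right_deg _ _ _ _ _ le_rfl, hm.coeff_natDegree, one_pow, one_mul]

/-- Plan: write w * f(c a) = h(c a) * (∏ (c a - c b)) * k a, put
A = ∑ a, C (k a) * ∏ b ∈ B.erase a, (X - C (c b)). Then C w * f - h * A vanishes at all c a,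
hence equals L * Q with L = ∏ (X - C (c a)) (distinct roots in a domain). Take n larger than
all degrees; since h is monic resultant h g m n does not depend on n ≥ g.natDegree
(resultant_add_right_deg). Use resultant_C_mul_right, resultant_add_mul_right,
resultant_mul_right, resultant_prod_right, resultant_X_sub_C_right. -/
theorem res_alg {O : Type} [CommRing O] [IsDomain O] [DecidableEq ι] {h f : O[X]} (hm : h.Monic)
    (B : Finset ι) (c : ι → O) (hc : ∀ a ∈ B, ∀ b ∈ B, c a = c b → a = b) (w : O)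
    (hv : ∀ a ∈ B, eval (c a) h * ∏ b ∈ B.erase a, (c a - c b) ∣ w * eval (c a) f) :
    ∏ a ∈ B, eval (c a) h ∣ w ^ h.natDegree * resultant h f := by
  choose! k hk using hv
  obtain ⟨A, hA⟩ : ∃ A : O[X], ∀ a ∈ B, eval (c a) (C w * f - h * A) = 0 := by
    refine ⟨∑ a ∈ B, C (k a) * ∏ b ∈ B.erase a, (X - C (c b)), fun a ha => ?_⟩
    rw [eval_sub, eval_mul, eval_mul, eval_C, hk a ha, eval_finsetSum, Finset.sum_eq_single_of_mem a ha]
    · simp only [eval_mul, eval_C, eval_prod, eval_sub, eval_X]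
      ring
    · intro b _ hb
      rw [eval_mul, eval_prod, Finset.prod_eq_zero (Finset.mem_erase.mpr ⟨hb.symm, ha⟩) (by simp),
        mul_zero]
  obtain ⟨Q, hQ⟩ : ∏ a ∈ B, (X - C (c a)) ∣ C w * f - h * A := by
    by_cases h0 : C w * f - h * A = 0
    · rw [h0]
      exact dvd_zero _
    have := (Multiset.prod_X_sub_C_dvd_iff_le_roots h0 (B.val.map c)).mpr
      ((Multiset.le_iff_subset (B.nodup.map_on hc)).mpr fun x hx => by
        obtain ⟨a, ha, rfl⟩ := Multiset.mem_map.mp hx
        exact (mem_roots h0).mpr (hA a ha))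
    rwa [Multiset.map_map] at this
  obtain ⟨n, n1, n2, n3⟩ : ∃ n, f.natDegree ≤ n ∧ A.natDegree + h.natDegree ≤ n ∧
      (∏ a ∈ B, (X - C (c a))).natDegree + Q.natDegree ≤ n :=
    ⟨_, le_max_left _ _, le_max_of_le_right (le_max_left _ _), le_max_of_le_right (le_max_right _ _)⟩
  rw [← UpRes_deg hm f n1, ← resultant_C_mul_right, eq_add_of_sub_eq hQ,
    resultant_add_mul_right _ _ _ _ _ n2 le_rfl, UpRes_deg hm _ (natDegree_mul_le.trans n3),
    ← UpRes_deg hm _ natDegree_mul_le, resultant_mul_right _ _ _ _ le_rfl,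
    resultant_prod_right _ _ _ _ le_rfl (by simp)]
  refine (Finset.prod_dvd_prod_of_dvd _ _ fun a _ => ?_).mul_right _
  rw [natDegree_X_sub_C, resultant_X_sub_C_right _ _ _ le_rfl]
  exact dvd_mul_left _ _

end Pool.Agent.Work.MP_862369_co.Up
end

-- merged part: Pool.Agent.Work.MP_862369_co.UpLoc
section
/-!
Local intersection bounds along lines.

For β ≠ 0 the pencil of (t, β) is the graph r = c(u), c = C β⁻¹ * (C t - X) : F[X], and
eval c p = (rho t β p).comp c for p : F[X][Y] (both sides are algebra maps in p, use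
ev_ext, hom_ev, ev_id or induction on p). Composition with the invertible linear
polynomial c keeps degrees, divisibility and root multiplicities: the multiplicity of x0 in
s.comp c is the multiplicity of eval x0 c in s (write s = (X - C r) ^ k * s1 with
eval r s1 ≠ 0; (X - C r).comp c = C (-β⁻¹) * (X - C x0) when t - β r = x0).
-/

open Polynomial
open scoped Polynomial.Bivariate

namespace Pool.Agent.Work.MP_862369_co.Up

variable {F : Type} [Field F] {ι : Type}

/-- the slope as a function of the first coordinate on the pencil of (t, β) -/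
noncomputable def UpLoc_c (t β : F) : F[X] := C β⁻¹ * (C t - X)

theorem UpLoc_inv {β : F} (t : F) (hβ : β ≠ 0) : C t - C β * UpLoc_c t β = X := by
  rw [UpLoc_c, ← mul_assoc, ← C_mul, mul_inv_cancel₀ hβ, C_1]
  ring

theorem UpLoc_eval {β : F} (t : F) (hβ : β ≠ 0) (p : F[X][Y]) :
    eval (UpLoc_c t β) p = (rho t β p).comp (UpLoc_c t β) := by
  have h := hom_ev (aeval (UpLoc_c t β) : F[X] →ₐ[F] F[X]) (C t - C β * X) X p
  rw [comp_eq_aeval, rho, h]
  simp only [map_sub, map_mul, aeval_C, aeval_X, algebraMap_eq]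
  rw [UpLoc_inv t hβ, ev_eq]
  congr 1
  ext k i
  simp

theorem UpLoc_comp_inv {β : F} (t : F) (hβ : β ≠ 0) (s : F[X]) :
    (s.comp (UpLoc_c t β)).comp (C t - C β * X) = s := by
  have : (UpLoc_c t β).comp (C t - C β * X) = X := by
    simp only [UpLoc_c, mul_comp, sub_comp, C_comp, X_comp]
    rw [sub_sub_cancel, ← mul_assoc, ← C_mul, inv_mul_cancel₀ hβ, C_1, one_mul]
  rw [comp_assoc, this, comp_X]

theorem UpLoc_ne {β : F} (t : F) (hβ : β ≠ 0) {s : F[X]} (hs : s ≠ 0) :
    s.comp (UpLoc_c t β) ≠ 0 := fun h => hs (by rw [← UpLoc_comp_inv t hβ s, h, zero_comp])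

theorem UpLoc_deg {β : F} (t : F) (hβ : β ≠ 0) : (UpLoc_c t β).natDegree = 1 := by
  rw [UpLoc_c, natDegree_C_mul (inv_ne_zero hβ), ← neg_sub, natDegree_neg, natDegree_X_sub_C]

theorem UpLoc_dvd {g s : F[X]} {r x u : F} (h : (X - C r).comp g = C u * (X - C x)) {k : ℕ}
    (hd : (X - C r) ^ k ∣ s) : (X - C x) ^ k ∣ s.comp g := by
  obtain ⟨q, rfl⟩ := hd
  rw [mul_comp, pow_comp, h, mul_pow]
  exact ((dvd_mul_left _ _).mul_right _)

theorem UpLoc_dvd1 {t β r x : F} (hβ : β ≠ 0) (h : t - β * r = x) {s : F[X]} {k : ℕ}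
    (hd : (X - C r) ^ k ∣ s) : (X - C x) ^ k ∣ s.comp (UpLoc_c t β) := by
  refine UpLoc_dvd (u := -β⁻¹) ?_ hd
  have e : (C β⁻¹ * C β : F[X]) = 1 := by rw [← C_mul, inv_mul_cancel₀ hβ, C_1]
  simp only [sub_comp, X_comp, C_comp, UpLoc_c, ← h, map_neg, map_sub, map_mul]
  linear_combination C r * e

theorem UpLoc_mult {t β r x : F} (hβ : β ≠ 0) (h : t - β * r = x) {s : F[X]} (hs : s ≠ 0) :
    rootMultiplicity x (s.comp (UpLoc_c t β)) = rootMultiplicity r s := by
  refine le_antisymm ((le_rootMultiplicity_iff hs).mpr ?_)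
    ((le_rootMultiplicity_iff (UpLoc_ne t hβ hs)).mpr
      (UpLoc_dvd1 hβ h (pow_rootMultiplicity_dvd s r)))
  have := UpLoc_dvd (g := C t - C β * X) (r := x) (x := r) (u := -β) (by
    rw [sub_comp, X_comp, C_comp, ← h, map_neg, map_sub, map_mul]
    ring) (pow_rootMultiplicity_dvd (s.comp (UpLoc_c t β)) x)
  rwa [UpLoc_comp_inv t hβ] at this

theorem UpLoc_sub_ne {t β t' β' : F} (hβ : β ≠ 0) (h : t = t' → β = β' → False) :
    UpLoc_c t β - UpLoc_c t' β' ≠ 0 := by
  intro h0
  have e0 := congrArg (eval 0) h0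
  have e1 := congrArg (eval 1) h0
  simp only [UpLoc_c, eval_sub, eval_mul, eval_C, eval_X, eval_zero] at e0 e1
  have e2 : β = β' := inv_injective (by linear_combination e0 - e1)
  subst e2
  exact h (mul_left_cancel₀ (inv_ne_zero hβ) (by linear_combination e0)) rfl

theorem UpLoc_sub_deg {t β t' β' : F} (hβ : β ≠ 0) (hβ' : β' ≠ 0) :
    (UpLoc_c t β - UpLoc_c t' β').natDegree ≤ 1 :=
  (natDegree_sub_le _ _).trans (by rw [UpLoc_deg t hβ, UpLoc_deg t' hβ', max_self])

theorem UpLoc_val {t β r x : F} (hβ : β ≠ 0) (h : t - β * r = x) : eval x (UpLoc_c t β) = r := by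
  simp only [UpLoc_c, eval_sub, eval_mul, eval_C, eval_X, ← h]
  field_simp
  ring

theorem UpLoc_cop {p s : F[X]} (hp : ∀ x, eval x p ≠ 0) (hs : s.Splits) (h0 : s ≠ 0) :
    IsCoprime p s := by
  refine isCoprime_of_dvd _ _ (fun k => h0 k.2) fun z hz hz0 h1 h2 => ?_
  obtain ⟨x, hx⟩ := (hs.of_dvd h0 h2).exists_eval_eq_zero fun k =>
    hz (isUnit_iff_degree_eq_zero.mpr k)
  exact hp x (eval_eq_zero_of_dvd_of_eval_eq_zero h1 hx)

open Classical in
/-- Plan: apply res_alg with O = F[X], c a as above. The polynomial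
eval (c a) h * ∏ (c a - c b) is nonzero, and the multiplicity of x0 in it is at most the
exponent in hv (mult_prod; c a - c b is nonzero of degree at most one and vanishes at x0
only if r b = r a); write it as (X - C x0) ^ k * w a with eval x0 (w a) ≠ 0
(exists_eq_pow_rootMultiplicity_mul_and_not_dvd), take w = ∏ w a. Finally (X - C x0) ^ _
is coprime to w ^ m. -/
theorem loc_pt {h f : F[X][Y]} (hm : h.Monic) (B : Finset ι) (t β : ι → F)
    (hβ : ∀ a ∈ B, β a ≠ 0) (hinj : ∀ a ∈ B, ∀ b ∈ B, t a = t b → β a = β b → a = b)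
    (x0 : F) (r : ι → F) (hr : ∀ a ∈ B, t a - β a * r a = x0)
    (hne : ∀ a ∈ B, rho (t a) (β a) h ≠ 0)
    (hv : ∀ a ∈ B, (X - C (r a)) ^ (rootMultiplicity (r a) (rho (t a) (β a) h) +
      ((B.erase a).filter fun b => r b = r a).card) ∣ rho (t a) (β a) f) :
    (X - C x0) ^ (∑ a ∈ B, rootMultiplicity (r a) (rho (t a) (β a) h)) ∣ resultant h f := by
  set c : ι → F[X] := fun a => UpLoc_c (t a) (β a) with hc
  have hsub : ∀ a ∈ B, ∀ b ∈ B.erase a, c a - c b ≠ 0 := fun a ha b hb =>
    UpLoc_sub_ne (hβ a ha) fun e1 e2 => (Finset.ne_of_mem_erase hb).symm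
      (hinj a ha b (Finset.mem_of_mem_erase hb) e1 e2)
  have key : ∀ a ∈ B, ∃ w : F[X], IsCoprime (X - C x0) w ∧
      eval (c a) h * ∏ b ∈ B.erase a, (c a - c b) ∣ w * eval (c a) f := by
    intro a ha
    have n1 : eval (c a) h ≠ 0 := by
      rw [hc, UpLoc_eval _ (hβ a ha)]
      exact UpLoc_ne _ (hβ a ha) (hne a ha)
    have n2 := mul_ne_zero n1 (Finset.prod_ne_zero_iff.mpr (hsub a ha))
    obtain ⟨w, e1, e2⟩ := exists_eq_pow_rootMultiplicity_mul_and_not_dvd _ n2 x0
    refine ⟨w, (irreducible_X_sub_C x0).coprime_iff_not_dvd.mpr e2, ?_⟩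
    rw [e1, mul_comm w]
    refine mul_dvd_mul_right ?_ w
    have e3 := UpLoc_dvd1 (hβ a ha) (hr a ha) (hv a ha)
    rw [← UpLoc_eval _ (hβ a ha)] at e3
    refine (pow_dvd_pow _ ?_).trans e3
    rw [rootMultiplicity_mul n2, mult_prod _ _ (hsub a ha), Finset.card_filter]
    refine add_le_add (le_of_eq ?_) (Finset.sum_le_sum fun b hb => ?_)
    · rw [hc, UpLoc_eval _ (hβ a ha)]
      exact UpLoc_mult (hβ a ha) (hr a ha) (hne a ha)
    · have hb' := Finset.mem_of_mem_erase hb
      split_ifs with k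
      · have := natDegree_le_of_dvd (pow_rootMultiplicity_dvd (c a - c b) x0) (hsub a ha b hb)
        rw [natDegree_pow, natDegree_X_sub_C, mul_one] at this
        exact this.trans (UpLoc_sub_deg (hβ a ha) (hβ b hb'))
      · refine le_of_eq (rootMultiplicity_eq_zero fun k1 => k ?_)
        rw [IsRoot.def, eval_sub, hc, UpLoc_val (hβ a ha) (hr a ha),
          UpLoc_val (hβ b hb') (hr b hb')] at k1
        exact (sub_eq_zero.mp k1).symm
  choose! w hw1 hw2 using key
  have hres := res_alg (f := f) hm B c (fun a ha b hb e => by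
      by_contra k
      exact hsub a ha b (Finset.mem_erase.mpr ⟨Ne.symm k, hb⟩) (sub_eq_zero.mpr e))
    (∏ a ∈ B, w a) fun a ha =>
      (hw2 a ha).trans (mul_dvd_mul_right (Finset.dvd_prod_of_mem w ha) _)
  refine (IsCoprime.prod_right hw1).pow.dvd_of_dvd_mul_left (Dvd.dvd.trans ?_ hres)
  rw [← Finset.prod_pow_eq_pow_sum]
  refine Finset.prod_dvd_prod_of_dvd _ _ fun a ha => ?_
  rw [hc, UpLoc_eval _ (hβ a ha)]
  exact UpLoc_dvd1 (hβ a ha) (hr a ha) (pow_rootMultiplicity_dvd _ _)

open Classical in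
/-- Plan: let Res = resultant h f, nonzero of degree at most m d (res_ne, res_deg).
(1) For each x0 apply loc_pt to the set of a ∈ B such that r a = (t a - x0) / β a is a
root of rho h which is not kept (xa_erase bounds the number of other lines); so
pw e ∣ Res where e x0 is the sum of these multiplicities.
(2) Apply res_alg to all of B with a nonzero split w (product of the (w a).comp (c a)
and all differences c a - c b): P = ∏ eval (c a) h divides w ^ m * Res. Write
P = pw (fun x => rootMultiplicity x P) * Pn with Pn without roots; Pn is coprime to every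
nonzero split polynomial, so Pn ∣ Res and pw e * Pn ∣ Res.
(3) P has degree m * B.card; reindex x0 ↦ r by the bijection r ↦ t a - β a * r. -/
theorem loc [Fintype F] {h f : F[X][Y]} {m d : ℕ} (hm : h.Monic) (hd : h.natDegree = m)
    (hw : Wt m h) (hf : Wt d f) (hc : IsRelPrime h f) (B : Finset ι) (t β : ι → F)
    (hβ : ∀ a ∈ B, β a ≠ 0) (hinj : ∀ a ∈ B, ∀ b ∈ B, β a = β b → a = b)
    (hne : ∀ a ∈ B, rho (t a) (β a) h ≠ 0) (hdeg : ∀ a ∈ B, (rho (t a) (β a) h).natDegree = m)
    (hs : ∀ a ∈ B, ∃ w : F[X], w ≠ 0 ∧ w.Splits ∧ rho (t a) (β a) h ∣ rho (t a) (β a) f * w)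
    (keep : ι → F → Prop)
    (hv : ∀ a ∈ B, ∀ r, ¬ keep a r → 1 ≤ rootMultiplicity r (rho (t a) (β a) h) →
      (X - C r) ^ (rootMultiplicity r (rho (t a) (β a) h) + (xa B t β a r - 1)) ∣
        rho (t a) (β a) f) :
    m * B.card ≤ m * d + ∑ a ∈ B, ∑ r ∈ Finset.univ.filter (keep a),
      rootMultiplicity r (rho (t a) (β a) h) := by
  set c : ι → F[X] := fun a => UpLoc_c (t a) (β a) with hcd
  set μ : ι → F → ℕ := fun a r => rootMultiplicity r (rho (t a) (β a) h) with hμ
  set sl' : ι → F → F := fun a x => (t a - x) / β a with hsl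
  have hr : ∀ a ∈ B, ∀ x, t a - β a * sl' a x = x := fun a ha x => by
    simp only [hsl]
    rw [mul_div_cancel₀ _ (hβ a ha), sub_sub_cancel]
  have hsub : ∀ a ∈ B, ∀ b ∈ B.erase a, c a - c b ≠ 0 := fun a ha b hb =>
    UpLoc_sub_ne (hβ a ha) fun _ e2 => (Finset.ne_of_mem_erase hb).symm
      (hinj a ha b (Finset.mem_of_mem_erase hb) e2)
  have R0 := res_ne hm hc
  have R1 := res_deg hd hw hf
  set e : F → ℕ := fun x => ∑ a ∈ B.filter fun a => ¬ keep a (sl' a x) ∧ 1 ≤ μ a (sl' a x),
    μ a (sl' a x) with he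
  have d1 : pw e ∣ resultant h f := by
    refine pw_dvd fun x => ?_
    have hB := Finset.filter_subset (fun a => ¬ keep a (sl' a x) ∧ 1 ≤ μ a (sl' a x)) B
    refine loc_pt hm _ t β (fun a ha => hβ a (hB ha))
      (fun a ha b hb _ e2 => hinj a (hB ha) b (hB hb) e2) x (fun a => sl' a x)
      (fun a ha => hr a (hB ha) x) (fun a ha => hne a (hB ha)) fun a ha => ?_
    obtain ⟨a1, a2, a3⟩ := Finset.mem_filter.mp ha
    refine (pow_dvd_pow _ (add_le_add le_rfl ?_)).trans (hv a a1 _ a2 a3)
    rw [← xa_erase t β a1, Nat.add_sub_cancel]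
    refine Finset.card_le_card fun b hb => ?_
    obtain ⟨b1, b2⟩ := Finset.mem_filter.mp hb
    obtain ⟨b3, b4⟩ := Finset.mem_erase.mp b1
    refine Finset.mem_filter.mpr ⟨Finset.mem_erase.mpr ⟨b3, hB b4⟩, ?_⟩
    rw [hr a a1, ← b2, hr b (hB b4)]
  choose! w hw0 hws hwd using hs
  have n1 : ∀ a ∈ B, eval (c a) h ≠ 0 := fun a ha => by
    rw [hcd, UpLoc_eval _ (hβ a ha)]
    exact UpLoc_ne _ (hβ a ha) (hne a ha)
  have hres := res_alg (f := f) hm B c (fun a ha b hb e => by
      by_contra k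
      exact hsub a ha b (Finset.mem_erase.mpr ⟨Ne.symm k, hb⟩) (sub_eq_zero.mpr e))
    (∏ a ∈ B, ((w a).comp (c a) * ∏ b ∈ B.erase a, (c a - c b))) fun a ha => by
      refine Dvd.dvd.trans ?_ (mul_dvd_mul_right (Finset.dvd_prod_of_mem _ ha) _)
      rw [mul_right_comm]
      refine mul_dvd_mul_right ?_ _
      obtain ⟨q, hq⟩ := hwd a ha
      refine ⟨q.comp (c a), ?_⟩
      simp only [hcd]
      rw [UpLoc_eval _ (hβ a ha), UpLoc_eval _ (hβ a ha), ← mul_comp, ← mul_comp, ← hq, mul_comm]
  have P0 : ∏ a ∈ B, eval (c a) h ≠ 0 := Finset.prod_ne_zero_iff.mpr n1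
  obtain ⟨Pn, hPn⟩ := pw_dvd fun x => pow_rootMultiplicity_dvd (∏ a ∈ B, eval (c a) h) x
  have Pn0 : Pn ≠ 0 := fun k => P0 (by rw [hPn, k, mul_zero])
  have Pn1 : ∀ x, eval x Pn ≠ 0 := by
    intro x hx
    have k := congrArg (rootMultiplicity x) hPn
    rw [rootMultiplicity_mul (mul_ne_zero (pw_ne _) Pn0), pw_mult] at k
    have k2 := (rootMultiplicity_pos Pn0).mpr hx
    omega
  have d2 : Pn ∣ resultant h f := by
    refine (UpLoc_cop Pn1 ?_ ?_).dvd_of_dvd_mul_left (Dvd.dvd.trans ⟨_, hPn.trans (mul_comm _ _)⟩ hres)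
    · refine (Splits.prod fun a ha => ?_).pow _
      exact ((hws a ha).comp_of_natDegree_le_one (UpLoc_deg _ (hβ a ha)).le).mul
        (Splits.prod fun b hb => Splits.of_natDegree_le_one
          (UpLoc_sub_deg (hβ a ha) (hβ b (Finset.mem_of_mem_erase hb))))
    · exact pow_ne_zero _ (Finset.prod_ne_zero_iff.mpr fun a ha =>
        mul_ne_zero (UpLoc_ne _ (hβ a ha) (hw0 a ha)) (Finset.prod_ne_zero_iff.mpr (hsub a ha)))
  have d3 := natDegree_le_of_dvd
    ((UpLoc_cop Pn1 (pw_splits e) (pw_ne e)).symm.mul_dvd d1 d2) R0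
  rw [natDegree_mul (pw_ne e) Pn0, pw_natDegree] at d3
  have g1 := congrArg natDegree hPn
  rw [natDegree_mul (pw_ne _) Pn0, pw_natDegree, natDegree_prod _ _ n1,
    Finset.sum_congr rfl (g := fun _ => m) fun a ha => by
      rw [hcd, UpLoc_eval _ (hβ a ha), natDegree_comp, hdeg a ha, UpLoc_deg _ (hβ a ha), mul_one],
    Finset.sum_const, smul_eq_mul, mul_comm] at g1
  have g2 : ∀ x, rootMultiplicity x (∏ a ∈ B, eval (c a) h) ≤
      e x + ∑ a ∈ B, if keep a (sl' a x) then μ a (sl' a x) else 0 := by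
    intro x
    rw [mult_prod _ _ n1, he]
    simp only [Finset.sum_filter]
    rw [← Finset.sum_add_distrib]
    refine Finset.sum_le_sum fun a ha => ?_
    rw [hcd, UpLoc_eval _ (hβ a ha), UpLoc_mult (hβ a ha) (hr a ha x) (hne a ha)]
    change μ a (sl' a x) ≤ _
    by_cases k : keep a (sl' a x)
    · simp [k]
    · by_cases k2 : 1 ≤ μ a (sl' a x)
      · simp [k, k2]
      · omega
  have g3 := Finset.sum_le_sum fun x (_ : x ∈ Finset.univ) => g2 x
  rw [Finset.sum_add_distrib, Finset.sum_comm (s := Finset.univ) (t := B)] at g3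
  have g4 : ∑ a ∈ B, ∑ x, (if keep a (sl' a x) then μ a (sl' a x) else 0) =
      ∑ a ∈ B, ∑ r ∈ Finset.univ.filter (keep a), μ a r := by
    refine Finset.sum_congr rfl fun a ha => ?_
    rw [Finset.sum_filter]
    refine Fintype.sum_bijective (sl' a) (Finite.injective_iff_bijective.mp fun x y k => ?_) _ _
      fun _ => rfl
    rw [← hr a ha x, k, hr a ha y]
  have g5 := g3.trans (le_of_eq (congrArg _ g4))
  change _ ≤ _ + ∑ a ∈ B, ∑ r ∈ Finset.univ.filter (keep a), μ a r
  omega

end Pool.Agent.Work.MP_862369_co.Up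
end

-- merged part: Pool.Agent.Work.MP_862369_co.UpSV
section
/-!
A bound for the number of rational points of an irreducible plane curve of degree less than
half of the characteristic, from a Wronskian determinant.
-/

open Polynomial
open scoped Polynomial.Bivariate

namespace Pool.Agent.Work.MP_862369_co.Up

variable {F : Type} [Field F]

/-- derivative in the inner variable -/
noncomputable def dx (g : F[X][Y]) : F[X][Y] := g.sum fun k a => monomial k (derivative a)

theorem coeff_dx (g : F[X][Y]) (k : ℕ) : (dx g).coeff k = derivative (g.coeff k) := by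
  simp only [dx, Polynomial.sum, finsetSum_coeff, coeff_monomial, Finset.sum_ite_eq']
  split_ifs with h
  · rfl
  · rw [notMem_support_iff.mp h, derivative_zero]

theorem Wt_dx {g : F[X][Y]} {d : ℕ} (h : Wt d g) : Wt d (dx g) := by
  intro k i hne
  rw [coeff_dx, coeff_derivative] at hne
  have := h k (i + 1) (left_ne_zero_of_mul hne)
  omega

theorem chain {A : Type} [CommRing A] [Algebra F A] (D : Derivation F A A) (ξ η : A)
    (g : F[X][Y]) :
    D (ev ξ η g) = ev ξ η (dx g) * D ξ + ev ξ η (derivative g) * D η := by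
  induction g using Polynomial.induction_on' with
  | add p q hp hq =>
    have : dx (p + q) = dx p + dx q := by ext1 k; simp [coeff_dx]
    simp only [this, map_add, hp, hq]
    ring
  | monomial n a =>
    have : dx (monomial n a) = monomial n (derivative a) := by
      ext1 k
      rw [coeff_dx, coeff_monomial, coeff_monomial]
      split_ifs <;> simp
    rw [this, derivative_monomial]
    simp only [← C_mul_X_pow_eq_monomial, map_mul, map_pow, ev_C, ev_Y, Derivation.leibniz,
      Derivation.map_aeval, Derivation.leibniz_pow, smul_eq_mul, map_natCast, nsmul_eq_mul]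
    ring

theorem EE_prod {R ι : Type} [CommRing R] [Algebra F R] (x y : R) (s : Finset ι) (a : ι → R)
    (d : ι → ℕ) (h : ∀ i ∈ s, a i ∈ EE F x y (d i)) : ∏ i ∈ s, a i ∈ EE F x y (∑ i ∈ s, d i) := by
  classical
  induction s using Finset.induction_on with
  | empty => simpa using one_mem_EE (F := F) x y 0
  | insert b s hb ih =>
    rw [Finset.prod_insert hb, Finset.sum_insert hb]
    exact EE_mul _ _ (h b (Finset.mem_insert_self _ _))
      (ih fun i hi => h i (Finset.mem_insert_of_mem hi))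

/-- the Euler operator -/
noncomputable def eul (s : PowerSeries F) : PowerSeries F :=
  PowerSeries.X * PowerSeries.derivative F s

theorem coeff_eul (s : PowerSeries F) (n : ℕ) :
    PowerSeries.coeff n (eul s) = n * PowerSeries.coeff n s := by
  cases n with
  | zero => simp [eul]
  | succ n => simp [eul, PowerSeries.coeff_succ_X_mul, PowerSeries.coeff_derivative, mul_comm]

theorem coeff_eul_iter (s : PowerSeries F) (j n : ℕ) :
    PowerSeries.coeff n (eul^[j] s) = n ^ j * PowerSeries.coeff n s := by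
  induction j with
  | zero => simp
  | succ j ih => rw [Function.iterate_succ_apply', coeff_eul, ih]; ring

theorem wronski {n N : ℕ} (hN : ∀ i ≤ N, ∀ j ≤ N, (i : F) = j → i = j)
    (γ : Fin n → PowerSeries F)
    (hγ : ∀ c : Fin n → F, c ≠ 0 → ∃ k ≤ N, PowerSeries.coeff k (∑ i, c i • γ i) ≠ 0) :
    (Matrix.of fun (j i : Fin n) => eul^[j] (γ i)).det ≠ 0 := by
  classical
  let E := (Finset.range (N + 1)).filter fun e => ∃ c : Fin n → F,
    PowerSeries.coeff e (∑ i, c i • γ i) ≠ 0 ∧ ∀ k < e, PowerSeries.coeff k (∑ i, c i • γ i) = 0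
  have hE : n ≤ E.card := by
    by_contra hlt
    let L : (Fin n → F) →ₗ[F] (E → F) := LinearMap.pi fun e =>
      PowerSeries.coeff e.1 ∘ₗ Fintype.linearCombination F γ
    obtain ⟨c, hc, hc0⟩ := (Submodule.ne_bot_iff _).mp
      (L.ker_ne_bot_of_finrank_lt (by simpa using hlt))
    have h1 := hγ c hc0
    have h2 := Nat.find_spec h1
    have h3 : Nat.find h1 ∈ E := by
      refine Finset.mem_filter.mpr ⟨Finset.mem_range.mpr (by omega), c, h2.2, fun k hk => ?_⟩
      by_contra h
      exact Nat.find_min h1 hk ⟨by omega, h⟩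
    exact h2.2 (congrFun (LinearMap.mem_ker.mp hc) ⟨_, h3⟩)
  obtain ⟨E', hE', hc⟩ := Finset.exists_subset_card_eq hE
  let e : Fin n → ℕ := fun i => E'.orderEmbOfFin hc i
  have he : ∀ i, e i ∈ E := fun i => hE' (Finset.orderEmbOfFin_mem _ _ _)
  choose c hc1 hc2 using fun i => (Finset.mem_filter.mp (he i)).2
  have hu : ∀ j i : Fin n, ∃ u, eul^[j] (∑ k, c i k • γ k) = PowerSeries.X ^ e i * u := by
    intro j i
    refine PowerSeries.X_pow_dvd_iff.mpr fun k hk => ?_
    rw [coeff_eul_iter, hc2 i k hk, mul_zero]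
  choose u hu using hu
  intro h0
  have h1 : (Matrix.of fun (j i : Fin n) => eul^[j] (γ i)) *
      (Matrix.of fun k i => PowerSeries.C (c i k)) =
      Matrix.of fun j i => PowerSeries.X ^ e i * (Matrix.of u) j i := by
    ext j i k
    rw [Matrix.of_apply, Matrix.of_apply, ← hu, Matrix.mul_apply, coeff_eul_iter]
    simp only [Matrix.of_apply, map_sum, PowerSeries.coeff_mul_C, coeff_eul_iter, map_smul,
      smul_eq_mul, Finset.mul_sum]
    exact Finset.sum_congr rfl fun _ _ => by ring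
  have h2 := congrArg Matrix.det h1
  rw [Matrix.det_mul, h0, zero_mul, Matrix.det_mul_row] at h2
  have h3 := (mul_eq_zero.mp h2.symm).resolve_left (Finset.prod_ne_zero_iff.mpr fun i _ =>
    pow_ne_zero _ PowerSeries.X_ne_zero)
  have h4 := congrArg PowerSeries.constantCoeff h3
  rw [RingHom.map_det, map_zero] at h4
  have h5 : PowerSeries.constantCoeff.mapMatrix (Matrix.of u) = Matrix.of fun (j i : Fin n) =>
      PowerSeries.coeff (e i) (∑ k, c i k • γ k) *
        (Matrix.vandermonde fun i => (e i : F)).transpose j i := by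
    ext j i
    have := congrArg (PowerSeries.coeff (e i)) (hu j i)
    rw [coeff_eul_iter, PowerSeries.coeff_X_pow_mul', if_pos le_rfl, Nat.sub_self] at this
    simp only [RingHom.mapMatrix_apply, Matrix.map_apply, Matrix.of_apply, Matrix.transpose_apply,
      Matrix.vandermonde_apply]
    rw [mul_comm, this]
    simp
  change (PowerSeries.constantCoeff.mapMatrix (Matrix.of u)).det = 0 at h4
  rw [h5, Matrix.det_mul_row, Matrix.det_transpose] at h4
  refine mul_ne_zero (Finset.prod_ne_zero_iff.mpr fun i _ => hc1 i)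
    (Matrix.det_vandermonde_ne_zero_iff.mpr fun i j hij => ?_) h4
  have a := Finset.mem_range.mp (Finset.mem_filter.mp (he i)).1
  have b := Finset.mem_range.mp (Finset.mem_filter.mp (he j)).1
  exact (E'.orderEmbOfFin hc).injective (hN _ (Nat.lt_succ_iff.mp a) _ (Nat.lt_succ_iff.mp b) hij)

theorem eul_span {ι : Type} (u : PowerSeries F) (hu : IsUnit u) (γ : ι → PowerSeries F) (j : ℕ) :
    (fun w => eul^[j + 1] (γ w)) ∈ Submodule.span (PowerSeries F)
      {v | ∃ i, 1 ≤ i ∧ i ≤ j + 1 ∧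
        v = fun w => (fun s => u * PowerSeries.derivative F s)^[i] (γ w)} := by
  obtain ⟨u', hu'⟩ := hu.exists_left_inv
  have key : ∀ s : PowerSeries F,
      eul s = (PowerSeries.X * u') * (u * PowerSeries.derivative F s) := fun s => by
    rw [eul, mul_assoc, ← mul_assoc u', hu', one_mul]
  induction j with
  | zero =>
    have : (fun w => eul^[0 + 1] (γ w)) = (PowerSeries.X * u') •
        fun w => (fun s => u * PowerSeries.derivative F s)^[1] (γ w) := funext fun w => key _
    rw [this]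
    exact Submodule.smul_mem _ _ (Submodule.subset_span ⟨1, le_rfl, le_rfl, rfl⟩)
  | succ j ih =>
    simp only [Function.iterate_succ_apply' eul (j + 1)]
    change (fun w => eul ((fun w => eul^[j + 1] (γ w)) w)) ∈ _
    generalize (fun w => eul^[j + 1] (γ w)) = v at ih
    induction ih using Submodule.span_induction with
    | zero =>
      have : (fun w => eul ((0 : ι → PowerSeries F) w)) = 0 := funext fun w => by simp [eul]
      rw [this]
      exact zero_mem _
    | add a b _ _ h1 h2 =>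
      have : (fun w => eul ((a + b) w)) = (fun w => eul (a w)) + fun w => eul (b w) :=
        funext fun w => by simp [eul, mul_add]
      rw [this]
      exact add_mem h1 h2
    | smul c a ha h1 =>
      have : (fun w => eul ((c • a) w)) = c • (fun w => eul (a w)) + eul c • a :=
        funext fun w => by
          simp only [eul, Pi.smul_apply, smul_eq_mul, Derivation.leibniz, Pi.add_apply]
          ring
      rw [this]
      refine add_mem (Submodule.smul_mem _ _ h1) (Submodule.smul_mem _ _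
        (Submodule.span_mono ?_ ha))
      rintro _ ⟨i, h1, h2, rfl⟩
      exact ⟨i, h1, by omega, rfl⟩
    | mem a ha =>
      obtain ⟨i, h1, h2, rfl⟩ := ha
      have : (fun w => eul ((fun s => u * PowerSeries.derivative F s)^[i] (γ w))) =
          (PowerSeries.X * u') •
          fun w => (fun s => u * PowerSeries.derivative F s)^[i + 1] (γ w) := funext fun w => by
        rw [Pi.smul_apply, Function.iterate_succ_apply', key, smul_eq_mul]
      rw [this]
      exact Submodule.smul_mem _ _ (Submodule.subset_span ⟨i + 1, by omega, by omega, rfl⟩)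

theorem frob_dvd [Fintype F] (s : PowerSeries F) : PowerSeries.X ^ Fintype.card F ∣
    s ^ Fintype.card F - PowerSeries.C (PowerSeries.constantCoeff s) := by
  obtain ⟨r, hr⟩ := ps_split s 1
  let Fr := FiniteField.frobeniusAlgHom F (PowerSeries F)
  have hFr : ∀ s, Fr s = s ^ Fintype.card F := fun s => rfl
  have h4 := congrArg Fr hr
  simp only [Finset.range_one, Finset.sum_singleton, pow_zero, pow_one, map_add, map_smul,
    map_one, map_mul, PowerSeries.coeff_zero_eq_constantCoeff] at h4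
  rw [← hFr s, h4, hFr PowerSeries.X, PowerSeries.smul_eq_C_mul, mul_one, add_sub_cancel_left]
  exact dvd_mul_right _ _

theorem coeff_sub_frob [Fintype F] (s : PowerSeries F) {n : ℕ} (hn : n < Fintype.card F) :
    PowerSeries.coeff n (s - s ^ Fintype.card F) =
      PowerSeries.coeff n (s - PowerSeries.C (PowerSeries.constantCoeff s)) := by
  have := PowerSeries.X_pow_dvd_iff.mp (frob_dvd s) n hn
  rw [map_sub, sub_eq_zero] at this
  rw [map_sub, map_sub, this]

theorem eul_sub_frob [Fintype F] (s : PowerSeries F) : eul (s - s ^ Fintype.card F) = eul s := by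
  have : ((Fintype.card F : ℕ) : PowerSeries F) = 0 := by
    rw [← map_natCast (PowerSeries.C (R := F)), FiniteField.cast_card_eq_zero, map_zero]
  simp [eul, Derivation.leibniz_pow, this]

/-- the local matrix -/
noncomputable def locM [Fintype F] (u : PowerSeries F) (γ : Fin 5 → PowerSeries F) :
    Matrix (Fin 5) (Fin 5) (PowerSeries F) := Matrix.of fun j w =>
  if j = 0 then γ w - γ w ^ Fintype.card F
  else (fun s => u * PowerSeries.derivative F s)^[j] (γ w)

theorem locM_row [Fintype F] {u : PowerSeries F} (hu : IsUnit u) (γ : Fin 5 → PowerSeries F)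
    {j : ℕ} (hj : j < 4) : ∃ c : Fin 5 → PowerSeries F, c 0 = 0 ∧
      ∑ i, c i • locM u γ i = fun w => eul^[j + 1] (γ w) := by
  have : Submodule.span (PowerSeries F) {v | ∃ i, 1 ≤ i ∧ i ≤ j + 1 ∧
      v = fun w => (fun s => u * PowerSeries.derivative F s)^[i] (γ w)} ≤
      (LinearMap.ker (LinearMap.proj (R := PowerSeries F)
        (φ := fun _ : Fin 5 => PowerSeries F) 0)).map
        (Fintype.linearCombination (PowerSeries F) fun i w => locM u γ i w) := by
    rw [Submodule.span_le]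
    rintro _ ⟨i, h1, h2, rfl⟩
    have hi : (⟨i, by omega⟩ : Fin 5) ≠ 0 := fun h => by
      have := congrArg Fin.val h
      simp at this
      omega
    refine ⟨Pi.single ⟨i, by omega⟩ 1, by simp [hi.symm], ?_⟩
    rw [Fintype.linearCombination_apply_single, one_smul]
    funext w
    simp only [locM, Matrix.of_apply, if_neg hi]
  obtain ⟨c, hc, h⟩ := this (eul_span u hu γ j)
  exact ⟨c, hc, h⟩

theorem locM_dvd [Fintype F] (h5 : 5 ≤ Fintype.card F) (h24 : (24 : F) ≠ 0) {u : PowerSeries F}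
    (hu : IsUnit u) (γ : Fin 5 → PowerSeries F) : PowerSeries.X ^ 5 ∣ (locM u γ).det := by
  obtain ⟨c1, z1, e1⟩ := locM_row hu γ (j := 0) (by omega)
  obtain ⟨c2, z2, e2⟩ := locM_row hu γ (j := 1) (by omega)
  obtain ⟨c3, z3, e3⟩ := locM_row hu γ (j := 2) (by omega)
  obtain ⟨c4, z4, e4⟩ := locM_row hu γ (j := 3) (by omega)
  let c0 : Fin 5 → PowerSeries F := Pi.single 0 1
  let c : Fin 5 → PowerSeries F :=
    (24 : F) • c0 - (50 : F) • c1 + (35 : F) • c2 - (10 : F) • c3 + c4
  have hv : ∀ w, PowerSeries.X ^ 5 ∣ (∑ i, c i • locM u γ i) w := by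
    intro w
    have : (∑ i, c i • locM u γ i) w = (24 : F) • (γ w - γ w ^ Fintype.card F) -
        (50 : F) • eul^[1] (γ w) + (35 : F) • eul^[2] (γ w) - (10 : F) • eul^[3] (γ w) +
        eul^[4] (γ w) := by
      rw [← congrFun e1 w, ← congrFun e2 w, ← congrFun e3 w, ← congrFun e4 w]
      have : locM u γ 0 w = γ w - γ w ^ Fintype.card F := by simp [locM]
      rw [← this]
      simp [c, c0, Fin.sum_univ_five, PowerSeries.smul_eq_C_mul]
      ring
    rw [this, PowerSeries.X_pow_dvd_iff]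
    intro n hn
    simp only [map_add, map_sub _ (_ • _), map_sub _ (_ + _), map_smul, coeff_eul_iter,
      coeff_sub_frob _ (by omega : n < Fintype.card F), smul_eq_mul]
    interval_cases n <;> simp <;> ring
  choose v hv using hv
  have h1 := Matrix.det_updateRow_sum (locM u γ) 0 c
  rw [show ∑ i, c i • locM u γ i = (PowerSeries.X ^ 5 : PowerSeries F) • v from funext hv,
    Matrix.det_updateRow_smul] at h1
  have h2 : c 0 = PowerSeries.C 24 := by simp [c, c0, z1, z2, z3, z4, PowerSeries.smul_eq_C_mul]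
  rw [h2, smul_eq_mul] at h1
  exact (h24.isUnit.map PowerSeries.C).dvd_mul_left.mp ⟨_, h1.symm⟩

theorem locM_ne [Fintype F] (hp : (Fintype.card F).Prime) {N : ℕ} (hN : N < Fintype.card F)
    {u : PowerSeries F} (hu : IsUnit u) (γ : Fin 5 → PowerSeries F)
    (hγ : ∀ c : Fin 5 → F, c ≠ 0 → ∀ k : F,
      ¬ PowerSeries.X ^ (N + 1) ∣ ∑ i, c i • γ i - PowerSeries.C k) : (locM u γ).det ≠ 0 := by
  have : ∀ j : Fin 5, ∃ c : Fin 5 → PowerSeries F,
      ∑ i, c i • locM u γ i = fun w => eul^[j] (γ w - γ w ^ Fintype.card F) := by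
    rintro ⟨j, hj⟩
    cases j with
    | zero => exact ⟨Pi.single 0 1, by funext w; simp [Fin.sum_univ_five, locM]⟩
    | succ j =>
      obtain ⟨c, -, hc⟩ := locM_row hu γ (j := j) (by omega)
      exact ⟨c, by simpa only [Function.iterate_succ_apply, eul_sub_frob] using hc⟩
  choose T hT using this
  intro h0
  refine wronski (N := N) (fun i hi j hj => cast_inj hp (by omega) (by omega))
    (fun w => γ w - γ w ^ Fintype.card F) (fun c hc => ?_) ?_
  · by_contra hk
    push Not at hk
    refine hγ c hc (∑ i, c i * PowerSeries.constantCoeff (γ i))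
      (PowerSeries.X_pow_dvd_iff.mpr fun k hk' => ?_)
    rw [← hk k (by omega), map_sum, map_sum, ← Finset.sum_sub_distrib, map_sum]
    refine Finset.sum_congr rfl fun i _ => ?_
    rw [map_smul, coeff_sub_frob _ (by omega), ← map_smul, smul_sub, map_mul,
      PowerSeries.smul_eq_C_mul (PowerSeries.C _)]
  · have : (Matrix.of fun (j i : Fin 5) => eul^[j] (γ i - γ i ^ Fintype.card F)) =
        Matrix.of T * locM u γ := by
      ext1 j i
      rw [Matrix.of_apply, ← congrFun (hT j) i, Matrix.mul_apply]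
      simp
    rw [this, Matrix.det_mul, h0, mul_zero]

/-- the derivation along the curve -/
noncomputable def Dp (h g : F[X][Y]) : F[X][Y] := derivative h * dx g - dx h * derivative g

theorem Wt_Dp {h g : F[X][Y]} {m d : ℕ} (hh : Wt m h) (hg : Wt d g) : Wt (m + d) (Dp h g) :=
  Wt_of_mem (sub_mem (mem_of_Wt (Wt_mul (Wt_derivative hh) (Wt_dx hg)))
    (mem_of_Wt (Wt_mul (Wt_dx hh) (Wt_derivative hg))))

theorem Wt_Dp_iter {h g : F[X][Y]} {m d : ℕ} (hh : Wt m h) (hg : Wt d g) (j : ℕ) :
    Wt (j * m + d) ((Dp h)^[j] g) := by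
  induction j with
  | zero => simpa using hg
  | succ j ih =>
    rw [Function.iterate_succ_apply']
    exact Wt_mono (Wt_Dp hh ih) (le_of_eq (by ring))

theorem ev_Dp_iter {h : F[X][Y]} {a : F} {η : PowerSeries F}
    (h0 : ev (PowerSeries.C a + PowerSeries.X) η h = 0) (g : F[X][Y]) (j : ℕ) :
    ev (PowerSeries.C a + PowerSeries.X) η ((Dp h)^[j] g) =
      (fun s => ev (PowerSeries.C a + PowerSeries.X) η (derivative h) *
        PowerSeries.derivative F s)^[j] (ev (PowerSeries.C a + PowerSeries.X) η g) := by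
  induction j with
  | zero => rfl
  | succ j ih =>
    rw [Function.iterate_succ_apply', Function.iterate_succ_apply', ← ih]
    have e1 := chain (PowerSeries.derivative F) (PowerSeries.C a + PowerSeries.X) η h
    rw [h0, map_zero] at e1
    rw [chain, Dp, map_sub, map_mul, map_mul]
    have e2 : PowerSeries.derivative F (PowerSeries.C a + PowerSeries.X) = 1 := by simp
    rw [e2] at e1 ⊢
    linear_combination
      ev (PowerSeries.C a + PowerSeries.X) η (derivative ((Dp h)^[j] g)) * e1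

/-- the nonconstant monomials of degree at most two -/
noncomputable def ff : Fin 5 → F[X][Y] := ![C X, Y, C X ^ 2, C X * Y, Y ^ 2]

theorem Wt_ff (w : Fin 5) : Wt 2 (ff w : F[X][Y]) := by
  apply Wt_of_mem
  fin_cases w
  · simpa [ff] using mon_mem (F := F) (C X : F[X][Y]) Y (d := 2) (i := 1) (k := 0) (by omega)
  · simpa [ff] using mon_mem (F := F) (C X : F[X][Y]) Y (d := 2) (i := 0) (k := 1) (by omega)
  · simpa [ff] using mon_mem (F := F) (C X : F[X][Y]) Y (d := 2) (i := 2) (k := 0) (by omega)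
  · simpa [ff] using mon_mem (F := F) (C X : F[X][Y]) Y (d := 2) (i := 1) (k := 1) (by omega)
  · simpa [ff] using mon_mem (F := F) (C X : F[X][Y]) Y (d := 2) (i := 0) (k := 2) (by omega)

theorem ff_li (c : Fin 5 → F) (k : F) (h : ∑ i, c i • (ff i : F[X][Y]) - k • 1 = 0) : c = 0 := by
  have h' : (C (C (c 0) * X + C (c 2) * X ^ 2 - C k) + C (C (c 1) + C (c 3) * X) * Y +
      C (C (c 4)) * Y ^ 2 : F[X][Y]) = 0 := by
    rw [← h]
    simp [ff, Fin.sum_univ_five, Algebra.smul_def, Polynomial.algebraMap_apply]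
    ring
  have e := fun a b => congrArg (fun p : F[X][Y] => (p.coeff a).coeff b) h'
  have e0 := e 0 1
  have e1 := e 1 0
  have e2 := e 0 2
  have e3 := e 1 1
  have e4 := e 2 0
  simp only [coeff_add, coeff_C_mul, coeff_C, coeff_X, coeff_X_pow] at e0 e1 e2 e3 e4
  simp [coeff_C, coeff_X] at e0 e1 e2 e3 e4
  funext i
  fin_cases i <;> simp [*]

/-- the Wronskian -/
noncomputable def WW (q : ℕ) (h : F[X][Y]) : F[X][Y] :=
  (Matrix.of fun (j w : Fin 5) => if j = 0 then ff w - ff w ^ q else (Dp h)^[j] (ff w)).det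

theorem Wt_WW {q m : ℕ} (hq : 1 ≤ q) {h : F[X][Y]} (hh : Wt m h) :
    Wt (2 * q + 8 + 10 * m) (WW q h) := by
  apply Wt_of_mem
  rw [WW, Matrix.det_apply]
  refine Submodule.sum_mem _ fun σ _ => ?_
  rw [Units.smul_def]
  refine zsmul_mem ?_ _
  let dd : Fin 5 → ℕ := fun j => if j = 0 then q * 2 else j * m + 2
  have := EE_prod (F := F) (C X : F[X][Y]) Y Finset.univ (fun i => (Matrix.of fun (j w : Fin 5) =>
    if j = 0 then ff w - ff w ^ q else (Dp h)^[j] (ff w)) (σ i) i) (fun i => dd (σ i))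
    fun i _ => by
      simp only [Matrix.of_apply, dd]
      split_ifs
      · exact sub_mem (mem_of_Wt (Wt_mono (Wt_ff i) (by omega))) (mem_of_Wt (Wt_pow (Wt_ff i) q))
      · exact mem_of_Wt (Wt_Dp_iter hh (Wt_ff i) _)
  rw [Equiv.sum_comp σ dd] at this
  refine EE_mono _ _ (le_of_eq ?_) this
  simp [dd, Fin.sum_univ_five]
  ring

theorem ev_WW [Fintype F] {h : F[X][Y]} {a : F} {η : PowerSeries F}
    (h0 : ev (PowerSeries.C a + PowerSeries.X) η h = 0) :
    ev (PowerSeries.C a + PowerSeries.X) η (WW (Fintype.card F) h) =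
      (locM (ev (PowerSeries.C a + PowerSeries.X) η (derivative h))
        fun w => ev (PowerSeries.C a + PowerSeries.X) η (ff w : F[X][Y])).det := by
  rw [WW, AlgHom.map_det]
  congr 1
  ext1 j w
  simp only [AlgHom.mapMatrix_apply, Matrix.map_apply, Matrix.of_apply, locM]
  split_ifs
  · rw [map_sub, map_pow]
  · exact ev_Dp_iter h0 _ _

open Classical in
theorem sv_aux [Fintype F] (hp : (Fintype.card F).Prime) {R : Type} [CommRing R] [IsDomain R]
    [Algebra F R] {x y : R} {h : F[X][Y]} {m : ℕ} (hm3 : 3 ≤ m)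
    (hm : h.Monic) (hd : h.natDegree = m) (hw : Wt m h) (hq : 2 * m < Fintype.card F)
    (h0 : ev x y h = 0) (hs : Function.Surjective (ev x y : F[X][Y] →ₐ[F] R))
    (hker : ∀ p : F[X][Y], ev x y p = 0 → h ∣ p)
    (hlift : ∀ x' y' : PowerSeries F, ev x' y' h = 0 →
      ∃ ψ : R →ₐ[F] PowerSeries F, ψ x = x' ∧ ψ y = y') :
    5 * (Finset.univ.filter fun p : F × F => ev p.1 p.2 h = 0).card ≤
      2 * m * Fintype.card F + 18 * m ^ 2 := by
  have hc : ∀ k : ℕ, 0 < k → k < Fintype.card F → (k : F) ≠ 0 := fun k h1 h2 h3 =>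
    h1.ne' (cast_inj hp h2 (by omega) (by simpa using h3))
  have hu0 : derivative h ≠ 0 := by
    intro h1
    obtain ⟨k, rfl⟩ : ∃ k, m = k + 1 := ⟨m - 1, by omega⟩
    have := congrArg (fun p : F[X][Y] => (p.coeff k).coeff 0) h1
    simp only [coeff_derivative, ← hd, hm.coeff_natDegree, one_mul, coeff_zero] at this
    apply hc (k + 1) (by omega) (by omega)
    rw [← Nat.cast_succ, ← C_eq_natCast, coeff_C_zero] at this
    exact this
  have h24 : (24 : F) ≠ 0 := by
    have e2 := hc 2 (by omega) (by omega)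
    have e3 := hc 3 (by omega) (by omega)
    intro h1
    exact mul_ne_zero (pow_ne_zero 3 e2) e3 (by push_cast; linear_combination h1)
  have hu : ev x y (derivative h) ≠ 0 := fun hh => hu0
    (eq_zero_of_dvd_of_degree_lt (hker _ hh) (degree_derivative_lt hm.ne_zero))
  have hsing : ∀ S : Finset (F × F), (∀ p ∈ S, ev p.1 p.2 h = 0) →
      (∀ p ∈ S, ev p.1 p.2 (derivative h) = 0) → S.card ≤ m * m := by
    intro S hS1 hS2
    have hC : ∀ (a b : F) (p : F[X][Y]),
        ev (PowerSeries.C a) (PowerSeries.C b) p = PowerSeries.C (ev a b p) := by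
      intro a b p
      have := hom_ev (Algebra.ofId F (PowerSeries F)) a b p
      simpa [Algebra.ofId_apply] using this.symm
    choose ψ hψ using fun p : S =>
      hlift (PowerSeries.C p.1.1) (PowerSeries.C p.1.2) (by rw [hC, hS1 p.1 p.2, map_zero])
    have := multi hm hd hw h0 hs hu (ev_mem_EE x y (Wt_derivative hw))
      (fun p : S => p.1.1) (fun p => p.1.2)
      (fun p p' h1 h2 => Subtype.ext (Prod.ext h1 h2)) ψ (fun p => by rw [(hψ p).1]; simp)
      (fun p => by rw [(hψ p).2]; simp) 1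
      (fun p t => ⟨algebraMap F R (t 0), fun i => by
        rw [AlgHom.commutes, Subsingleton.elim i 0]; simp⟩)
      (fun p => by
        rw [hom_ev, (hψ p).1, (hψ p).2, hC, hS2 p.1 p.2, map_zero]
        exact dvd_zero _)
    simpa using this
  have hsm : ∀ S : Finset (F × F), (∀ p ∈ S, ev p.1 p.2 h = 0) →
      (∀ p ∈ S, ev p.1 p.2 (derivative h) ≠ 0) →
      5 * S.card ≤ m * (2 * Fintype.card F + 8 + 10 * m) := by
    intro S hS1 hS2
    choose ζ hζ using fun p : S => hensel hm (hS1 p.1 p.2) (hS2 p.1 p.2)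
    choose ψ hψ using fun p => hlift _ _ (hζ p)
    have hev : ∀ (p : S) g, ψ p (ev x y g) = ev (PowerSeries.C p.1.1 + PowerSeries.X)
        (PowerSeries.C p.1.2 + PowerSeries.X * ζ p) g := fun p g => by
      rw [hom_ev, (hψ p).1, (hψ p).2]
    have hun : ∀ p : S, IsUnit (ev (PowerSeries.C p.1.1 + PowerSeries.X)
        (PowerSeries.C p.1.2 + PowerSeries.X * ζ p) (derivative h)) := fun p => by
      rw [PowerSeries.isUnit_iff_constantCoeff, ← cc_apply, hom_ev]
      simpa using hS2 p.1 p.2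
    rcases S.eq_empty_or_nonempty with he | ⟨p0, hp0⟩
    · rw [he]; simp
    have hne : ev x y (WW (Fintype.card F) h) ≠ 0 := by
      intro hz
      have e := hev ⟨p0, hp0⟩ (WW (Fintype.card F) h)
      rw [hz, map_zero, ev_WW (hζ _)] at e
      refine locM_ne hp hq (hun _) _ (fun c hc0 k hk => hc0 ?_) e.symm
      have hg : Wt 2 (∑ i, c i • (ff i : F[X][Y]) - k • 1) := Wt_of_mem (sub_mem
        (Submodule.sum_mem _ fun i _ => Submodule.smul_mem _ _ (mem_of_Wt (Wt_ff i)))
        (Submodule.smul_mem _ _ (one_mem_EE _ _ _)))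
      have h1 := order_le hm hd hw h0 hs (ψ ⟨p0, hp0⟩) (hψ _).1 (ev_mem_EE x y hg)
        (M := 2 * m + 1) (by omega) (by
          rw [hev]
          simpa [PowerSeries.smul_eq_C_mul] using hk)
      refine ff_li c k (eq_zero_of_dvd_of_natDegree_lt (hker _ h1) ?_)
      refine lt_of_le_of_lt (natDegree_le_iff_coeff_eq_zero.mpr fun n hn => ?_)
        (by omega : 2 < h.natDegree)
      ext i
      by_contra hne
      have := hg n i hne
      omega
    have := multi hm hd hw h0 hs hne (ev_mem_EE x y (Wt_WW (by omega) hw))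
      (fun p : S => p.1.1) (fun p => p.1.2)
      (fun p p' h1 h2 => Subtype.ext (Prod.ext h1 h2)) ψ (fun p => by rw [(hψ p).1]; simp)
      (fun p => by rw [(hψ p).2]; simp) 5 (fun p t => surj_of_param (ψ p) (hψ p).1 5 t)
      (fun p => by
        rw [hev, ev_WW (hζ p)]
        exact locM_dvd (by omega) h24 (hun p) _)
    simpa using this
  have hZ : ∀ p ∈ (Finset.univ.filter fun p : F × F => ev p.1 p.2 h = 0), ev p.1 p.2 h = 0 :=
    fun p hp => (Finset.mem_filter.mp hp).2
  generalize (Finset.univ.filter fun p : F × F => ev p.1 p.2 h = 0) = Z at hZ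
  have e1 := Finset.card_filter_add_card_filter_not (s := Z)
    (fun p => ev p.1 p.2 (derivative h) = 0)
  have e2 := hsing (Z.filter fun p => ev p.1 p.2 (derivative h) = 0)
    (fun p hp => hZ p (Finset.mem_filter.mp hp).1) (fun p hp => (Finset.mem_filter.mp hp).2)
  have e3 := hsm (Z.filter fun p => ¬ ev p.1 p.2 (derivative h) = 0)
    (fun p hp => hZ p (Finset.mem_filter.mp hp).1) (fun p hp => (Finset.mem_filter.mp hp).2)
  generalize (Z.filter fun p => ev p.1 p.2 (derivative h) = 0).card = n1 at *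
  generalize (Z.filter fun p => ¬ ev p.1 p.2 (derivative h) = 0).card = n2 at *
  nlinarith

open Classical in
theorem sv [Fintype F] (hp : (Fintype.card F).Prime) {h : F[X][Y]} {m : ℕ} (hm3 : 3 ≤ m)
    (hm : h.Monic) (hd : h.natDegree = m) (hw : Wt m h) (hirr : Irreducible h)
    (hq : 2 * m < Fintype.card F) :
    5 * (Finset.univ.filter fun p : F × F => ev p.1 p.2 h = 0).card ≤
      2 * m * Fintype.card F + 18 * m ^ 2 := by
  let I : Ideal F[X][Y] := Ideal.span {h}
  have : I.IsPrime := (Ideal.span_singleton_prime hirr.ne_zero).mpr hirr.prime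
  let R := F[X][Y] ⧸ I
  let x : R := Ideal.Quotient.mkₐ F I (C X)
  let y : R := Ideal.Quotient.mkₐ F I Y
  have hev : Ideal.Quotient.mkₐ F I = ev x y := ev_ext (Ideal.Quotient.mkₐ F I) x y rfl rfl
  have hker' : ∀ p : F[X][Y], ev x y p = 0 ↔ h ∣ p := by
    intro p
    rw [← hev, ← Ideal.mem_span_singleton]
    exact Ideal.Quotient.eq_zero_iff_mem
  have hs : Function.Surjective (ev x y : F[X][Y] →ₐ[F] R) := by
    rw [← hev]; exact Ideal.Quotient.mkₐ_surjective F I
  refine sv_aux hp hm3 hm hd hw hq ((hker' h).mpr dvd_rfl) hs (fun p => (hker' p).mp) ?_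
  intro x' y' hh
  refine ⟨Ideal.Quotient.liftₐ I (ev x' y') fun p hp => ?_, ?_, ?_⟩
  · obtain ⟨r, rfl⟩ := Ideal.mem_span_singleton.mp hp
    rw [map_mul, hh, zero_mul]
  · change ev x' y' (C X) = x'
    simp
  · change ev x' y' Y = y'
    simp

end Pool.Agent.Work.MP_862369_co.Up
end

-- merged part: Pool.Agent.Work.MP_862369_co.UpCaseN
section
/-!
Irreducible factors of degree at least two of the numerator.
-/

open Polynomial
open scoped Polynomial.Bivariate

namespace Pool.Agent.Work.MP_862369_co.Up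

variable {F : Type} [Field F] {ι : Type}

open Classical in
/-- Plan: loc with B = A.erase a0 (there β ≠ 0), f = D ^ 3 (Wt_pow, Good.of_dvd;
IsRelPrime h (D ^ 3) from H.cop). For hs: rho h ∣ rho N ∣ pw (eU a) ^ 2 * rho D by H.eq.
For hv let μ ≥ 1, vN ≥ μ (mult_le_of_dvd), vD be the multiplicities and x = xa A t β a r;
Dat.val, xa_zero, xa_pos give μ + (x - 1) ≤ 3 vD in the cases x ≥ 3, x = 2, and x = 1
with μ ≥ 3 (unfold eE, eU, split, omega); use xa_mono, mult_pow,
le_rootMultiplicity_iff. -/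
theorem caseN [Fintype F] {A : Finset ι} {t β : ι → F} {N D : F[X][Y]} {c : ι → F}
    (H : Dat A t β N D c) {a0 : ι} (ha0 : a0 ∈ A) (hβ0 : β a0 = 0) {h : F[X][Y]} (hm : h.Monic)
    (hN : h ∣ N) :
    h.natDegree * (A.card - 1) ≤ h.natDegree * (3 * D.natDegree) + ∑ a ∈ A,
      ∑ r ∈ Finset.univ.filter (fun r => xa A t β a r = 1 ∧
        rootMultiplicity r (rho (t a) (β a) h) ≤ 2), rootMultiplicity r (rho (t a) (β a) h) := by
  have G := H.gN.of_dvd hm hN
  have hB : A.erase a0 ⊆ A := Finset.erase_subset _ _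
  have key := loc hm rfl G.wt (Wt_pow H.gD.wt 3) (H.cop.of_dvd_left hN).pow_right (A.erase a0) t β
    (fun a ha h0 => (Finset.mem_erase.mp ha).1 (H.hβ a (hB ha) a0 ha0 (h0.trans hβ0.symm)))
    (fun a ha b hb => H.hβ a (hB ha) b (hB hb)) (fun a ha => G.ne a (hB ha))
    (fun a ha => G.deg a (hB ha))
    (fun a ha => ⟨pw (eU A t β a) ^ 2, pow_ne_zero _ (pw_ne _), (pw_splits _).pow 2, by
      refine (map_dvd (rho (t a) (β a)) hN).trans
        (((dvd_mul_left _ (C (c a))).trans (dvd_mul_right _ (pw (eE A t β a) ^ 2))).trans ?_)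
      rw [H.eq a (hB ha), map_pow, mul_comm]
      exact mul_dvd_mul_right (dvd_pow_self _ (by norm_num)) _⟩)
    (fun a r => xa A t β a r = 1 ∧ rootMultiplicity r (rho (t a) (β a) h) ≤ 2)
    (fun a ha r hk h1 => by
      have hD := H.gD.ne a (hB ha)
      rw [map_pow, ← le_rootMultiplicity_iff (pow_ne_zero _ hD), mult_pow hD]
      have e1 := H.val (hB ha) r
      have e2 := mult_le_of_dvd (H.gN.ne a (hB ha)) (map_dvd (rho (t a) (β a)) hN) r
      have e3 := xa_mono hB t β a r
      have e4 := xa_pos t β (hB ha) r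
      have e5 : eU A t β a r ≤ 1 := by unfold eU; split_ifs <;> omega
      have e6 : xa A t β a r = 2 → eU A t β a r = 0 := fun h2 => if_neg fun h3 => h3.2 h2
      unfold eE at e1
      split_ifs at e1 <;> omega)
  rw [Finset.card_erase_of_mem ha0] at key
  refine key.trans (Nat.add_le_add_left ((Finset.sum_le_sum fun a _ =>
    Finset.sum_le_sum_of_subset fun r hr => ?_).trans (Finset.sum_le_sum_of_subset hB)) _)
  simp only [Finset.mem_filter] at hr ⊢
  exact hr

open Classical in
/-- Plan: the map (a, r) ↦ (t a - β a * r, r) is injective on flags with xa A t β a r = 1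
(xa_two) and sends roots of rho h to zeros of h (eval_rho), compare hcount in planar. -/
theorem tang_count [Fintype F] (A : Finset ι) (t β : ι → F) (h : F[X][Y]) :
    ∑ a ∈ A, (Finset.univ.filter fun r => xa A t β a r = 1 ∧ eval r (rho (t a) (β a) h) = 0).card ≤
      (Finset.univ.filter fun p : F × F => ev p.1 p.2 h = 0).card := by
  have hle : ∑ a ∈ A, (Finset.univ.filter fun r => xa A t β a r = 1 ∧
      eval r (rho (t a) (β a) h) = 0).card = (A.sigma fun a => Finset.univ.filter fun r =>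
        xa A t β a r = 1 ∧ eval r (rho (t a) (β a) h) = 0).card := (Finset.card_sigma _ _).symm
  rw [hle]
  refine Finset.card_le_card_of_injOn (fun z => (t z.1 - β z.1 * z.2, z.2)) ?_ ?_
  · intro z hz
    have h1 := (Finset.mem_filter.mp (Finset.mem_sigma.mp (Finset.mem_coe.mp hz)).2).2.2
    rw [eval_rho] at h1
    exact Finset.mem_coe.mpr (Finset.mem_filter.mpr ⟨Finset.mem_univ _, h1⟩)
  · rintro ⟨a, r⟩ hz ⟨b, r'⟩ hz' hzz
    obtain ⟨ha, h1⟩ := Finset.mem_sigma.mp (Finset.mem_coe.mp hz)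
    have hb := (Finset.mem_sigma.mp (Finset.mem_coe.mp hz')).1
    obtain ⟨e1, e2⟩ := Prod.mk.inj hzz
    dsimp only at e1 e2 ha hb h1
    subst e2
    by_cases hab : b = a
    · subst hab; rfl
    · have := xa_two ha hb hab e1.symm
      have := (Finset.mem_filter.mp h1).2.1
      omega

open Classical in
theorem caseN_kept [Fintype F] (A : Finset ι) (t β : ι → F) (a : ι) (p : F[X]) (k : ℕ)
    (hk : ∀ r, xa A t β a r = 1 ∧ rootMultiplicity r p ≤ 2 → rootMultiplicity r p ≤ k) :
    ∑ r ∈ Finset.univ.filter (fun r => xa A t β a r = 1 ∧ rootMultiplicity r p ≤ 2),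
      rootMultiplicity r p ≤
      k * (Finset.univ.filter fun r => xa A t β a r = 1 ∧ eval r p = 0).card := by
  rw [Finset.card_filter, Finset.mul_sum, Finset.sum_filter]
  refine Finset.sum_le_sum fun r _ => ?_
  by_cases h1 : xa A t β a r = 1 ∧ rootMultiplicity r p ≤ 2
  · by_cases h2 : eval r p = 0
    · rw [if_pos h1, if_pos ⟨h1.1, h2⟩, mul_one]
      exact hk r h1
    · rw [if_pos h1, rootMultiplicity_eq_zero h2]
      exact Nat.zero_le _
  · rw [if_neg h1]
    exact Nat.zero_le _

/-- Plan: caseN, tang_count (each kept multiplicity is at most two and vanishes off the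
roots), sv; cancel the factor h.natDegree. -/
theorem caseN3 [Fintype F] (hp : (Fintype.card F).Prime) {A : Finset ι} {t β : ι → F}
    {N D : F[X][Y]} {c : ι → F} (H : Dat A t β N D c) {a0 : ι} (ha0 : a0 ∈ A) (hβ0 : β a0 = 0)
    {h : F[X][Y]} (hm : h.Monic) (hirr : Irreducible h) (hN : h ∣ N) (h3 : 3 ≤ h.natDegree)
    (hq : 2 * h.natDegree < Fintype.card F) :
    5 * A.card ≤ 5 + 15 * D.natDegree + 4 * Fintype.card F + 36 * h.natDegree := by
  classical
  have h1 := caseN H ha0 hβ0 hm hN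
  have h2 := tang_count A t β h
  have h4 := sv hp h3 hm rfl (H.gN.of_dvd hm hN).wt hirr hq
  have h5 := Finset.sum_le_sum fun a (_ : a ∈ A) => caseN_kept A t β a (rho (t a) (β a) h) 2
    fun r hr => hr.2
  rw [← Finset.mul_sum] at h5
  have h6 : 1 ≤ A.card := Finset.card_pos.mpr ⟨a0, ha0⟩
  obtain ⟨n, hn⟩ : ∃ n, A.card = n + 1 := ⟨A.card - 1, by omega⟩
  rw [hn, Nat.add_sub_cancel] at h1
  have e1 : h.natDegree * (5 * n) ≤
      h.natDegree * (15 * D.natDegree + 4 * Fintype.card F + 36 * h.natDegree) := by nlinarith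
  have e2 := Nat.le_of_mul_le_mul_left e1 (by omega)
  omega

/-- Plan: follow the case m = 2 of planar (quad_form, NL_of_irr, NL_count, Dl_of_NL, the
same six coefficients). S is the set of a ∈ A such that rho h has a root of multiplicity two
(then rho h = C c * (X - C r) ^ 2 by degrees). The kept sum of a is at most the number of
tangent roots, plus one if a ∈ S (sum_mult_le). The zero set Z has at least two points
because 2 (A.card - 1) ≤ 6 D.natDegree + 2 Z.card. -/
theorem caseN2 [Fintype F] (h2 : (2 : F) ≠ 0) {A : Finset ι} {t β : ι → F}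
    {N D : F[X][Y]} {c : ι → F} (H : Dat A t β N D c) {a0 : ι} (ha0 : a0 ∈ A) (hβ0 : β a0 = 0)
    {h : F[X][Y]} (hm : h.Monic) (hirr : Irreducible h) (hN : h ∣ N) (hd : h.natDegree = 2)
    (hA : 3 * D.natDegree + 3 ≤ A.card) :
    ∃ k1 k2 k3 k4 k5 k6 : F, Dl k1 k2 k3 k4 k5 k6 ≠ 0 ∧ ∃ S ⊆ A,
      (∀ a ∈ S, Qd k1 k2 k3 k4 k5 k6 (t a) (β a) = 0) ∧
      2 * A.card ≤ 6 * D.natDegree + S.card + Fintype.card F + 4 := by
  classical
  have G := H.gN.of_dvd hm hN
  have h1 := caseN H ha0 hβ0 hm hN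
  have h3 := tang_count A t β h
  have h5 := fun a => caseN_kept A t β a (rho (t a) (β a) h) 2 fun r hr => hr.2
  have h6 := Finset.sum_le_sum fun a (_ : a ∈ A) => h5 a
  rw [← Finset.mul_sum] at h6
  have h7 : ∑ a ∈ A, ∑ r ∈ Finset.univ.filter (fun r => xa A t β a r = 1 ∧
      rootMultiplicity r (rho (t a) (β a) h) ≤ 2), rootMultiplicity r (rho (t a) (β a) h) ≤
      ∑ a ∈ A, ((if ∃ r, 2 ≤ rootMultiplicity r (rho (t a) (β a) h) then 1 else 0) +
        (Finset.univ.filter fun r => xa A t β a r = 1 ∧ eval r (rho (t a) (β a) h) = 0).card) := by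
    refine Finset.sum_le_sum fun a ha => ?_
    split_ifs with hS
    · have e1 := (Finset.sum_le_sum_of_subset (Finset.filter_subset (fun r => xa A t β a r = 1 ∧
        rootMultiplicity r (rho (t a) (β a) h) ≤ 2) Finset.univ)).trans (sum_mult_le (G.ne a ha))
      rw [G.deg a ha, hd] at e1
      have e2 := h5 a
      omega
    · have e2 := caseN_kept A t β a (rho (t a) (β a) h) 1 fun r _ =>
        Nat.le_of_lt_succ (not_le.mp fun h0 => hS ⟨r, h0⟩)
      omega
  rw [Finset.sum_add_distrib, ← Finset.card_filter] at h7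
  have hS : ∀ a ∈ A.filter fun a => ∃ r, 2 ≤ rootMultiplicity r (rho (t a) (β a) h),
      ∃ r k : F, rho (t a) (β a) h = C k * (X - C r) ^ 2 := by
    intro a ha
    obtain ⟨ha, r, hr⟩ := Finset.mem_filter.mp ha
    exact ⟨r, _, eq_leadingCoeff_mul_of_monic_of_dvd_of_natDegree_le ((monic_X_sub_C r).pow 2)
      ((le_rootMultiplicity_iff (G.ne a ha)).mp hr)
      (by rw [G.deg a ha, hd, natDegree_pow, natDegree_X_sub_C])⟩
  rw [hd] at h1
  have hw := G.wt
  rw [hd] at hw
  generalize hSd : (A.filter fun a => ∃ r, 2 ≤ rootMultiplicity r (rho (t a) (β a) h)) = S at hS h7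
  have hSA : S ⊆ A := hSd ▸ Finset.filter_subset _ _
  generalize hZd : (Finset.univ.filter fun p : F × F => ev p.1 p.2 h = 0) = Z at h3
  have hZ0 : ∀ z ∈ Z, ev z.1 z.2 h = 0 := fun z hz => by
    rw [← hZd] at hz
    exact (Finset.mem_filter.mp hz).2
  have hZ2 : 1 < Z.card := by omega
  have hfin : 2 * A.card ≤ 6 * D.natDegree + S.card + Z.card + 2 := by omega
  obtain ⟨e1, e0, d2, d1, d0, he⟩ := quad_form hm hd hw
  have hNL := NL_of_irr (he ▸ hirr)
  have hZ : ∀ z ∈ Z, Qd d2 e1 1 d1 e0 d0 z.1 z.2 = 0 := by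
    intro z hz
    have := hZ0 z hz
    rw [he] at this
    simp only [map_add, map_mul, map_pow, ev_C, ev_Y, aeval_C, aeval_X] at this
    unfold Qd
    simp only [Algebra.algebraMap_self, RingHom.id_apply] at this
    linear_combination this
  have hZc := NL_count hNL Z hZ
  obtain ⟨z, hz, z', hz', hzz⟩ := Finset.one_lt_card.mp hZ2
  have hD := Dl_of_NL h2 hNL (hZ z hz) (hZ z' hz') (by
    by_contra hc
    push Not at hc
    exact hzz (Prod.ext hc.1 hc.2))
  refine ⟨e1 ^ 2 - 4 * d2, 2 * e1 * d1 - 4 * e0 * d2, d1 ^ 2 - 4 * d0 * d2,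
    2 * e0 * e1 - 4 * d1, -2 * e0 * d1 + 4 * e1 * d0, e0 ^ 2 - 4 * d0, ?_, S, hSA, ?_, by omega⟩
  · intro h0
    apply mul_ne_zero (pow_ne_zero 4 h2) (pow_ne_zero 2 hD)
    unfold Dl at *
    linear_combination -h0
  · intro a ha
    obtain ⟨r, k, hc⟩ := hS a ha
    rw [he] at hc
    have v0 := congrArg (eval 0) hc
    have v1 := congrArg (eval 1) hc
    have v2 := congrArg (eval (-1)) hc
    simp only [eval_rho] at v0 v1 v2
    simp only [map_add, map_mul, map_pow, ev_C, ev_Y, aeval_C, aeval_X,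
      Algebra.algebraMap_self, RingHom.id_apply, eval_mul, eval_C, eval_pow, eval_sub,
      eval_X] at v0 v1 v2
    have w0 : d2 * t a ^ 2 + d1 * t a + d0 = k * r ^ 2 := by linear_combination v0
    have w1 : e1 * t a + e0 - 2 * d2 * t a * β a - d1 * β a = -2 * k * r := by
      apply mul_left_cancel₀ h2; linear_combination v1 - v2
    have w2 : 1 - e1 * β a + d2 * β a ^ 2 = k := by
      apply mul_left_cancel₀ h2; linear_combination v1 + v2 - 2 * v0
    have w3 : (e1 * t a + e0 - 2 * d2 * t a * β a - d1 * β a) ^ 2 -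
        4 * (1 - e1 * β a + d2 * β a ^ 2) * (d2 * t a ^ 2 + d1 * t a + d0) = 0 := by
      rw [w0, w1, w2]; ring
    unfold Qd
    linear_combination w3

end Pool.Agent.Work.MP_862369_co.Up
end

-- merged part: Pool.Agent.Work.MP_862369_co.UpCaseS
section
/-!
A linear factor of odd multiplicity in the numerator, and the case of two squares.
-/

open Polynomial
open scoped Polynomial.Bivariate

namespace Pool.Agent.Work.MP_862369_co.Up

variable {F : Type} [Field F] {ι : Type}

/-- Plan: loc with B = A.erase a0, f = D ^ 3 * (H1 * H2) where D = H2 * S2 ^ 2, and nothing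
kept. h is irreducible (monic of degree one), divides neither D (H.cop) nor H1 (hsq).
All factors are Good (Good.of_dvd). For hv: μ = 1 (at most the degree); with
x = xa A t β a r, Dat.val gives μ + (x - 1) ≤ 3 vD unless x = 1 and r ≠ 0, in which case
1 + v H1 + 2 v S1 = 2 + v H2 + 2 v S2, so v H1 + v H2 ≥ 1. -/
theorem caseLin [Fintype F] {A : Finset ι} {t β : ι → F} {h H1 S1 H2 S2 : F[X][Y]} {c : ι → F}
    (H : Dat A t β (h * H1 * S1 ^ 2) (H2 * S2 ^ 2) c) {a0 : ι} (ha0 : a0 ∈ A) (hβ0 : β a0 = 0)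
    (hm : h.Monic) (hd : h.natDegree = 1) (m1 : H1.Monic) (m2 : S1.Monic) (m3 : H2.Monic)
    (m4 : S2.Monic) (hsq : Squarefree (h * H1)) :
    A.card ≤ 1 + 4 * (H2 * S2 ^ 2).natDegree + (h * H1 * S1 ^ 2).natDegree := by
  classical
  have gh : Good A t β h := H.gN.of_dvd hm ⟨H1 * S1 ^ 2, by ring⟩
  have g1 : Good A t β H1 := H.gN.of_dvd m1 ⟨h * S1 ^ 2, by ring⟩
  have g2 : Good A t β S1 := H.gN.of_dvd m2 ⟨h * H1 * S1, by ring⟩
  have g3 : Good A t β H2 := H.gD.of_dvd m3 ⟨S2 ^ 2, rfl⟩
  have g4 : Good A t β S2 := H.gD.of_dvd m4 ⟨H2 * S2, by ring⟩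
  have c1 : IsRelPrime h (H2 * S2 ^ 2) := H.cop.of_mul_left_left.of_mul_left_left
  have sub : A.erase a0 ⊆ A := Finset.erase_subset _ _
  have key := loc hm hd (hd ▸ gh.wt) (Wt_mul (Wt_pow H.gD.wt 3) (Wt_mul g1.wt g3.wt))
    (c1.pow_right.mul_right ((IsRelPrime.of_squarefree_mul hsq).mul_right c1.of_mul_right_left))
    (A.erase a0) t β
    (fun a ha e => (Finset.mem_erase.1 ha).1 (H.hβ a (sub ha) a0 ha0 (e.trans hβ0.symm)))
    (fun a ha b hb => H.hβ a (sub ha) b (sub hb)) (fun a ha => gh.ne a (sub ha))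
    (fun a ha => (gh.deg a (sub ha)).trans hd)
    (fun a ha => ⟨_, gh.ne a (sub ha), Splits.of_natDegree_le_one
      ((gh.deg a (sub ha)).trans hd).le, dvd_mul_left _ _⟩) (fun _ _ => False)
    (fun a ha r _ hr => by
      have ha' := sub ha
      have v := H.val ha' r
      have n0 := gh.ne a ha'
      have n1 := g1.ne a ha'
      have n2 := g2.ne a ha'
      have n3 := g3.ne a ha'
      have n4 := g4.ne a ha'
      have u : rootMultiplicity r (rho (t a) (β a) h) ≤ 1 := by
        have := natDegree_le_of_dvd (pow_rootMultiplicity_dvd (rho (t a) (β a) h) r) n0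
        rwa [gh.deg a ha', hd, (monic_X_sub_C r).natDegree_pow, natDegree_X_sub_C, mul_one] at this
      have x1 := xa_mono sub t β a r
      have x2 := xa_pos t β ha' r
      simp only [map_mul, map_pow] at v ⊢
      rw [← le_rootMultiplicity_iff (by simp [n1, n3, n4])]
      rw [rootMultiplicity_mul (by simp [n0, n1, n2]), rootMultiplicity_mul (by simp [n0, n1]),
        rootMultiplicity_mul (by simp [n3, n4]), mult_pow n2, mult_pow n4] at v
      rw [rootMultiplicity_mul (by simp [n1, n3, n4]), mult_pow (by simp [n3, n4]),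
        rootMultiplicity_mul (by simp [n3, n4]), rootMultiplicity_mul (by simp [n1, n3]),
        mult_pow n4]
      unfold eE eU at v
      split_ifs at v <;> omega)
  have d1 : H1.natDegree ≤ (h * H1 * S1 ^ 2).natDegree :=
    natDegree_le_of_dvd ⟨h * S1 ^ 2, by ring⟩ H.gN.monic.ne_zero
  have d2 : H2.natDegree ≤ (H2 * S2 ^ 2).natDegree :=
    natDegree_le_of_dvd ⟨S2 ^ 2, rfl⟩ H.gD.monic.ne_zero
  have d3 := Finset.card_erase_add_one ha0
  simp only [Finset.filter_false, Finset.sum_empty, Finset.sum_const_zero] at key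
  omega

theorem upCaseS_root {P Q : F[X]} {c0 p : F} (hP : P ≠ 0) (hp : c0 * p ^ 2 ≠ 0)
    (h : C (c0 * p ^ 2) * P ^ 2 = Q ^ 2) : ∃ l, l ^ 2 = c0 ∧ C (l * p) * P = Q := by
  have e := congrArg leadingCoeff h
  simp only [leadingCoeff_mul, leadingCoeff_pow, leadingCoeff_C] at e
  have h1 : p ≠ 0 := fun z => hp (by simp [z])
  have h2 := leadingCoeff_ne_zero.2 hP
  have e1 : (Q.leadingCoeff / (p * P.leadingCoeff)) ^ 2 = c0 := by
    field_simp
    linear_combination -e
  generalize Q.leadingCoeff / (p * P.leadingCoeff) = l at e1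
  rw [← e1, ← mul_pow, C_pow, ← mul_pow] at h
  rcases sq_eq_sq_iff_eq_or_eq_neg.1 h with h | h
  · exact ⟨l, e1, h⟩
  · exact ⟨-l, by rw [neg_sq, e1], by rw [neg_mul, C_neg, neg_mul, h, neg_neg]⟩

theorem upCaseS_half {A : Finset ι} {l : ι → F} {c0 : F} (h : ∀ a ∈ A, l a ^ 2 = c0) :
    ∃ K ⊆ A, (∀ a ∈ K, ∀ b ∈ K, l a = l b) ∧ A.card ≤ 2 * K.card := by
  classical
  rcases A.eq_empty_or_nonempty with rfl | ⟨a0, h0⟩
  · exact ⟨∅, by simp⟩
  have e := Finset.card_filter_add_card_filter_not (s := A) fun a => l a = l a0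
  have n : ∀ a ∈ A.filter fun a => ¬ l a = l a0, l a = - l a0 := fun a ha =>
    (sq_eq_sq_iff_eq_or_eq_neg.1 ((h a (Finset.mem_filter.1 ha).1).trans
      (h a0 h0).symm)).resolve_left (Finset.mem_filter.1 ha).2
  rcases le_total (A.filter fun a => l a = l a0).card (A.filter fun a => ¬ l a = l a0).card
    with q | q
  · exact ⟨_, Finset.filter_subset _ _, fun a ha b hb => (n a ha).trans (n b hb).symm, by omega⟩
  · exact ⟨A.filter fun a => l a = l a0, Finset.filter_subset _ _, fun a ha b hb =>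
      (Finset.mem_filter.1 ha).2.trans (Finset.mem_filter.1 hb).2.symm, by omega⟩

/-- Plan: comparing leading coefficients in H.eq and using sq_eq_sq_iff_eq_or_eq_neg gives
l a with l a ^ 2 = c0 and C (l a * π a) * rho S1 * pw (eE a) = pw (eU a) * rho S2. If a b is an
ordinary secant of slope r and eval r (rho (t a) (β a) S2) ≠ 0, then l a = - l b (evaluate at
r, eval_rho, eval_pw_ne, xa_eq, hπ). As l takes at most two values there is K ⊆ A with
l constant on K and A.card ≤ 2 * K.card. For a ∈ K each b ∈ K.erase a, with slope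
r = sl t β a b, has xa ≥ 3 (at most ∑ r, eE a r such b, xa_erase) or xa = 2 and r is a root
of rho S2 (b ↦ r is injective on these, at most S2.natDegree of them). Sum over a ∈ K. -/
theorem caseSq [Fintype F] (h2 : (2 : F) ≠ 0) {A : Finset ι} {t β : ι → F} {S1 S2 : F[X][Y]}
    {c : ι → F} (H : Dat A t β (S1 ^ 2) (S2 ^ 2) c) (m2 : S1.Monic) (m4 : S2.Monic) (c0 : F)
    (π : ι → F) (hc : ∀ a ∈ A, c a = c0 * π a ^ 2)
    (hπ : ∀ a ∈ A, ∀ b ∈ A, b ≠ a → ∀ r, t b - β b * r = t a - β a * r → xa A t β a r = 2 →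
      π a * eval r (pw (eE A t β a)) * eval r (pw (eU A t β b)) =
        -(π b * eval r (pw (eE A t β b)) * eval r (pw (eU A t β a)))) :
    ∃ k : ℕ, A.card ≤ 2 * k ∧ k * k ≤ k + RR A t β + k * S2.natDegree := by
  classical
  have g2 : Good A t β S1 := H.gN.of_dvd m2 ⟨S1, sq _⟩
  have g4 : Good A t β S2 := H.gD.of_dvd m4 ⟨S2, sq _⟩
  have ex : ∀ a, ∃ l : F, a ∈ A → l ^ 2 = c0 ∧
      C (l * π a) * (rho (t a) (β a) S1 * pw (eE A t β a)) =
        pw (eU A t β a) * rho (t a) (β a) S2 := fun a => by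
    by_cases ha : a ∈ A
    · obtain ⟨l, hl⟩ := upCaseS_root (c0 := c0) (p := π a)
        (P := rho (t a) (β a) S1 * pw (eE A t β a)) (Q := pw (eU A t β a) * rho (t a) (β a) S2)
        (mul_ne_zero (g2.ne a ha) (pw_ne _)) (hc a ha ▸ H.cne a ha) (by
          have := H.eq a ha
          rw [hc a ha, map_pow (rho _ _), map_pow (rho _ _)] at this
          linear_combination this)
      exact ⟨l, fun _ => hl⟩
    · exact ⟨0, fun h => absurd h ha⟩
  choose l hl using ex
  obtain ⟨K, hK, k1, k2⟩ := upCaseS_half fun a ha => (hl a ha).1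
  have sec : ∀ a ∈ K, ∀ b ∈ K, b ≠ a → ∀ r, t b - β b * r = t a - β a * r → xa A t β a r = 2 →
      eval r (rho (t a) (β a) S2) = 0 := fun a ha b hb hab r hr hx => by
    have e1 := congrArg (eval r) (hl a (hK ha)).2
    have e2 := congrArg (eval r) (hl b (hK hb)).2
    have e3 := hπ a (hK ha) b (hK hb) hab r hr hx
    have u1 : eval r (pw (eU A t β a)) ≠ 0 := eval_pw_ne (by simp [eU, hx])
    have u2 : eval r (pw (eU A t β b)) ≠ 0 := eval_pw_ne (by simp [eU, xa_eq A hr, hx])
    simp only [eval_mul, eval_C, eval_rho, hr, k1 b hb a ha] at e1 e2 ⊢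
    refine (mul_eq_zero.1 ?_).resolve_left (mul_ne_zero h2 (mul_ne_zero u1 u2))
    linear_combination (-eval r (pw (eU A t β b))) * e1 - eval r (pw (eU A t β a)) * e2 +
      l a * ev (t a - β a * r) r S1 * e3
  have cnt : ∀ a ∈ K, K.card ≤ 1 + ∑ r, eE A t β a r + S2.natDegree := fun a ha => by
    have d := sum_mult_le (g4.ne a (hK ha))
    rw [g4.deg a (hK ha)] at d
    have e := Finset.card_eq_sum_card_fiberwise (f := sl t β a) (s := K.erase a)
      (t := Finset.univ) fun _ _ => Finset.mem_univ _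
    have f : ∀ r ∈ Finset.univ, ((K.erase a).filter fun b => sl t β a b = r).card ≤
        eE A t β a r + rootMultiplicity r (rho (t a) (β a) S2) := fun r _ => by
      have ln : ∀ b ∈ (K.erase a).filter fun b => sl t β a b = r,
          t b - β b * r = t a - β a * r := fun b hb => by
        obtain ⟨h1, rfl⟩ := Finset.mem_filter.1 hb
        obtain ⟨h1, h3⟩ := Finset.mem_erase.1 h1
        have : β a - β b ≠ 0 := fun z => h1 (H.hβ b (hK h3) a (hK ha) (sub_eq_zero.1 z).symm)
        unfold sl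
        field_simp
        ring
      have x1 := xa_erase t β (hK ha) r
      have x2 := Finset.card_le_card (s := (K.erase a).filter fun b => sl t β a b = r)
        (t := (A.erase a).filter fun c => t c - β c * r = t a - β a * r) fun b hb =>
        Finset.mem_filter.2 ⟨Finset.erase_subset_erase _ hK (Finset.mem_filter.1 hb).1, ln b hb⟩
      rcases ((K.erase a).filter fun b => sl t β a b = r).eq_empty_or_nonempty with z | ⟨b, hb⟩
      · simp [z]
      by_cases hx : xa A t β a r = 2
      · obtain ⟨h1, h3⟩ := Finset.mem_erase.1 (Finset.mem_filter.1 hb).1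
        have := (rootMultiplicity_pos (g4.ne a (hK ha))).2 (sec a ha b h3 h1 r (ln b hb) hx)
        omega
      · unfold eE
        split_ifs <;> omega
    have := Finset.sum_le_sum f
    rw [Finset.sum_add_distrib] at this
    have := Finset.card_erase_add_one ha
    omega
  refine ⟨K.card, k2, ?_⟩
  have s1 := Finset.sum_le_sum cnt
  have s2 : ∑ a ∈ K, ∑ r, eE A t β a r ≤ RR A t β := Finset.sum_le_sum_of_subset hK
  simp only [Finset.sum_add_distrib, Finset.sum_const, smul_eq_mul, mul_one] at s1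
  omega

end Pool.Agent.Work.MP_862369_co.Up
end

-- merged part: Pool.Agent.Work.MP_862369_co.UpJet
section
/-!
Jets at a point, and the envelope for point sets with rich lines.
-/

open Polynomial
open scoped Polynomial.Bivariate

namespace Pool.Agent.Work.MP_862369_co.Up

variable {F : Type} [Field F] {ι : Type}

theorem upjet_coeff (p : F[X][Y]) (n i : ℕ) :
    ((ev (-(C X * Y) : F[X][Y]) Y p).coeff n).coeff i =
      if i ≤ n then (-1) ^ i * (p.coeff (n - i)).coeff i else 0 := by
  induction p using Polynomial.induction_on' with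
  | add p q hp hq =>
    simp only [map_add, coeff_add, hp, hq]
    split_ifs <;> ring
  | monomial k a =>
    induction a using Polynomial.induction_on' with
    | add p q hp hq =>
      simp only [map_add, coeff_add, hp, hq]
      split_ifs <;> ring
    | monomial j a =>
      have h : ev (-(C X * Y) : F[X][Y]) Y (monomial k (monomial j a)) =
          monomial (j + k) (monomial j ((-1) ^ j * a)) := by
        simp only [← C_mul_X_pow_eq_monomial, map_mul, map_pow, ev_C, ev_Y, aeval_C, aeval_X,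
          map_neg, map_one, Polynomial.algebraMap_apply, Algebra.algebraMap_self, RingHom.id_apply]
        ring
      rw [h, coeff_monomial, coeff_monomial, apply_ite (coeff · i), apply_ite (coeff · i),
        coeff_monomial, coeff_monomial, coeff_zero]
      by_cases h4 : j = i
      · subst h4
        split_ifs <;> first | omega | simp
      · simp [h4]

theorem upjet_der (u0 r0 : F) (p : F[X][Y]) :
    ev (C (C u0 + X) : F[X][Y]) (C (C r0) + Y) (derivative p) =
      derivative (ev (C (C u0 + X) : F[X][Y]) (C (C r0) + Y) p) := by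
  have h : ∀ a : F[X], aeval (C (C u0 + X) : F[X][Y]) a = C (aeval (C u0 + X) a) := fun a =>
    aeval_algHom_apply (CAlgHom : F[X] →ₐ[F] F[X][Y]) _ a
  induction p using Polynomial.induction_on' with
  | add p q hp hq => rw [derivative_add, map_add, hp, hq, map_add _ p q, derivative_add]
  | monomial k a =>
    simp only [← C_mul_X_pow_eq_monomial, derivative_mul, derivative_C, derivative_pow, map_mul,
      map_pow, ev_C, ev_Y, h, derivative_add, derivative_X, zero_mul, zero_add, mul_one,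
      map_natCast]

theorem upjet_iff (u0 r0 b : F) (m : ℕ) (p : F[X][Y]) :
    (X - C r0) ^ m ∣ rho (u0 + b * r0) b p ↔ ∀ n < m, eval b ((ev (-(C X * Y) : F[X][Y]) Y
      (ev (C (C u0 + X) : F[X][Y]) (C (C r0) + Y) p)).coeff n) = 0 := by
  have h : (rho (u0 + b * r0) b p).comp (X + C r0) = (ev (-(C X * Y) : F[X][Y]) Y
      (ev (C (C u0 + X) : F[X][Y]) (C (C r0) + Y) p)).map (evalRingHom b) := by
    rw [← ev_CX, hom_ev, hom_ev, comp_eq_aeval, rho, hom_ev]
    congr 1
    congr 1 <;> simp <;> ring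
  simp only [X_sub_C_pow_dvd_iff, h, X_pow_dvd_iff, coeff_map, coe_evalRingHom]

/-- If φ vanishes to order c at (u0, r0) along c lines then it does so along every line,
and its derivative vanishes to order c - 1.
Plan: translate, φ' = ev (C (C u0 + X)) (C (C r0) + Y) φ. Then
(rho (u0 + b * r0) b φ).comp (X + C r0) = ev (-(C b * X)) X φ' (hom_ev), whose coefficient
of index k is ∑ i ≤ k, (φ'.coeff (k - i)).coeff i * (-b) ^ i (ev_sum). For k < c this is
a polynomial in b of degree less than c with c roots, so all coefficients of φ' of total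
degree less than c vanish. Translation commutes with derivative. Use X_pow_dvd_iff and
X_sub_C_pow_dvd_iff (or taylor). -/
theorem jet {φ : F[X][Y]} {u0 r0 : F} {c : ℕ} (S : Finset F) (hS : c ≤ S.card)
    (h : ∀ b ∈ S, (X - C r0) ^ c ∣ rho (u0 + b * r0) b φ) (b : F) :
    (X - C r0) ^ c ∣ rho (u0 + b * r0) b φ ∧
      (X - C r0) ^ (c - 1) ∣ rho (u0 + b * r0) b (derivative φ) := by
  simp only [upjet_iff, upjet_der] at h ⊢
  generalize ev (C (C u0 + X) : F[X][Y]) (C (C r0) + Y) φ = p at h ⊢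
  have h1 : ∀ n < c, (ev (-(C X * Y) : F[X][Y]) Y p).coeff n = 0 := fun n hn =>
    eq_zero_of_natDegree_lt_card_of_eval_eq_zero' _ S (fun b hb => h b hb n hn)
      ((natDegree_le_iff_coeff_eq_zero.2 fun i hi => by
        rw [upjet_coeff, if_neg hi.not_ge]).trans_lt (hn.trans_le hS))
  refine ⟨fun n hn => by rw [h1 n hn, eval_zero], fun n hn => ?_⟩
  rw [show (ev (-(C X * Y) : F[X][Y]) Y (derivative p)).coeff n = 0 from ?_, eval_zero]
  ext i
  have h2 := upjet_coeff p (n + 1) i
  rw [h1 _ (by omega), coeff_zero] at h2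
  rw [upjet_coeff, coeff_zero]
  split_ifs with hi
  · rw [if_pos (by omega), show n + 1 - i = n - i + 1 by omega] at h2
    rw [coeff_derivative, ← Nat.cast_succ, coeff_mul_natCast, ← mul_assoc, ← h2, zero_mul]
  · rfl

/-- Newton interpolation along lines.
Plan: induction on A (the hypotheses pass to subsets by xa_mono). Let φ work for A' and
add a. Put l b = C X + β b • Y - t b • 1 (degree one, rho (t b) (β b) (l b) = 0),
L = ∏ b ∈ A', l b, of total degree A'.card. rho (t a) (β a) (l b) is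
C (β b - β a) * (X - C (sl t β a b)), so rho (t a) (β a) L is a nonzero constant times
pw k, k r the number of b ∈ A' with t b - β b r = t a - β a r, of degree A'.card. It
divides f a - rho φ by pw_dvd: k r = 1 by hs and eval_rho; k r ≥ 2 by hr for a, and
hr for the k r points b together with jet (xa_eq, xa_erase). If the quotient s is
zero keep φ, otherwise s.natDegree + A'.card ≤ n; take φ + L * s.map C. -/
theorem envelope2 [Fintype F] (A : Finset ι) (t β : ι → F)
    (hβ : ∀ a ∈ A, ∀ b ∈ A, β a = β b → a = b) {n : ℕ} (f : ι → F[X])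
    (hd : ∀ a ∈ A, (f a).natDegree ≤ n)
    (hs : ∀ a ∈ A, ∀ b ∈ A, ∀ r, t b - β b * r = t a - β a * r → eval r (f a) = eval r (f b))
    (hr : ∀ a ∈ A, ∀ r, (X - C r) ^ eE A t β a r ∣ f a) :
    ∃ φ : F[X][Y], Wt n φ ∧ ∀ a ∈ A, rho (t a) (β a) φ = f a := by
  classical
  induction A using Finset.induction_on with
  | empty => exact ⟨0, fun k i h => by simp at h, by simp⟩
  | insert a A ha ih =>
    have hm : ∀ b ∈ A, b ∈ insert a A := fun b => Finset.mem_insert_of_mem
    have ha' := Finset.mem_insert_self a A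
    obtain ⟨φ, hw, hφ⟩ := ih (fun b hb c hc => hβ b (hm b hb) c (hm c hc))
      (fun b hb => hd b (hm b hb)) (fun b hb c hc => hs b (hm b hb) c (hm c hc))
      fun b hb r => (pow_dvd_pow _ (eE_mono (Finset.subset_insert a A) t β b r)).trans
        (hr b (hm b hb) r)
    have hne : ∀ b ∈ A, β a - β b ≠ 0 := fun b hb h =>
      ha (hβ a ha' b (hm b hb) (sub_eq_zero.1 h) ▸ hb)
    let l : ι → F[X][Y] := fun c => C X + β c • Y - t c • 1
    have hlm : ∀ c, l c ∈ EE F (C X : F[X][Y]) Y 1 := fun c => by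
      refine sub_mem (add_mem ?_ (Submodule.smul_mem _ _ ?_))
        (Submodule.smul_mem _ _ (one_mem_EE _ _ _))
      · simpa using mon_mem (F := F) (C X : F[X][Y]) Y (d := 1) (i := 1) (k := 0) le_rfl
      · simpa using mon_mem (F := F) (C X : F[X][Y]) Y (d := 1) (i := 0) (k := 1) le_rfl
    have hprod : ∀ s : Finset ι, ∏ c ∈ s, l c ∈ EE F (C X : F[X][Y]) Y s.card := fun s => by
      induction s using Finset.induction_on with
      | empty => simpa using one_mem_EE (F := F) (C X : F[X][Y]) Y 0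
      | insert a s ha ih =>
        rw [Finset.prod_insert ha, Finset.card_insert_of_notMem ha, add_comm]
        exact EE_mul _ _ (hlm a) ih
    have hl : ∀ b c, rho (t b) (β b) (l c) = C (t b - t c) - C (β b - β c) * X := fun b c => by
      simp [l, rho, smul_eq_C_mul]
      ring
    have hL : rho (t a) (β a) (∏ c ∈ A, l c) =
        C (∏ c ∈ A, -(β a - β c)) * ∏ c ∈ A, (X - C (sl t β a c)) := by
      rw [map_prod, map_prod, ← Finset.prod_mul_distrib]
      refine Finset.prod_congr rfl fun c hc => ?_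
      rw [hl, mul_sub, ← map_mul, sl, neg_mul, mul_div_cancel₀ _ (hne c hc), map_neg, map_neg]
      ring
    have hκ : ∏ c ∈ A, -(β a - β c) ≠ 0 :=
      Finset.prod_ne_zero_iff.2 fun c hc => neg_ne_zero.2 (hne c hc)
    have hdv : ∏ c ∈ A, (X - C (sl t β a c)) ∣ f a - rho (t a) (β a) φ := by
      rw [← Finset.prod_fiberwise' A (sl t β a) fun r => X - C r]
      simp only [Finset.prod_const]
      refine pw_dvd (e := fun r => (A.filter fun c => sl t β a c = r).card) fun r => ?_
      have e : (A.filter fun c => sl t β a c = r) =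
          A.filter fun c => t c - β c * r = t a - β a * r :=
        Finset.filter_congr fun c hc => by
          rw [sl, div_eq_iff (hne c hc)]
          constructor <;> intro h <;> linear_combination -h
      have h1 := xa_erase t β ha' r
      rw [Finset.erase_insert ha] at h1
      rw [e]
      set B := A.filter fun c => t c - β c * r = t a - β a * r with hB
      rcases lt_trichotomy B.card 1 with h | h | h
      · rw [Nat.lt_one_iff.1 h, pow_zero]
        exact one_dvd _
      · obtain ⟨b, hb⟩ := Finset.card_pos.1 (h.ge.trans_lt' one_pos)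
        obtain ⟨h2, h3⟩ := Finset.mem_filter.1 hb
        rw [h, pow_one, dvd_iff_isRoot, IsRoot, eval_sub, hs a ha' b (hm b h2) r h3, ← hφ b h2,
          eval_rho, eval_rho, h3, sub_self]
      · have h2 : eE (insert a A) t β a r = B.card := by
          rw [eE, if_pos (by omega)]
          omega
        refine dvd_sub (h2 ▸ hr a ha' r) ?_
        have h3 := (jet (φ := φ) (u0 := t a - β a * r) (r0 := r) (c := B.card) (B.image β)
          (Finset.card_image_of_injOn fun b hb c hc => hβ b (hm b (Finset.mem_filter.1 hb).1) c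
            (hm c (Finset.mem_filter.1 hc).1)).ge (fun b hb => ?_) (β a)).1
        · rwa [sub_add_cancel] at h3
        · obtain ⟨b, hb', rfl⟩ := Finset.mem_image.1 hb
          obtain ⟨h4, h5⟩ := Finset.mem_filter.1 hb'
          rw [← h5, sub_add_cancel, hφ b h4, ← h2, eE, ← xa_eq _ h5]
          exact hr b (hm b h4) r
    obtain ⟨s, hs'⟩ := hdv
    by_cases h0 : s = 0
    · refine ⟨φ, hw, Finset.forall_mem_insert _ _ _ |>.2 ⟨?_, hφ⟩⟩
      rw [h0, mul_zero] at hs'
      exact (sub_eq_zero.1 hs').symm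
    have hdeg : A.card + s.natDegree ≤ n := by
      rw [← natDegree_finsetProd_X_sub_C_eq_card A (sl t β a), ← natDegree_mul
        (monic_prod_of_monic _ _ fun c _ => monic_X_sub_C _).ne_zero h0, ← hs']
      exact (natDegree_sub_le _ _).trans (max_le (hd a ha') (natDegree_rho hw _ _))
    refine ⟨φ + (∏ c ∈ A, -(β a - β c))⁻¹ • ((∏ c ∈ A, l c) * aeval (Y : F[X][Y]) s),
      Wt_of_mem (add_mem (mem_of_Wt hw) (Submodule.smul_mem _ _ (EE_mono _ _ hdeg
        (EE_mul _ _ (hprod A) ?_)))), Finset.forall_mem_insert _ _ _ |>.2 ⟨?_, fun b hb => ?_⟩⟩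
    · rw [aeval_eq_sum_range]
      refine Submodule.sum_mem _ fun k hk => Submodule.smul_mem _ _ ?_
      simpa using mon_mem (F := F) (C X : F[X][Y]) Y (d := s.natDegree) (i := 0) (k := k)
        (by have := Finset.mem_range.1 hk; omega)
    · rw [map_add, map_smul, map_mul, hL, ← aeval_algHom_apply, rho, ev_Y, aeval_X_left_apply,
        mul_assoc, ← hs', smul_eq_C_mul, ← mul_assoc, ← map_mul, inv_mul_cancel₀ hκ, map_one,
        one_mul, rho, add_sub_cancel]
    · rw [map_add, map_smul, map_mul, map_prod, Finset.prod_eq_zero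
        (f := fun c => rho (t b) (β b) (l c)) hb (by simp [hl]), zero_mul, smul_zero, add_zero,
        hφ b hb]

end Pool.Agent.Work.MP_862369_co.Up
end

-- merged part: Pool.Agent.Work.MP_862369_co.UpSing
section
/-!
Multiplicities of the rational points of a reduced plane curve.
-/

open Polynomial
open scoped Polynomial.Bivariate

namespace Pool.Agent.Work.MP_862369_co.Up

variable {F : Type} [Field F] {ι : Type}

/-- Plan: if a non-unit divides both, so does a monic irreducible g of degree k with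
0 < k ≤ h.natDegree (normalise the leading coefficient, it is a unit since h is monic).
With h = g * s we get g ∣ derivative g * s; g is prime and does not divide s, so
g ∣ derivative g, derivative g = 0 by degrees, but its coefficient of index k - 1 is k. -/
theorem relprime_deriv {h : F[X][Y]} (hm : h.Monic) (hsq : Squarefree h)
    (hk : ∀ k : ℕ, 0 < k → k ≤ h.natDegree → (k : F) ≠ 0) : IsRelPrime h (derivative h) := by
  refine (UniqueFactorizationMonoid.isRelPrime_iff_no_prime_factors hm.ne_zero).2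
    fun g hg hg' hp => ?_
  have h0 := natDegree_pos_of_not_isUnit_of_dvd_monic hm hp.not_isUnit hg
  have h1 := natDegree_le_of_dvd hg hm.ne_zero
  obtain ⟨s, rfl⟩ := hg
  rw [derivative_mul, dvd_add_left (dvd_mul_right _ _)] at hg'
  rcases hp.dvd_or_dvd hg' with h2 | h2
  · obtain ⟨k, hk'⟩ := Nat.exists_eq_add_one_of_ne_zero h0.ne'
    have h3 := coeff_derivative g k
    rw [eq_zero_of_dvd_of_natDegree_lt h2 (natDegree_derivative_lt h0.ne'), coeff_zero, eq_comm,
      ← hk', ← Nat.cast_succ, Nat.succ_eq_add_one, ← hk', coeff_natDegree, mul_eq_zero,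
      leadingCoeff_eq_zero, ← C_eq_natCast, C_eq_zero] at h3
    exact h3.elim hp.ne_zero (hk _ h0 h1)
  · exact hp.not_isUnit (hsq g (mul_dvd_mul_left g h2))

theorem UpSing_nu {h : F[X][Y]} (hm : h.Monic) (u r : F) :
    ∃ ν ≤ h.natDegree, (∀ b, (X - C r) ^ ν ∣ rho (u + b * r) b h) ∧
      ¬ ∀ b, (X - C r) ^ (ν + 1) ∣ rho (u + b * r) b h := by
  have h1 : ∀ ν, (∀ b, (X - C r) ^ ν ∣ rho (u + b * r) b h) → ν ≤ h.natDegree := fun ν hν => by
    have := hν 0
    rw [rho, map_zero, zero_mul, zero_mul, sub_zero, ev_CX] at this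
    simpa [hm.natDegree_map] using natDegree_le_of_dvd this (hm.map _).ne_zero
  by_contra! h2
  have h3 : ∀ ν, ∀ b, (X - C r) ^ ν ∣ rho (u + b * r) b h := fun ν => by
    induction ν with
    | zero => simp
    | succ ν ih => exact h2 ν (h1 ν ih) ih
  exact (h1 _ (h3 (_ + 1))).not_gt (Nat.lt_succ_self _)

open Classical in
/-- Plan: ν u r is the least c such that (X - C r) ^ (c + 1) does not divide
rho (u + b r) b h for all b; for b = 0 this restriction is monic of degree m (ev_CX), so
ν ≤ m. The second claim is jet with c = ν + 1. For the first claim fix u; for each r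
choose ν - 1 values b ≠ 0 outside the exceptional set (there are at least q - 1 - ν); on
these lines the restriction of h is nonzero with multiplicity exactly ν, and the restriction of
f = derivative h ^ 2 vanishes to order 2 ν - 2 (jet with S = univ). Apply loc_pt with index
type F × F (pairs (r, b), t = u + b r): (X - C u) ^ (∑ r, ν (ν - 1)) divides
resultant h f, which is nonzero (res_ne, IsRelPrime.pow_right) of degree at most m (2 m)
(res_deg, Wt_derivative, Wt_pow). Conclude with pw_dvd, pw_natDegree. -/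
theorem sing [Fintype F] {h : F[X][Y]} {m : ℕ} (hm : h.Monic) (hd : h.natDegree = m)
    (hw : Wt m h) (hc : IsRelPrime h (derivative h)) (hq : 2 * m ≤ Fintype.card F) :
    ∃ ν : F → F → ℕ, ∑ u, ∑ r, ν u r * (ν u r - 1) ≤ 2 * m ^ 2 ∧ ∀ u r,
      (Finset.univ.filter fun b => (X - C r) ^ (ν u r + 1) ∣ rho (u + b * r) b h).card ≤ ν u r := by
  choose ν h1 h2 h3 using UpSing_nu hm
  have h4 : ∀ u r, (Finset.univ.filter fun b =>
      (X - C r) ^ (ν u r + 1) ∣ rho (u + b * r) b h).card ≤ ν u r := fun u r =>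
    not_lt.1 fun hlt => h3 u r fun b => (jet _ hlt (fun b hb => (Finset.mem_filter.1 hb).2) b).1
  refine ⟨ν, ?_, h4⟩
  have h5 : ∀ u r, ∃ S : Finset F, S.card = ν u r - 1 ∧
      ∀ b ∈ S, b ≠ 0 ∧ ¬ (X - C r) ^ (ν u r + 1) ∣ rho (u + b * r) b h := fun u r => by
    obtain ⟨S, hS, hS'⟩ := Finset.exists_subset_card_eq (n := ν u r - 1) (s := (insert 0
      (Finset.univ.filter fun b => (X - C r) ^ (ν u r + 1) ∣ rho (u + b * r) b h))ᶜ) (by
        have := h1 u r
        have := (Finset.card_insert_le 0 _).trans (Nat.succ_le_succ (h4 u r))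
        rw [Finset.card_compl]
        omega)
    exact ⟨S, hS', fun b hb => by simpa using hS hb⟩
  choose S hS hS' using h5
  have hr := res_ne hm (hc.pow_right (n := 2))
  have hdeg := res_deg hd hw (Wt_pow (Wt_derivative hw) 2)
  rw [← pw_natDegree]
  refine (natDegree_le_of_dvd (pw_dvd fun u => ?_) hr).trans (hdeg.trans_eq (by ring))
  have hB : ∀ a ∈ Finset.univ.sigma (S u), a.2 ∈ S u a.1 := fun a ha => (Finset.mem_sigma.1 ha).2
  have hne : ∀ a ∈ Finset.univ.sigma (S u), rho (u + a.2 * a.1) a.2 h ≠ 0 := fun a ha h0 =>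
    (hS' u _ _ (hB a ha)).2 (h0 ▸ dvd_zero _)
  have hmu : ∀ a ∈ Finset.univ.sigma (S u),
      rootMultiplicity a.1 (rho (u + a.2 * a.1) a.2 h) = ν u a.1 := fun a ha =>
    le_antisymm ((rootMultiplicity_le_iff (hne a ha) _ _).2 (hS' u _ _ (hB a ha)).2)
      ((le_rootMultiplicity_iff (hne a ha)).2 (h2 ..))
  have := loc_pt (f := derivative h ^ 2) hm (Finset.univ.sigma (S u)) (fun a => u + a.2 * a.1)
    (fun a => a.2) (fun a ha => (hS' u _ _ (hB a ha)).1) (fun a ha b _ e e' => ?_) u (fun a => a.1)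
    (fun a _ => add_sub_cancel_right ..) hne fun a ha => ?_
  · rw [Finset.sum_congr rfl hmu, Finset.sum_sigma] at this
    simpa only [Finset.sum_const, hS, smul_eq_mul, mul_comm] using this
  · rw [← e', add_right_inj] at e
    exact Sigma.ext (mul_left_cancel₀ (hS' u _ _ (hB a ha)).1 e) (heq_of_eq e')
  · have h6 := (jet (c := ν u a.1) Finset.univ ((h1 ..).trans (by
      rw [Finset.card_univ]; omega)) (fun b _ => h2 u a.1 b) a.2).2
    rw [map_pow, hmu a ha]
    refine (pow_dvd_pow _ ?_).trans ((pow_mul _ _ 2).dvd.trans (pow_dvd_pow_of_dvd h6 2))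
    have h7 := Finset.card_erase_add_one (hB a ha)
    rw [hS] at h7
    refine (Nat.add_le_add_left (Finset.card_le_card_of_injOn (t := (S u a.1).erase a.2)
      (fun b => b.2) (fun b hb => ?_) fun b hb b' hb' e => ?_) _).trans (by omega)
    · simp only [Finset.mem_coe, Finset.mem_filter, Finset.mem_erase (s := Finset.sigma _ _)] at hb
      obtain ⟨⟨hb', hb⟩, e⟩ := hb
      exact Finset.mem_erase.2 ⟨fun e' => hb' (Sigma.ext e (heq_of_eq e')), e ▸ hB b hb⟩
    · exact Sigma.ext ((Finset.mem_filter.1 hb).2.trans (Finset.mem_filter.1 hb').2.symm)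
        (heq_of_eq e)

end Pool.Agent.Work.MP_862369_co.Up
end

-- merged part: Pool.Agent.Work.MP_862369_co.UpPole
section
/-!
Poles of odd multiplicity.
-/

open Polynomial
open scoped Polynomial.Bivariate

namespace Pool.Agent.Work.MP_862369_co.Up

variable {F : Type} [Field F] {ι : Type}

open Classical in
theorem fibre_UpPole [Fintype F] {A : Finset ι} {t β : ι → F}
    (hβ : ∀ a ∈ A, ∀ b ∈ A, β a = β b → a = b) {h : F[X][Y]}
    (hne : ∀ a ∈ A, rho (t a) (β a) h ≠ 0)
    (hev : ∀ a ∈ A, ∀ r, Even (rootMultiplicity r (rho (t a) (β a) h))) (u r : F) (n : ℕ)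
    (hν : (Finset.univ.filter fun b => (X - C r) ^ (n + 1) ∣ rho (u + b * r) b h).card ≤ n) :
    ∑ a ∈ A.filter (fun a => t a - β a * r = u),
      (if 3 ≤ xa A t β a r ∧ rootMultiplicity r (rho (t a) (β a) h) ≤ 4 * xa A t β a r then
        rootMultiplicity r (rho (t a) (β a) h) else 0) ≤
      5 * ((if 3 ≤ xx A t β u r then xx A t β u r else 0) * (if 2 ≤ n then n else 0)) := by
  set S := A.filter (fun a => t a - β a * r = u) with hS
  have hcard : S.card = xx A t β u r := by rw [hS, xx]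
  have hxa : ∀ a ∈ S, xa A t β a r = xx A t β u r := fun a ha => by
    rw [xa, (Finset.mem_filter.mp ha).2]
  set x := xx A t β u r with hx
  have hbig : (S.filter fun a => n < rootMultiplicity r (rho (t a) (β a) h)).card ≤ n := by
    refine le_trans (Finset.card_le_card_of_injOn β ?_ ?_) hν
    · intro a ha
      rw [Finset.mem_coe, Finset.mem_filter, hS, Finset.mem_filter] at ha
      rw [Finset.mem_coe, Finset.mem_filter]
      refine ⟨Finset.mem_univ _, ?_⟩
      have e : u + β a * r = t a := by rw [← ha.1.2]; ring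
      rw [e]
      exact (le_rootMultiplicity_iff (hne a ha.1.1)).mp ha.2
    · intro a ha b hb hab
      rw [Finset.mem_coe, Finset.mem_filter, hS, Finset.mem_filter] at ha hb
      exact hβ a ha.1.1 b hb.1.1 hab
  by_cases h3 : 3 ≤ x
  swap
  · rw [Finset.sum_eq_zero fun a ha => if_neg (by rw [hxa a ha]; exact fun h' => h3 h'.1)]
    exact Nat.zero_le _
  by_cases h2 : 2 ≤ n
  · rw [if_pos h3, if_pos h2]
    have e1 : ∀ a ∈ S, (if 3 ≤ xa A t β a r ∧
        rootMultiplicity r (rho (t a) (β a) h) ≤ 4 * xa A t β a r then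
        rootMultiplicity r (rho (t a) (β a) h) else 0) ≤
        n + (if n < rootMultiplicity r (rho (t a) (β a) h) then 4 * x else 0) := by
      intro a ha
      rw [hxa a ha]
      split_ifs <;> omega
    refine (Finset.sum_le_sum e1).trans ?_
    rw [Finset.sum_add_distrib, ← Finset.sum_filter, Finset.sum_const, Finset.sum_const,
      smul_eq_mul, smul_eq_mul, hcard]
    have := Nat.mul_le_mul_right (4 * x) hbig
    nlinarith
  · refine le_trans (le_of_eq (Finset.sum_eq_zero fun a ha => ?_)) (Nat.zero_le _)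
    split_ifs with hc
    swap
    · rfl
    by_contra h0
    have haA := Finset.mem_filter.mp ha
    have r0 : eval r (rho (t a) (β a) h) = 0 :=
      (rootMultiplicity_pos (hne a haA.1)).mp (Nat.pos_of_ne_zero h0)
    rw [eval_rho, haA.2] at r0
    have hall : S.filter (fun a => n < rootMultiplicity r (rho (t a) (β a) h)) = S := by
      refine Finset.filter_true_of_mem fun b hb => ?_
      have hbA := Finset.mem_filter.mp hb
      have p1 : 0 < rootMultiplicity r (rho (t b) (β b) h) :=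
        (rootMultiplicity_pos (hne b hbA.1)).mpr (by rw [IsRoot, eval_rho, hbA.2, r0])
      obtain ⟨k, hk⟩ := hev b hbA.1 r
      omega
    rw [hall, hcard] at hbig
    omega

open Classical in
/-- Plan: rewrite the left side as a sum over (u, r) of the sum over the a ∈ A with
t a - β a r = u (Finset.sum_fiberwise). Fix (u, r) with x = xx A t β u r ≥ 3. At most ν of
these a have μ > ν (hν, β is injective), so the inner sum is at most x ν + 4 x ν. If it is
nonzero then ev u r h = 0, all x ≥ 3 multiplicities are positive and even, so ν ≥ 2. Then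
Cauchy-Schwarz (Finset.sum_mul_sq_le_sq_mul_sq) over the pairs with x ≥ 3, ν ≥ 2:
2 x ^ 2 ≤ 3 x (x - 1), ν ^ 2 ≤ 2 ν (ν - 1), and RR = ∑ u, ∑ r, x * (if 3 ≤ x then x - 1 else 0)
by sum_flags. So 25 K ^ 2 ≤ 49 ρ ^ 2 m ^ 2 for K = ∑ x ν. -/
theorem pole_sum [Fintype F] {A : Finset ι} {t β : ι → F}
    (hβ : ∀ a ∈ A, ∀ b ∈ A, β a = β b → a = b) {h : F[X][Y]} {m ρ : ℕ}
    (hne : ∀ a ∈ A, rho (t a) (β a) h ≠ 0)
    (hev : ∀ a ∈ A, ∀ r, Even (rootMultiplicity r (rho (t a) (β a) h))) (ν : F → F → ℕ)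
    (hs : ∑ u, ∑ r, ν u r * (ν u r - 1) ≤ 2 * m ^ 2)
    (hν : ∀ u r, (Finset.univ.filter fun b =>
      (X - C r) ^ (ν u r + 1) ∣ rho (u + b * r) b h).card ≤ ν u r)
    (hR : 4 * RR A t β ≤ ρ ^ 2) :
    ∑ a ∈ A, ∑ r ∈ Finset.univ.filter (fun r => 3 ≤ xa A t β a r ∧
      rootMultiplicity r (rho (t a) (β a) h) ≤ 4 * xa A t β a r),
      rootMultiplicity r (rho (t a) (β a) h) ≤ m * (7 * ρ) := by
  have hRR : RR A t β = ∑ u, ∑ r, xx A t β u r *
      (if 3 ≤ xx A t β u r then xx A t β u r - 1 else 0) :=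
    sum_flags A t β fun u r => if 3 ≤ xx A t β u r then xx A t β u r - 1 else 0
  let f : F × F → ℕ := fun z => if 3 ≤ xx A t β z.1 z.2 then xx A t β z.1 z.2 else 0
  let g : F × F → ℕ := fun z => if 2 ≤ ν z.1 z.2 then ν z.1 z.2 else 0
  have h1 : ∑ a ∈ A, ∑ r ∈ Finset.univ.filter (fun r => 3 ≤ xa A t β a r ∧
      rootMultiplicity r (rho (t a) (β a) h) ≤ 4 * xa A t β a r),
      rootMultiplicity r (rho (t a) (β a) h) ≤ 5 * ∑ z : F × F, f z * g z := by
    simp only [Finset.sum_filter]
    rw [Finset.sum_comm, Fintype.sum_prod_type_right, Finset.mul_sum]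
    refine Finset.sum_le_sum fun r _ => ?_
    rw [← Finset.sum_fiberwise (s := A) (g := fun a => t a - β a * r), Finset.mul_sum]
    exact Finset.sum_le_sum fun u _ => fibre_UpPole hβ hne hev u r (ν u r) (hν u r)
  have h2 : 2 * ∑ z : F × F, f z ^ 2 ≤ 3 * RR A t β := by
    rw [hRR, ← Fintype.sum_prod_type', Finset.mul_sum, Finset.mul_sum]
    refine Finset.sum_le_sum fun z _ => ?_
    simp only [f]
    split_ifs with h3
    · obtain ⟨k, hk⟩ := Nat.exists_eq_add_of_le h3
      rw [hk, show 3 + k - 1 = k + 2 by omega]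
      nlinarith
    · simp
  have h3 : ∑ z : F × F, g z ^ 2 ≤ 2 * ∑ u, ∑ r, ν u r * (ν u r - 1) := by
    rw [← Fintype.sum_prod_type', Finset.mul_sum]
    refine Finset.sum_le_sum fun z _ => ?_
    simp only [g]
    split_ifs with h3
    · obtain ⟨k, hk⟩ := Nat.exists_eq_add_of_le h3
      rw [hk, show 2 + k - 1 = k + 1 by omega]
      nlinarith
    · simp
  have h4 := Finset.sum_mul_sq_le_sq_mul_sq Finset.univ f g
  refine h1.trans ?_
  generalize ∑ z : F × F, f z * g z = K at *
  generalize ∑ z : F × F, f z ^ 2 = P at *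
  generalize ∑ z : F × F, g z ^ 2 = Q at *
  have h5 : Q ≤ 4 * m ^ 2 := by omega
  have h6 : 8 * P ≤ 3 * ρ ^ 2 := by omega
  have h7 := Nat.mul_le_mul h6 h5
  refine Nat.pow_le_pow_iff_left (n := 2) (by norm_num) |>.mp ?_
  nlinarith [Nat.zero_le (ρ ^ 2 * m ^ 2)]

/-- Plan: loc for H2 with B = A.erase a0, f = N ^ 3, N = S1 ^ 2, kept as in pole_sum.
For hs: rho H2 ∣ rho D ∣ rho N * pw (eE a) ^ 2 up to a constant by H.eq. For hv use
Dat.val and μ ≤ vD. Evenness: vN = 2 v S1, vD = μ + 2 v S2 and Dat.val. Get ν from sing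
and relprime_deriv (cast_inj). Cancel the factor H2.natDegree. -/
theorem casePole [Fintype F] (hp : (Fintype.card F).Prime) {A : Finset ι} {t β : ι → F}
    {S1 H2 S2 : F[X][Y]} {c : ι → F} (H : Dat A t β (S1 ^ 2) (H2 * S2 ^ 2) c) {a0 : ι}
    (ha0 : a0 ∈ A) (hβ0 : β a0 = 0) (m2 : S1.Monic) (m3 : H2.Monic) (m4 : S2.Monic)
    (hsq : Squarefree H2) (hpos : 0 < H2.natDegree) (hq : 2 * H2.natDegree ≤ Fintype.card F)
    {ρ : ℕ} (hR : 4 * RR A t β ≤ ρ ^ 2) :
    A.card ≤ 1 + 3 * (S1 ^ 2).natDegree + 7 * ρ := by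
  classical
  have gH : Good A t β H2 := H.gD.left m3
  have gS1 : Good A t β S1 := H.gN.of_dvd m2 (dvd_pow_self S1 two_ne_zero)
  have gS2 : Good A t β S2 :=
    H.gD.of_dvd m4 ((dvd_pow_self S2 two_ne_zero).mul_left H2)
  have vN : ∀ a ∈ A, ∀ r, rootMultiplicity r (rho (t a) (β a) (S1 ^ 2)) =
      2 * rootMultiplicity r (rho (t a) (β a) S1) := fun a ha r => by
    rw [map_pow, mult_pow (gS1.ne a ha)]
  have vD : ∀ a ∈ A, ∀ r, rootMultiplicity r (rho (t a) (β a) (H2 * S2 ^ 2)) =
      rootMultiplicity r (rho (t a) (β a) H2) + 2 * rootMultiplicity r (rho (t a) (β a) S2) :=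
    fun a ha r => by
      rw [map_mul, map_pow, rootMultiplicity_mul
        (mul_ne_zero (gH.ne a ha) (pow_ne_zero _ (gS2.ne a ha))), mult_pow (gS2.ne a ha)]
  have hev : ∀ a ∈ A, ∀ r, Even (rootMultiplicity r (rho (t a) (β a) H2)) := fun a ha r => by
    have e := H.val ha r
    rw [vN a ha, vD a ha] at e
    rw [Nat.even_iff]
    omega
  have hrel : IsRelPrime H2 (derivative H2) := relprime_deriv m3 hsq fun k hk0 hk h0 => by
    have := cast_inj hp (i := k) (j := 0) (by omega) (by omega) (by rw [h0, Nat.cast_zero])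
    omega
  obtain ⟨ν, hs, hν⟩ := sing m3 rfl gH.wt hrel hq
  have hsum := pole_sum H.hβ gH.ne hev ν hs hν hR
  have hc : IsRelPrime H2 ((S1 ^ 2) ^ 3) := H.cop.of_mul_right_left.symm.pow_right
  have hB : A.erase a0 ⊆ A := Finset.erase_subset _ _
  have hloc := loc m3 rfl gH.wt (Wt_pow H.gN.wt 3) hc (A.erase a0) t β
    (fun a ha h0 => (Finset.mem_erase.mp ha).1
      (H.hβ a (hB ha) a0 ha0 (h0.trans hβ0.symm)))
    (fun a ha b hb => H.hβ a (hB ha) b (hB hb)) (fun a ha => gH.ne a (hB ha))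
    (fun a ha => gH.deg a (hB ha))
    (fun a ha => ⟨C (c a) * pw (eE A t β a) ^ 2,
      mul_ne_zero (C_ne_zero.mpr (H.cne a (hB ha))) (pow_ne_zero _ (pw_ne _)),
      (Splits.C _).mul ((pw_splits _).pow _), by
        have e := H.eq a (hB ha)
        refine ⟨rho (t a) (β a) (S1 ^ 2) ^ 2 * pw (eU A t β a) ^ 2 * rho (t a) (β a) (S2 ^ 2), ?_⟩
        rw [map_mul] at e
        rw [map_pow _ (S1 ^ 2) 3]
        linear_combination rho (t a) (β a) (S1 ^ 2) ^ 2 * e⟩)
    (fun a r => 3 ≤ xa A t β a r ∧ rootMultiplicity r (rho (t a) (β a) H2) ≤ 4 * xa A t β a r)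
    (fun a ha r hk h1 => by
      have e := H.val (hB ha) r
      rw [vD a (hB ha)] at e
      have e2 := xa_mono hB t β a r
      rw [map_pow _ (S1 ^ 2) 3,
        ← le_rootMultiplicity_iff (pow_ne_zero _ (H.gN.ne a (hB ha))), mult_pow (H.gN.ne a (hB ha))]
      unfold eE at e
      split_ifs at e <;> omega)
  have h2 : H2.natDegree * (A.erase a0).card ≤
      H2.natDegree * (3 * (S1 ^ 2).natDegree + 7 * ρ) := by
    rw [mul_add]
    refine hloc.trans (Nat.add_le_add_left (le_trans ?_ hsum) _)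
    refine le_trans (Finset.sum_le_sum_of_subset hB) (le_of_eq ?_)
    refine Finset.sum_congr rfl fun a _ => ?_
    congr
  have h3 := Nat.le_of_mul_le_mul_left h2 hpos
  rw [Finset.card_erase_of_mem ha0] at h3
  omega

end Pool.Agent.Work.MP_862369_co.Up
end

-- merged part: Pool.Agent.Work.MP_862369_co.UpArc
section
/-!
Near-arcs with few rich lines over prime fields lie for the most part on a hyperbola.
-/

open Polynomial
open scoped Polynomial.Bivariate

namespace Pool.Agent.Work.MP_862369_co.Up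

variable {F : Type} [Field F] {ι : Type}

theorem monic_assoc {f x : F[X][Y]} (hf : f.Monic) (hx : x ∣ f) :
    ∃ y : F[X][Y], y.Monic ∧ Associated y x := by
  obtain ⟨u, hu⟩ := hf.isUnit_leadingCoeff_of_dvd hx
  have hun : IsUnit (C (↑u⁻¹ : F[X]) : F[X][Y]) := (u⁻¹).isUnit.map C
  exact ⟨C (↑u⁻¹ : F[X]) * x, monic_C_mul_of_mul_leadingCoeff_eq_one (by rw [← hu]; simp),
    associated_unit_mul_left _ _ hun⟩

theorem red_decomp {f g : F[X][Y]} (hf : f.Monic) (hg : g.Monic) :
    ∃ c N D : F[X][Y], c.Monic ∧ N.Monic ∧ D.Monic ∧ IsRelPrime N D ∧ f = c * N ∧ g = c * D := by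
  obtain ⟨a, b, c, hab, h1, h2⟩ := UniqueFactorizationMonoid.exists_reduced_factors f hf.ne_zero g
  obtain ⟨c', hc', u, hu⟩ := monic_assoc hf (Dvd.intro a h1)
  have e1 : f = c' * (u * a) := by rw [← mul_assoc, hu, h1]
  have e2 : g = c' * (u * b) := by rw [← mul_assoc, hu, h2]
  refine ⟨c', u * a, u * b, hc', hc'.of_mul_monic_left (e1 ▸ hf), hc'.of_mul_monic_left (e2 ▸ hg),
    fun x h3 h4 => hab (Units.dvd_mul_left.mp h3) (Units.dvd_mul_left.mp h4), e1, e2⟩

theorem sq_decomp (n : ℕ) : ∀ f : F[X][Y], f.natDegree = n → f.Monic →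
    ∃ H S : F[X][Y], H.Monic ∧ S.Monic ∧ Squarefree H ∧ f = H * S ^ 2 := by
  induction n using Nat.strong_induction_on with
  | _ n ih =>
    intro f hn hf
    by_cases hsq : Squarefree f
    · exact ⟨f, 1, hf, monic_one, hsq, by simp⟩
    obtain ⟨x, hx⟩ := not_forall.mp hsq
    obtain ⟨hx1, hx2⟩ := Classical.not_imp.mp hx
    obtain ⟨y, hy, hyx⟩ := monic_assoc hf ((dvd_mul_right x x).trans hx1)
    obtain ⟨z, hz⟩ := (hyx.mul_mul hyx).dvd.trans hx1
    have hzm : z.Monic := (hy.mul hy).of_mul_monic_left (hz ▸ hf)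
    have hy0 : y.natDegree ≠ 0 := fun h0 => hx2 (hyx.isUnit
      (by rw [eq_one_of_monic_natDegree_zero hy h0]; exact isUnit_one))
    have hd := (hy.mul hy).natDegree_mul hzm
    rw [← hz, hy.natDegree_mul hy] at hd
    obtain ⟨H, S, h1, h2, h3, h4⟩ := ih z.natDegree (by omega) z rfl hzm
    exact ⟨H, y * S, h1, hy.mul h2, h3, by rw [hz, h4]; ring⟩

theorem good_of {A : Finset ι} {t β : ι → F} {φ : F[X][Y]} {n : ℕ} (hw : Wt n φ)
    (h : ∀ a ∈ A, rho (t a) (β a) φ ≠ 0 ∧ (rho (t a) (β a) φ).natDegree = n) {a0 : ι}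
    (ha0 : a0 ∈ A) (hβ0 : β a0 = 0) :
    ∃ c0 : F, c0 ≠ 0 ∧ Good A t β (c0 • φ) ∧ (c0 • φ).natDegree = n := by
  have hz : ∀ k i, n < i + k → (φ.coeff k).coeff i = 0 := fun k i hik => by
    by_contra hc; have := hw k i hc; omega
  obtain ⟨c0, hc0⟩ : ∃ c0, φ.coeff n = C c0 :=
    ⟨_, eq_C_of_natDegree_le_zero (natDegree_le_iff_coeff_eq_zero.mpr fun i hi =>
      hz _ i (by omega))⟩
  have hc00 : c0 ≠ 0 := by
    obtain ⟨e1, e2⟩ := h a0 ha0
    have e3 := leadingCoeff_ne_zero.mpr e1
    rw [leadingCoeff, e2] at e3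
    simp only [rho, hβ0, map_zero, zero_mul, sub_zero, ev_CX, coeff_map, hc0, coe_evalRingHom,
      eval_C] at e3
    exact e3
  have hfd : (c0⁻¹ • φ).natDegree ≤ n :=
    natDegree_le_iff_coeff_eq_zero.mpr fun k hk => by
      rw [coeff_smul]
      ext i
      simp [hz k i (by omega)]
  have hf1 : (c0⁻¹ • φ).coeff n = 1 := by
    rw [coeff_smul, hc0, smul_C, smul_eq_mul, inv_mul_cancel₀ hc00, map_one]
  have hfd' : (c0⁻¹ • φ).natDegree = n :=
    le_antisymm hfd (le_natDegree_of_ne_zero (by rw [hf1]; exact one_ne_zero))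
  refine ⟨c0⁻¹, inv_ne_zero hc00, ⟨monic_of_natDegree_le_of_coeff_eq_one _ hfd hf1, ?_,
    fun a ha => ?_, fun a ha => ?_⟩, hfd'⟩
  · rw [hfd']; exact Wt_of_mem (Submodule.smul_mem _ _ (mem_of_Wt hw))
  · rw [map_smul]; exact smul_ne_zero (inv_ne_zero hc00) (h a ha).1
  · rw [map_smul, natDegree_smul _ (inv_ne_zero hc00), hfd', (h a ha).2]

theorem arc_dat [Fintype F] (hp : (Fintype.card F).Prime) (h2 : (2 : F) ≠ 0) {A : Finset ι}
    {t β : ι → F} {N D : F[X][Y]} {c : ι → F} (H : Dat A t β N D c) {a0 : ι} (ha0 : a0 ∈ A)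
    (hβ0 : β a0 = 0) (c0 : F) (π : ι → F) (hc : ∀ a ∈ A, c a = c0 * π a ^ 2)
    (hπ : ∀ a ∈ A, ∀ b ∈ A, b ≠ a → ∀ r, t b - β b * r = t a - β a * r → xa A t β a r = 2 →
      π a * eval r (pw (eE A t β a)) * eval r (pw (eU A t β b)) =
        -(π b * eval r (pw (eE A t β b)) * eval r (pw (eU A t β a))))
    {j ρ : ℕ} (hj : A.card + j = Fintype.card F) (hR : 4 * RR A t β ≤ ρ ^ 2)
    (hN : N.natDegree ≤ 2 * (j + ρ)) (hD : D.natDegree ≤ 2 * ρ)
    (hq : 77 * j + 102 * ρ + 5 < Fintype.card F) :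
    ∃ k1 k2 k3 k4 k5 k6 : F, Dl k1 k2 k3 k4 k5 k6 ≠ 0 ∧ ∃ S ⊆ A,
      (∀ a ∈ S, Qd k1 k2 k3 k4 k5 k6 (t a) (β a) = 0) ∧
      Fintype.card F ≤ S.card + 2 * j + 12 * ρ + 4 := by
  obtain ⟨H1, S1, m1, m2, q1, rfl⟩ := sq_decomp _ N rfl H.gN.monic
  obtain ⟨H2, S2, m3, m4, q2, rfl⟩ := sq_decomp _ D rfl H.gD.monic
  have d2 := m3.natDegree_mul (m4.pow 2)
  by_cases z1 : H1.natDegree = 0
  · exfalso
    obtain rfl := eq_one_of_monic_natDegree_zero m1 z1
    rw [one_mul] at H hN
    by_cases z2 : H2.natDegree = 0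
    · obtain rfl := eq_one_of_monic_natDegree_zero m3 z2
      rw [one_mul] at H hD
      obtain ⟨k, k1, k2⟩ := caseSq h2 H m2 m4 c0 π hc hπ
      rw [m4.natDegree_pow] at hD
      have e1 : k * S2.natDegree ≤ k * ρ := Nat.mul_le_mul_left k (by omega)
      have e2 : 50 * ρ + 3 ≤ k := by omega
      have e3 : k * (50 * ρ + 3) ≤ k * k := Nat.mul_le_mul_left k e2
      have e4 : ρ * ρ ≤ k * ρ := Nat.mul_le_mul_right ρ (by omega)
      nlinarith
    · have := casePole hp H ha0 hβ0 m2 m3 m4 q2 (by omega) (by omega) hR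
      omega
  obtain ⟨h, H1', hm, m1', hirr, rfl⟩ := exists_monic_factor m1 z1
  have hN' : h ∣ h * H1' * S1 ^ 2 := (dvd_mul_right _ _).mul_right _
  have d1 := natDegree_le_of_dvd hN' H.gN.monic.ne_zero
  have hm0 : 0 < h.natDegree := Nat.pos_of_ne_zero fun h0 =>
    hirr.not_isUnit (by rw [eq_one_of_monic_natDegree_zero hm h0]; exact isUnit_one)
  rcases (by omega : h.natDegree = 1 ∨ h.natDegree = 2 ∨ 3 ≤ h.natDegree) with e | e | e
  · have := caseLin H ha0 hβ0 hm e m1' m2 m3 m4 q1
    omega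
  · obtain ⟨k1, k2, k3, k4, k5, k6, hk, S, hS, h1, h3⟩ :=
      caseN2 h2 H ha0 hβ0 hm hirr hN' e (by omega)
    exact ⟨k1, k2, k3, k4, k5, k6, hk, S, hS, h1, by omega⟩
  · have := caseN3 hp H ha0 hβ0 hm hirr hN' e (by omega)
    omega

theorem arc_psi [Fintype F] (hp : (Fintype.card F).Prime) (h2 : (2 : F) ≠ 0) {A : Finset ι}
    {t β : ι → F} (hβ : ∀ a ∈ A, ∀ b ∈ A, β a = β b → a = b)
    (ht : ∀ a ∈ A, ∀ b ∈ A, t a = t b → a = b) {a0 : ι} (ha0 : a0 ∈ A) (hβ0 : β a0 = 0)
    {j ρ d : ℕ} (hj : A.card + j = Fintype.card F) (hR : 4 * RR A t β ≤ ρ ^ 2) (hd : d ≤ ρ)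
    {Ψ : F[X][Y]} (hw : Wt d Ψ) (hE : ∀ a ∈ A, pw (eE A t β a) ^ 2 ∣ rho (t a) (β a) Ψ)
    (hΨ : ∀ a ∈ A, rho (t a) (β a) Ψ ≠ 0 ∧ (rho (t a) (β a) Ψ).natDegree = d)
    (hq : 77 * j + 102 * ρ + 5 < Fintype.card F) :
    ∃ k1 k2 k3 k4 k5 k6 : F, Dl k1 k2 k3 k4 k5 k6 ≠ 0 ∧ ∃ S ⊆ A,
      (∀ a ∈ S, Qd k1 k2 k3 k4 k5 k6 (t a) (β a) = 0) ∧
      Fintype.card F ≤ S.card + 2 * j + 12 * ρ + 4 := by
  obtain ⟨π, hπ0, hπ⟩ := segre hβ ht
  choose! s hs using hE
  let g : ι → F[X] := fun a => C (π a)⁻¹ * (pw (eU A t β a) * (pw (eE A t β a) * s a))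
  have hg : ∀ a ∈ A, g a ≠ 0 ∧ (g a).natDegree = j + d := by
    intro a ha
    obtain ⟨e1, e2⟩ := hΨ a ha
    rw [hs a ha] at e1 e2
    have e3 := right_ne_zero_of_mul e1
    rw [natDegree_mul (pow_ne_zero _ (pw_ne _)) e3, natDegree_pow, pw_natDegree] at e2
    refine ⟨mul_ne_zero (C_ne_zero.mpr (inv_ne_zero (hπ0 a ha))) (mul_ne_zero (pw_ne _)
      (mul_ne_zero (pw_ne _) e3)), ?_⟩
    rw [natDegree_C_mul (inv_ne_zero (hπ0 a ha)), natDegree_mul (pw_ne _)
      (mul_ne_zero (pw_ne _) e3), natDegree_mul (pw_ne _) e3, pw_natDegree, pw_natDegree,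
      degUE hβ ht hj ha]
    omega
  have hgE : ∀ a ∈ A, C (π a) * g a * pw (eE A t β a) = pw (eU A t β a) * rho (t a) (β a) Ψ := by
    intro a ha
    have : C (π a) * C (π a)⁻¹ = 1 := by rw [← map_mul, mul_inv_cancel₀ (hπ0 a ha), map_one]
    rw [hs a ha]
    simp only [g]
    linear_combination (pw (eU A t β a) * pw (eE A t β a) ^ 2 * s a) * this
  obtain ⟨φ, hφw, hφ⟩ := envelope2 A t β hβ (n := 2 * (j + d)) (fun a => g a ^ 2)
    (fun a ha => by rw [natDegree_pow, (hg a ha).2]) (fun a ha b hb r hr => by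
      by_cases hab : b = a
      · rw [hab]
      have x1 := xa_two ha hb hab hr
      have x2 := xa_eq A hr
      simp only [eval_pow]
      by_cases x3 : xa A t β a r = 2
      · have z1 : eval r (pw (eE A t β a)) ≠ 0 := eval_pw_ne (by simp [eE, x3])
        have z2 : eval r (pw (eE A t β b)) ≠ 0 := eval_pw_ne (by simp [eE, x2, x3])
        have e1 := congrArg (eval r) (hgE a ha)
        have e2 := congrArg (eval r) (hgE b hb)
        have e3 := hπ a ha b hb hab r hr x3
        simp only [eval_mul, eval_C, eval_rho] at e1 e2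
        rw [hr] at e2
        have : eval r (g a) = -eval r (g b) := by
          apply mul_left_cancel₀ (mul_ne_zero (mul_ne_zero (hπ0 a ha) z1)
            (mul_ne_zero (hπ0 b hb) z2))
          linear_combination (π b * eval r (pw (eE A t β b))) * e1 +
            (π a * eval r (pw (eE A t β a))) * e2 + ev (t a - β a * r) r Ψ * e3
        rw [this]; ring
      · have z1 : eval r (pw (eE A t β a)) = 0 := eval_pw_zero (by
          rw [eE, if_pos (by omega)]; omega)
        have z2 : eval r (pw (eE A t β b)) = 0 := eval_pw_zero (by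
          rw [eE, if_pos (by omega)]; omega)
        simp [g, z1, z2])
    (fun a _ r => (dvd_pw _ r).trans (Dvd.dvd.pow
      (((dvd_mul_right _ _).mul_left _).mul_left _) two_ne_zero))
  obtain ⟨c1, hc1, g1, n1⟩ := good_of hφw (fun a ha => by
    rw [hφ a ha, natDegree_pow, (hg a ha).2]
    exact ⟨pow_ne_zero _ (hg a ha).1, rfl⟩) ha0 hβ0
  obtain ⟨c2, hc2, g2, n2⟩ := good_of (Wt_pow hw 2) (fun a ha => by
    rw [map_pow, natDegree_pow, (hΨ a ha).2]
    exact ⟨pow_ne_zero _ (hΨ a ha).1, rfl⟩) ha0 hβ0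
  obtain ⟨c, N, D, mc, mN, mD, cop, e1, e2⟩ := red_decomp g1.monic g2.monic
  have gc := g1.of_dvd mc (Dvd.intro _ e1.symm)
  have dN := mc.natDegree_mul mN
  have dD := mc.natDegree_mul mD
  rw [← e1] at dN
  rw [← e2] at dD
  refine arc_dat hp h2 (N := N) (D := D) (c := fun a => c2 / c1 * π a ^ 2) ⟨hβ, ht,
    g1.of_dvd mN (Dvd.intro_left _ e1.symm), g2.of_dvd mD (Dvd.intro_left _ e2.symm), cop,
    fun a ha => mul_ne_zero (div_ne_zero hc2 hc1) (pow_ne_zero _ (hπ0 a ha)), fun a ha => ?_⟩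
    ha0 hβ0 (c2 / c1) π (fun _ _ => rfl) hπ hj hR (by omega) (by omega) hq
  have f1 := congrArg (rho (t a) (β a)) e1
  have f2 := congrArg (rho (t a) (β a)) e2
  rw [map_smul, map_mul, hφ a ha, smul_eq_C_mul] at f1
  rw [map_smul, map_mul, map_pow, smul_eq_C_mul] at f2
  have f3 : C (c2 / c1) * C c1 = C c2 := by rw [← map_mul, div_mul_cancel₀ _ hc1]
  apply mul_left_cancel₀ (gc.ne a ha)
  rw [map_mul, map_pow]
  linear_combination (-(C (c2 / c1) * C (π a) ^ 2 * pw (eE A t β a) ^ 2)) * f1 +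
    pw (eU A t β a) ^ 2 * f2 + (C (π a) * g a * pw (eE A t β a)) ^ 2 * f3 +
    C c2 * (C (π a) * g a * pw (eE A t β a) + pw (eU A t β a) * rho (t a) (β a) Ψ) * hgE a ha

theorem near_arc2 [Fintype F] (hp : (Fintype.card F).Prime) (h13 : 13 ≤ Fintype.card F)
    (A : Finset ι) (t β : ι → F) (hβ : ∀ a ∈ A, ∀ b ∈ A, β a = β b → a = b)
    (ht : ∀ a ∈ A, ∀ b ∈ A, t a = t b → a = b) {j ρ : ℕ} (hj : A.card + j = Fintype.card F)
    (hR : 4 * RR A t β ≤ ρ ^ 2) (hq : 77 * j + 179 * ρ + 5 < Fintype.card F) :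
    ∃ t0 β0 c : F, c ≠ 0 ∧ ∃ S ⊆ A, (∀ a ∈ S, (t a - t0) * (β a - β0) = c) ∧
      Fintype.card F ≤ S.card + 2 * j + 14 * ρ + 4 := by
  classical
  have h2 : (2 : F) ≠ 0 := fun h => by
    have := cast_inj hp (i := 2) (j := 0) (by omega) (by omega) (by simpa using h)
    omega
  obtain ⟨Ψ, d, hd, hw, hE, T, hT, hΨ⟩ := exists_psi A t β hR
  let A1 := A.filter fun a => ¬ β a ∈ T
  have hA1 : A1 ⊆ A := Finset.filter_subset _ _
  have c1 : (A.filter fun a => β a ∈ T).card ≤ T.card :=
    Finset.card_le_card_of_injOn β (fun a ha => (Finset.mem_filter.mp ha).2) fun a ha b hb =>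
      hβ a (Finset.mem_filter.mp ha).1 b (Finset.mem_filter.mp hb).1
  have c2 : (A.filter fun a => β a ∈ T).card + A1.card = A.card :=
    Finset.card_filter_add_card_filter_not _
  obtain ⟨a0, ha0⟩ := Finset.card_pos.mp (by omega : 0 < A1.card)
  obtain ⟨β', hβ'⟩ : ∃ β' : ι → F, ∀ a, β' a = β a - β a0 := ⟨_, fun _ => rfl⟩
  have hβ1 : ∀ a ∈ A1, ∀ b ∈ A1, β' a = β' b → a = b := fun a ha b hb h =>
    hβ a (hA1 ha) b (hA1 hb) (by rw [hβ', hβ'] at h; linear_combination h)
  have hx : ∀ a r, xa A1 t β' a r = xa A1 t β a r := fun a r => by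
    unfold xa xx
    congr 1
    refine Finset.filter_congr fun c _ => ?_
    rw [hβ', hβ']
    constructor <;> intro h <;> linear_combination h
  have he : eE A1 t β' = eE A1 t β := by
    funext a r
    simp only [eE, hx]
  have hr : ∀ a, rho (t a) (β' a) (ev (C X - β a0 • Y) Y Ψ) = rho (t a) (β a) Ψ := fun a => by
    rw [hom_ev, rho, rho, hβ']
    congr 2
    · simp [smul_eq_C_mul]
      ring
    · simp
  have hw' : Wt d (ev (C X - β a0 • Y : F[X][Y]) Y Ψ) := by
    refine Wt_of_mem (ev_mem _ _ _ _ fun k i h => EE_mono _ _ (hw k i h) ?_)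
    have y1 : (Y : F[X][Y]) ∈ EE F (C X : F[X][Y]) Y 1 := by
      simpa using mon_mem (F := F) (C X : F[X][Y]) Y (d := 1) (i := 0) (k := 1) le_rfl
    have x1 : (C X : F[X][Y]) ∈ EE F (C X : F[X][Y]) Y 1 := by
      simpa using mon_mem (F := F) (C X : F[X][Y]) Y (d := 1) (i := 1) (k := 0) le_rfl
    simpa using EE_mul _ _ (EE_pow _ _ (sub_mem x1 (Submodule.smul_mem _ (β a0) y1)) i)
      (EE_pow _ _ y1 k)
  have ht1 : ∀ a ∈ A1, ∀ b ∈ A1, t a = t b → a = b := fun a ha b hb => ht a (hA1 ha) b (hA1 hb)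
  obtain ⟨k1, k2, k3, k4, k5, k6, hk, S, hS, h1, h3⟩ := arc_psi hp h2 hβ1 ht1 ha0
    (by rw [hβ', sub_self]) (j := j + (A.filter fun a => β a ∈ T).card) (ρ := ρ) (by omega)
    (by
      have := RR_mono hA1 t β
      rw [RR, he, ← RR]
      omega) hd hw'
    (fun a ha => by
      rw [hr, he]
      exact (pow_dvd_pow_of_dvd (pw_mono (eE_mono hA1 t β a)) 2).trans (hE a (hA1 ha)))
    (fun a ha => by rw [hr]; exact hΨ _ _ (Finset.mem_filter.mp ha).2) (by omega)
  obtain ⟨t0, β0, c, hc, h⟩ := hyperbola h2 S t β' (fun a ha b hb => ht1 a (hS ha) b (hS hb))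
    (fun a ha b hb => hβ1 a (hS ha) b (hS hb)) (fun a ha b hb c hc hab hac h => by
      have z : β' b - β' a ≠ 0 := sub_ne_zero.mpr fun h0 => hab (hβ1 b (hS hb) a (hS ha) h0)
      have z' : β' c - β' a ≠ 0 := sub_ne_zero.mpr fun h0 => hac (hβ1 c (hS hc) a (hS ha) h0)
      rcases NL_of_Dl hk (t a) (β' a) (t b - t a) (β' b - β' a) ((β' c - β' a) / (β' b - β' a))
        (h1 a ha) (by simpa using h1 b hb) (by
          rw [show t a + (β' c - β' a) / (β' b - β' a) * (t b - t a) = t c by
            field_simp; linear_combination h, div_mul_cancel₀ _ z, add_sub_cancel]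
          exact h1 c hc) (Or.inr z) with h0 | h0
      · exact (div_ne_zero z' z h0).elim
      · rw [div_eq_one_iff_eq z] at h0
        exact hβ1 b (hS hb) c (hS hc) (by linear_combination -h0)) hk h1 (by omega)
  refine ⟨t0, β0 + β a0, c, hc, S, hS.trans hA1, fun a ha => ?_, by omega⟩
  rw [← h a ha, hβ']; ring

end Pool.Agent.Work.MP_862369_co.Up
end

-- merged part: Pool.Agent.Work.MP_862369_co.UpCore
section
/-!
Large point sets without conjugate pairs do not exist over prime fields. This follows the files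
Core and Main with near_arc2 in place of near_arc.
-/

open Module

namespace Pool.Agent.Work.MP_862369_co.Up

variable {F : Type} [Field F] {ι : Type}

theorem UpCore_two [Fintype F] (hp : (Fintype.card F).Prime) (hq : 3000 ≤ Fintype.card F) :
    (2 : F) ≠ 0 := fun h =>
  absurd (cast_inj hp (i := 2) (j := 0) (by omega) (by omega) (by simpa using h)) (by norm_num)

open Classical in
theorem UpCore_beta (I : Finset ι) (α t s : ι → F)
    (hom : ∀ a ∈ I, ∀ b ∈ I, a ≠ b → om α t s a b ≠ 0) (d σ : F) :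
    ∀ a ∈ I.filter fun a => s a - d * t a = σ, ∀ b ∈ I.filter fun a => s a - d * t a = σ,
      α a + σ * t a = α b + σ * t b → a = b := by
  intro a ha b hb h
  obtain ⟨ha, ha'⟩ := Finset.mem_filter.mp ha
  obtain ⟨hb, hb'⟩ := Finset.mem_filter.mp hb
  by_contra hne
  apply hom a ha b hb hne
  unfold om
  linear_combination h + t a * hb' - t b * ha'

open Classical in
theorem UpCore_t (I : Finset ι) (t s : ι → F)
    (hV : ∀ a ∈ I, ∀ b ∈ I, t a = t b → s a = s b → a = b) (d σ : F) :
    ∀ a ∈ I.filter fun a => s a - d * t a = σ, ∀ b ∈ I.filter fun a => s a - d * t a = σ,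
      t a = t b → a = b := by
  intro a ha b hb h
  obtain ⟨ha, ha'⟩ := Finset.mem_filter.mp ha
  obtain ⟨hb, hb'⟩ := Finset.mem_filter.mp hb
  exact hV a ha b hb h (by linear_combination ha' - hb' + d * h)

open Classical in
/-- Plan: each pair (a, b) with t a ≠ t b or s a ≠ s b satisfies the condition for at most one
d; so the sum over d is at most the number of rich pairs; take d minimal
(compare exists_dir). -/
theorem exists_dir2 [Fintype F] (I : Finset ι) (α t s : ι → F)
    (hV : ∀ a ∈ I, ∀ b ∈ I, t a = t b → s a = s b → a = b) :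
    ∃ d : F, Fintype.card F * (I.offDiag.filter fun p => Rich I α t s p.1 p.2 ∧
      s p.2 - d * t p.2 = s p.1 - d * t p.1).card ≤
      (I.offDiag.filter fun p => Rich I α t s p.1 p.2).card := by
  have h1 : ∑ d : F, (I.offDiag.filter fun p => Rich I α t s p.1 p.2 ∧
      s p.2 - d * t p.2 = s p.1 - d * t p.1).card ≤
      (I.offDiag.filter fun p => Rich I α t s p.1 p.2).card := by
    rw [← Finset.card_sigma]
    refine Finset.card_le_card_of_injOn (fun z => z.2) ?_ ?_
    · intro z hz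
      have h := Finset.mem_filter.mp (Finset.mem_sigma.mp (Finset.mem_coe.mp hz)).2
      exact Finset.mem_coe.mpr (Finset.mem_filter.mpr ⟨h.1, h.2.1⟩)
    · rintro ⟨d, p⟩ hz ⟨d', p'⟩ hz' h
      obtain rfl : p = p' := h
      have e1 := Finset.mem_filter.mp (Finset.mem_sigma.mp (Finset.mem_coe.mp hz)).2
      have e2 := Finset.mem_filter.mp (Finset.mem_sigma.mp (Finset.mem_coe.mp hz')).2
      obtain ⟨ha, hb, hab⟩ := Finset.mem_offDiag.mp e1.1
      have e3 : s p.2 - d * t p.2 = s p.1 - d * t p.1 := e1.2.2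
      have e4 : s p.2 - d' * t p.2 = s p.1 - d' * t p.1 := e2.2.2
      have e5 : t p.2 - t p.1 ≠ 0 := fun h => hab (hV _ ha _ hb (by linear_combination -h)
        (by linear_combination -e3 - d * h))
      have : d = d' := mul_right_cancel₀ e5 (by linear_combination e4 - e3)
      rw [this]
  obtain ⟨d, -, hd⟩ := Finset.exists_min_image Finset.univ
    (fun d : F => (I.offDiag.filter fun p => Rich I α t s p.1 p.2 ∧
      s p.2 - d * t p.2 = s p.1 - d * t p.1).card) Finset.univ_nonempty
  refine ⟨d, le_trans ?_ h1⟩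
  rw [← smul_eq_mul, ← Finset.card_univ, ← Finset.sum_const]
  exact Finset.sum_le_sum hd

open Classical in
/-- Plan: with A the slice and β a = α a + σ * t a; β and t are injective on A (compare
slice_hyp). eE A t β a r is at most the number of b ∈ A.erase a on the line of slope r
through a when that line is rich (xa_erase); map (a, r, b) ↦ (a, b), which is injective
(r is determined since β a ≠ β b) with values in rich pairs (l = (t c - t a) / (t b - t a)). -/
theorem RR_le [Fintype F] (I : Finset ι) (α t s : ι → F)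
    (hom : ∀ a ∈ I, ∀ b ∈ I, a ≠ b → om α t s a b ≠ 0)
    (hV : ∀ a ∈ I, ∀ b ∈ I, t a = t b → s a = s b → a = b) (d σ : F) :
    RR (I.filter fun a => s a - d * t a = σ) t (fun a => α a + σ * t a) ≤
      ((I.filter fun a => s a - d * t a = σ).offDiag.filter
        fun p => Rich I α t s p.1 p.2).card := by
  have hβ := UpCore_beta I α t s hom d σ
  have ht := UpCore_t I t s hV d σ
  have hA : ∀ a ∈ I.filter fun a => s a - d * t a = σ, a ∈ I ∧ s a - d * t a = σ :=
    fun a ha => Finset.mem_filter.mp ha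
  generalize (I.filter fun a => s a - d * t a = σ) = A at hβ ht hA
  have h1 : ∀ a ∈ A, ∀ r, eE A t (fun a => α a + σ * t a) a r ≤ ((A.erase a).filter fun c =>
      t c - (α c + σ * t c) * r = t a - (α a + σ * t a) * r ∧ Rich I α t s a c).card := by
    intro a ha r
    have e := xa_erase t (fun a => α a + σ * t a) ha r
    unfold eE
    split_ifs with h
    · rw [← e, Nat.add_sub_cancel]
      refine Finset.card_le_card fun b hb => ?_
      obtain ⟨c, hc, hcb⟩ := Finset.exists_mem_ne (by omega : 1 < ((A.erase a).filter fun c =>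
        t c - (α c + σ * t c) * r = t a - (α a + σ * t a) * r).card) b
      obtain ⟨hb1, hb2⟩ := Finset.mem_filter.mp hb
      obtain ⟨hc1, hc2⟩ := Finset.mem_filter.mp hc
      obtain ⟨hba, hbA⟩ := Finset.mem_erase.mp hb1
      obtain ⟨hca, hcA⟩ := Finset.mem_erase.mp hc1
      have hne : t b - t a ≠ 0 := sub_ne_zero.mpr fun h => hba (ht b hbA a ha h)
      have ha' := (hA a ha).2
      have hb' := (hA b hbA).2
      have hc' := (hA c hcA).2
      refine Finset.mem_filter.mpr ⟨hb1, hb2, c, (hA c hcA).1, hca, hcb,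
        (t c - t a) / (t b - t a), ?_, ?_, ?_⟩
      · field_simp
        linear_combination (α c + σ * t c - (α a + σ * t a)) * hb2 -
          (α b + σ * t b - (α a + σ * t a)) * hc2
      · field_simp
        ring
      · field_simp
        linear_combination (t b - t a) * (hc' - ha') - (t c - t a) * (hb' - ha')
    · exact Nat.zero_le _
  refine (Finset.sum_le_sum fun a ha => Finset.sum_le_sum fun r _ => h1 a ha r).trans ?_
  simp only [← Finset.card_sigma]
  refine Finset.card_le_card_of_injOn (fun z => (z.1, z.2.2)) ?_ ?_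
  · intro z hz
    obtain ⟨ha, hz⟩ := Finset.mem_sigma.mp (Finset.mem_coe.mp hz)
    obtain ⟨h2, -, h3⟩ := Finset.mem_filter.mp (Finset.mem_sigma.mp hz).2
    obtain ⟨h4, h5⟩ := Finset.mem_erase.mp h2
    exact Finset.mem_coe.mpr (Finset.mem_filter.mpr
      ⟨Finset.mem_offDiag.mpr ⟨ha, h5, h4.symm⟩, h3⟩)
  · rintro ⟨a, r, b⟩ hz ⟨a', r', b'⟩ hz' h
    simp only [Prod.mk.injEq] at h
    obtain ⟨rfl, rfl⟩ := h
    obtain ⟨ha, hz⟩ := Finset.mem_sigma.mp (Finset.mem_coe.mp hz)
    obtain ⟨h2, h3, -⟩ := Finset.mem_filter.mp (Finset.mem_sigma.mp hz).2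
    obtain ⟨-, hz'⟩ := Finset.mem_sigma.mp (Finset.mem_coe.mp hz')
    obtain ⟨-, h3', -⟩ := Finset.mem_filter.mp (Finset.mem_sigma.mp hz').2
    obtain ⟨h4, h5⟩ := Finset.mem_erase.mp h2
    have e5 : α b + σ * t b - (α a + σ * t a) ≠ 0 :=
      sub_ne_zero.mpr fun h => h4 (hβ b h5 a ha h)
    have : r = r' := mul_left_cancel₀ e5 (by
      simp only at h3 h3'
      linear_combination h3' - h3)
    rw [this]

/-- Plan (compare core2): rich_pairs, exists_dir2; slices A σ with deficiency j σ and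
R σ rich pairs, ∑ j σ = δ, q ∑ R σ ≤ 6 (δ + 1) δ. At most 0.16 q slices have 300 j > q, at
most 0.6 q have 360000 R > q ^ 2. For two good slices apply near_arc2 with
ρ = q / 300 + 1 (RR_le), then two_hyp exactly as in core2. -/
theorem core3 [Fintype F] (hp : (Fintype.card F).Prime) (hq : 3000 ≤ Fintype.card F)
    (I : Finset ι) (α t s : ι → F) (hom : ∀ a ∈ I, ∀ b ∈ I, a ≠ b → om α t s a b ≠ 0)
    (hV : ∀ a ∈ I, ∀ b ∈ I, t a = t b → s a = s b → a = b) {δ : ℕ}
    (hδ : I.card + δ = Fintype.card F ^ 2) (hD : 1900 * (δ + 1) ≤ Fintype.card F ^ 2) :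
    False := by
  classical
  have h2 := UpCore_two hp hq
  obtain ⟨d, hd⟩ := exists_dir2 I α t s hV
  have hR := rich_pairs h2 I α t s hom hδ
  let A : F → Finset ι := fun σ => I.filter fun a => s a - d * t a = σ
  let j : F → ℕ := fun σ => Fintype.card F - (A σ).card
  have hj : ∀ σ, (A σ).card + j σ = Fintype.card F := fun σ =>
    Nat.add_sub_cancel' (slice_le I α t s hom d σ)
  let R : F → ℕ := fun σ => ((A σ).offDiag.filter fun p => Rich I α t s p.1 p.2).card
  have sA : ∑ σ, (A σ).card = I.card :=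
    (Finset.card_eq_sum_card_fiberwise (f := fun a => s a - d * t a) (fun _ _ => by simp)).symm
  have sj : ∑ σ, j σ = δ := by
    have : ∑ σ, ((A σ).card + j σ) = Fintype.card F ^ 2 := by simp [hj, sq]
    rw [Finset.sum_add_distrib] at this
    omega
  have sR : ∑ σ, R σ ≤ (I.offDiag.filter fun p => Rich I α t s p.1 p.2 ∧
      s p.2 - d * t p.2 = s p.1 - d * t p.1).card := by
    rw [← Finset.card_sigma]
    refine Finset.card_le_card_of_injOn (fun z => z.2) ?_ ?_
    · intro z hz
      obtain ⟨h1, h3⟩ := Finset.mem_filter.mp (Finset.mem_sigma.mp (Finset.mem_coe.mp hz)).2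
      obtain ⟨ha, hb, hab⟩ := Finset.mem_offDiag.mp h1
      obtain ⟨ha, ha'⟩ := Finset.mem_filter.mp ha
      obtain ⟨hb, hb'⟩ := Finset.mem_filter.mp hb
      exact Finset.mem_coe.mpr (Finset.mem_filter.mpr
        ⟨Finset.mem_offDiag.mpr ⟨ha, hb, hab⟩, h3, hb'.trans ha'.symm⟩)
    · rintro ⟨σ, p⟩ hz ⟨σ', p'⟩ hz' h
      obtain rfl : p = p' := h
      have e1 := (Finset.mem_filter.mp (Finset.mem_offDiag.mp (Finset.mem_filter.mp
        (Finset.mem_sigma.mp (Finset.mem_coe.mp hz)).2).1).1).2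
      have e2 := (Finset.mem_filter.mp (Finset.mem_offDiag.mp (Finset.mem_filter.mp
        (Finset.mem_sigma.mp (Finset.mem_coe.mp hz')).2).1).1).2
      have : σ = σ' := e1.symm.trans e2
      rw [this]
  have sR2 : Fintype.card F * ∑ σ, R σ ≤ 6 * (δ + 1) * δ :=
    (Nat.mul_le_mul_left _ sR).trans (hd.trans hR)
  let N1 := Finset.univ.filter fun σ => ¬ 300 * j σ ≤ Fintype.card F
  let N2 := Finset.univ.filter fun σ => ¬ 360000 * R σ ≤ Fintype.card F ^ 2
  have n1 : N1.card * Fintype.card F ≤ 300 * ∑ σ, j σ := by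
    rw [← smul_eq_mul, ← Finset.sum_const, Finset.mul_sum]
    exact (Finset.sum_le_sum fun σ hσ => (not_le.mp (Finset.mem_filter.mp hσ).2).le).trans
      (Finset.sum_le_sum_of_subset (Finset.subset_univ _))
  have n2 : N2.card * Fintype.card F ^ 2 ≤ 360000 * ∑ σ, R σ := by
    rw [← smul_eq_mul, ← Finset.sum_const, Finset.mul_sum]
    exact (Finset.sum_le_sum fun σ hσ => (not_le.mp (Finset.mem_filter.mp hσ).2).le).trans
      (Finset.sum_le_sum_of_subset (Finset.subset_univ _))
  have n1' : 100 * N1.card ≤ 16 * Fintype.card F := by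
    apply Nat.le_of_mul_le_mul_right _ (by omega : 0 < Fintype.card F)
    rw [sj] at n1
    nlinarith
  have n2' : 100 * N2.card ≤ 60 * Fintype.card F := by
    generalize ∑ σ, R σ = W at n2 sR2
    generalize N2.card = n at n2
    generalize Fintype.card F = q at n2 sR2 hD hq
    have e1 : (1900 * (δ + 1)) ^ 2 ≤ (q ^ 2) ^ 2 := Nat.pow_le_pow_left hD 2
    have e2 : q * (n * q ^ 2) ≤ q * (360000 * W) := Nat.mul_le_mul_left _ n2
    apply Nat.le_of_mul_le_mul_right _ (by positivity : 0 < q ^ 3)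
    nlinarith
  have n4 := Finset.card_sdiff_add_card_eq_card (Finset.subset_univ (N1 ∪ N2))
  have n5 := Finset.card_union_le N1 N2
  rw [Finset.card_univ] at n4
  obtain ⟨σ1, hσ1, σ2, hσ2, hne⟩ := Finset.one_lt_card.mp
    (by omega : 1 < (Finset.univ \ (N1 ∪ N2)).card)
  simp only [N1, N2, Finset.mem_sdiff, Finset.mem_univ, Finset.mem_union, Finset.mem_filter,
    true_and, not_or, not_not] at hσ1 hσ2
  have key : ∀ σ, 300 * j σ ≤ Fintype.card F → 360000 * R σ ≤ Fintype.card F ^ 2 →
      ∃ t0 β0 c : F, c ≠ 0 ∧ ∃ S ⊆ I, (∀ a ∈ S, s a - d * t a = σ ∧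
      (t a - t0) * (α a + σ * t a - β0) = c) ∧ (∀ a ∈ S, ∀ a' ∈ S, t a = t a' → a = a') ∧
      284 * Fintype.card F ≤ 300 * S.card + 5400 := by
    intro σ k1 k2
    have k3 : RR (A σ) t (fun a => α a + σ * t a) ≤ R σ := RR_le I α t s hom hV d σ
    have k4 : Fintype.card F ^ 2 ≤ (300 * (Fintype.card F / 300 + 1)) ^ 2 :=
      Nat.pow_le_pow_left (by omega) 2
    obtain ⟨t0, β0, c, hc, S, hSA, hS, hSc⟩ := near_arc2 hp (by omega) (A σ) t
      (fun a => α a + σ * t a) (UpCore_beta I α t s hom d σ) (UpCore_t I t s hV d σ) (hj σ)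
      (ρ := Fintype.card F / 300 + 1) (by rw [mul_pow] at k4; omega) (by omega)
    exact ⟨t0, β0, c, hc, S, fun a ha => (Finset.mem_filter.mp (hSA ha)).1,
      fun a ha => ⟨(Finset.mem_filter.mp (hSA ha)).2, hS a ha⟩,
      fun a ha a' ha' => UpCore_t I t s hV d σ a (hSA ha) a' (hSA ha'), by omega⟩
  obtain ⟨t1, β1, c1, hc1, S1, hS1, g1, i1, l1⟩ := key σ1 hσ1.1 hσ1.2
  obtain ⟨t2, β2, c2, hc2, S2, hS2, g2, i2, l2⟩ := key σ2 hσ2.1 hσ2.2
  have hρ : σ2 - σ1 ≠ 0 := sub_ne_zero.mpr hne.symm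
  have := two_hyp h2 (by omega) (γ := (β1 - β2) / (σ2 - σ1) + t1 + t2) (c1 := c1 / (σ2 - σ1))
    (div_ne_zero hc2 hρ) (S1.image fun a => t a - t1) (S2.image fun a => t a - t2)
    (fun τ hτ => by
      obtain ⟨a, ha, rfl⟩ := Finset.mem_image.mp hτ
      exact left_ne_zero_of_mul ((g1 a ha).2 ▸ hc1))
    (fun τ hτ => by
      obtain ⟨a, ha, rfl⟩ := Finset.mem_image.mp hτ
      exact left_ne_zero_of_mul ((g2 a ha).2 ▸ hc2))
    (fun τ hτ τ' hτ' h => by
      obtain ⟨a, ha, rfl⟩ := Finset.mem_image.mp hτ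
      obtain ⟨a', ha', rfl⟩ := Finset.mem_image.mp hτ'
      have z1 : t a - t1 ≠ 0 := left_ne_zero_of_mul ((g1 a ha).2 ▸ hc1)
      have z2 : t a' - t2 ≠ 0 := left_ne_zero_of_mul ((g2 a' ha').2 ▸ hc2)
      refine hom a (hS1 ha) a' (hS2 ha') (fun he => hne ?_) ?_
      · rw [← (g1 a ha).1, ← (g2 a' ha').1, he]
      · rw [← (g1 a ha).2, ← (g2 a' ha').2, div_right_comm, mul_div_cancel_left₀ _ z1,
          div_right_comm _ _ (t a' - t2), mul_div_cancel_left₀ _ z2] at h
        field_simp at h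
        unfold om
        linear_combination h + t a * (g2 a' ha').1 - t a' * (g1 a ha).1)
  rw [Finset.card_image_of_injOn fun a ha a' ha' h => i1 a ha a' ha' (sub_left_injective h),
    Finset.card_image_of_injOn fun a ha a' ha' h => i2 a ha a' ha' (sub_left_injective h)] at this
  omega

/-- Plan (compare core): choose x with the least number Rx of rich partners,
100 Rx ≤ δ + 1; move x to infinity; delete the at most Rx points satisfying Vert; apply
core3 to the rest, with deficiency δ + 1 + the number of deleted points. -/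
theorem core4 [Fintype F] (hp : (Fintype.card F).Prime) (hq : 3000 ≤ Fintype.card F)
    (I : Finset ι) (α t s : ι → F) (hom : ∀ a ∈ I, ∀ b ∈ I, a ≠ b → om α t s a b ≠ 0) {δ : ℕ}
    (hδ : I.card + δ = Fintype.card F ^ 2) (hD : 2000 * δ ≤ Fintype.card F ^ 2 + 2000) :
    False := by
  classical
  have h2 := UpCore_two hp hq
  have hR := rich_pairs h2 I α t s hom hδ
  have hq2 : 3000 ^ 2 ≤ Fintype.card F ^ 2 := Nat.pow_le_pow_left hq 2
  have hn : 600 * δ < I.card := by omega
  have hI : I.Nonempty := Finset.card_pos.mp (by omega)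
  let Rx : ι → ℕ := fun x => ((I.erase x).filter fun y => Rich I α t s x y).card
  have h1 : ∑ x ∈ I, Rx x ≤ (I.offDiag.filter fun p => Rich I α t s p.1 p.2).card := by
    rw [← Finset.card_sigma]
    refine Finset.card_le_card_of_injOn (fun z => (z.1, z.2)) ?_ ?_
    · intro z hz
      simp only [Finset.coe_sigma, Set.mem_sigma_iff, Finset.mem_coe, Finset.mem_filter,
        Finset.mem_erase] at hz
      simp only [Finset.coe_filter, Finset.mem_offDiag, Set.mem_ofPred_eq]
      exact ⟨⟨hz.1, hz.2.1.2, hz.2.1.1.symm⟩, hz.2.2⟩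
    · rintro ⟨a, b⟩ _ ⟨a', b'⟩ _ h
      simp only [Prod.mk.injEq] at h
      obtain ⟨rfl, rfl⟩ := h
      rfl
  obtain ⟨x, hx, hmin⟩ := Finset.exists_min_image I Rx hI
  have h3 : I.card * Rx x ≤ ∑ x ∈ I, Rx x := by
    rw [← smul_eq_mul, ← Finset.sum_const]
    exact Finset.sum_le_sum hmin
  have h4 : 100 * Rx x ≤ δ + 1 := by
    have e : (I.offDiag.filter fun p => Rich I α t s p.1 p.2).card ≤ 6 * (δ + 1) * δ := by
      refine le_trans (le_of_eq ?_) hR
      congr
    apply Nat.le_of_mul_le_mul_left _ (by omega : 0 < I.card)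
    have := Nat.mul_le_mul_right (δ + 1) hn.le
    nlinarith
  have ho : ∀ a ∈ I.erase x, om α t s a x ≠ 0 := fun a ha =>
    hom a (Finset.mem_erase.mp ha).2 x hx (Finset.mem_erase.mp ha).1
  let t' : ι → F := fun a => (t a - t x) / om α t s a x
  let s' : ι → F := fun a => (s a - s x) / om α t s a x
  have h5 : ((I.erase x).filter (Vert (I.erase x) t' s')).card ≤ Rx x := by
    refine Finset.card_le_card fun a ha => ?_
    obtain ⟨ha, b, hb, hab, e1, e2⟩ := Finset.mem_filter.mp ha
    have o1 := ho a ha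
    have o2 := ho b hb
    simp only [t', s'] at e1 e2
    rw [div_eq_div_iff o2 o1] at e1 e2
    refine Finset.mem_filter.mpr ⟨ha, b, (Finset.mem_erase.mp hb).2, (Finset.mem_erase.mp hb).1,
      hab, om α t s b x / om α t s a x, ?_, ?_, ?_⟩
    · field_simp
      unfold om at *
      linear_combination t x * e2 - s x * e1
    · field_simp
      linear_combination e1
    · field_simp
      linear_combination e2
  have h6 := Finset.card_filter_add_card_filter_not (s := I.erase x) (Vert (I.erase x) t' s')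
  rw [Finset.card_erase_of_mem hx] at h6
  refine core3 hp hq ((I.erase x).filter fun a => ¬ Vert (I.erase x) t' s' a)
    (fun a => -1 / om α t s a x) t' s' ?_ ?_
    (δ := δ + 1 + ((I.erase x).filter (Vert (I.erase x) t' s')).card) (by omega) (by omega)
  · intro a ha b hb hab h
    replace ha := (Finset.mem_filter.mp ha).1
    replace hb := (Finset.mem_filter.mp hb).1
    apply hom a (Finset.mem_erase.mp ha).2 b (Finset.mem_erase.mp hb).2 hab
    have e1 := ho a ha
    have e2 := ho b hb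
    rw [om] at h
    simp only [t', s'] at h
    field_simp at h
    unfold om at h ⊢
    linear_combination h
  · intro a ha b hb e1 e2
    by_contra hne
    exact (Finset.mem_filter.mp ha).2
      ⟨b, (Finset.mem_filter.mp hb).1, Ne.symm hne, e1.symm, e2.symm⟩

/-- Plan (compare main): coords, card_le_sq, core4. -/
theorem main2 [Fintype F] (hp : (Fintype.card F).Prime) (hq : 3000 ≤ Fintype.card F)
    {V : Type} [AddCommGroup V] [Module F V] (hV : finrank F V = 5) (Q : QuadraticForm F V)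
    (hQ : Q.Nondegenerate) (S : Finset (Submodule F V))
    (hS : ∀ L ∈ S, finrank F L = 2 ∧ ∀ v ∈ L, Q v = 0)
    (hd : ∀ L ∈ S, ∀ L' ∈ S, L ≠ L' → L ⊓ L' = ⊥) :
    2000 * S.card ≤ 1999 * Fintype.card F ^ 2 := by
  classical
  have h2 := UpCore_two hp hq
  have hq2 : 3000 ^ 2 ≤ Fintype.card F ^ 2 := Nat.pow_le_pow_left hq 2
  by_contra hc
  obtain ⟨L1, hL1, M, hM, hne⟩ := Finset.one_lt_card.mp (by omega : 1 < S.card)
  obtain ⟨α, t, s, h⟩ := coords h2 hV Q hQ S hS hd hM hL1 hne
  have hom : ∀ a ∈ S.erase M, ∀ b ∈ S.erase M, a ≠ b → om α t s a b ≠ 0 := fun a ha b hb =>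
    h a (Finset.mem_erase.mp ha).2 (Finset.mem_erase.mp ha).1 b (Finset.mem_erase.mp hb).2
      (Finset.mem_erase.mp hb).1
  obtain ⟨δ, hδ⟩ := Nat.exists_eq_add_of_le (card_le_sq _ α t s hom)
  refine core4 hp hq _ α t s hom hδ.symm ?_
  rw [Finset.card_erase_of_mem hM] at hδ
  omega

end Pool.Agent.Work.MP_862369_co.Up
end
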